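import Pool.Agent.Lib.MP_6aab98_ag.Defs

/-! # MP_6aab98_ag: basic lemmas on systems of floors and elevators, the gluing operation -/

namespace Pool.Agent.FloorDiag

open Finset

/-- contribution of an elevator to the divergence at `f` -/
def Elev.dv (e : Elev) (f : ℕ) : ℤ :=
  (if e.src = f then (e.wt : ℤ) else 0) - (if e.tgt = some f then (e.wt : ℤ) else 0)

namespace Dgm

variable {D D1 D2 : Dgm}

theorem div_eq_sum (D : Dgm) (f : ℕ) : D.div f = ∑ e ∈ D.E, e.dv f := by
  unfold div Elev.dv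
  rw [Finset.sum_sub_distrib, Finset.sum_filter, Finset.sum_filter]

theorem mem_pts_of_F {f : ℕ} (h : f ∈ D.F) : f ∈ D.pts := mem_union_left _ h

theorem mem_pts_of_E {e : Elev} (h : e ∈ D.E) : e.pt ∈ D.pts :=
  mem_union_right _ (mem_image_of_mem _ h)

theorem Valid.src_pts (h : D.Valid) {e : Elev} (he : e ∈ D.E) : e.src ∈ D.pts :=
  mem_pts_of_F (h.src_mem e he)

theorem Valid.tgt_pts (h : D.Valid) {e : Elev} (he : e ∈ D.E) {q : ℕ} (hq : e.tgt = some q) :
    q ∈ D.pts :=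
  mem_pts_of_F (h.tgt_mem e he q hq)

theorem mem_pts {x : ℕ} : x ∈ D.pts ↔ x ∈ D.F ∨ ∃ e ∈ D.E, e.pt = x := by
  simp [pts]

theorem Valid.card_pts (h : D.Valid) : D.pts.card = D.F.card + D.E.card := by
  unfold pts
  rw [card_union_of_disjoint, card_image_of_injOn]
  · intro e he e' he' hh
    exact h.inj e he e' he' hh
  · rw [Finset.disjoint_left]
    intro x hx hx'
    obtain ⟨e, he, rfl⟩ := mem_image.1 hx'
    exact h.disj e he hx

/-- closed sets up to one incidence -/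
def ClosedEx (D : Dgm) (o : Option Elev) (X : Set ℕ) : Prop :=
  ∀ e ∈ D.E, (some e ≠ o → (e.pt ∈ X ↔ e.src ∈ X)) ∧
    ∀ q, e.tgt = some q → (e.pt ∈ X ↔ q ∈ X)

/-- connected even without one incidence -/
def ConnEx (D : Dgm) (o : Option Elev) : Prop :=
  ∀ X : Set ℕ, D.ClosedEx o X → (∃ x ∈ D.pts, x ∈ X) → ∀ y ∈ D.pts, y ∈ X

theorem closedEx_none {X : Set ℕ} : D.ClosedEx none X ↔ D.Closed X := by
  unfold ClosedEx Closed
  simp

theorem connEx_none : D.ConnEx none ↔ D.Conn := by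
  unfold ConnEx Conn
  simp [closedEx_none]

theorem ConnEx.conn {o : Option Elev} (h : D.ConnEx o) : D.Conn := by
  intro X hX
  apply h
  intro e he
  exact ⟨fun _ => (hX e he).1, (hX e he).2⟩

theorem Elev.dv_of_ne {e : Elev} {f : ℕ} (h1 : e.src ≠ f) (h2 : e.tgt ≠ some f) : e.dv f = 0 := by
  simp [Elev.dv, h1, h2]

theorem Valid.sum_dv_zero (h : D.Valid) {f : ℕ} (hf : f ∉ D.F) : ∑ e ∈ D.E, e.dv f = 0 := by
  apply sum_eq_zero
  intro e he
  apply Elev.dv_of_ne
  · rintro rfl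
    exact hf (h.src_mem e he)
  · intro h'
    exact hf (h.tgt_mem e he f h')

/-- gluing of two systems by a new elevator from `r1` to `r2` -/
def glue (a c r1 r2 : ℕ) (D1 D2 : Dgm) : Dgm :=
  ⟨D1.F ∪ D2.F, insert ⟨c, r1, some r2, a⟩ (D1.E ∪ D2.E)⟩

/-- hypotheses of the gluing -/
structure GlueOk (a c r1 r2 : ℕ) (D1 D2 : Dgm) : Prop where
  v1 : D1.Valid
  v2 : D2.Valid
  disj : Disjoint D1.pts D2.pts
  m1 : r1 ∈ D1.F
  m2 : r2 ∈ D2.F
  c1 : c ∉ D1.pts
  c2 : c ∉ D2.pts
  lt1 : r1 < c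
  lt2 : c < r2
  pos : 1 ≤ a

section glue

variable {a c r1 r2 : ℕ}

theorem GlueOk.disjE (h : GlueOk a c r1 r2 D1 D2) : Disjoint D1.E D2.E := by
  rw [Finset.disjoint_left]
  intro e h1 h2
  exact (Finset.disjoint_left.1 h.disj) (mem_pts_of_E h1) (mem_pts_of_E h2)

theorem GlueOk.disjF (h : GlueOk a c r1 r2 D1 D2) : Disjoint D1.F D2.F := by
  rw [Finset.disjoint_left]
  intro e h1 h2
  exact (Finset.disjoint_left.1 h.disj) (mem_pts_of_F h1) (mem_pts_of_F h2)

theorem GlueOk.notMem (h : GlueOk a c r1 r2 D1 D2) :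
    (⟨c, r1, some r2, a⟩ : Elev) ∉ D1.E ∪ D2.E := by
  intro h'
  rcases mem_union.1 h' with h' | h'
  · exact h.c1 (mem_pts_of_E h')
  · exact h.c2 (mem_pts_of_E h')

theorem glue_pts : (glue a c r1 r2 D1 D2).pts = insert c (D1.pts ∪ D2.pts) := by
  ext x
  simp only [glue, mem_pts, mem_union, mem_insert]
  constructor
  · rintro ((h | h) | ⟨e, he, rfl⟩)
    · exact Or.inr (Or.inl (Or.inl h))
    · exact Or.inr (Or.inr (Or.inl h))
    · rcases he with rfl | he | he
      · exact Or.inl rfl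
      · exact Or.inr (Or.inl (Or.inr ⟨e, he, rfl⟩))
      · exact Or.inr (Or.inr (Or.inr ⟨e, he, rfl⟩))
  · rintro (rfl | (h | ⟨e, he, rfl⟩) | (h | ⟨e, he, rfl⟩))
    · exact Or.inr ⟨_, Or.inl rfl, rfl⟩
    · exact Or.inl (Or.inl h)
    · exact Or.inr ⟨e, Or.inr (Or.inl he), rfl⟩
    · exact Or.inl (Or.inr h)
    · exact Or.inr ⟨e, Or.inr (Or.inr he), rfl⟩

theorem GlueOk.valid (h : GlueOk a c r1 r2 D1 D2) : (glue a c r1 r2 D1 D2).Valid := by
  have key : ∀ e ∈ (glue a c r1 r2 D1 D2).E, e = ⟨c, r1, some r2, a⟩ ∨ e ∈ D1.E ∨ e ∈ D2.E := by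
    intro e he
    simpa [glue, mem_insert, mem_union] using he
  have hd := Finset.disjoint_left.1 h.disj
  refine ⟨?_, ?_, ?_, ?_, ?_, ?_, ?_, ?_⟩
  · intro e he e' he' hh
    rcases key e he with rfl | h1 | h1 <;> rcases key e' he' with rfl | h2 | h2
    · rfl
    · have hh' : c = e'.pt := hh
      exact absurd (hh' ▸ mem_pts_of_E h2) h.c1
    · have hh' : c = e'.pt := hh
      exact absurd (hh' ▸ mem_pts_of_E h2) h.c2
    · exact absurd (hh.symm ▸ mem_pts_of_E h1) (by simpa using h.c1)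
    · exact h.v1.inj e h1 e' h2 hh
    · exact absurd (hh ▸ mem_pts_of_E h2) (hd (mem_pts_of_E h1))
    · exact absurd (hh.symm ▸ mem_pts_of_E h1) (by simpa using h.c2)
    · exact absurd (mem_pts_of_E h1) (hd (hh ▸ mem_pts_of_E h2))
    · exact h.v2.inj e h1 e' h2 hh
  · intro e he hF
    have hF' : e.pt ∈ D1.F ∨ e.pt ∈ D2.F := by simpa [glue] using hF
    rcases key e he with rfl | h1 | h1
    · rcases hF' with h3 | h3
      · exact h.c1 (mem_pts_of_F h3)
      · exact h.c2 (mem_pts_of_F h3)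
    · rcases hF' with h3 | h3
      · exact h.v1.disj e h1 h3
      · exact hd (mem_pts_of_E h1) (mem_pts_of_F h3)
    · rcases hF' with h3 | h3
      · exact hd (mem_pts_of_F h3) (mem_pts_of_E h1)
      · exact h.v2.disj e h1 h3
  · intro e he
    simp only [glue, mem_union]
    rcases key e he with rfl | h1 | h1
    · exact Or.inl h.m1
    · exact Or.inl (h.v1.src_mem e h1)
    · exact Or.inr (h.v2.src_mem e h1)
  · intro e he
    rcases key e he with rfl | h1 | h1
    · exact h.lt1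
    · exact h.v1.src_lt e h1
    · exact h.v2.src_lt e h1
  · intro e he q hq
    simp only [glue, mem_union]
    rcases key e he with rfl | h1 | h1
    · simp only [Option.some.injEq] at hq
      subst hq
      exact Or.inr h.m2
    · exact Or.inl (h.v1.tgt_mem e h1 q hq)
    · exact Or.inr (h.v2.tgt_mem e h1 q hq)
  · intro e he q hq
    rcases key e he with rfl | h1 | h1
    · simp only [Option.some.injEq] at hq
      subst hq
      exact h.lt2
    · exact h.v1.tgt_lt e h1 q hq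
    · exact h.v2.tgt_lt e h1 q hq
  · intro e he
    rcases key e he with rfl | h1 | h1
    · exact h.pos
    · exact h.v1.wt_pos e h1
    · exact h.v2.wt_pos e h1
  · intro e he hq
    rcases key e he with rfl | h1 | h1
    · simp at hq
    · exact h.v1.wt_end e h1 hq
    · exact h.v2.wt_end e h1 hq

theorem GlueOk.cardF (h : GlueOk a c r1 r2 D1 D2) :
    (glue a c r1 r2 D1 D2).F.card = D1.F.card + D2.F.card := by
  simp only [glue]
  rw [card_union_of_disjoint h.disjF]

theorem GlueOk.cardE (h : GlueOk a c r1 r2 D1 D2) :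
    (glue a c r1 r2 D1 D2).E.card = D1.E.card + D2.E.card + 1 := by
  simp only [glue]
  rw [card_insert_of_notMem h.notMem, card_union_of_disjoint h.disjE]

theorem GlueOk.mult (h : GlueOk a c r1 r2 D1 D2) :
    (glue a c r1 r2 D1 D2).mult = a ^ 2 * (D1.mult * D2.mult) := by
  simp only [glue, Dgm.mult]
  rw [prod_insert h.notMem, prod_union h.disjE]

theorem GlueOk.div_gen (h : GlueOk a c r1 r2 D1 D2) (f : ℕ) :
    (glue a c r1 r2 D1 D2).div f = (⟨c, r1, some r2, a⟩ : Elev).dv f + (D1.div f + D2.div f) := by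
  rw [div_eq_sum, div_eq_sum, div_eq_sum]
  simp only [glue]
  rw [sum_insert h.notMem, sum_union h.disjE]

theorem GlueOk.div1 (h : GlueOk a c r1 r2 D1 D2) {f : ℕ} (hf : f ∈ D1.F) :
    (glue a c r1 r2 D1 D2).div f = D1.div f + (if f = r1 then (a : ℤ) else 0) := by
  rw [h.div_gen]
  have h2 : f ∉ D2.F := Finset.disjoint_left.1 h.disjF hf
  have h3 : D2.div f = 0 := by rw [div_eq_sum]; exact h.v2.sum_dv_zero h2
  have h4 : r2 ≠ f := by rintro rfl; exact h2 h.m2
  rw [h3]
  simp only [Elev.dv, Option.some.injEq, h4, if_false, sub_zero]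
  by_cases hr : r1 = f
  · subst hr; simp; ring
  · rw [if_neg hr, if_neg (fun hh => hr hh.symm)]; ring

theorem GlueOk.div2 (h : GlueOk a c r1 r2 D1 D2) {f : ℕ} (hf : f ∈ D2.F) :
    (glue a c r1 r2 D1 D2).div f = D2.div f - (if f = r2 then (a : ℤ) else 0) := by
  rw [h.div_gen]
  have h2 : f ∉ D1.F := fun h' => Finset.disjoint_left.1 h.disjF h' hf
  have h3 : D1.div f = 0 := by rw [div_eq_sum]; exact h.v1.sum_dv_zero h2
  have h4 : r1 ≠ f := by rintro rfl; exact h2 h.m1
  rw [h3]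
  simp only [Elev.dv, Option.some.injEq, h4, if_false]
  by_cases hr : r2 = f
  · subst hr; simp; ring
  · rw [if_neg hr, if_neg (fun hh => hr hh.symm)]; ring

theorem GlueOk.connEx (h : GlueOk a c r1 r2 D1 D2) (h1 : D1.Conn) {o : Option Elev}
    (h2 : D2.ConnEx o) (ho : ∀ e0, o = some e0 → e0 ∈ D2.E) :
    (glue a c r1 r2 D1 D2).ConnEx o := by
  intro X hX hx
  have hd := Finset.disjoint_left.1 h.disj
  have hc : (⟨c, r1, some r2, a⟩ : Elev) ∈ (glue a c r1 r2 D1 D2).E := by simp [glue]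
  have hco : some (⟨c, r1, some r2, a⟩ : Elev) ≠ o := by
    intro h'
    exact h.c2 (mem_pts_of_E (ho _ h'.symm))
  have hc1 : c ∈ X ↔ r1 ∈ X := (hX _ hc).1 hco
  have hc2 : c ∈ X ↔ r2 ∈ X := (hX _ hc).2 r2 rfl
  have hX1 : D1.Closed X := by
    intro e he
    have heG : e ∈ (glue a c r1 r2 D1 D2).E := by simp [glue, he]
    have hne : some e ≠ o := by
      intro h'
      exact hd (mem_pts_of_E he) (mem_pts_of_E (ho _ h'.symm))
    exact ⟨(hX e heG).1 hne, (hX e heG).2⟩
  have hX2 : D2.ClosedEx o X := by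
    intro e he
    have heG : e ∈ (glue a c r1 r2 D1 D2).E := by simp [glue, he]
    exact hX e heG
  have g1 : (∃ x ∈ D1.pts, x ∈ X) → r1 ∈ X := fun hh => h1 X hX1 hh r1 (mem_pts_of_F h.m1)
  have g2 : (∃ x ∈ D2.pts, x ∈ X) → r2 ∈ X := fun hh => h2 X hX2 hh r2 (mem_pts_of_F h.m2)
  have hr1 : r1 ∈ X := by
    obtain ⟨x, hx1, hx2⟩ := hx
    rw [glue_pts] at hx1
    rcases mem_insert.1 hx1 with rfl | hx1
    · exact hc1.1 hx2
    · rcases mem_union.1 hx1 with hx1 | hx1
      · exact g1 ⟨x, hx1, hx2⟩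
      · exact hc1.1 (hc2.2 (g2 ⟨x, hx1, hx2⟩))
  have hcX : c ∈ X := hc1.2 hr1
  have hr2 : r2 ∈ X := hc2.1 hcX
  intro y hy
  rw [glue_pts] at hy
  rcases mem_insert.1 hy with rfl | hy
  · exact hcX
  · rcases mem_union.1 hy with hy | hy
    · exact h1 X hX1 ⟨r1, mem_pts_of_F h.m1, hr1⟩ y hy
    · exact h2 X hX2 ⟨r2, mem_pts_of_F h.m2, hr2⟩ y hy

theorem glue_inj_aux {D1' D2' : Dgm} (h : GlueOk a c r1 r2 D1 D2) (h' : GlueOk a c r1 r2 D1' D2')
    (hh : glue a c r1 r2 D1 D2 = glue a c r1 r2 D1' D2') (hc : D1.Conn) :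
    D1.pts ⊆ D1'.pts := by
  have hE : (glue a c r1 r2 D1 D2).E = (glue a c r1 r2 D1' D2').E := by rw [hh]
  have hd' := Finset.disjoint_left.1 h'.disj
  have hcl : D1.Closed (D1'.pts : Set ℕ) := by
    intro e he
    have he' : e ∈ (glue a c r1 r2 D1' D2').E := by
      rw [← hE]; simp [glue, he]
    have hec : e.pt ≠ c := by
      intro h0
      exact h.c1 (h0 ▸ mem_pts_of_E he)
    simp only [glue, mem_insert, mem_union] at he'
    rcases he' with rfl | he' | he'
    · exact absurd rfl hec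
    · refine ⟨⟨fun _ => ?_, fun _ => ?_⟩, fun q hq => ⟨fun _ => ?_, fun _ => ?_⟩⟩
      · exact h'.v1.src_pts he'
      · exact mem_pts_of_E he'
      · exact h'.v1.tgt_pts he' hq
      · exact mem_pts_of_E he'
    · refine ⟨⟨fun h0 => ?_, fun h0 => ?_⟩, fun q hq => ⟨fun h0 => ?_, fun h0 => ?_⟩⟩
      · exact absurd (mem_pts_of_E he') (hd' h0)
      · exact absurd (h'.v2.src_pts he') (hd' h0)
      · exact absurd (mem_pts_of_E he') (hd' h0)
      · exact absurd (h'.v2.tgt_pts he' hq) (hd' h0)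
  intro x hx
  exact hc _ hcl ⟨r1, mem_pts_of_F h.m1, mem_pts_of_F h'.m1⟩ x hx

theorem glue_inj {D1' D2' : Dgm} (h : GlueOk a c r1 r2 D1 D2) (h' : GlueOk a c r1 r2 D1' D2')
    (hh : glue a c r1 r2 D1 D2 = glue a c r1 r2 D1' D2') (hc : D1.Conn) (hc' : D1'.Conn) :
    D1 = D1' ∧ D2 = D2' := by
  have hpts : D1.pts = D1'.pts :=
    Subset.antisymm (glue_inj_aux h h' hh hc) (glue_inj_aux h' h hh.symm hc')
  have hd := Finset.disjoint_left.1 h.disj
  have hd' := Finset.disjoint_left.1 h'.disj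
  have hE : (glue a c r1 r2 D1 D2).E = (glue a c r1 r2 D1' D2').E := by rw [hh]
  have hF : (glue a c r1 r2 D1 D2).F = (glue a c r1 r2 D1' D2').F := by rw [hh]
  simp only [glue] at hE hF
  -- membership characterisations
  have e1 : ∀ {A B : Dgm}, GlueOk a c r1 r2 A B → ∀ e : Elev,
      e ∈ A.E ↔ e ∈ insert (⟨c, r1, some r2, a⟩ : Elev) (A.E ∪ B.E) ∧ e.pt ∈ A.pts := by
    intro A B hAB e
    constructor
    · intro he
      exact ⟨by simp [he], mem_pts_of_E he⟩
    · rintro ⟨he, hp⟩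
      simp only [mem_insert, mem_union] at he
      rcases he with rfl | he | he
      · exact absurd hp hAB.c1
      · exact he
      · exact absurd (mem_pts_of_E he) (Finset.disjoint_left.1 hAB.disj hp)
  have e2 : ∀ {A B : Dgm}, GlueOk a c r1 r2 A B → ∀ e : Elev,
      e ∈ B.E ↔ e ∈ insert (⟨c, r1, some r2, a⟩ : Elev) (A.E ∪ B.E) ∧ e.pt ∉ A.pts ∧ e.pt ≠ c := by
    intro A B hAB e
    constructor
    · intro he
      refine ⟨by simp [he], fun h0 => (Finset.disjoint_left.1 hAB.disj h0) (mem_pts_of_E he), ?_⟩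
      intro h0
      exact hAB.c2 (h0 ▸ mem_pts_of_E he)
    · rintro ⟨he, hp, hc⟩
      simp only [mem_insert, mem_union] at he
      rcases he with rfl | he | he
      · exact absurd rfl hc
      · exact absurd (mem_pts_of_E he) hp
      · exact he
  have f1 : ∀ {A B : Dgm}, GlueOk a c r1 r2 A B → ∀ f : ℕ,
      f ∈ A.F ↔ f ∈ A.F ∪ B.F ∧ f ∈ A.pts := by
    intro A B hAB f
    constructor
    · intro he
      exact ⟨by simp [he], mem_pts_of_F he⟩
    · rintro ⟨he, hp⟩
      rcases mem_union.1 he with he | he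
      · exact he
      · exact absurd (mem_pts_of_F he) (Finset.disjoint_left.1 hAB.disj hp)
  have f2 : ∀ {A B : Dgm}, GlueOk a c r1 r2 A B → ∀ f : ℕ,
      f ∈ B.F ↔ f ∈ A.F ∪ B.F ∧ f ∉ A.pts := by
    intro A B hAB f
    constructor
    · intro he
      exact ⟨by simp [he], fun h0 => (Finset.disjoint_left.1 hAB.disj h0) (mem_pts_of_F he)⟩
    · rintro ⟨he, hp⟩
      rcases mem_union.1 he with he | he
      · exact absurd (mem_pts_of_F he) hp
      · exact he
  constructor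
  · have hF1 : D1.F = D1'.F := by
      ext f
      rw [f1 h, f1 h', hF, hpts]
    have hE1 : D1.E = D1'.E := by
      ext e
      rw [e1 h, e1 h', hE, hpts]
    cases D1; cases D1'; simp_all
  · have hF2 : D2.F = D2'.F := by
      ext f
      rw [f2 h, f2 h', hF, hpts]
    have hE2 : D2.E = D2'.E := by
      ext e
      rw [e2 h, e2 h', hE, hpts]
    cases D2; cases D2'; simp_all

end glue

end Dgm

end Pool.Agent.FloorDiag
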