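import Pool.Agent.Lib.MP_6aab98_ag.Graph

/-! # MP_6aab98_ag: blocks at a floor -/

namespace Pool.Agent.FloorDiag

open Finset

/-- classes of systems which split at the marked floor -/
def SplitC (A B : Dgm → ℕ → Prop) (D : Dgm) (v : ℕ) : Prop :=
  D.Valid ∧ v ∈ D.F ∧ Splits A B D v

namespace Dgm

variable {D : Dgm}

/-- `Y` hangs at the floor `v` only -/
structure Blk (D : Dgm) (Y : Finset ℕ) (v : ℕ) : Prop where
  sub : Y ⊆ D.pts
  mem : v ∈ Y
  full : ∀ e ∈ D.E, e.pt ∈ Y → e.src ∈ Y ∧ ∀ q, e.tgt = some q → q ∈ Y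
  cl : ∀ e ∈ D.E, e.pt ∉ Y → (e.src ∈ Y → e.src = v) ∧ ∀ q, e.tgt = some q → q ∈ Y → q = v

theorem mem_restr_E {Y : Finset ℕ} {e : Elev} : e ∈ (D.restr Y).E ↔ e ∈ D.E ∧ e.pt ∈ Y := by
  simp [restr]

theorem mem_restr_F {Y : Finset ℕ} {f : ℕ} : f ∈ (D.restr Y).F ↔ f ∈ D.F ∧ f ∈ Y := by
  simp [restr]

theorem Blk.pts {Y : Finset ℕ} {v : ℕ} (h : D.Blk Y v) : (D.restr Y).pts = Y := by
  rw [pts_restr]
  exact inter_eq_right.2 h.sub

theorem Blk.valid {Y : Finset ℕ} {v : ℕ} (h : D.Blk Y v) (hv : D.Valid) : (D.restr Y).Valid := by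
  refine ⟨?_, ?_, ?_, ?_, ?_, ?_, ?_, ?_⟩
  · intro e he e' he' hh
    exact hv.inj e (mem_restr_E.1 he).1 e' (mem_restr_E.1 he').1 hh
  · intro e he hF
    exact hv.disj e (mem_restr_E.1 he).1 (mem_restr_F.1 hF).1
  · intro e he
    obtain ⟨h1, h2⟩ := mem_restr_E.1 he
    exact mem_restr_F.2 ⟨hv.src_mem e h1, (h.full e h1 h2).1⟩
  · intro e he
    exact hv.src_lt e (mem_restr_E.1 he).1
  · intro e he q hq
    obtain ⟨h1, h2⟩ := mem_restr_E.1 he
    exact mem_restr_F.2 ⟨hv.tgt_mem e h1 q hq, (h.full e h1 h2).2 q hq⟩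
  · intro e he q hq
    exact hv.tgt_lt e (mem_restr_E.1 he).1 q hq
  · intro e he
    exact hv.wt_pos e (mem_restr_E.1 he).1
  · intro e he hq
    exact hv.wt_end e (mem_restr_E.1 he).1 hq

theorem Blk.div {Y : Finset ℕ} {v : ℕ} (h : D.Blk Y v) {f : ℕ} (hf : f ∈ Y)
    (hne : f ≠ v) : (D.restr Y).div f = D.div f := by
  rw [div_eq_sum, div_eq_sum]
  simp only [restr]
  apply sum_subset (filter_subset _ _)
  intro e he hnot
  have hp : e.pt ∉ Y := fun hp => hnot (mem_filter.2 ⟨he, hp⟩)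
  apply Elev.dv_of_ne
  · rintro rfl
    exact hne ((h.cl e he hp).1 hf)
  · intro hq
    exact hne ((h.cl e he hp).2 f hq hf)

/-- the complementary block -/
def cpl (D : Dgm) (Y : Finset ℕ) (v : ℕ) : Finset ℕ := D.pts \ Y.erase v

theorem mem_cpl {Y : Finset ℕ} {v x : ℕ} : x ∈ D.cpl Y v ↔ x ∈ D.pts ∧ (x ∉ Y ∨ x = v) := by
  simp only [cpl, mem_sdiff, mem_erase]
  tauto

theorem Blk.cpl {Y : Finset ℕ} {v : ℕ} (h : D.Blk Y v) (hv : D.Valid) (hF : v ∈ D.F) :
    D.Blk (D.cpl Y v) v := by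
  refine ⟨?_, ?_, ?_, ?_⟩
  · exact sdiff_subset
  · exact mem_cpl.2 ⟨mem_pts_of_F hF, Or.inr rfl⟩
  · intro e he hp
    have hpv : e.pt ≠ v := hv.pt_notF he hF
    have hpY : e.pt ∉ Y := by
      rcases (mem_cpl.1 hp).2 with h1 | h1
      · exact h1
      · exact absurd h1 hpv
    constructor
    · rw [mem_cpl]
      refine ⟨hv.src_pts he, ?_⟩
      by_cases hs : e.src ∈ Y
      · exact Or.inr ((h.cl e he hpY).1 hs)
      · exact Or.inl hs
    · intro q hq
      rw [mem_cpl]
      refine ⟨hv.tgt_pts he hq, ?_⟩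
      by_cases hs : q ∈ Y
      · exact Or.inr ((h.cl e he hpY).2 q hq hs)
      · exact Or.inl hs
  · intro e he hp
    have hpv : e.pt ≠ v := hv.pt_notF he hF
    have hpY : e.pt ∈ Y := by
      by_contra h1
      exact hp (mem_cpl.2 ⟨mem_pts_of_E he, Or.inl h1⟩)
    constructor
    · intro hs
      rcases (mem_cpl.1 hs).2 with h1 | h1
      · exact absurd (h.full e he hpY).1 h1
      · exact h1
    · intro q hq hs
      rcases (mem_cpl.1 hs).2 with h1 | h1
      · exact absurd ((h.full e he hpY).2 q hq) h1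
      · exact h1

theorem Blk.conn {Y : Finset ℕ} {v : ℕ} (h : D.Blk Y v) (hc : D.Conn) :
    (D.restr Y).Conn := by
  have main : ∀ Z : Set ℕ, (D.restr Y).Closed Z → v ∈ Z → ∀ y ∈ Y, y ∈ Z := by
    intro Z hZ hvZ y hy
    have hcl : D.Closed {x | x ∈ Y → x ∈ Z} := by
      intro e he
      by_cases hp : e.pt ∈ Y
      · have h1 := hZ e (mem_restr_E.2 ⟨he, hp⟩)
        have h2 := h.full e he hp
        constructor
        · constructor
          · intro h3 _
            exact h1.1.1 (h3 hp)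
          · intro h3 _
            exact h1.1.2 (h3 h2.1)
        · intro q hq
          constructor
          · intro h3 _
            exact (h1.2 q hq).1 (h3 hp)
          · intro h3 _
            exact (h1.2 q hq).2 (h3 (h2.2 q hq))
      · have h2 := h.cl e he hp
        constructor
        · constructor
          · intro _ hs
            rw [h2.1 hs]; exact hvZ
          · intro _ h3
            exact absurd h3 hp
        · intro q hq
          constructor
          · intro _ hs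
            rw [h2.2 q hq hs]; exact hvZ
          · intro _ h3
            exact absurd h3 hp
    exact hc _ hcl ⟨v, h.sub h.mem, fun _ => hvZ⟩ y (h.sub hy) hy
  intro Z hZ hx
  rw [h.pts] at hx ⊢
  by_cases hvZ : v ∈ Z
  · exact main Z hZ hvZ
  · exfalso
    have hZc : (D.restr Y).Closed Zᶜ := by
      intro e he
      have := hZ e he
      exact ⟨not_congr this.1, fun q hq => not_congr (this.2 q hq)⟩
    obtain ⟨x, hx1, hx2⟩ := hx
    exact (main Zᶜ hZc hvZ x hx1) hx2

theorem Blk.div_add {Y : Finset ℕ} {v : ℕ} (h : D.Blk Y v) (hv : D.Valid) (hF : v ∈ D.F) (f : ℕ) :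
    (D.restr Y).div f + (D.restr (D.cpl Y v)).div f = D.div f := by
  rw [div_eq_sum, div_eq_sum, div_eq_sum]
  have hd : Disjoint (D.restr Y).E (D.restr (D.cpl Y v)).E := by
    rw [Finset.disjoint_left]
    intro e h1 h2
    obtain ⟨h3, h4⟩ := mem_restr_E.1 h1
    obtain ⟨_, h5⟩ := mem_restr_E.1 h2
    rcases (mem_cpl.1 h5).2 with h6 | h6
    · exact h6 h4
    · exact hv.pt_notF h3 hF h6
  rw [← sum_union hd]
  apply sum_congr _ (fun _ _ => rfl)
  ext e
  rw [mem_union, mem_restr_E, mem_restr_E, mem_cpl]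
  constructor
  · rintro (h1 | h1) <;> exact h1.1
  · intro he
    by_cases hp : e.pt ∈ Y
    · exact Or.inl ⟨he, hp⟩
    · exact Or.inr ⟨he, mem_pts_of_E he, Or.inl hp⟩

theorem Blk.cardE_add {Y : Finset ℕ} {v : ℕ} (h : D.Blk Y v) (hv : D.Valid) (hF : v ∈ D.F) :
    (D.restr Y).E.card + (D.restr (D.cpl Y v)).E.card = D.E.card := by
  have hd : Disjoint (D.restr Y).E (D.restr (D.cpl Y v)).E := by
    rw [Finset.disjoint_left]
    intro e h1 h2
    obtain ⟨h3, h4⟩ := mem_restr_E.1 h1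
    obtain ⟨_, h5⟩ := mem_restr_E.1 h2
    rcases (mem_cpl.1 h5).2 with h6 | h6
    · exact h6 h4
    · exact hv.pt_notF h3 hF h6
  rw [← card_union_of_disjoint hd]
  congr 1
  ext e
  rw [mem_union, mem_restr_E, mem_restr_E, mem_cpl]
  constructor
  · rintro (h1 | h1) <;> exact h1.1
  · intro he
    by_cases hp : e.pt ∈ Y
    · exact Or.inl ⟨he, hp⟩
    · exact Or.inr ⟨he, mem_pts_of_E he, Or.inl hp⟩

theorem Blk.cardF_add {Y : Finset ℕ} {v : ℕ} (h : D.Blk Y v) (hF : v ∈ D.F) :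
    (D.restr Y).F.card + (D.restr (D.cpl Y v)).F.card = D.F.card + 1 := by
  have h1 : (D.restr Y).F ∪ (D.restr (D.cpl Y v)).F = D.F := by
    ext x
    rw [mem_union, mem_restr_F, mem_restr_F, mem_cpl]
    constructor
    · rintro (h1 | h1) <;> exact h1.1
    · intro he
      by_cases hp : x ∈ Y
      · exact Or.inl ⟨he, hp⟩
      · exact Or.inr ⟨he, mem_pts_of_F he, Or.inl hp⟩
  have h2 : (D.restr Y).F ∩ (D.restr (D.cpl Y v)).F = {v} := by
    ext x
    rw [mem_inter, mem_restr_F, mem_restr_F, mem_cpl, mem_singleton]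
    constructor
    · rintro ⟨⟨h1, h2⟩, _, _, h3⟩
      rcases h3 with h3 | h3
      · exact absurd h2 h3
      · exact h3
    · rintro rfl
      exact ⟨⟨hF, h.mem⟩, hF, mem_pts_of_F hF, Or.inr rfl⟩
  have h3 := card_union_add_card_inter (D.restr Y).F (D.restr (D.cpl Y v)).F
  rw [h1, h2, card_singleton] at h3
  omega

theorem conn_in (hv : D.Valid) (hc : D.Conn) : D.ConnIn none D.pts := by
  intro Z hZ hx
  apply hc Z _ hx
  intro e he
  have := hZ e he (mem_pts_of_E he)
  exact ⟨this.1 (by simp) (hv.src_pts he), fun q hq => this.2 q (hv.tgt_pts he hq) hq⟩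

theorem inc_restr {Y W : Finset ℕ} (h : W ⊆ Y) : (D.restr Y).inc W = D.inc W := by
  unfold inc
  congr 1
  · congr 1
    ext e
    rw [mem_inS, mem_inS, mem_restr_E]
    constructor
    · rintro ⟨⟨h1, _⟩, h2, h3⟩
      exact ⟨h1, h2, h3⟩
    · rintro ⟨h1, h2, h3⟩
      exact ⟨⟨h1, h h2⟩, h2, h3⟩
  · congr 1
    ext e
    rw [mem_inT, mem_inT, mem_restr_E]
    constructor
    · rintro ⟨⟨h1, _⟩, h2, h3⟩
      exact ⟨h1, h2, h3⟩
    · rintro ⟨h1, h2, h3⟩
      exact ⟨⟨h1, h h2⟩, h2, h3⟩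

/-- the divergences add up to the number of unbounded elevators -/
theorem sum_div (hv : D.Valid) :
    ∑ f ∈ D.F, D.div f = ((D.E.filter (fun e => e.tgt = none)).card : ℤ) := by
  simp_rw [div_eq_sum]
  rw [sum_comm]
  have h1 : ∀ e ∈ D.E, ∑ f ∈ D.F, e.dv f = if e.tgt = none then 1 else 0 := by
    intro e he
    unfold Elev.dv
    rw [sum_sub_distrib, sum_ite_eq, if_pos (hv.src_mem e he)]
    cases ht : e.tgt with
    | none =>
      simp only [reduceCtorEq, if_false, sum_const_zero, sub_zero, if_true]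
      rw [hv.wt_end e he ht]; rfl
    | some q =>
      simp only [Option.some.injEq, reduceCtorEq, if_false]
      rw [sum_ite_eq, if_pos (hv.tgt_mem e he q ht)]
      ring
  rw [sum_congr rfl h1, card_filter]
  push_cast
  rfl

/-- Euler's relation -/
theorem euler (hv : D.Valid) {v : ℕ} {p : ℤ} (hF : v ∈ D.F) (hd : D.div v = p)
    (h1 : ∀ f ∈ D.F, f ≠ v → D.div f = 1) :
    (D.inc D.pts : ℤ) = 2 * D.E.card - (D.F.card - 1 + p) := by
  have h2 : D.inS D.pts = D.E := by
    ext e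
    rw [mem_inS]
    exact ⟨fun h => h.1, fun h => ⟨h, mem_pts_of_E h, hv.src_pts h⟩⟩
  have h3 : D.inT D.pts = D.E.filter (fun e => ¬ e.tgt = none) := by
    ext e
    rw [mem_inT, mem_filter]
    constructor
    · rintro ⟨h, _, q, _, hq⟩
      exact ⟨h, by rw [hq]; simp⟩
    · rintro ⟨h, hq⟩
      obtain ⟨q, hq⟩ := Option.ne_none_iff_exists'.1 hq
      exact ⟨h, mem_pts_of_E h, q, hv.tgt_pts h hq, hq⟩
  have h4 := card_filter_add_card_filter_not (s := D.E) (fun e => e.tgt = none)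
  have h5 := sum_div hv
  have h6 : ∑ f ∈ D.F, D.div f = (D.F.card : ℤ) - 1 + p := by
    rw [← add_sum_erase D.F D.div hF, hd, sum_congr rfl (g := fun _ => (1 : ℤ))
      (fun f hf => h1 f (mem_of_mem_erase hf) (ne_of_mem_erase hf))]
    have h7 := card_erase_of_mem hF
    have h8 := card_pos.2 ⟨v, hF⟩
    rw [sum_const, h7]
    simp only [nsmul_eq_mul, mul_one]
    push_cast [Nat.cast_sub (show 1 ≤ D.F.card by omega)]
    ring
  unfold inc
  rw [h2, h3]
  push_cast
  have h9 : ((D.E.filter (fun e => e.tgt = none)).card : ℤ) +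
      (D.E.filter (fun e => ¬ e.tgt = none)).card = D.E.card := by exact_mod_cast h4
  linarith

/-- handshake for the floors -/
theorem inc_eq_sum (hv : D.Valid) (W : Finset ℕ) :
    D.inc W = ∑ f ∈ D.F.filter (fun f => f ∈ W), (D.atF W f).card := by
  have h1 : ∀ f, (D.atF W f).card = (D.E.filter (fun e => e.pt ∈ W ∧ e.src = f)).card +
      (D.E.filter (fun e => e.pt ∈ W ∧ e.tgt = some f)).card := fun f => card_atF hv W f
  simp_rw [h1]
  rw [sum_add_distrib]
  unfold inc
  congr 1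
  · rw [card_eq_sum_card_fiberwise (f := Elev.src) (t := D.F.filter (fun f => f ∈ W))]
    · apply sum_congr rfl
      intro f hf
      congr 1
      ext e
      simp only [mem_filter, mem_inS] at hf ⊢
      constructor
      · rintro ⟨⟨h2, h3, h4⟩, h5⟩
        exact ⟨h2, h3, h5⟩
      · rintro ⟨h2, h3, h5⟩
        exact ⟨⟨h2, h3, h5 ▸ hf.2⟩, h5⟩
    · intro e he
      have he' : e ∈ D.inS W := he
      rw [mem_inS] at he'
      simp only [coe_filter, Set.mem_ofPred_eq]
      exact ⟨hv.src_mem e he'.1, he'.2.2⟩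
  · have h2 : ∀ f, (D.E.filter (fun e => e.pt ∈ W ∧ e.tgt = some f)).card =
        ∑ e ∈ D.E.filter (fun e => e.pt ∈ W), if e.tgt = some f then 1 else 0 := by
      intro f
      rw [← filter_filter, card_filter]
    simp_rw [h2]
    rw [sum_comm]
    have h3 : D.inT W = (D.E.filter (fun e => e.pt ∈ W)).filter (fun e => ∃ q ∈ W, e.tgt = some q) := by
      ext e
      rw [mem_inT, mem_filter, mem_filter]
      tauto
    rw [h3, card_filter]
    apply sum_congr rfl
    intro e he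
    have heE := (mem_filter.1 he).1
    cases ht : e.tgt with
    | none => simp
    | some q =>
      simp only [Option.some.injEq]
      rw [sum_ite_eq]
      simp only [mem_filter]
      by_cases hq : q ∈ W
      · rw [if_pos ⟨q, hq, rfl⟩, if_pos ⟨hv.tgt_mem e heE q ht, hq⟩]
      · rw [if_neg, if_neg]
        · exact fun h => hq h.2
        · rintro ⟨q', hq', h⟩
          exact hq (h ▸ hq')

theorem card_split (hv : D.Valid) {W : Finset ℕ} (hW : W ⊆ D.pts) :
    W.card = (D.F.filter (fun f => f ∈ W)).card + (D.E.filter (fun e => e.pt ∈ W)).card := by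
  have h1 : W = D.F.filter (fun f => f ∈ W) ∪ (D.E.filter (fun e => e.pt ∈ W)).image Elev.pt := by
    ext x
    simp only [mem_union, mem_filter, mem_image]
    constructor
    · intro hx
      rcases mem_pts.1 (hW hx) with h | ⟨e, he, rfl⟩
      · exact Or.inl ⟨h, hx⟩
      · exact Or.inr ⟨e, ⟨he, hx⟩, rfl⟩
    · rintro (h | ⟨e, ⟨_, h⟩, rfl⟩)
      · exact h.2
      · exact h
  conv_lhs => rw [h1]
  rw [card_union_of_disjoint, card_image_of_injOn]
  · intro e he e' he' hh
    have he1 := (mem_filter.1 (mem_coe.1 he)).1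
    have he2 := (mem_filter.1 (mem_coe.1 he')).1
    exact hv.inj e he1 e' he2 hh
  · rw [Finset.disjoint_left]
    intro x hx hx'
    obtain ⟨e, he, rfl⟩ := mem_image.1 hx'
    exact hv.disj e (mem_filter.1 he).1 (mem_filter.1 hx).1

end Dgm

end Pool.Agent.FloorDiag
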