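import Pool.Agent.Lib.MP_6aab98_ag.Block

/-! # MP_6aab98_ag: the first floor of the core -/

namespace Pool.Agent.FloorDiag

open Finset

theorem Dgm.Blk.splits {D : Dgm} {A B : Dgm → ℕ → Prop} {X : Finset ℕ} {v : ℕ}
    (h : D.Blk X v) (hA : A (D.restr X) v) (hB : B (D.restr (D.cpl X v)) v) :
    Splits A B D v := by
  refine ⟨X.erase v, notMem_erase _ _, (erase_subset _ _).trans h.sub, ?_, hB⟩
  rw [insert_erase h.mem]
  exact hA

namespace Dgm

variable {D : Dgm}

/-- the part hanging at a floor of the core outside of the core is a tree -/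
theorem core_block (hv : D.Valid) {v : ℕ} (hF : v ∈ D.F) (hC : v ∈ D.core) :
    D.Blk (D.comp none (D.cpl D.core v) v) v ∧
      D.inc (D.comp none (D.cpl D.core v) v) + 1 = (D.comp none (D.cpl D.core v) v).card ∧
      ∀ x ∈ D.comp none (D.cpl D.core v) v, x ∈ D.core → x = v := by
  set V0 := D.cpl D.core v with hV0
  set X := D.comp none V0 v with hX
  have hvV0 : v ∈ V0 := mem_cpl.2 ⟨mem_pts_of_F hF, Or.inr rfl⟩
  have hvX : v ∈ X := comp_self hvV0
  have hXV : X ⊆ V0 := comp_sub
  have hXC : ∀ x ∈ X, x ∈ D.core → x = v := by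
    intro x hx hxC
    rcases (mem_cpl.1 (hXV hx)).2 with h | h
    · exact absurd hxC h
    · exact h
  have hXp : X ⊆ D.pts := fun x hx => (mem_cpl.1 (hXV hx)).1
  have hdense := core_dense (D := D)
  have hgrow : X.card ≤ D.inc X + 1 := by
    have hpos : 0 < X.card := card_pos.2 ⟨v, hvX⟩
    have := growth (D := D) (Y := X) (comp_conn hvV0) (X.card - 1) {v}
      (singleton_subset_iff.2 hvX) (singleton_nonempty _) (by rw [card_singleton]; omega)
    omega
  have hstrip := strip hv _ (D.core ∪ X) rfl subset_union_left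
    (union_subset hdense.sub hXp)
  have hcard : (D.core ∪ X).card + 1 = D.core.card + X.card := by
    have h1 : D.core ∩ X = {v} := by
      ext x
      rw [mem_inter, mem_singleton]
      constructor
      · rintro ⟨h1, h2⟩
        exact hXC x h2 h1
      · rintro rfl
        exact ⟨hC, hvX⟩
    have := card_union_add_card_inter D.core X
    rw [h1, card_singleton] at this
    exact this
  have hdS : Disjoint (D.inS D.core) (D.inS X) := by
    rw [Finset.disjoint_left]
    intro e h1 h2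
    rw [mem_inS] at h1 h2
    exact hv.pt_notF h1.1 hF (hXC _ h2.2.1 h1.2.1)
  have hdT : Disjoint (D.inT D.core) (D.inT X) := by
    rw [Finset.disjoint_left]
    intro e h1 h2
    rw [mem_inT] at h1 h2
    exact hv.pt_notF h1.1 hF (hXC _ h2.2.1 h1.2.1)
  have hsS : D.inS D.core ∪ D.inS X ⊆ D.inS (D.core ∪ X) :=
    union_subset (inS_mono subset_union_left) (inS_mono subset_union_right)
  have hsT : D.inT D.core ∪ D.inT X ⊆ D.inT (D.core ∪ X) :=
    union_subset (inT_mono subset_union_left) (inT_mono subset_union_right)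
  have hcS := card_le_card hsS
  have hcT := card_le_card hsT
  rw [card_union_of_disjoint hdS] at hcS
  rw [card_union_of_disjoint hdT] at hcT
  have hbad1 : ∀ e ∈ D.E, e.pt ∈ X → e.src ∈ D.core → e.src = v := by
    intro e he hp hs
    by_contra hne
    have h1 : D.inS D.core ∪ D.inS X ⊂ D.inS (D.core ∪ X) := by
      rw [Finset.ssubset_iff_of_subset hsS]
      refine ⟨e, mem_inS.2 ⟨he, mem_union_right _ hp, mem_union_left _ hs⟩, ?_⟩
      rw [mem_union, mem_inS, mem_inS]
      rintro (⟨_, h1, _⟩ | ⟨_, _, h1⟩)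
      · exact hv.pt_notF he hF (hXC _ hp h1)
      · exact hne (hXC _ h1 hs)
    have h2 := card_lt_card h1
    rw [card_union_of_disjoint hdS] at h2
    unfold inc at hstrip hgrow
    omega
  have hbad2 : ∀ e ∈ D.E, e.pt ∈ X → ∀ q, e.tgt = some q → q ∈ D.core → q = v := by
    intro e he hp q hq hs
    by_contra hne
    have h1 : D.inT D.core ∪ D.inT X ⊂ D.inT (D.core ∪ X) := by
      rw [Finset.ssubset_iff_of_subset hsT]
      refine ⟨e, mem_inT.2 ⟨he, mem_union_right _ hp, q, mem_union_left _ hs, hq⟩, ?_⟩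
      rw [mem_union, mem_inT, mem_inT]
      rintro (⟨_, h1, _⟩ | ⟨_, _, q', h1, h2⟩)
      · exact hv.pt_notF he hF (hXC _ hp h1)
      · rw [hq] at h2
        cases h2
        exact hne (hXC _ h1 hs)
    have h2 := card_lt_card h1
    rw [card_union_of_disjoint hdT] at h2
    unfold inc at hstrip hgrow
    omega
  refine ⟨⟨hXp, hvX, ?_, ?_⟩, ?_, hXC⟩
  · intro e he hp
    constructor
    · by_cases hs : e.src ∈ V0
      · exact (comp_src he (by simp) (hXV hp) hs).1 hp
      · have hsC : e.src ∈ D.core := by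
          by_contra h
          exact hs (mem_cpl.2 ⟨hv.src_pts he, Or.inl h⟩)
        rw [hbad1 e he hp hsC]
        exact hvX
    · intro q hq
      by_cases hs : q ∈ V0
      · exact (comp_tgt he (hXV hp) hs hq).1 hp
      · have hsC : q ∈ D.core := by
          by_contra h
          exact hs (mem_cpl.2 ⟨hv.tgt_pts he hq, Or.inl h⟩)
        rw [hbad2 e he hp q hq hsC]
        exact hvX
  · intro e he hp
    constructor
    · intro hs
      by_cases hpV : e.pt ∈ V0
      · exact absurd ((comp_src he (by simp) hpV (hXV hs)).2 hs) hp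
      · have hpC : e.pt ∈ D.core := by
          by_contra h
          exact hpV (mem_cpl.2 ⟨mem_pts_of_E he, Or.inl h⟩)
        exact hXC _ hs (hdense.elev e he hpC).1
    · intro q hq hs
      by_cases hpV : e.pt ∈ V0
      · exact absurd ((comp_tgt he hpV (hXV hs) hq).2 hs) hp
      · have hpC : e.pt ∈ D.core := by
          by_contra h
          exact hpV (mem_cpl.2 ⟨mem_pts_of_E he, Or.inl h⟩)
        obtain ⟨_, q', hq', hqq⟩ := hdense.elev e he hpC
        rw [hq] at hqq
        cases hqq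
        exact hXC _ hs hq'
  · unfold inc at hstrip hgrow ⊢
    omega

/-- genus of a connected system which contains a subset with enough incidences -/
theorem genus_of_subset {E0 : Dgm} (hv : E0.Valid) (hc : E0.Conn) {v : ℕ} {p : ℤ} (hF : v ∈ E0.F)
    (hd : E0.div v = p) (h1 : ∀ f ∈ E0.F, f ≠ v → E0.div f = 1) {W : Finset ℕ}
    (hW : W ⊆ E0.pts) (hne : W.Nonempty) (hinc : W.card ≤ E0.inc W) :
    ∃ g : ℕ, 1 ≤ g ∧ (E0.F.card : ℤ) + E0.E.card = 3 * E0.F.card + p - 2 + g := by
  have hcard := card_le_card hW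
  have h2 := growth (conn_in hv hc) (E0.pts.card - W.card) W hW hne (by omega)
  have h3 : E0.pts.card ≤ E0.inc E0.pts := by omega
  have h4 := euler hv hF hd h1
  have h5 := hv.card_pts
  refine ⟨E0.inc E0.pts - E0.pts.card + 1, by omega, ?_⟩
  push_cast [Nat.cast_sub h3]
  rw [h4, h5]
  push_cast
  ring

end Dgm

theorem cert {g : ℕ} {D : Dgm} (hv : D.Valid) (hc : D.Conn) (hdiv : ∀ f ∈ D.F, D.div f = 1)
    (hcnt : (D.F.card : ℤ) + D.E.card = 3 * D.F.card - 1 + g) (hg : 1 ≤ g)
    (hF : D.F.Nonempty) :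
    ∃ v ∈ D.F, (∃ S a : ℕ, 1 ≤ a ∧ a + 1 ≤ S ∧ Splits (Pc 0 (1 - S)) (Rc g S a) D v) ∨
      (∃ S1 a g1 g2 : ℕ, 1 ≤ S1 ∧ 1 ≤ a ∧ 1 ≤ g1 ∧ 1 ≤ g2 ∧ g1 + g2 = g ∧
        Splits (Pc 0 (1 - ((S1 + a : ℕ) : ℤ))) (SplitC (Pc g1 S1) (Pc g2 a)) D v) := by
  have hne : D.core.Nonempty := by
    rw [nonempty_iff_ne_empty]
    intro h0
    obtain ⟨w, hw⟩ := hF
    have hpos : 0 < D.pts.card := card_pos.2 ⟨w, Dgm.mem_pts_of_F hw⟩
    have h1 := Dgm.strip0 hv h0 (D.pts.card - 1) D.pts (by omega) Subset.rfl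
    have h2 := Dgm.euler hv hw (hdiv w hw) (fun f hf _ => hdiv f hf)
    have h3 := hv.card_pts
    omega
  set v := D.core.min' hne with hvdef
  have hvC : v ∈ D.core := min'_mem _ _
  have hmin : ∀ x ∈ D.core, v ≤ x := fun x hx => min'_le _ _ hx
  have hdense := Dgm.core_dense (D := D)
  have hvF : v ∈ D.F := by
    rcases Dgm.mem_pts.1 (hdense.sub hvC) with h | ⟨e, he, hev⟩
    · exact h
    · exfalso
      have h1 := (hdense.elev e he (hev ▸ hvC)).1
      have h2 := hmin _ h1
      have h3 := hv.src_lt e he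
      omega
  obtain ⟨hblk, hincX, hXC⟩ := Dgm.core_block hv hvF hvC
  set X := D.comp none (D.cpl D.core v) v with hX
  have hblkR := hblk.cpl hv hvF
  set R0 := D.cpl X v with hR0
  set D2 := D.restr R0 with hD2
  have hvX : v ∈ X := hblk.mem
  have hvR : v ∈ R0 := hblkR.mem
  have hD2v : D2.Valid := hblkR.valid hv
  have hD2c : D2.Conn := hblkR.conn hc
  have hD2p : D2.pts = R0 := hblkR.pts
  have hvF2 : v ∈ D2.F := Dgm.mem_restr_F.2 ⟨hvF, hvR⟩
  have hcoreR : ∀ x ∈ D.core, x ∈ R0 := by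
    intro x hx
    rw [hR0, Dgm.mem_cpl]
    refine ⟨hdense.sub hx, ?_⟩
    by_cases h : x ∈ X
    · exact Or.inr (hXC x h hx)
    · exact Or.inl h
  have htok : ∀ e ∈ D2.E, (e.src = v ∨ e.tgt = some v) → e.pt ∈ D.core ∧ e.src = v := by
    intro e he h
    obtain ⟨heE, hpR⟩ := Dgm.mem_restr_E.1 he
    have hpv : e.pt ≠ v := hv.pt_notF heE hvF
    have hpX : e.pt ∉ X := by
      rcases (Dgm.mem_cpl.1 hpR).2 with h1 | h1
      · exact h1
      · exact absurd h1 hpv
    have hvV0 : v ∈ D.cpl D.core v := Dgm.mem_cpl.2 ⟨Dgm.mem_pts_of_F hvF, Or.inr rfl⟩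
    have hpC : e.pt ∈ D.core := by
      by_contra hn
      have hpV0 : e.pt ∈ D.cpl D.core v := Dgm.mem_cpl.2 ⟨Dgm.mem_pts_of_E heE, Or.inl hn⟩
      rcases h with h | h
      · have := (Dgm.comp_src (o := none) (v := v) heE (by simp) hpV0
          (by rw [h]; exact hvV0)).2 (by rw [h]; exact hvX)
        exact hpX this
      · have := (Dgm.comp_tgt (o := none) (v := v) heE hpV0 hvV0 h).2 hvX
        exact hpX this
    refine ⟨hpC, ?_⟩
    rcases h with h | h
    · exact h
    · have h1 := hmin _ hpC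
      have h2 := hv.tgt_lt e heE v h
      omega
  have hcoreE : ∀ e ∈ D.E, e.pt ∈ D.core → e ∈ D2.E := fun e he hp =>
    Dgm.mem_restr_E.2 ⟨he, hcoreR _ hp⟩
  -- two elevators of the core at `v`
  obtain ⟨e0, he0, e1, he1, hne01⟩ := Finset.one_lt_card.1
    (show 1 < (D.atF D.core v).card from by have := hdense.fl v hvF hvC; omega)
  rw [Dgm.mem_atF] at he0 he1
  have he0D : e0 ∈ D2.E := hcoreE e0 he0.1 he0.2.1
  have he1D : e1 ∈ D2.E := hcoreE e1 he1.1 he1.2.1
  have hs0 : e0.src = v := (htok e0 he0D he0.2.2).2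
  have hs1 : e1.src = v := (htok e1 he1D he1.2.2).2
  have htv : ∀ e ∈ D2.E, e.tgt ≠ some v := by
    intro e he h
    obtain ⟨heE, _⟩ := Dgm.mem_restr_E.1 he
    have h1 := (htok e he (Or.inr h)).1
    have h2 := hmin _ h1
    have h3 := hv.tgt_lt e heE v h
    omega
  have hdv : ∀ e ∈ D2.E, e.dv v = if e.src = v then (e.wt : ℤ) else 0 := by
    intro e he
    unfold Elev.dv
    rw [if_neg (htv e he), sub_zero]
  have hdvnn : ∀ e ∈ D2.E, 0 ≤ e.dv v := by
    intro e he
    rw [hdv e he]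
    split_ifs
    · positivity
    · exact le_rfl
  have hsum : (e0.wt : ℤ) + e1.wt ≤ D2.div v := by
    rw [Dgm.div_eq_sum]
    have h1 : ∑ e ∈ ({e0, e1} : Finset Elev), e.dv v ≤ ∑ e ∈ D2.E, e.dv v := by
      apply sum_le_sum_of_subset_of_nonneg
      · intro e he
        rcases mem_insert.1 he with rfl | he
        · exact he0D
        · rw [mem_singleton.1 he]; exact he1D
      · intro e he _
        exact hdvnn e he
    rw [sum_pair hne01, hdv e0 he0D, hdv e1 he1D, if_pos hs0, if_pos hs1] at h1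
    exact h1
  set a := e0.wt with ha
  have ha1 : 1 ≤ a := hv.wt_pos e0 he0.1
  have hb1 : 1 ≤ e1.wt := hv.wt_pos e1 he1.1
  obtain ⟨S, hS⟩ : ∃ S : ℕ, (S : ℤ) = D2.div v := ⟨(D2.div v).toNat, Int.toNat_of_nonneg (by omega)⟩
  have hSa : a + 1 ≤ S := by omega
  have hdadd := hblk.div_add hv hvF v
  rw [hdiv v hvF, ← hR0, ← hD2] at hdadd
  have hcF := hblk.cardF_add hvF
  have hcE := hblk.cardE_add hv hvF
  rw [← hR0, ← hD2] at hcF hcE
  have hvF1 : v ∈ (D.restr X).F := Dgm.mem_restr_F.2 ⟨hvF, hvX⟩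
  have hdiv1 : ∀ f ∈ (D.restr X).F, f ≠ v → (D.restr X).div f = 1 := by
    intro f hf hne'
    obtain ⟨h1, h2⟩ := Dgm.mem_restr_F.1 hf
    rw [hblk.div h2 hne']
    exact hdiv f h1
  have hdiv2 : ∀ f ∈ D2.F, f ≠ v → D2.div f = 1 := by
    intro f hf hne'
    obtain ⟨h1, h2⟩ := Dgm.mem_restr_F.1 hf
    rw [hblkR.div h2 hne']
    exact hdiv f h1
  have hcnt1 : ((D.restr X).F.card : ℤ) + (D.restr X).E.card =
      3 * (D.restr X).F.card + (1 - S) - 2 + (0 : ℕ) := by
    have h1 := Dgm.euler (hblk.valid hv) hvF1 (p := 1 - S) (by omega) hdiv1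
    have h2 := (hblk.valid hv).card_pts
    rw [hblk.pts] at h1 h2
    rw [Dgm.inc_restr Subset.rfl] at h1
    push_cast
    omega
  have hQ1 : Q 0 (1 - S) none (D.restr X) v :=
    ⟨hblk.valid hv, hvF1, Dgm.connEx_none.2 (hblk.conn hc), by omega, hdiv1, hcnt1⟩
  have hcnt2 : (D2.F.card : ℤ) + D2.E.card = 3 * D2.F.card + S - 2 + g := by
    push_cast at hcnt1
    omega
  -- the component of `v` after removal of the incidence `(e0, v)`
  set K := D2.comp (some e0) R0 v with hK
  have hvK : v ∈ K := Dgm.comp_self hvR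
  have hKR : K ⊆ R0 := Dgm.comp_sub
  have hpR : ∀ e ∈ D2.E, e.pt ∈ R0 := fun e he => (Dgm.mem_restr_E.1 he).2
  have hsR : ∀ e ∈ D2.E, e.src ∈ R0 := fun e he => hD2p ▸ hD2v.src_pts he
  have htR : ∀ e ∈ D2.E, ∀ q, e.tgt = some q → q ∈ R0 := fun e he q hq => hD2p ▸ hD2v.tgt_pts he hq
  have hks : ∀ e ∈ D2.E, e ≠ e0 → (e.pt ∈ K ↔ e.src ∈ K) := fun e he hne' =>
    Dgm.comp_src he (by simpa using hne') (hpR e he) (hsR e he)
  have hkt : ∀ e ∈ D2.E, ∀ q, e.tgt = some q → (e.pt ∈ K ↔ q ∈ K) := fun e he q hq =>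
    Dgm.comp_tgt he (hpR e he) (htR e he q hq) hq
  refine ⟨v, hvF, ?_⟩
  by_cases hcase : e0.pt ∈ K
  · left
    refine ⟨S, a, ha1, hSa, hblk.splits hQ1 ?_⟩
    refine ⟨e0, he0D, hs0, rfl, hD2v, hvF2, ?_, hS.symm, hdiv2, hcnt2⟩
    intro Z hZ hx
    have hKconn : D2.ConnIn (some e0) K := Dgm.comp_conn hvR
    have hZK : D2.ClosedIn (some e0) K Z := by
      intro e he _
      exact ⟨fun h _ => (hZ e he).1 h, fun q _ hq => (hZ e he).2 q hq⟩
    apply hD2c Z _ hx
    intro e he
    by_cases hee : e = e0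
    · subst hee
      refine ⟨?_, (hZ e he).2⟩
      rw [hs0]
      constructor
      · intro h
        exact hKconn Z hZK ⟨_, hcase, h⟩ v hvK
      · intro h
        exact hKconn Z hZK ⟨_, hvK, h⟩ _ hcase
    · exact ⟨(hZ e he).1 (by simpa using hee), (hZ e he).2⟩
  · right
    have hblkK : D2.Blk K v := by
      refine ⟨by rw [hD2p]; exact hKR, hvK, ?_, ?_⟩
      · intro e he hp
        have hee : e ≠ e0 := fun h => hcase (h ▸ hp)
        exact ⟨(hks e he hee).1 hp, fun q hq => (hkt e he q hq).1 hp⟩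
      · intro e he hp
        refine ⟨fun hs => ?_, fun q hq hs => absurd ((hkt e he q hq).2 hs) hp⟩
        by_cases hee : e = e0
        · rw [hee, hs0]
        · exact absurd ((hks e he hee).2 hs) hp
    have hblk4 := hblkK.cpl hD2v hvF2
    set K2 := D2.cpl K v with hK2
    set D3 := D2.restr K with hD3
    set D4 := D2.restr K2 with hD4
    have hD3v : D3.Valid := hblkK.valid hD2v
    have hD4v : D4.Valid := hblk4.valid hD2v
    have hD3c : D3.Conn := hblkK.conn hD2c
    have hD4c : D4.Conn := hblk4.conn hD2c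
    have hvF3 : v ∈ D3.F := Dgm.mem_restr_F.2 ⟨hvF2, hvK⟩
    have hvF4 : v ∈ D4.F := Dgm.mem_restr_F.2 ⟨hvF2, hblk4.mem⟩
    have hdiv3 : ∀ f ∈ D3.F, f ≠ v → D3.div f = 1 := by
      intro f hf hne'
      obtain ⟨h1, h2⟩ := Dgm.mem_restr_F.1 hf
      rw [hblkK.div h2 hne']
      exact hdiv2 f h1 hne'
    have hdiv4 : ∀ f ∈ D4.F, f ≠ v → D4.div f = 1 := by
      intro f hf hne'
      obtain ⟨h1, h2⟩ := Dgm.mem_restr_F.1 hf
      rw [hblk4.div h2 hne']
      exact hdiv2 f h1 hne'
    have he0K2 : e0.pt ∈ K2 := Dgm.mem_cpl.2 ⟨by rw [hD2p]; exact hpR e0 he0D, Or.inl hcase⟩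
    have he0D4 : e0 ∈ D4.E := Dgm.mem_restr_E.2 ⟨he0D, he0K2⟩
    have hd4 : D4.div v = a := by
      rw [Dgm.div_eq_sum, sum_eq_single e0]
      · rw [hdv e0 he0D, if_pos hs0]
      · intro e he hee
        obtain ⟨heD, hp⟩ := Dgm.mem_restr_E.1 he
        rw [hdv e heD, if_neg]
        intro hs
        have h1 := (hks e heD hee).2 (by rw [hs]; exact hvK)
        rcases (Dgm.mem_cpl.1 hp).2 with h2 | h2
        · exact h2 h1
        · exact hD2v.pt_notF heD hvF2 h2
      · intro h
        exact absurd he0D4 h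
    have hdadd2 := hblkK.div_add hD2v hvF2 v
    rw [← hK2, ← hD3, ← hD4, hd4] at hdadd2
    obtain ⟨S1, hS1⟩ : ∃ S1 : ℕ, (S1 : ℤ) = D3.div v :=
      ⟨(D3.div v).toNat, Int.toNat_of_nonneg (by omega)⟩
    have hS11 : 1 ≤ S1 := by omega
    have hSS : S = S1 + a := by omega
    have hcF2 := hblkK.cardF_add hvF2
    have hcE2 := hblkK.cardE_add hD2v hvF2
    rw [← hK2, ← hD3, ← hD4] at hcF2 hcE2
    -- the elevators of the core at a floor
    have hatK : ∀ f ∈ D.core, f ∈ K → ∀ e ∈ D.atF D.core f, e ≠ e0 → e.pt ∈ K := by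
      intro f hfC hfK e he hee
      rw [Dgm.mem_atF] at he
      have heD := hcoreE e he.1 he.2.1
      rcases he.2.2 with h | h
      · exact (hks e heD hee).2 (by rw [h]; exact hfK)
      · exact (hkt e heD f h).2 hfK
    -- genus of the part of `v`
    have hgen3 : ∃ g1 : ℕ, 1 ≤ g1 ∧ (D3.F.card : ℤ) + D3.E.card = 3 * D3.F.card + S1 - 2 + g1 := by
      set W1 := D.core ∩ K with hW1
      have hW1R : W1 ⊆ D2.pts := by rw [hD2p]; exact inter_subset_right.trans hKR
      apply Dgm.genus_of_subset hD3v hD3c hvF3 hS1.symm hdiv3 (W := W1)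
      · rw [hblkK.pts]; exact inter_subset_right
      · exact ⟨v, mem_inter.2 ⟨hvC, hvK⟩⟩
      · rw [Dgm.inc_restr (show W1 ⊆ K from inter_subset_right)]
        have hc1 := Dgm.card_split hD2v hW1R
        have hi1 : D2.inc W1 = 2 * (D2.E.filter (fun e => e.pt ∈ W1)).card := by
          have h1 : D2.inS W1 = D2.E.filter (fun e => e.pt ∈ W1) := by
            ext e
            rw [Dgm.mem_inS, mem_filter]
            constructor
            · rintro ⟨h1, h2, _⟩
              exact ⟨h1, h2⟩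
            · rintro ⟨h1, h2⟩
              obtain ⟨h3, h4⟩ := mem_inter.1 h2
              have hee : e ≠ e0 := fun h => hcase (h ▸ h4)
              exact ⟨h1, h2, mem_inter.2 ⟨(hdense.elev e (Dgm.mem_restr_E.1 h1).1 h3).1,
                (hks e h1 hee).1 h4⟩⟩
          have h2 : D2.inT W1 = D2.E.filter (fun e => e.pt ∈ W1) := by
            ext e
            rw [Dgm.mem_inT, mem_filter]
            constructor
            · rintro ⟨h1, h2, _⟩
              exact ⟨h1, h2⟩
            · rintro ⟨h1, h2⟩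
              obtain ⟨h3, h4⟩ := mem_inter.1 h2
              obtain ⟨_, q, hq, hqe⟩ := hdense.elev e (Dgm.mem_restr_E.1 h1).1 h3
              exact ⟨h1, h2, q, mem_inter.2 ⟨hq, (hkt e h1 q hqe).1 h4⟩, hqe⟩
          unfold Dgm.inc
          rw [h1, h2]; ring
        have hi2 : 2 * (D2.F.filter (fun f => f ∈ W1)).card ≤ D2.inc W1 + 1 := by
          rw [Dgm.inc_eq_sum hD2v W1]
          have hvin : v ∈ D2.F.filter (fun f => f ∈ W1) :=
            mem_filter.2 ⟨hvF2, mem_inter.2 ⟨hvC, hvK⟩⟩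
          rw [← add_sum_erase _ _ hvin]
          have hge : ∀ f ∈ (D2.F.filter (fun f => f ∈ W1)).erase v, 2 ≤ (D2.atF W1 f).card := by
            intro f hf
            obtain ⟨hfv, hf⟩ := mem_erase.1 hf
            obtain ⟨hfF, hfW⟩ := mem_filter.1 hf
            obtain ⟨hfC, hfK⟩ := mem_inter.1 hfW
            refine le_trans (hdense.fl f (Dgm.mem_restr_F.1 hfF).1 hfC) (card_le_card ?_)
            intro e he
            have he' := Dgm.mem_atF.1 he
            have hee : e ≠ e0 := by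
              rintro rfl
              rcases he'.2.2 with h | h
              · exact hfv (h.symm.trans hs0)
              · exact hcase ((hkt _ he0D f h).2 hfK)
            exact Dgm.mem_atF.2 ⟨hcoreE e he'.1 he'.2.1,
              mem_inter.2 ⟨he'.2.1, hatK f hfC hfK e he hee⟩, he'.2.2⟩
          have hgev : 1 ≤ (D2.atF W1 v).card := by
            have h1 : D.atF D.core v ⊆ insert e0 (D2.atF W1 v) := by
              intro e he
              by_cases hee : e = e0
              · rw [hee]; exact mem_insert_self _ _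
              · have he' := Dgm.mem_atF.1 he
                exact mem_insert_of_mem (Dgm.mem_atF.2 ⟨hcoreE e he'.1 he'.2.1,
                  mem_inter.2 ⟨he'.2.1, hatK v hvC hvK e he hee⟩, he'.2.2⟩)
            have h2 := (card_le_card h1).trans (card_insert_le _ _)
            have h3 := hdense.fl v hvF hvC
            omega
          have h4 : ((D2.F.filter (fun f => f ∈ W1)).erase v).card * 2 ≤
              ∑ f ∈ (D2.F.filter (fun f => f ∈ W1)).erase v, (D2.atF W1 f).card := by
            have := Finset.card_nsmul_le_sum _ _ 2 hge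
            simpa [nsmul_eq_mul] using this
          have h5 := card_erase_of_mem hvin
          have h6 := card_pos.2 ⟨v, hvin⟩
          omega
        omega
    have hgen4 : ∃ g2 : ℕ, 1 ≤ g2 ∧ (D4.F.card : ℤ) + D4.E.card = 3 * D4.F.card + a - 2 + g2 := by
      set W2 := D.core \ K with hW2
      have hW2K : W2 ⊆ K2 := by
        intro x hx
        obtain ⟨h1, h2⟩ := mem_sdiff.1 hx
        exact Dgm.mem_cpl.2 ⟨by rw [hD2p]; exact hcoreR x h1, Or.inl h2⟩
      have hW2R : W2 ⊆ D2.pts := hW2K.trans hblk4.sub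
      have he0W : e0.pt ∈ W2 := mem_sdiff.2 ⟨he0.2.1, hcase⟩
      apply Dgm.genus_of_subset hD4v hD4c hvF4 hd4 hdiv4 (W := W2)
      · rw [hblk4.pts]; exact hW2K
      · exact ⟨_, he0W⟩
      · rw [Dgm.inc_restr hW2K]
        have hc1 := Dgm.card_split hD2v hW2R
        have hi1 : D2.inc W2 + 1 = 2 * (D2.E.filter (fun e => e.pt ∈ W2)).card := by
          have h1 : D2.inS W2 = (D2.E.filter (fun e => e.pt ∈ W2)).erase e0 := by
            ext e
            rw [Dgm.mem_inS, mem_erase, mem_filter]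
            constructor
            · rintro ⟨h1, h2, h3⟩
              refine ⟨?_, h1, h2⟩
              rintro rfl
              rw [hs0] at h3
              exact (mem_sdiff.1 h3).2 hvK
            · rintro ⟨h0, h1, h2⟩
              obtain ⟨h3, h4⟩ := mem_sdiff.1 h2
              exact ⟨h1, h2, mem_sdiff.2 ⟨(hdense.elev e (Dgm.mem_restr_E.1 h1).1 h3).1,
                fun h => h4 ((hks e h1 h0).2 h)⟩⟩
          have h2 : D2.inT W2 = D2.E.filter (fun e => e.pt ∈ W2) := by
            ext e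
            rw [Dgm.mem_inT, mem_filter]
            constructor
            · rintro ⟨h1, h2, _⟩
              exact ⟨h1, h2⟩
            · rintro ⟨h1, h2⟩
              obtain ⟨h3, h4⟩ := mem_sdiff.1 h2
              obtain ⟨_, q, hq, hqe⟩ := hdense.elev e (Dgm.mem_restr_E.1 h1).1 h3
              exact ⟨h1, h2, q, mem_sdiff.2 ⟨hq, fun h => h4 ((hkt e h1 q hqe).2 h)⟩, hqe⟩
          have hmem : e0 ∈ D2.E.filter (fun e => e.pt ∈ W2) := mem_filter.2 ⟨he0D, he0W⟩
          have h3 := card_erase_of_mem hmem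
          have h4 := card_pos.2 ⟨e0, hmem⟩
          unfold Dgm.inc
          rw [h1, h2]
          omega
        have hi2 : 2 * (D2.F.filter (fun f => f ∈ W2)).card ≤ D2.inc W2 := by
          rw [Dgm.inc_eq_sum hD2v W2]
          have hge : ∀ f ∈ D2.F.filter (fun f => f ∈ W2), 2 ≤ (D2.atF W2 f).card := by
            intro f hf
            obtain ⟨hfF, hfW⟩ := mem_filter.1 hf
            obtain ⟨hfC, hfK⟩ := mem_sdiff.1 hfW
            refine le_trans (hdense.fl f (Dgm.mem_restr_F.1 hfF).1 hfC) (card_le_card ?_)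
            intro e he
            have he' := Dgm.mem_atF.1 he
            have heD := hcoreE e he'.1 he'.2.1
            refine Dgm.mem_atF.2 ⟨heD, mem_sdiff.2 ⟨he'.2.1, fun hp => hfK ?_⟩, he'.2.2⟩
            have h1 := hblkK.full e heD hp
            rcases he'.2.2 with h | h
            · rw [← h]; exact h1.1
            · exact h1.2 f h
          have := Finset.card_nsmul_le_sum _ _ 2 hge
          have h4 : (D2.F.filter (fun f => f ∈ W2)).card * 2 ≤
              ∑ f ∈ D2.F.filter (fun f => f ∈ W2), (D2.atF W2 f).card := by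
            simpa [nsmul_eq_mul] using this
          omega
        omega
    obtain ⟨g1, hg1, hc3⟩ := hgen3
    obtain ⟨g2, hg2, hc4⟩ := hgen4
    refine ⟨S1, a, g1, g2, hS11, ha1, hg1, hg2, by omega, hblk.splits ?_ ?_⟩
    · rw [← hSS]
      exact hQ1
    · refine ⟨hD2v, hvF2, hblkK.splits ?_ ?_⟩
      · exact ⟨hD3v, hvF3, Dgm.connEx_none.2 hD3c, hS1.symm, hdiv3, hc3⟩
      · exact ⟨hD4v, hvF4, Dgm.connEx_none.2 hD4c, hd4, hdiv4, hc4⟩

end Pool.Agent.FloorDiag
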