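import Pool.Agent.Lib.MP_6aab98_ag.Slack

/-! # MP_6aab98_ag: the class of certificates -/

namespace Pool.Agent.FloorDiag

open Finset
open scoped ENNReal NNReal Nat

namespace Dgm

theorem restr_map {ψ : ℕ → ℕ} (h : Function.Injective ψ) (D : Dgm) (Y : Finset ℕ) :
    (D.map ψ).restr (Y.image ψ) = (D.restr Y).map ψ := by
  have h1 : ∀ A B : Dgm, A.F = B.F → A.E = B.E → A = B := by
    intro A B h1 h2
    cases A; cases B
    simp_all
  apply h1
  · ext x
    simp only [mem_restr_F, mem_map_F, mem_image]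
    constructor
    · rintro ⟨⟨y, hy, rfl⟩, z, hz, hzy⟩
      have : z = y := h hzy
      exact ⟨y, ⟨hy, this ▸ hz⟩, rfl⟩
    · rintro ⟨y, ⟨h1, h2⟩, rfl⟩
      exact ⟨⟨y, h1, rfl⟩, y, h2, rfl⟩
  · ext x
    simp only [mem_restr_E, mem_map_E, mem_image]
    constructor
    · rintro ⟨⟨y, hy, rfl⟩, z, hz, hzy⟩
      have : z = y.pt := h hzy
      exact ⟨y, ⟨hy, this ▸ hz⟩, rfl⟩
    · rintro ⟨y, ⟨h1, h2⟩, rfl⟩
      exact ⟨⟨y, h1, rfl⟩, y.pt, h2, rfl⟩

end Dgm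

theorem inv_SplitC {A B : Dgm → ℕ → Prop} (hA : Inv A) (hB : Inv B) : Inv (SplitC A B) := by
  intro ψ hψ D v
  have hi := hψ.injective
  unfold SplitC Splits
  rw [Dgm.valid_map hψ]
  refine and_congr Iff.rfl (and_congr ?_ ?_)
  · rw [Dgm.mem_map_F]
    constructor
    · intro h
      exact ⟨v, h, rfl⟩
    · rintro ⟨y, hy, hyv⟩
      have : y = v := hi hyv
      exact this ▸ hy
  · constructor
    · rintro ⟨X, h1, h2, h3, h4⟩
      refine ⟨X.image ψ, ?_, ?_, ?_, ?_⟩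
      · intro h
        obtain ⟨y, hy, hyv⟩ := mem_image.1 h
        have : y = v := hi hyv
        exact h1 (this ▸ hy)
      · rw [Dgm.pts_map]
        exact image_subset_image h2
      · rw [← image_insert, Dgm.restr_map hi]
        exact (hA ψ hψ _ _).1 h3
      · rw [Dgm.pts_map, ← image_sdiff _ _ hi, Dgm.restr_map hi]
        exact (hB ψ hψ _ _).1 h4
    · rintro ⟨X', h1, h2, h3, h4⟩
      set X : Finset ℕ := D.pts.filter (fun x => ψ x ∈ X') with hX
      have hXX : X.image ψ = X' := by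
        ext z
        simp only [hX, mem_image, mem_filter]
        constructor
        · rintro ⟨y, ⟨_, hy⟩, rfl⟩
          exact hy
        · intro hz
          have := h2 hz
          rw [Dgm.pts_map] at this
          obtain ⟨y, hy, rfl⟩ := mem_image.1 this
          exact ⟨y, ⟨hy, hz⟩, rfl⟩
      refine ⟨X, ?_, filter_subset _ _, ?_, ?_⟩
      · intro h
        exact h1 (mem_filter.1 h).2
      · rw [← hXX, ← image_insert, Dgm.restr_map hi] at h3
        exact (hA ψ hψ _ _).2 h3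
      · rw [← hXX, Dgm.pts_map, ← image_sdiff _ _ hi, Dgm.restr_map hi] at h4
        exact (hB ψ hψ _ _).2 h4

theorem gf_SplitC {A B : Dgm → ℕ → Prop} (hA : Inv A) (hB : Inv B)
    (hAv : ∀ D v, A D v → D.Valid) (hBv : ∀ D v, B D v → D.Valid) (α β : ℝ≥0) :
    gf (cnt (SplitC A B)) α β ≤ gf (cnt A) α β * gf (cnt B) α β := by
  rw [← gf_conv]
  exact gf_mono_ab (fun i j => dec hA hB hAv hBv (fun D v h => h) i j) α β

/-! ### unions -/

open Classical in
theorem W_union_le {ι : Type*} (A : ι → Dgm → ℕ → Prop) (V : Finset ℕ) (v : ℕ) :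
    W (fun D v => ∃ i, A i D v) V v ≤ ∑' i, W (A i) V v := by
  simp_rw [W_eq_ite]
  rw [ENNReal.tsum_comm]
  refine ENNReal.tsum_le_tsum fun D => ?_
  split_ifs with h
  · obtain ⟨h1, i, hi⟩ := h
    refine le_trans ?_ (ENNReal.le_tsum i)
    rw [if_pos ⟨h1, hi⟩]
  · exact zero_le

theorem W_mono {A B : Dgm → ℕ → Prop} (h : ∀ D v, A D v → B D v) (V : Finset ℕ) (v : ℕ) :
    W A V v ≤ W B V v := by
  classical
  rw [W_eq_ite, W_eq_ite]
  refine ENNReal.tsum_le_tsum fun D => ?_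
  split_ifs with h1 h2
  · exact le_rfl
  · exact absurd ⟨h1.1, h _ _ h1.2⟩ h2
  · exact zero_le
  · exact le_rfl

theorem gf_tsum {ι : Type*} (a : ι → ℕ → ℕ → ℝ≥0∞) (α β : ℝ≥0) :
    gf (fun i j => ∑' k, a k i j) α β = ∑' k, gf (a k) α β := by
  unfold gf
  rw [ENNReal.tsum_comm (f := fun k i => ∑' j, a k i j * (ex α i * ex β j))]
  apply tsum_congr
  intro i
  rw [ENNReal.tsum_comm (f := fun k j => a k i j * (ex α i * ex β j))]
  apply tsum_congr
  intro j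
  rw [ENNReal.tsum_mul_right]

theorem gf_union_le {ι : Type*} (A : ι → Dgm → ℕ → Prop) (α β : ℝ≥0) :
    gf (cnt (fun D v => ∃ i, A i D v)) α β ≤ ∑' i, gf (cnt (A i)) α β := by
  rw [← gf_tsum]
  exact gf_mono_ab (fun i j => W_union_le A _ _) α β

/-- the first kind of certificate -/
def CertNB (g : ℕ) (p : ℕ × ℕ) (D : Dgm) (v : ℕ) : Prop :=
  SplitC (Pc 0 (1 - ((p.1 + p.2 + 2 : ℕ) : ℤ))) (Rc (g + 1) ((p.1 + p.2 + 2 : ℕ) : ℤ) (p.2 + 1)) D v

/-- the second kind of certificate -/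
def CertB (g1 g2 : ℕ) (p : ℕ × ℕ) (D : Dgm) (v : ℕ) : Prop :=
  SplitC (Pc 0 (1 - ((p.1 + p.2 + 2 : ℕ) : ℤ)))
    (SplitC (Pc g1 ((p.1 + 1 : ℕ) : ℤ)) (Pc g2 ((p.2 + 1 : ℕ) : ℤ))) D v

theorem CertNB_fin {L : ℝ≥0} (hL : TreeFin L) {g : ℕ}
    (hg : ∀ α β : ℝ≥0, α + β < L → V g 1 α β ≠ ∞) {α β : ℝ≥0} (hα : 0 < α) (hβ : 0 < β)
    (h : α + β < L) : gf (cnt (fun D v => ∃ p, CertNB g p D v)) α β ≠ ∞ := by
  refine ne_top_of_le_ne_top (NB_fin hL hg hα hβ h) ?_
  refine (gf_union_le _ α β).trans ?_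
  rw [ENNReal.tsum_prod' (f := fun p : ℕ × ℕ => gf (cnt (CertNB g p)) α β)]
  refine ENNReal.tsum_le_tsum fun b1 => ENNReal.tsum_le_tsum fun b2 => ?_
  exact gf_SplitC (inv_Pc _ _) (inv_Rc _ _ _) (fun _ _ h => h.valid) (fun _ _ h => (Rc.q h).1) α β

theorem CertB_fin {L : ℝ≥0} (hL : TreeFin L) {g1 g2 : ℕ}
    (hg1 : ∀ α β : ℝ≥0, α + β < L → V g1 1 α β ≠ ∞)
    (hg2 : ∀ α β : ℝ≥0, α + β < L → V g2 1 α β ≠ ∞) {α β : ℝ≥0} (hα : 0 < α) (hβ : 0 < β)
    (h : α + β < L) : gf (cnt (fun D v => ∃ p, CertB g1 g2 p D v)) α β ≠ ∞ := by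
  refine ne_top_of_le_ne_top (B_fin hL hg1 hg2 hα hβ h) ?_
  refine (gf_union_le _ α β).trans ?_
  rw [ENNReal.tsum_prod' (f := fun p : ℕ × ℕ => gf (cnt (CertB g1 g2 p)) α β)]
  refine ENNReal.tsum_le_tsum fun b1 => ENNReal.tsum_le_tsum fun b2 => ?_
  refine (gf_SplitC (inv_Pc _ _) (inv_SplitC (inv_Pc _ _) (inv_Pc _ _)) (fun _ _ h => h.valid)
    (fun _ _ h => h.1) α β).trans ?_
  exact mul_le_mul' le_rfl
    (gf_SplitC (inv_Pc _ _) (inv_Pc _ _) (fun _ _ h => h.valid) (fun _ _ h => h.valid) α β)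

/-- all certificates of genus `g + 1`: `none` is the first kind, `some i` the second kind with
genera `i + 1` and `g - i` -/
def CertAll (g : ℕ) (o : Option (Fin g)) (D : Dgm) (v : ℕ) : Prop :=
  match o with
  | none => ∃ p, CertNB g p D v
  | some i => ∃ p, CertB (i + 1) (g - i) p D v

theorem CertAll_fin {L : ℝ≥0} (hL : TreeFin L) {g : ℕ}
    (hg : ∀ h ≤ g, ∀ α β : ℝ≥0, α + β < L → V h 1 α β ≠ ∞) {α β : ℝ≥0} (hα : 0 < α) (hβ : 0 < β)
    (h : α + β < L) : gf (cnt (fun D v => ∃ o, CertAll g o D v)) α β ≠ ∞ := by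
  refine ne_top_of_le_ne_top ?_ (gf_union_le _ α β)
  rw [tsum_fintype]
  refine ENNReal.sum_ne_top.2 ?_
  rintro (_ | i) _
  · exact CertNB_fin hL (hg g le_rfl) hα hβ h
  · exact CertB_fin hL (hg _ (by have := i.2; omega)) (hg _ (by omega)) hα hβ h

/-- connected systems of genus `g`, all divergences 1 -/
structure Full (g : ℕ) (D : Dgm) : Prop where
  valid : D.Valid
  conn : D.Conn
  div : ∀ f ∈ D.F, D.div f = 1
  cnt : (D.F.card : ℤ) + D.E.card = 3 * D.F.card - 1 + g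
  ne : D.F.Nonempty

/-- weighted number of full systems on `n` points -/
noncomputable def Nn (g n : ℕ) : ℝ≥0∞ :=
  ∑' D : {D : Dgm // D.pts = range n ∧ Full g D}, (D.1.mult : ℝ≥0∞)

open Classical in
theorem Nn_eq_ite (g n : ℕ) :
    Nn g n = ∑' D : Dgm, (if D.pts = range n ∧ Full g D then (D.mult : ℝ≥0∞) else 0) := by
  have h := _root_.tsum_subtype {D : Dgm | D.pts = range n ∧ Full g D}
    (fun D => (D.mult : ℝ≥0∞))
  refine Eq.trans h ?_
  apply tsum_congr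
  intro D
  simp only [Set.indicator]
  rfl

theorem cert_all {g : ℕ} {D : Dgm} (h : Full (g + 1) D) :
    ∃ v ∈ D.F, ∃ o, CertAll g o D v := by
  obtain ⟨v, hv, h1 | h1⟩ := cert h.valid h.conn h.div h.cnt (by omega) h.ne
  · obtain ⟨S, a, ha, hS, hsp⟩ := h1
    refine ⟨v, hv, none, (S - a - 1, a - 1), h.valid, hv, ?_⟩
    have e1 : S - a - 1 + (a - 1) + 2 = S := by omega
    have e2 : a - 1 + 1 = a := by omega
    simp only [e1, e2]
    exact hsp
  · obtain ⟨S1, a, g1, g2, hS1, ha, hg1, hg2, hgg, hsp⟩ := h1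
    refine ⟨v, hv, some ⟨g1 - 1, by omega⟩, (S1 - 1, a - 1), h.valid, hv, ?_⟩
    have e1 : S1 - 1 + (a - 1) + 2 = S1 + a := by omega
    have e2 : a - 1 + 1 = a := by omega
    have e3 : S1 - 1 + 1 = S1 := by omega
    have e4 : g1 - 1 + 1 = g1 := by omega
    have e5 : g - (g1 - 1) = g2 := by omega
    simp only [e1, e2, e3, e4, e5]
    exact hsp

theorem Nn_le (g n : ℕ) :
    Nn (g + 1) (n + 1) ≤ ∑ i ∈ range (n + 1), cnt (fun D v => ∃ o, CertAll g o D v) i (n - i) := by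
  classical
  have h1 : ∀ i ∈ range (n + 1), cnt (fun D v => ∃ o, CertAll g o D v) i (n - i) =
      ∑' D : Dgm, (if D.pts = range (n + 1) ∧ ∃ o, CertAll g o D i then (D.mult : ℝ≥0∞) else 0) := by
    intro i hi
    have hi' := mem_range.1 hi
    unfold cnt
    rw [W_eq_ite, show i + 1 + (n - i) = n + 1 by omega]
    refine tsum_congr fun D => ?_
    split_ifs <;> rfl
  rw [sum_congr rfl h1, ← Summable.tsum_finsetSum (fun _ _ => ENNReal.summable), Nn_eq_ite]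
  refine ENNReal.tsum_le_tsum fun D => ?_
  split_ifs with h
  · obtain ⟨hp, hf⟩ := h
    obtain ⟨v, hv, o, ho⟩ := cert_all hf
    have hvr : v ∈ range (n + 1) := hp ▸ Dgm.mem_pts_of_F hv
    refine le_trans ?_ (single_le_sum (f := fun i => if D.pts = range (n + 1) ∧
      ∃ o, CertAll g o D i then (D.mult : ℝ≥0∞) else 0) (fun _ _ => zero_le) hvr)
    rw [if_pos ⟨hp, o, ho⟩]
  · exact zero_le

/-- pointed systems are full systems -/
theorem cnt_le_Nn (g i j : ℕ) : cnt (Pc g 1) i j ≤ Nn g (i + j + 1) := by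
  classical
  unfold cnt
  rw [W_eq_ite, Nn_eq_ite]
  refine ENNReal.tsum_le_tsum fun D => ?_
  split_ifs with h1 h2
  · exact le_rfl
  · exfalso
    apply h2
    obtain ⟨hp, hQ⟩ := h1
    refine ⟨by rw [hp]; congr 1; omega, hQ.valid, Dgm.connEx_none.1 hQ.conn, ?_, ?_,
      ⟨_, hQ.mem⟩⟩
    · intro f hf
      by_cases hfi : f = i
      · rw [hfi]; exact hQ.divv
      · exact hQ.div f hf hfi
    · have := hQ.cnt
      linarith
  · exact zero_le
  · exact le_rfl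

end Pool.Agent.FloorDiag
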