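import Mathlib

/-!
# MP_6aab98_ag: marked floor diagrams of plane curves (Brugalle-Mikhalkin)

A marked floor diagram of degree `d` and genus `g` in the form used by Brugalle-Mikhalkin and
Fomin-Mikhalkin, written on the ordered points `0, 1, ..., n - 1`, `n = 3 d - 1 + g`:
`d` of the points are floors, every other point lies on an elevator, which starts at a floor
before the point and ends at a floor after it or goes to infinity.
-/

namespace Pool.Agent.FloorDiag

/-- An elevator: its marked point, the floor where it starts, the floor where it ends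
(`none` if the elevator is unbounded), its weight. -/
structure Elev where
  pt : ℕ
  src : ℕ
  tgt : Option ℕ
  wt : ℕ
deriving DecidableEq

/-- A system of floors and elevators. -/
structure Dgm where
  F : Finset ℕ
  E : Finset Elev
deriving DecidableEq

namespace Dgm

/-- the marked points -/
def pts (D : Dgm) : Finset ℕ := D.F ∪ D.E.image Elev.pt

/-- divergence at the floor `f`: total weight of the elevators starting at `f` minus total weight
of the elevators ending at `f` -/
def div (D : Dgm) (f : ℕ) : ℤ :=
  (∑ e ∈ D.E.filter (fun e => e.src = f), (e.wt : ℤ)) -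
    ∑ e ∈ D.E.filter (fun e => e.tgt = some f), (e.wt : ℤ)

/-- the multiplicity: the product of the squares of the weights -/
def mult (D : Dgm) : ℕ := ∏ e ∈ D.E, e.wt ^ 2

/-- every marked point is one floor or lies on one elevator; every elevator starts at a floor
before its marked point, ends at a floor after it or is unbounded (of weight 1) -/
structure Valid (D : Dgm) : Prop where
  inj : ∀ e ∈ D.E, ∀ e' ∈ D.E, e.pt = e'.pt → e = e'
  disj : ∀ e ∈ D.E, e.pt ∉ D.F
  src_mem : ∀ e ∈ D.E, e.src ∈ D.F
  src_lt : ∀ e ∈ D.E, e.src < e.pt
  tgt_mem : ∀ e ∈ D.E, ∀ q, e.tgt = some q → q ∈ D.F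
  tgt_lt : ∀ e ∈ D.E, ∀ q, e.tgt = some q → e.pt < q
  wt_pos : ∀ e ∈ D.E, 1 ≤ e.wt
  wt_end : ∀ e ∈ D.E, e.tgt = none → e.wt = 1

/-- `X` is a union of connected components -/
def Closed (D : Dgm) (X : Set ℕ) : Prop :=
  ∀ e ∈ D.E, (e.pt ∈ X ↔ e.src ∈ X) ∧ ∀ q, e.tgt = some q → (e.pt ∈ X ↔ q ∈ X)

/-- the diagram is connected -/
def Conn (D : Dgm) : Prop :=
  ∀ X : Set ℕ, D.Closed X → (∃ x ∈ D.pts, x ∈ X) → ∀ y ∈ D.pts, y ∈ X

end Dgm

/-- `D` is a marked floor diagram of degree `d` and genus `g` on the points
`0, ..., 3 d - 2 + g`: connected, `d` floors, divergence 1 at every floor. (A connected diagram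
with `d` floors, all of divergence 1, has `d` unbounded elevators, so the number of points
`3 d - 1 + g` says that the first Betti number is `g`.) -/
structure IsMarked (g d : ℕ) (D : Dgm) : Prop where
  valid : D.Valid
  pts : D.pts = Finset.range (3 * d - 1 + g)
  card : D.F.card = d
  conn : D.Conn
  div : ∀ f ∈ D.F, D.div f = 1

/-- The number of marked floor diagrams of degree `d` and genus `g`, counted with multiplicity.
By the theorem of Brugalle and Mikhalkin it is the number `N_{g,d}` of irreducible plane curves
of degree `d` and genus `g` through `3 d - 1 + g` general points. -/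
noncomputable def N (g d : ℕ) : ℕ := ∑ᶠ (D : Dgm) (_ : IsMarked g d D), D.mult

end Pool.Agent.FloorDiag
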