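import Pool.Agent.Lib.MP_6aab98_ag.MergeN

/-! # MP_6aab98_ag: existence of the limit -/

namespace Pool.Agent.FloorDiag

open Finset Filter Topology
open scoped ENNReal NNReal Nat

theorem pchain {a : ℕ → ℝ} {A : ℝ} (hA : 0 < A) {s : ℕ} (hnn : ∀ m, 2 ≤ m → 0 ≤ a m)
    (h : ∀ m n, 2 ≤ m → 2 ≤ n → a m * a n ≤ A * ((m + n : ℕ) : ℝ) ^ s * a (m + n)) {m : ℕ}
    (hm : 2 ≤ m) : ∀ q : ℕ, 1 ≤ q →
    A * (m : ℝ) ^ s * (16 / 3) ^ s * (q : ℝ) ^ s * (a m / (A * (m : ℝ) ^ s * (16 / 3) ^ s)) ^ q ≤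
      a (q * m) := by
  have hmR : (0 : ℝ) < m := by exact_mod_cast (show 0 < m by omega)
  set K : ℝ := A * (m : ℝ) ^ s * (16 / 3) ^ s with hK
  have hKpos : 0 < K := by positivity
  set y : ℝ := a m / K with hy
  have hy0 : 0 ≤ y := div_nonneg (hnn m hm) hKpos.le
  intro q
  induction q using Nat.strong_induction_on with
  | _ q ih =>
    intro hq
    rcases Nat.lt_or_ge q 2 with h2 | h2
    · have : q = 1 := by omega
      subst this
      have e1 : K * ((1 : ℕ) : ℝ) ^ s * y ^ 1 = a m := by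
        rw [hy]; push_cast; rw [one_pow]; field_simp
      rw [e1, one_mul]
    · set q1 := q / 2 with hq1
      set q2 := q - q / 2 with hq2
      have hsum : q1 + q2 = q := by omega
      have hq1pos : 1 ≤ q1 := by omega
      have hq2pos : 1 ≤ q2 := by omega
      have i1 := ih q1 (by omega) hq1pos
      have i2 := ih q2 (by omega) hq2pos
      have cq : (2 : ℝ) ≤ q := by exact_mod_cast h2
      have cq1 : (1 : ℝ) ≤ q1 := by exact_mod_cast hq1pos
      have cq2 : (1 : ℝ) ≤ q2 := by exact_mod_cast hq2pos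
      have csum : (q1 : ℝ) + q2 = q := by exact_mod_cast hsum
      have c2q2 : 2 * (q2 : ℝ) ≤ q + 1 := by exact_mod_cast (show 2 * q2 ≤ q + 1 by omega)
      have cq12 : (q1 : ℝ) ≤ q2 := by exact_mod_cast (show q1 ≤ q2 by omega)
      have hprod : 3 / 16 * (q : ℝ) ^ 2 ≤ q1 * q2 := by
        have : (q2 : ℝ) - q1 ≤ 1 := by linarith
        nlinarith
      have hm1 : 2 ≤ q1 * m := le_trans hm (Nat.le_mul_of_pos_left m (by omega))
      have hm2 : 2 ≤ q2 * m := le_trans hm (Nat.le_mul_of_pos_left m (by omega))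
      have hsup := h (q1 * m) (q2 * m) hm1 hm2
      rw [← Nat.add_mul, hsum] at hsup
      have g1 : 0 ≤ K * (q1 : ℝ) ^ s * y ^ q1 := by positivity
      have g2 : 0 ≤ K * (q2 : ℝ) ^ s * y ^ q2 := by positivity
      have j1 : (K * (q1 : ℝ) ^ s * y ^ q1) * (K * (q2 : ℝ) ^ s * y ^ q2) ≤
          A * ((q * m : ℕ) : ℝ) ^ s * a (q * m) := by
        refine le_trans ?_ hsup
        exact mul_le_mul i1 i2 g2 (g1.trans i1)
      have hP : 0 < A * ((q * m : ℕ) : ℝ) ^ s := by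
        have : (0 : ℝ) < ((q * m : ℕ) : ℝ) := by
          push_cast
          positivity
        positivity
      refine le_of_mul_le_mul_left (le_trans ?_ j1) hP
      have hyq : y ^ q = y ^ q1 * y ^ q2 := by rw [← pow_add, hsum]
      have e1 : (3 / 16 * (q : ℝ) ^ 2) ^ s ≤ ((q1 : ℝ) * q2) ^ s := by gcongr
      calc A * ((q * m : ℕ) : ℝ) ^ s * (K * (q : ℝ) ^ s * y ^ q)
          = K * K * (3 / 16 * (q : ℝ) ^ 2) ^ s * (y ^ q1 * y ^ q2) := by
            have e2 : (3 / 16 * (q : ℝ) ^ 2) ^ s * K = A * (m : ℝ) ^ s * ((q : ℝ) ^ s * (q : ℝ) ^ s) := by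
              rw [hK, mul_pow]
              have e3 : ((3 : ℝ) / 16) ^ s * (16 / 3) ^ s = 1 := by
                rw [← mul_pow]; norm_num
              have e4 : ((q : ℝ) ^ 2) ^ s = (q : ℝ) ^ s * (q : ℝ) ^ s := by
                rw [← mul_pow]; ring
              rw [e4]
              linear_combination A * (m : ℝ) ^ s * ((q : ℝ) ^ s * (q : ℝ) ^ s) * e3
            rw [hyq]
            push_cast
            rw [mul_pow]
            linear_combination (-K * (y ^ q1 * y ^ q2)) * e2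
        _ ≤ K * K * ((q1 : ℝ) * q2) ^ s * (y ^ q1 * y ^ q2) := by gcongr
        _ = _ := by rw [mul_pow]; ring

theorem poly_exp {β β' : ℝ} (h0 : 0 < β) (h : β < β') (k : ℕ) (C : ℝ) :
    ∀ᶠ d : ℕ in atTop, C * ((d + 1 : ℕ) : ℝ) ^ k * β ^ d < β' ^ d := by
  have hβ' : 0 < β' := h0.trans h
  have h1 := tendsto_pow_const_mul_const_pow_of_abs_lt_one k (r := β / β')
    (by rw [abs_of_nonneg (by positivity), div_lt_one hβ']; exact h)
  have h2 := (h1.const_mul (max C 0 * 2 ^ k))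
  rw [mul_zero] at h2
  filter_upwards [h2.eventually_lt_const zero_lt_one, eventually_ge_atTop 1] with d h3 h4
  have h5 : ((d + 1 : ℕ) : ℝ) ≤ 2 * d := by
    have : d + 1 ≤ 2 * d := by omega
    exact_mod_cast this
  calc C * ((d + 1 : ℕ) : ℝ) ^ k * β ^ d
      ≤ max C 0 * ((d + 1 : ℕ) : ℝ) ^ k * β ^ d := by
        gcongr
        exact le_max_left _ _
    _ ≤ max C 0 * (2 * d) ^ k * β ^ d := by gcongr
    _ = (max C 0 * 2 ^ k * ((d : ℝ) ^ k * (β / β') ^ d)) * β' ^ d := by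
        rw [div_pow, mul_pow]; field_simp
    _ < 1 * β' ^ d := by gcongr
    _ = _ := one_mul _

theorem a_merge : ∀ m n, 2 ≤ m → 2 ≤ n → cN 0 (m - 1) * cN 0 (n - 1) ≤
    (3 : ℝ) ^ 5 * ((m + n : ℕ) : ℝ) ^ 5 * cN 0 (m + n - 1) := by
  intro m n hm hn
  have h := cN_merge 0 0 (d1 := m - 1) (d2 := n - 1) (by omega) (by omega)
  rw [show m - 1 + (n - 1) + 1 = m + n - 1 by omega, add_zero, add_zero] at h
  refine h.trans ?_
  have h1 : ((3 * (m + n - 1) : ℕ) : ℝ) ≤ 3 * ((m + n : ℕ) : ℝ) := by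
    have : 3 * (m + n - 1) ≤ 3 * (m + n) := by omega
    exact_mod_cast this
  rw [← mul_pow]
  exact mul_le_mul_of_nonneg_right (pow_le_pow_left₀ (by positivity) h1 5) (cN_nonneg _ _)

theorem cN0_pos {d : ℕ} (hd : 1 ≤ d) : 0 < cN 0 d := by
  unfold cN
  have h1 : (0 : ℝ) < (N 0 d : ℝ) := by exact_mod_cast N0_pos d hd
  positivity

theorem freq_ev {x y : ℝ} (hx : 0 < x) (hxy : x < y) (h : ∃ᶠ d in atTop, y ^ d < cN 0 d) :
    ∀ᶠ d in atTop, x ^ d < cN 0 d := by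
  set x' := (x + y) / 2 with hx'
  have e1 : x < x' := by rw [hx']; linarith
  have e2 : x' < y := by rw [hx']; linarith
  have hx'0 : 0 < x' := hx.trans e1
  have hev := (poly_exp hx'0 e2 5 ((3 : ℝ) ^ 5 * (16 / 3) ^ 5 * x')).and (eventually_ge_atTop 1)
  obtain ⟨d, hd1, hd2, hd3⟩ := (h.and_eventually hev).exists
  set m := d + 1 with hm
  have hm2 : 2 ≤ m := by omega
  set K : ℝ := (3 : ℝ) ^ 5 * (m : ℝ) ^ 5 * (16 / 3) ^ 5 with hK
  have hmR : (0 : ℝ) < m := by exact_mod_cast (show 0 < m by omega)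
  have hKpos : 0 < K := by positivity
  have hchain := pchain (a := fun m => cN 0 (m - 1)) (A := (3 : ℝ) ^ 5) (by positivity) (s := 5)
    (fun m _ => cN_nonneg _ _) a_merge hm2
  rw [← hK] at hchain
  have hratio : x' ^ m ≤ cN 0 (m - 1) / K := by
    rw [le_div_iff₀ hKpos, show m - 1 = d by omega]
    refine le_trans (le_of_eq ?_) (hd2.le.trans hd1.le)
    rw [hK, hm, pow_succ]
    ring
  obtain ⟨ρ, hρ, hρb⟩ : ∃ ρ : ℝ, 0 < ρ ∧ ∀ r ∈ Icc 2 (m + 1), ρ ≤ cN 0 (r - 1) / x' ^ r := by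
    obtain ⟨r0, hr0, hmin⟩ := Finset.exists_min_image (Icc 2 (m + 1))
      (fun r => cN 0 (r - 1) / x' ^ r) ⟨2, mem_Icc.2 ⟨le_rfl, by omega⟩⟩
    refine ⟨cN 0 (r0 - 1) / x' ^ r0, ?_, hmin⟩
    have := cN0_pos (d := r0 - 1) (by have := (mem_Icc.1 hr0).1; omega)
    positivity
  filter_upwards [poly_exp hx e1 5 ((3 : ℝ) ^ 5 / (K * ρ * x')), eventually_ge_atTop (m + 1)]
    with d' h1 h2
  set n := d' + 1 with hn
  set q := (n - 2) / m with hq
  set r := n - q * m with hr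
  have hqm : q * m ≤ n - 2 := Nat.div_mul_le_self _ _
  have hqm' : n - 2 < q * m + m := by
    have := Nat.lt_div_mul_add (a := n - 2) (b := m) (by omega)
    exact this
  have hq1 : 1 ≤ q := (Nat.one_le_div_iff (by omega)).2 (by omega)
  have hr2 : 2 ≤ r := by omega
  have hrm : r ≤ m + 1 := by omega
  have hsum : q * m + r = n := by omega
  have hqm2 : 2 ≤ q * m := le_trans hm2 (Nat.le_mul_of_pos_left m (by omega))
  have b1 := a_merge (q * m) r hqm2 hr2
  rw [hsum] at b1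
  have b2 := hchain q hq1
  have b3 : K * x' ^ (q * m) ≤ cN 0 (q * m - 1) := by
    refine le_trans ?_ b2
    have hq1R : (1 : ℝ) ≤ (q : ℝ) ^ 5 := one_le_pow₀ (by exact_mod_cast hq1)
    have hpow : x' ^ (q * m) ≤ (cN 0 (m - 1) / K) ^ q := by
      rw [mul_comm q m, pow_mul]
      exact pow_le_pow_left₀ (by positivity) hratio q
    calc K * x' ^ (q * m) ≤ K * (cN 0 (m - 1) / K) ^ q := by gcongr
      _ = K * 1 * (cN 0 (m - 1) / K) ^ q := by ring
      _ ≤ K * (q : ℝ) ^ 5 * (cN 0 (m - 1) / K) ^ q := by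
          have : 0 ≤ (cN 0 (m - 1) / K) ^ q := pow_nonneg (div_nonneg (cN_nonneg _ _) hKpos.le) q
          gcongr
  have b4 := hρb r (mem_Icc.2 ⟨hr2, hrm⟩)
  rw [le_div_iff₀ (by positivity)] at b4
  have b5 : K * ρ * x' ^ n ≤ (3 : ℝ) ^ 5 * (n : ℝ) ^ 5 * cN 0 (n - 1) := by
    refine le_trans ?_ b1
    calc K * ρ * x' ^ n = (K * x' ^ (q * m)) * (ρ * x' ^ r) := by
          rw [← hsum, pow_add]; ring
      _ ≤ _ := mul_le_mul b3 b4 (by positivity) (cN_nonneg _ _)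
  rw [show n - 1 = d' by omega] at b5
  have hnR : (0 : ℝ) < (n : ℝ) := by exact_mod_cast (show 0 < n by omega)
  have b6 : (0 : ℝ) < (3 : ℝ) ^ 5 * (n : ℝ) ^ 5 := by positivity
  refine lt_of_mul_lt_mul_left ?_ b6.le
  refine lt_of_lt_of_le ?_ b5
  have b7 : (3 : ℝ) ^ 5 / (K * ρ * x') * (n : ℝ) ^ 5 * x ^ d' < x' ^ d' := h1
  have b8 : 0 < K * ρ * x' := by positivity
  calc (3 : ℝ) ^ 5 * (n : ℝ) ^ 5 * x ^ d' =
        (K * ρ * x') * ((3 : ℝ) ^ 5 / (K * ρ * x') * (n : ℝ) ^ 5 * x ^ d') := by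
        field_simp
    _ < (K * ρ * x') * x' ^ d' := by gcongr
    _ = K * ρ * x' ^ n := by rw [hn, pow_succ]; ring

theorem lN_le_liminf0 : lN 0 ≤ liminf (fun d : ℕ => ENNReal.ofReal (rN 0 d)) atTop := by
  refine le_of_forall_lt_imp_le_of_dense fun c hc => ?_
  obtain ⟨y, hy1, hy2⟩ := exists_between hc
  obtain ⟨x, hx1, hx2⟩ := exists_between hy1
  have hyt : y ≠ ∞ := (hy2.trans_le le_top).ne
  have hxt : x ≠ ∞ := (hx2.trans_le le_top).ne
  have hx0 : 0 < x.toReal := ENNReal.toReal_pos (lt_of_le_of_lt zero_le hx1).ne' hxt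
  have hxy : x.toReal < y.toReal := (ENNReal.toReal_lt_toReal hxt hyt).2 hx2
  have h1 : ∃ᶠ d : ℕ in atTop, y < ENNReal.ofReal (rN 0 d) := frequently_lt_of_lt_limsup
    (by isBoundedDefault) hy2
  have h2 : ∃ᶠ d : ℕ in atTop, y.toReal ^ d < cN 0 d := by
    refine (h1.and_eventually (eventually_ge_atTop 1)).mono ?_
    rintro d ⟨hd1, hd2⟩
    have h4 : y.toReal < rN 0 d := by
      rw [← ENNReal.ofReal_lt_ofReal_iff_of_nonneg ENNReal.toReal_nonneg, ENNReal.ofReal_toReal hyt]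
      exact hd1
    rw [← rN_pow 0 hd2]
    exact pow_lt_pow_left₀ h4 ENNReal.toReal_nonneg (by omega)
  have h3 := freq_ev hx0 hxy h2
  refine le_liminf_of_le (by isBoundedDefault) ?_
  filter_upwards [h3, eventually_ge_atTop 1] with d hd1 hd2
  have h5 := lt_rN hd2 hd1
  refine hx1.le.trans ?_
  rw [← ENNReal.ofReal_toReal hxt]
  exact ENNReal.ofReal_le_ofReal h5.le

theorem liminf_mono (g : ℕ) : liminf (fun d : ℕ => ENNReal.ofReal (rN g d)) atTop ≤
    liminf (fun d : ℕ => ENNReal.ofReal (rN (g + 1) d)) atTop := by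
  refine le_of_forall_lt_imp_le_of_dense fun c hc => ?_
  obtain ⟨y, hy1, hy2⟩ := exists_between hc
  obtain ⟨x, hx1, hx2⟩ := exists_between hy1
  have hyt : y ≠ ∞ := (hy2.trans_le le_top).ne
  have hxt : x ≠ ∞ := (hx2.trans_le le_top).ne
  have hx0 : 0 < x.toReal := ENNReal.toReal_pos (lt_of_le_of_lt zero_le hx1).ne' hxt
  have hxy : x.toReal < y.toReal := (ENNReal.toReal_lt_toReal hxt hyt).2 hx2
  have h1 : ∀ᶠ d : ℕ in atTop, y < ENNReal.ofReal (rN g d) := eventually_lt_of_lt_liminf hy2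
    (by isBoundedDefault)
  have h2 := lower_step (g := g) hx0 hxy
  obtain ⟨M, hM⟩ := eventually_atTop.1 (h1.and h2)
  refine le_liminf_of_le (by isBoundedDefault) ?_
  filter_upwards [eventually_ge_atTop (M + 2)] with d hd
  obtain ⟨hd1, hd2⟩ := hM (d - 2) (by omega)
  have h4 : y.toReal < rN g (d - 2) := by
    rw [← ENNReal.ofReal_lt_ofReal_iff_of_nonneg ENNReal.toReal_nonneg, ENNReal.ofReal_toReal hyt]
    exact hd1
  have h5 := hd2 h4
  rw [show d - 2 + 2 = d by omega] at h5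
  refine hx1.le.trans ?_
  rw [← ENNReal.ofReal_toReal hxt]
  exact ENNReal.ofReal_le_ofReal h5.le

/-- the limit exists in `[0, ∞]` for every genus and is the same -/
theorem tendsto_all (g : ℕ) :
    Tendsto (fun d : ℕ => ENNReal.ofReal (rN g d)) atTop (𝓝 (lN 0)) := by
  refine tendsto_of_le_liminf_of_limsup_le ?_ (lN_eq g).le
  induction g with
  | zero => exact lN_le_liminf0
  | succ g ih => exact ih.trans (liminf_mono g)

theorem lN_pos : 0 < lN 0 := by
  set K : ℝ := (3 : ℝ) ^ 5 * ((2 : ℕ) : ℝ) ^ 5 * (16 / 3) ^ 5 with hK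
  have hKpos : 0 < K := by positivity
  have hchain := pchain (a := fun m => cN 0 (m - 1)) (A := (3 : ℝ) ^ 5) (by positivity) (s := 5)
    (fun m _ => cN_nonneg _ _) a_merge (m := 2) le_rfl
  rw [← hK] at hchain
  have hc1 : 0 < cN 0 (2 - 1) := cN0_pos le_rfl
  set z : ℝ := min 1 (cN 0 (2 - 1) / K) with hz
  have hz0 : 0 < z := lt_min one_pos (div_pos hc1 hKpos)
  have hz1 : z ≤ 1 := min_le_left _ _
  have hz2 : z ≤ cN 0 (2 - 1) / K := min_le_right _ _
  set y : ℝ := z / 2 with hy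
  have hy0 : 0 < y := by positivity
  have hy1 : y < 1 := by rw [hy]; linarith
  have hfr : ∃ᶠ d : ℕ in atTop, y ^ d < cN 0 d := by
    rw [frequently_atTop]
    intro M
    have ht : Tendsto (fun q : ℕ => (2 : ℝ) ^ q) atTop atTop :=
      tendsto_pow_atTop_atTop_of_one_lt one_lt_two
    obtain ⟨q, hq1, hq2⟩ := ((ht.eventually_gt_atTop (1 / (K * y))).and
      (eventually_ge_atTop (M + 1))).exists
    refine ⟨2 * q - 1, by omega, ?_⟩
    have b2 := hchain q (by omega)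
    rw [mul_comm q 2] at b2
    refine lt_of_lt_of_le ?_ b2
    have hq1R : (1 : ℝ) ≤ (q : ℝ) ^ 5 := one_le_pow₀ (by exact_mod_cast (show 1 ≤ q by omega))
    have e1 : z ^ q ≤ (cN 0 (2 - 1) / K) ^ q := pow_le_pow_left₀ hz0.le hz2 q
    have e2 : y ^ (2 * q - 1) * y = y ^ (2 * q) := by
      rw [← pow_succ]; congr 1; omega
    have e3 : y ^ (2 * q) ≤ y ^ q := pow_le_pow_of_le_one hy0.le hy1.le (by omega)
    have e4 : z ^ q = 2 ^ q * y ^ q := by rw [hy, div_pow]; field_simp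
    have e5 : 1 < K * y * 2 ^ q := by
      rw [div_lt_iff₀ (by positivity)] at hq1
      linarith
    have e6 : 0 < y ^ q := pow_pos hy0 q
    have e7 : y ^ (2 * q - 1) < K * z ^ q := by
      refine lt_of_mul_lt_mul_right ?_ hy0.le
      rw [e2, e4]
      calc y ^ (2 * q) ≤ y ^ q := e3
        _ = 1 * y ^ q := (one_mul _).symm
        _ < (K * y * 2 ^ q) * y ^ q := by gcongr
        _ = _ := by ring
    calc y ^ (2 * q - 1) < K * z ^ q := e7
      _ ≤ K * (cN 0 (2 - 1) / K) ^ q := by gcongr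
      _ = K * 1 * (cN 0 (2 - 1) / K) ^ q := by ring
      _ ≤ K * (q : ℝ) ^ 5 * (cN 0 (2 - 1) / K) ^ q := by gcongr
  have h1 : ∃ᶠ d : ℕ in atTop, ENNReal.ofReal y ≤ ENNReal.ofReal (rN 0 d) := by
    refine (hfr.and_eventually (eventually_ge_atTop 1)).mono ?_
    rintro d ⟨hd1, hd2⟩
    exact ENNReal.ofReal_le_ofReal (lt_rN hd2 hd1).le
  refine lt_of_lt_of_le (ENNReal.ofReal_pos.2 hy0) ?_
  exact le_limsup_of_frequently_le h1 (by isBoundedDefault)

end Pool.Agent.FloorDiag
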