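import Mathlib

/-! # MP_6aab98_ag: a Fekete lemma with time shift -/

namespace Pool.Agent.FloorDiag

open Filter

/-- superadditivity with a time shift -/
structure Fek (f : ℕ → ℝ → ℝ) (δ : ℝ) : Prop where
  pos : 0 < δ
  nonneg : ∀ k t, 1 ≤ k → 0 ≤ t → t ≤ δ → 0 ≤ f k t
  mono : ∀ k t t', 1 ≤ k → 0 ≤ t → t ≤ t' → t' ≤ δ → f k t ≤ f k t'
  sup : ∀ a b t h, 1 ≤ a → 1 ≤ b → 0 ≤ t → 0 ≤ h → t + h ≤ δ →
    h ^ 2 / 2 * (f a t * f b t) ≤ f (a + b) (t + h)

theorem Fek.chain {f : ℕ → ℝ → ℝ} {δ : ℝ} (hf : Fek f δ) {m : ℕ} (hm : 1 ≤ m) :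
    ∀ q : ℕ, 1 ≤ q → 512 / δ ^ 2 * (q : ℝ) ^ 2 * (f m 0 / (512 / δ ^ 2)) ^ q ≤
      f (q * m) (δ * (1 - 1 / q)) := by
  have hδ := hf.pos
  set K : ℝ := 512 / δ ^ 2 with hK
  have hKpos : 0 < K := by positivity
  have hm0 : 0 ≤ f m 0 := hf.nonneg m 0 hm le_rfl hδ.le
  set y : ℝ := f m 0 / K with hy
  have hy0 : 0 ≤ y := div_nonneg hm0 hKpos.le
  intro q
  induction q using Nat.strong_induction_on with
  | _ q ih =>
    intro hq
    rcases Nat.lt_or_ge q 2 with h2 | h2
    · have : q = 1 := by omega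
      subst this
      have e1 : K * ((1 : ℕ) : ℝ) ^ 2 * y ^ 1 = f m 0 := by
        rw [hy]; push_cast; field_simp
      have e2 : δ * (1 - 1 / ((1 : ℕ) : ℝ)) = 0 := by push_cast; ring
      rw [e1, e2, one_mul]
    · set q1 := q / 2 with hq1
      set q2 := q - q / 2 with hq2
      have hq1pos : 1 ≤ q1 := by omega
      have hq12 : q1 ≤ q2 := by omega
      have hq2lt : q2 < q := by omega
      have hsum : q1 + q2 = q := by omega
      have h2q2 : 2 * q2 ≤ q + 1 := by omega
      have hq2pos : 1 ≤ q2 := by omega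
      have i1 := ih q1 (by omega) hq1pos
      have i2 := ih q2 hq2lt hq2pos
      have cq : (2 : ℝ) ≤ q := by exact_mod_cast h2
      have cq1 : (1 : ℝ) ≤ q1 := by exact_mod_cast hq1pos
      have cq2 : (1 : ℝ) ≤ q2 := by exact_mod_cast hq2pos
      have cq12 : (q1 : ℝ) ≤ q2 := by exact_mod_cast hq12
      have csum : (q1 : ℝ) + q2 = q := by exact_mod_cast hsum
      have c2q2 : 2 * (q2 : ℝ) ≤ q + 1 := by exact_mod_cast h2q2
      set s := fun x : ℝ => δ * (1 - 1 / x) with hs
      have hs1 : 0 ≤ s q1 := by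
        have : 1 / (q1 : ℝ) ≤ 1 := by rw [div_le_one (by linarith)]; exact cq1
        exact mul_nonneg hδ.le (by linarith)
      have hs12 : s q1 ≤ s q2 := by
        have : 1 / (q2 : ℝ) ≤ 1 / q1 := one_div_le_one_div_of_le (by linarith) cq12
        exact mul_le_mul_of_nonneg_left (by linarith) hδ.le
      have hs2 : 0 ≤ s q2 := hs1.trans hs12
      have hh : δ / (3 * q) ≤ s q - s q2 := by
        have e : s q - s q2 = δ * (1 / q2 - 1 / q) := by simp only [hs]; ring
        rw [e]
        have e2 : 1 / (3 * (q : ℝ)) ≤ 1 / q2 - 1 / q := by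
          rw [div_sub_div _ _ (by linarith) (by linarith), div_le_div_iff₀ (by positivity)
            (by positivity)]
          nlinarith
        calc δ / (3 * q) = δ * (1 / (3 * (q : ℝ))) := by ring
          _ ≤ _ := mul_le_mul_of_nonneg_left e2 hδ.le
      have hsq : s q ≤ δ := by
        have : 0 ≤ 1 / (q : ℝ) := by positivity
        calc s q = δ * (1 - 1 / q) := rfl
          _ ≤ δ * 1 := mul_le_mul_of_nonneg_left (by linarith) hδ.le
          _ = δ := mul_one δ
      have hs2δ : s q2 ≤ δ := by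
        have : 0 < δ / (3 * (q : ℝ)) := by positivity
        linarith
      have hm1 : 1 ≤ q1 * m := Nat.one_le_iff_ne_zero.2 (Nat.mul_ne_zero (by omega) (by omega))
      have hm2 : 1 ≤ q2 * m := Nat.one_le_iff_ne_zero.2 (Nat.mul_ne_zero (by omega) (by omega))
      have hpos3 : 0 < δ / (3 * (q : ℝ)) := by positivity
      have hsup := hf.sup (q1 * m) (q2 * m) (s q2) (s q - s q2) hm1 hm2 hs2 (by linarith)
        (by linarith)
      have e3 : s q2 + (s q - s q2) = s q := by ring
      rw [e3, ← Nat.add_mul, hsum] at hsup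
      have j1 : K * (q1 : ℝ) ^ 2 * y ^ q1 ≤ f (q1 * m) (s q2) :=
        i1.trans (hf.mono _ _ _ hm1 hs1 hs12 hs2δ)
      have j2 : K * (q2 : ℝ) ^ 2 * y ^ q2 ≤ f (q2 * m) (s q2) := i2
      have j3 : (δ / (3 * q)) ^ 2 / 2 ≤ (s q - s q2) ^ 2 / 2 := by gcongr
      have g1 : 0 ≤ K * (q1 : ℝ) ^ 2 * y ^ q1 := by positivity
      have g2 : 0 ≤ K * (q2 : ℝ) ^ 2 * y ^ q2 := by positivity
      refine le_trans ?_ hsup
      have j4 : (δ / (3 * q)) ^ 2 / 2 * ((K * (q1 : ℝ) ^ 2 * y ^ q1) * (K * (q2 : ℝ) ^ 2 * y ^ q2)) ≤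
          (s q - s q2) ^ 2 / 2 * (f (q1 * m) (s q2) * f (q2 * m) (s q2)) := by
        apply mul_le_mul j3 (mul_le_mul j1 j2 g2 (g1.trans j1)) (mul_nonneg g1 g2) (by positivity)
      refine le_trans ?_ j4
      have hyq : y ^ q = y ^ q1 * y ^ q2 := by rw [← pow_add, hsum]
      have hprod : 3 / 16 * (q : ℝ) ^ 2 ≤ q1 * q2 := by
        have : (q2 : ℝ) - q1 ≤ 1 := by linarith
        nlinarith
      have hprod2 : 9 / 256 * (q : ℝ) ^ 4 ≤ ((q1 : ℝ) * q2) ^ 2 := by
        have h0 : 0 ≤ 3 / 16 * (q : ℝ) ^ 2 := by positivity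
        calc 9 / 256 * (q : ℝ) ^ 4 = (3 / 16 * (q : ℝ) ^ 2) ^ 2 := by ring
          _ ≤ _ := by gcongr
      have hKd : K * δ ^ 2 = 512 := by rw [hK]; field_simp
      have hqpos : (0 : ℝ) < q := by linarith
      calc K * (q : ℝ) ^ 2 * y ^ q = (K * (9 / 256 * (q : ℝ) ^ 4) * (512 / (18 * (q : ℝ) ^ 2))) *
            (y ^ q1 * y ^ q2) := by
            rw [hyq]; field_simp; ring
        _ ≤ (K * ((q1 : ℝ) * q2) ^ 2 * (512 / (18 * (q : ℝ) ^ 2))) * (y ^ q1 * y ^ q2) := by
            gcongr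
        _ = (δ / (3 * q)) ^ 2 / 2 *
            ((K * (q1 : ℝ) ^ 2 * y ^ q1) * (K * (q2 : ℝ) ^ 2 * y ^ q2)) := by
            rw [← hKd]; field_simp; ring

/-- every index is reached without exponential loss -/
theorem Fek.compare {f : ℕ → ℝ → ℝ} {δ : ℝ} (hf : Fek f δ) {κ M : ℝ} (hκ : 0 < κ)
    (hlow : ∀ k, 1 ≤ k → κ ^ k ≤ f k 0) (hup : ∀ k, 1 ≤ k → f k 0 ≤ M ^ k) {E : ℝ} (hE : 1 < E) :
    ∃ C : ℝ, 0 < C ∧ ∀ a b : ℕ, f (a + b + 2) 0 ≤ C * E ^ (a + b) *
      ((if a = 0 then 1 else f a δ) * (if b = 0 then 1 else f b δ)) := by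
  have hδ := hf.pos
  set u : ℕ → ℝ := fun k => Real.log (f k 0) / k with hu
  have hfpos : ∀ k, 1 ≤ k → 0 < f k 0 := fun k hk => (pow_pos hκ k).trans_le (hlow k hk)
  have hMpos : 0 < M := by
    have h1 := hup 1 le_rfl
    have h2 := hfpos 1 le_rfl
    rw [pow_one] at h1
    linarith
  have hub : ∀ k, 1 ≤ k → u k ≤ Real.log M := by
    intro k hk
    have hk' : (0 : ℝ) < k := by exact_mod_cast hk
    simp only [hu]
    rw [div_le_iff₀ hk']
    calc Real.log (f k 0) ≤ Real.log (M ^ k) := Real.log_le_log (hfpos k hk) (hup k hk)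
      _ = Real.log M * k := by rw [Real.log_pow]; ring
  have hlb : ∀ k, 1 ≤ k → Real.log κ ≤ u k := by
    intro k hk
    have hk' : (0 : ℝ) < k := by exact_mod_cast hk
    simp only [hu]
    rw [le_div_iff₀ hk']
    calc Real.log κ * k = Real.log (κ ^ k) := by rw [Real.log_pow]; ring
      _ ≤ Real.log (f k 0) := Real.log_le_log (pow_pos hκ k) (hlow k hk)
  have hbdd : IsBoundedUnder (· ≤ ·) atTop u :=
    ⟨Real.log M, by
      rw [eventually_map]
      filter_upwards [eventually_ge_atTop 1] with k hk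
      exact hub k hk⟩
  have hbdd' : IsBoundedUnder (· ≥ ·) atTop u :=
    ⟨Real.log κ, by
      rw [eventually_map]
      filter_upwards [eventually_ge_atTop 1] with k hk
      exact hlb k hk⟩
  have hcob : IsCoboundedUnder (· ≤ ·) atTop u := hbdd'.isCoboundedUnder_le
  set L := limsup u atTop with hL
  set η := Real.log E / 3 with hη
  have hηpos : 0 < η := div_pos (Real.log_pos hE) (by norm_num)
  -- upper bound
  obtain ⟨C1, hC1, hC1b⟩ : ∃ C1 : ℝ, 1 ≤ C1 ∧ ∀ k : ℕ, 1 ≤ k → f k 0 ≤ C1 * Real.exp ((L + η) * k) := by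
    have h1 : ∀ᶠ k in atTop, u k < L + η :=
      eventually_lt_of_limsup_lt (by linarith) hbdd
    obtain ⟨N, hN⟩ := eventually_atTop.1 h1
    have h2 : ∀ k : ℕ, ∃ c : ℝ, 1 ≤ c ∧ (1 ≤ k → f k 0 ≤ c * Real.exp ((L + η) * k)) := by
      intro k
      refine ⟨max 1 (f k 0 / Real.exp ((L + η) * k)), le_max_left _ _, fun _ => ?_⟩
      calc f k 0 = f k 0 / Real.exp ((L + η) * k) * Real.exp ((L + η) * k) := by
            field_simp
        _ ≤ _ := mul_le_mul_of_nonneg_right (le_max_right _ _) (Real.exp_pos _).le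
    choose c hc1 hc2 using h2
    refine ⟨1 + ∑ k ∈ Finset.range (N + 1), c k, ?_, ?_⟩
    · have : 0 ≤ ∑ k ∈ Finset.range (N + 1), c k :=
        Finset.sum_nonneg fun k _ => zero_le_one.trans (hc1 k)
      linarith
    · intro k hk
      have hnn : ∀ j ∈ Finset.range (N + 1), 0 ≤ c j := fun j _ => zero_le_one.trans (hc1 j)
      by_cases hkN : k < N + 1
      · refine (hc2 k hk).trans (mul_le_mul_of_nonneg_right ?_ (Real.exp_pos _).le)
        have := Finset.single_le_sum hnn (Finset.mem_range.2 hkN)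
        linarith
      · have h3 := (hN k (by omega)).le
        have hk' : (0 : ℝ) < k := by exact_mod_cast hk
        simp only [hu] at h3
        rw [div_le_iff₀ hk'] at h3
        have h4 : f k 0 ≤ Real.exp ((L + η) * k) := by
          rw [← Real.exp_log (hfpos k hk)]
          exact Real.exp_le_exp.2 h3
        have h5 : 0 ≤ ∑ k ∈ Finset.range (N + 1), c k := Finset.sum_nonneg hnn
        calc f k 0 ≤ 1 * Real.exp ((L + η) * k) := by rw [one_mul]; exact h4
          _ ≤ _ := mul_le_mul_of_nonneg_right (by linarith) (Real.exp_pos _).le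
  -- lower bound
  obtain ⟨c2, hc2, hc2le, hc2b⟩ : ∃ c2 : ℝ, 0 < c2 ∧ c2 ≤ 1 ∧
      ∀ k : ℕ, 1 ≤ k → c2 * Real.exp ((L - 2 * η) * k) ≤ f k δ := by
    set δ' := δ / 2 with hδ'
    have hδ'pos : 0 < δ' := by positivity
    have hf' : Fek f δ' := by
      refine ⟨hδ'pos, fun k t hk h0 h1 => hf.nonneg k t hk h0 (by linarith),
        fun k t t' hk h0 h1 h2 => hf.mono k t t' hk h0 h1 (by linarith),
        fun a b t h ha hb h0 h1 h2 => hf.sup a b t h ha hb h0 h1 (by linarith)⟩
    set K : ℝ := 512 / δ' ^ 2 with hK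
    have hKpos : 0 < K := by positivity
    have h1 : ∃ᶠ m in atTop, L - η < u m := frequently_lt_of_lt_limsup hcob (by linarith)
    obtain ⟨m, hmu, hm⟩ := (h1.and_eventually
      (eventually_ge_atTop (max 1 ⌈Real.log K / η⌉₊))).exists
    have hm1 : 1 ≤ m := (le_max_left _ _).trans hm
    have hm2 : Real.log K ≤ η * m := by
      have : Real.log K / η ≤ m := (Nat.le_ceil _).trans (by
        exact_mod_cast (le_max_right _ _).trans hm)
      rw [div_le_iff₀ hηpos] at this
      linarith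
    have hmR : (0 : ℝ) < m := by exact_mod_cast hm1
    -- `f m 0 / K ≥ exp ((L - 2 η) m)`
    have hbase : Real.exp ((L - 2 * η) * m) ≤ f m 0 / K := by
      simp only [hu] at hmu
      rw [lt_div_iff₀ hmR] at hmu
      rw [le_div_iff₀ hKpos]
      have e1 : Real.exp ((L - 2 * η) * m) * K ≤ Real.exp ((L - η) * m) := by
        rw [← Real.exp_log hKpos, ← Real.exp_add]
        apply Real.exp_le_exp.2
        nlinarith
      refine e1.trans ?_
      rw [← Real.exp_log (hfpos m hm1)]
      exact Real.exp_le_exp.2 hmu.le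
    set κ0 := min κ 1 with hκ0
    have hκ0pos : 0 < κ0 := lt_min hκ one_pos
    have hκ01 : κ0 ≤ 1 := min_le_right _ _
    set A := |L - 2 * η| with hA
    have hA0 : 0 ≤ A := abs_nonneg _
    -- constant
    set c2 := min 1 K * min 1 (δ' ^ 2 / 2) * κ0 ^ m * Real.exp (-(A * m)) with hc2
    have hexple : Real.exp (-(A * m)) ≤ 1 := Real.exp_le_one_iff.2 (by
      have := mul_nonneg hA0 hmR.le; linarith)
    have hminK : 0 < min 1 K := lt_min one_pos hKpos
    have hminδ : 0 < min 1 (δ' ^ 2 / 2) := lt_min one_pos (by positivity)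
    have hκm : κ0 ^ m ≤ 1 := pow_le_one₀ hκ0pos.le hκ01
    have hκmpos : 0 < κ0 ^ m := pow_pos hκ0pos m
    refine ⟨c2, by positivity, ?_, ?_⟩
    · calc c2 ≤ 1 * 1 * 1 * 1 := by
            rw [hc2]
            gcongr
            · exact min_le_left _ _
            · exact min_le_left _ _
        _ = 1 := by norm_num
    · intro k hk
      obtain ⟨q, r, hkr, hr⟩ : ∃ q r, k = q * m + r ∧ r < m :=
        ⟨k / m, k % m, by rw [mul_comm]; exact (Nat.div_add_mod k m).symm,
          Nat.mod_lt _ (by omega)⟩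
      have hrm : (r : ℝ) ≤ m := by exact_mod_cast hr.le
      have hexpr : Real.exp (-(A * m)) * Real.exp ((L - 2 * η) * r) ≤ 1 := by
        rw [← Real.exp_add]
        apply Real.exp_le_one_iff.2
        have h3 : (L - 2 * η) * r ≤ A * r := mul_le_mul_of_nonneg_right (le_abs_self _) (by positivity)
        have h4 : A * r ≤ A * m := mul_le_mul_of_nonneg_left hrm hA0
        linarith
      have hlow' : ∀ j t, 1 ≤ j → j ≤ m → 0 ≤ t → t ≤ δ → κ0 ^ m ≤ f j t := by
        intro j t hj hjm ht0 ht1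
        calc κ0 ^ m ≤ κ0 ^ j := pow_le_pow_of_le_one hκ0pos.le hκ01 hjm
          _ ≤ κ ^ j := pow_le_pow_left₀ hκ0pos.le (min_le_left _ _) j
          _ ≤ f j 0 := hlow j hj
          _ ≤ f j t := hf.mono j 0 t hj le_rfl ht0 ht1
      rcases Nat.eq_zero_or_pos q with hq | hq
      · subst hq
        have hkr' : k = r := by omega
        subst hkr'
        calc c2 * Real.exp ((L - 2 * η) * k)
            = min 1 K * min 1 (δ' ^ 2 / 2) * κ0 ^ m *
              (Real.exp (-(A * m)) * Real.exp ((L - 2 * η) * k)) := by rw [hc2]; ring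
          _ ≤ 1 * 1 * κ0 ^ m * 1 := by
              gcongr
              · exact min_le_left _ _
              · exact min_le_left _ _
          _ = κ0 ^ m := by ring
          _ ≤ f k δ := hlow' k δ hk hr.le hδ.le le_rfl
      · have hch := hf'.chain hm1 q hq
        rw [← hK] at hch
        have hqR : (1 : ℝ) ≤ q := by exact_mod_cast hq
        have hs0 : 0 ≤ δ' * (1 - 1 / q) := by
          have : 1 / (q : ℝ) ≤ 1 := by rw [div_le_one (by linarith)]; exact hqR
          exact mul_nonneg hδ'pos.le (by linarith)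
        have hs1 : δ' * (1 - 1 / q) ≤ δ' := by
          have : 0 ≤ 1 / (q : ℝ) := by positivity
          calc δ' * (1 - 1 / q) ≤ δ' * 1 := mul_le_mul_of_nonneg_left (by linarith) hδ'pos.le
            _ = δ' := mul_one _
        have hqm1 : 1 ≤ q * m := Nat.one_le_iff_ne_zero.2 (Nat.mul_ne_zero (by omega) (by omega))
        have hmain : K * Real.exp ((L - 2 * η) * (q * m)) ≤ f (q * m) δ' := by
          refine le_trans ?_ (hch.trans (hf.mono _ _ _ hqm1 hs0 hs1 (by linarith)))
          have e1 : Real.exp ((L - 2 * η) * (q * m)) = Real.exp ((L - 2 * η) * m) ^ q := by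
            rw [← Real.exp_nat_mul]; congr 1; ring
          rw [e1]
          have e2 : (1 : ℝ) ≤ (q : ℝ) ^ 2 := one_le_pow₀ hqR
          calc K * Real.exp ((L - 2 * η) * m) ^ q
              ≤ K * (q : ℝ) ^ 2 * Real.exp ((L - 2 * η) * m) ^ q := by
                have : K ≤ K * (q : ℝ) ^ 2 := le_mul_of_one_le_right hKpos.le e2
                exact mul_le_mul_of_nonneg_right this (by positivity)
            _ ≤ K * (q : ℝ) ^ 2 * (f m 0 / K) ^ q := by gcongr
        have hkexp : Real.exp ((L - 2 * η) * k) =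
            Real.exp ((L - 2 * η) * (q * m)) * Real.exp ((L - 2 * η) * r) := by
          rw [← Real.exp_add]; congr 1; rw [hkr]; push_cast; ring
        have hfin : min 1 (δ' ^ 2 / 2) * κ0 ^ m * f (q * m) δ' ≤ f k δ := by
          have hfqm : 0 ≤ f (q * m) δ' := hf.nonneg _ _ hqm1 hδ'pos.le (by linarith)
          rcases Nat.eq_zero_or_pos r with hr0 | hr0
          · subst hr0
            rw [hkr, add_zero]
            calc min 1 (δ' ^ 2 / 2) * κ0 ^ m * f (q * m) δ' ≤ 1 * 1 * f (q * m) δ' := by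
                  gcongr
                  exact min_le_left _ _
              _ = f (q * m) δ' := by ring
              _ ≤ f (q * m) δ := hf.mono _ _ _ hqm1 hδ'pos.le (by linarith) le_rfl
          · have hsup := hf.sup (q * m) r δ' δ' hqm1 hr0 hδ'pos.le hδ'pos.le (by linarith)
            have e3 : δ' + δ' = δ := by rw [hδ']; ring
            rw [e3, ← hkr] at hsup
            refine le_trans ?_ hsup
            have e4 := hlow' r δ' hr0 hr.le hδ'pos.le (by linarith)
            calc min 1 (δ' ^ 2 / 2) * κ0 ^ m * f (q * m) δ'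
                ≤ (δ' ^ 2 / 2) * f r δ' * f (q * m) δ' := by
                  gcongr
                  exact min_le_right _ _
              _ = δ' ^ 2 / 2 * (f (q * m) δ' * f r δ') := by ring
        refine le_trans ?_ hfin
        calc c2 * Real.exp ((L - 2 * η) * k)
            = min 1 (δ' ^ 2 / 2) * κ0 ^ m * (min 1 K * Real.exp ((L - 2 * η) * (q * m))) *
              (Real.exp (-(A * m)) * Real.exp ((L - 2 * η) * r)) := by rw [hc2, hkexp]; ring
          _ ≤ min 1 (δ' ^ 2 / 2) * κ0 ^ m * (K * Real.exp ((L - 2 * η) * (q * m))) * 1 := by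
              gcongr
              exact min_le_right _ _
          _ ≤ min 1 (δ' ^ 2 / 2) * κ0 ^ m * f (q * m) δ' := by
              rw [mul_one]
              exact mul_le_mul_of_nonneg_left hmain (by positivity)
  have hlow2 : ∀ k : ℕ, c2 * Real.exp ((L - 2 * η) * k) ≤ (if k = 0 then 1 else f k δ) := by
    intro k
    by_cases hk : k = 0
    · subst hk
      simp only [if_true]
      simpa using hc2le
    · rw [if_neg hk]
      exact hc2b k (by omega)
  refine ⟨C1 * Real.exp ((L + η) * 2) / c2 ^ 2, by positivity, ?_⟩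
  intro a b
  have h1 := hC1b (a + b + 2) (by omega)
  have h2 := hlow2 a
  have h3 := hlow2 b
  have h4 : c2 ^ 2 * Real.exp ((L - 2 * η) * (a + b)) ≤
      (if a = 0 then 1 else f a δ) * (if b = 0 then 1 else f b δ) := by
    calc c2 ^ 2 * Real.exp ((L - 2 * η) * (a + b))
        = (c2 * Real.exp ((L - 2 * η) * a)) * (c2 * Real.exp ((L - 2 * η) * b)) := by
          have : Real.exp ((L - 2 * η) * (a + b)) =
              Real.exp ((L - 2 * η) * a) * Real.exp ((L - 2 * η) * b) := by
            rw [← Real.exp_add]; congr 1; ring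
          rw [this]; ring
      _ ≤ _ := by
          apply mul_le_mul h2 h3 (by positivity)
          exact le_trans (by positivity) h2
  have hE0 : 0 < E := by linarith
  have hEpow : E ^ (a + b) = Real.exp (3 * η * (a + b)) := by
    have : 3 * η = Real.log E := by rw [hη]; ring
    rw [this]
    have h5 : (a : ℝ) + b = ((a + b : ℕ) : ℝ) := by push_cast; ring
    rw [h5, mul_comm, Real.exp_nat_mul, Real.exp_log hE0]
  calc f (a + b + 2) 0 ≤ C1 * Real.exp ((L + η) * ((a + b + 2 : ℕ) : ℝ)) := h1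
    _ = C1 * Real.exp ((L + η) * 2) / c2 ^ 2 * E ^ (a + b) *
        (c2 ^ 2 * Real.exp ((L - 2 * η) * (a + b))) := by
        rw [hEpow]
        have e1 : Real.exp ((L + η) * ((a + b + 2 : ℕ) : ℝ)) =
            Real.exp ((L + η) * 2) * (Real.exp (3 * η * (a + b)) *
              Real.exp ((L - 2 * η) * (a + b))) := by
          rw [← Real.exp_add, ← Real.exp_add]; congr 1; push_cast; ring
        rw [e1]
        field_simp
    _ ≤ _ := mul_le_mul_of_nonneg_left h4 (by positivity)

end Pool.Agent.FloorDiag
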