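import Pool.Agent.Lib.MP_6aab98_ag.Grid

/-! # MP_6aab98_ag: finiteness, the numbers `N g d` -/

namespace Pool.Agent.FloorDiag

open Finset
open scoped ENNReal NNReal Nat

namespace Dgm

variable {D : Dgm}

/-- the weight of an elevator is at most the number of floors -/
theorem wt_le (hv : D.Valid) (hd : ∀ f ∈ D.F, D.div f = 1) {e : Elev} (he : e ∈ D.E) :
    e.wt ≤ D.F.card := by
  set S := D.F.filter (fun f => f < e.pt) with hS
  have h1 : ∑ f ∈ S, D.div f = (S.card : ℤ) := by
    rw [sum_congr rfl (fun f hf => hd f (mem_filter.1 hf).1), sum_const, nsmul_eq_mul, mul_one]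
  have h2 : ∑ f ∈ S, D.div f = ∑ x ∈ D.E, ∑ f ∈ S, x.dv f := by
    simp_rw [div_eq_sum]
    rw [sum_comm]
  have hval : ∀ x ∈ D.E, ∑ f ∈ S, x.dv f =
      (if x.src ∈ S then (x.wt : ℤ) else 0) - ∑ f ∈ S, (if x.tgt = some f then (x.wt : ℤ) else 0) := by
    intro x _
    unfold Elev.dv
    rw [sum_sub_distrib, sum_ite_eq]
  have hnn : ∀ x ∈ D.E, 0 ≤ ∑ f ∈ S, x.dv f := by
    intro x hx
    rw [hval x hx]
    cases ht : x.tgt with
    | none =>
      simp only [reduceCtorEq, if_false, sum_const_zero, sub_zero]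
      split_ifs
      · positivity
      · exact le_rfl
    | some q =>
      simp only [Option.some.injEq]
      rw [sum_ite_eq]
      by_cases hq : q ∈ S
      · have hs : x.src ∈ S := by
          rw [hS, mem_filter] at hq ⊢
          have h3 := hv.src_lt x hx
          have h4 := hv.tgt_lt x hx q ht
          exact ⟨hv.src_mem x hx, by omega⟩
        rw [if_pos hq, if_pos hs, sub_self]
      · rw [if_neg hq, sub_zero]
        split_ifs
        · positivity
        · exact le_rfl
  have h3 : (e.wt : ℤ) = ∑ f ∈ S, e.dv f := by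
    rw [hval e he, if_pos (by rw [hS, mem_filter]; exact ⟨hv.src_mem e he, hv.src_lt e he⟩)]
    rw [sum_eq_zero, sub_zero]
    intro f hf
    rw [if_neg]
    intro ht
    have h4 := hv.tgt_lt e he f ht
    have h5 := (mem_filter.1 hf).2
    omega
  have h4 : (e.wt : ℤ) ≤ (S.card : ℤ) := by
    rw [← h1, h2, h3]
    exact single_le_sum hnn he
  have h5 : S.card ≤ D.F.card := card_filter_le _ _
  omega

end Dgm

theorem isMarked_iff {g d : ℕ} (hd : 1 ≤ d) (D : Dgm) :
    IsMarked g d D ↔ (D.pts = range (3 * d - 1 + g) ∧ Full g D) := by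
  constructor
  · intro h
    have h1 := h.valid.card_pts
    rw [h.pts, card_range, h.card] at h1
    have hc := h.card
    refine ⟨h.pts, h.valid, h.conn, h.div, by omega, ?_⟩
    rw [← card_pos]
    omega
  · rintro ⟨h1, h2⟩
    have h3 := h2.valid.card_pts
    rw [h1, card_range] at h3
    have h4 := h2.cnt
    exact ⟨h2.valid, h1, by omega, h2.conn, h2.div⟩

theorem finite_marked (g d : ℕ) : {D : Dgm | IsMarked g d D}.Finite := by
  set n := 3 * d - 1 + g with hn
  set B : Finset Elev := ((range n ×ˢ range n) ×ˢ (insertNone (range n) ×ˢ range (n + 1))).image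
    (fun x => (⟨x.1.1, x.1.2, x.2.1, x.2.2⟩ : Elev)) with hB
  set T : Finset Dgm := ((range n).powerset ×ˢ B.powerset).image
    (fun x => (⟨x.1, x.2⟩ : Dgm)) with hT
  apply Set.Finite.subset T.finite_toSet
  intro D hD
  have hD' : IsMarked g d D := hD
  rw [mem_coe, hT, mem_image]
  have hF : D.F ⊆ range n := by
    intro x hx
    have := Dgm.mem_pts_of_F hx
    rw [hD'.pts] at this
    exact this
  refine ⟨(D.F, D.E), ?_, rfl⟩
  rw [mem_product, mem_powerset, mem_powerset]
  refine ⟨hF, ?_⟩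
  intro e he
  rw [hB, mem_image]
  refine ⟨((e.pt, e.src), (e.tgt, e.wt)), ?_, rfl⟩
  simp only [mem_product]
  refine ⟨⟨?_, hF (hD'.valid.src_mem e he)⟩, ?_, ?_⟩
  · have := Dgm.mem_pts_of_E he
    rw [hD'.pts] at this
    exact this
  · rw [mem_insertNone]
    intro q hq
    exact hF (hD'.valid.tgt_mem e he q (by simpa using hq))
  · have h1 := Dgm.wt_le hD'.valid hD'.div he
    have h2 := card_le_card hF
    rw [card_range] at h2
    rw [mem_range]
    omega

theorem N_eq (g : ℕ) {d : ℕ} (hd : 1 ≤ d) : (N g d : ℝ≥0∞) = Nn g (3 * d - 1 + g) := by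
  classical
  have hfin := finite_marked g d
  have h1 : N g d = ∑ D ∈ hfin.toFinset, D.mult := by
    unfold N
    exact finsum_mem_eq_finite_toFinset_sum (fun D : Dgm => D.mult) hfin
  rw [h1, Nn_eq_ite, tsum_eq_sum (s := hfin.toFinset)]
  · push_cast
    apply sum_congr rfl
    intro D hD
    rw [if_pos]
    rw [← isMarked_iff hd]
    simpa using hD
  · intro D hD
    rw [if_neg]
    rw [← isMarked_iff hd]
    simpa using hD

theorem Nn_eq_zero {g n : ℕ} (h : ∀ d, 1 ≤ d → n ≠ 3 * d - 1 + g) : Nn g n = 0 := by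
  unfold Nn
  rw [ENNReal.tsum_eq_zero]
  rintro ⟨D, hD1, hD2⟩
  exfalso
  have h3 := hD2.valid.card_pts
  rw [hD1, card_range] at h3
  have h4 := hD2.cnt
  have h5 := card_pos.2 hD2.ne
  exact h D.F.card h5 (by omega)

theorem Fg_eq (g : ℕ) (lam : ℝ≥0) :
    Fg g lam = ∑' k : ℕ, (N g (k + 1) : ℝ≥0∞) * ex lam (3 * k + 1 + g) := by
  unfold Fg
  have hinj : Function.Injective (fun k : ℕ => 3 * k + 1 + g) := by
    intro a b h
    have : 3 * a + 1 + g = 3 * b + 1 + g := h
    omega
  rw [← hinj.tsum_eq]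
  · apply tsum_congr
    intro k
    rw [N_eq g (by omega), show 3 * (k + 1) - 1 + g = 3 * k + 1 + g + 1 by omega]
  · intro n hn
    rw [Function.mem_support] at hn
    by_contra hnot
    apply hn
    rw [Nn_eq_zero, zero_mul]
    intro d hd h
    apply hnot
    exact ⟨d - 1, by simp only; omega⟩

end Pool.Agent.FloorDiag
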