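import Pool.Agent.Lib.MP_6aab98_ag.Relabel

/-! # MP_6aab98_ag: generating functions, convolution -/

namespace Pool.Agent.FloorDiag

open Finset
open scoped ENNReal NNReal Nat

/-- `α^i / i!` -/
noncomputable def ex (α : ℝ≥0) (i : ℕ) : ℝ≥0∞ := ((α ^ i / (i ! : ℝ≥0) : ℝ≥0) : ℝ≥0∞)

/-- generating function -/
noncomputable def gf (a : ℕ → ℕ → ℝ≥0∞) (α β : ℝ≥0) : ℝ≥0∞ :=
  ∑' i, ∑' j, a i j * (ex α i * ex β j)

/-- binomial convolution -/
noncomputable def conv (a b : ℕ → ℕ → ℝ≥0∞) (i j : ℕ) : ℝ≥0∞ :=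
  ∑ k ∈ range (i + 1), ∑ l ∈ range (j + 1),
    ((i.choose k : ℝ≥0∞) * (j.choose l : ℝ≥0∞)) * (a k l * b (i - k) (j - l))

theorem ex_ne_top (α : ℝ≥0) (i : ℕ) : ex α i ≠ ∞ := ENNReal.coe_ne_top

theorem ex_zero (α : ℝ≥0) : ex α 0 = 1 := by simp [ex]

theorem ex_mono {α α' : ℝ≥0} (h : α ≤ α') (i : ℕ) : ex α i ≤ ex α' i := by
  unfold ex
  rw [ENNReal.coe_le_coe]
  gcongr

theorem choose_ex (α : ℝ≥0) {i k : ℕ} (h : k ≤ i) :
    (i.choose k : ℝ≥0∞) * ex α i = ex α k * ex α (i - k) := by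
  unfold ex
  rw [← ENNReal.coe_mul, ← ENNReal.coe_natCast, ← ENNReal.coe_mul]
  congr 1
  have h1 : (i.choose k : ℝ≥0) * (k ! : ℝ≥0) * ((i - k)! : ℝ≥0) = (i ! : ℝ≥0) := by
    exact_mod_cast Nat.choose_mul_factorial_mul_factorial h
  have h2 : ((k ! : ℕ) : ℝ≥0) ≠ 0 := by exact_mod_cast Nat.factorial_ne_zero k
  have h3 : (((i - k)! : ℕ) : ℝ≥0) ≠ 0 := by exact_mod_cast Nat.factorial_ne_zero (i - k)
  have h4 : ((i ! : ℕ) : ℝ≥0) ≠ 0 := by exact_mod_cast Nat.factorial_ne_zero i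
  have h5 : α ^ i = α ^ k * α ^ (i - k) := by rw [← pow_add]; congr 1; omega
  rw [div_mul_div_comm, mul_div_assoc', div_eq_div_iff h4 (mul_ne_zero h2 h3), h5, ← h1]
  ring

theorem cauchy (A B : ℕ → ℝ≥0∞) :
    ∑' n, ∑ k ∈ range (n + 1), A k * B (n - k) = (∑' n, A n) * ∑' n, B n := by
  have h1 : ∀ n, ∑ k ∈ range (n + 1), A k * B (n - k) =
      ∑' x : antidiagonal n, A x.1.1 * B x.1.2 := by
    intro n
    have h2 : ∑' x : antidiagonal n, A x.1.1 * B x.1.2 =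
        ∑ x ∈ antidiagonal n, A x.1 * B x.2 :=
      Finset.tsum_subtype (antidiagonal n) (fun x : ℕ × ℕ => A x.1 * B x.2)
    rw [h2]
    exact (Finset.Nat.sum_antidiagonal_eq_sum_range_succ (fun x y => A x * B y) n).symm
  calc ∑' n, ∑ k ∈ range (n + 1), A k * B (n - k)
      = ∑' n, ∑' x : antidiagonal n, A x.1.1 * B x.1.2 := tsum_congr h1
    _ = ∑' x : (Σ n, antidiagonal n), A x.2.1.1 * B x.2.1.2 :=
        (ENNReal.tsum_sigma' (fun x : (Σ n, antidiagonal n) => A x.2.1.1 * B x.2.1.2)).symm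
    _ = ∑' x : ℕ × ℕ, A x.1 * B x.2 :=
        Equiv.tsum_eq (Finset.HasAntidiagonal.sigmaAntidiagonalEquivProd (A := ℕ)) (fun x : ℕ × ℕ => A x.1 * B x.2)
    _ = ∑' n, ∑' m, A n * B m := ENNReal.tsum_prod'
    _ = (∑' n, A n) * ∑' n, B n := by
        simp_rw [ENNReal.tsum_mul_left, ENNReal.tsum_mul_right]

theorem gf_conv (a b : ℕ → ℕ → ℝ≥0∞) (α β : ℝ≥0) :
    gf (conv a b) α β = gf a α β * gf b α β := by
  unfold gf conv
  have h1 : ∀ i j, (∑ k ∈ range (i + 1), ∑ l ∈ range (j + 1),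
      ((i.choose k : ℝ≥0∞) * (j.choose l : ℝ≥0∞)) * (a k l * b (i - k) (j - l))) *
        (ex α i * ex β j) =
      ∑ k ∈ range (i + 1), ∑ l ∈ range (j + 1), (a k l * (ex α k * ex β l)) *
        (b (i - k) (j - l) * (ex α (i - k) * ex β (j - l))) := by
    intro i j
    rw [Finset.sum_mul]
    apply sum_congr rfl
    intro k hk
    rw [Finset.sum_mul]
    apply sum_congr rfl
    intro l hl
    have hk' : k ≤ i := by simpa [Nat.lt_succ_iff] using hk
    have hl' : l ≤ j := by simpa [Nat.lt_succ_iff] using hl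
    have e1 := choose_ex α hk'
    have e2 := choose_ex β hl'
    calc ((i.choose k : ℝ≥0∞) * (j.choose l : ℝ≥0∞)) * (a k l * b (i - k) (j - l)) *
          (ex α i * ex β j)
        = (((i.choose k : ℝ≥0∞) * ex α i) * ((j.choose l : ℝ≥0∞) * ex β j)) *
          (a k l * b (i - k) (j - l)) := by ring
      _ = _ := by rw [e1, e2]; ring
  simp_rw [h1]
  have h2 : ∀ i, ∑' j, ∑ k ∈ range (i + 1), ∑ l ∈ range (j + 1), (a k l * (ex α k * ex β l)) *
        (b (i - k) (j - l) * (ex α (i - k) * ex β (j - l))) =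
      ∑ k ∈ range (i + 1), (∑' l, a k l * (ex α k * ex β l)) *
        ∑' l, b (i - k) l * (ex α (i - k) * ex β l) := by
    intro i
    rw [Summable.tsum_finsetSum (fun _ _ => ENNReal.summable)]
    apply sum_congr rfl
    intro k _
    exact cauchy (fun l => a k l * (ex α k * ex β l))
      (fun l => b (i - k) l * (ex α (i - k) * ex β l))
  simp_rw [h2]
  exact cauchy (fun k => ∑' l, a k l * (ex α k * ex β l))
    (fun k => ∑' l, b k l * (ex α k * ex β l))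

theorem conv_subsets (a b : ℕ → ℕ → ℝ≥0∞) (S T : Finset ℕ) :
    ∑ I ∈ S.powerset, ∑ J ∈ T.powerset,
      a I.card J.card * b (S.card - I.card) (T.card - J.card) = conv a b S.card T.card := by
  have h1 : ∀ k, ∑ J ∈ T.powerset, a k J.card * b (S.card - k) (T.card - J.card) =
      ∑ l ∈ range (T.card + 1), (T.card.choose l : ℝ≥0∞) *
        (a k l * b (S.card - k) (T.card - l)) := by
    intro k
    rw [Finset.sum_powerset_apply_card (fun l => a k l * b (S.card - k) (T.card - l))]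
    simp only [nsmul_eq_mul]
  simp_rw [h1]
  rw [Finset.sum_powerset_apply_card (fun k => ∑ l ∈ range (T.card + 1), (T.card.choose l : ℝ≥0∞) *
        (a k l * b (S.card - k) (T.card - l)))]
  unfold conv
  apply sum_congr rfl
  intro k _
  rw [nsmul_eq_mul, Finset.mul_sum]
  apply sum_congr rfl
  intro l _
  ring

theorem gf_mono_ab {a b : ℕ → ℕ → ℝ≥0∞} (h : ∀ i j, a i j ≤ b i j) (α β : ℝ≥0) :
    gf a α β ≤ gf b α β := by
  unfold gf
  exact ENNReal.tsum_le_tsum fun i => ENNReal.tsum_le_tsum fun j => by gcongr; exact h i j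

theorem gf_mono {a : ℕ → ℕ → ℝ≥0∞} {α β α' β' : ℝ≥0} (h : α ≤ α') (h' : β ≤ β') :
    gf a α β ≤ gf a α' β' := by
  unfold gf
  exact ENNReal.tsum_le_tsum fun i => ENNReal.tsum_le_tsum fun j => by
    gcongr
    · exact ex_mono h i
    · exact ex_mono h' j

/-- one more point in a window of length `τ` -/
theorem ex_succ (α τ : ℝ≥0) (i : ℕ) : ex α i * τ ≤ ex (α + τ) (i + 1) := by
  unfold ex
  rw [← ENNReal.coe_mul, ENNReal.coe_le_coe]
  rw [← NNReal.coe_le_coe]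
  push_cast
  have h1 : ((i + 1 : ℕ) : ℝ) * (α : ℝ) ^ i * τ ≤ ((α : ℝ) + τ) ^ (i + 1) := by
    have hα := α.coe_nonneg
    have hτ := τ.coe_nonneg
    rw [add_pow]
    have : ((i + 1 : ℕ) : ℝ) * (α : ℝ) ^ i * τ =
        (α : ℝ) ^ i * (τ : ℝ) ^ (i + 1 - i) * ((i + 1).choose i : ℝ) := by
      rw [show i + 1 - i = 1 by omega, Nat.choose_succ_self_right]
      ring
    rw [this]
    exact Finset.single_le_sum (f := fun m => (α : ℝ) ^ m * (τ : ℝ) ^ (i + 1 - m) *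
      ((i + 1).choose m : ℝ)) (fun m _ => by positivity) (mem_range.2 (by omega))
  have h2 : (((i + 1)! : ℕ) : ℝ) = ((i + 1 : ℕ) : ℝ) * (i ! : ℝ) := by
    rw [Nat.factorial_succ]; push_cast; ring
  have h3 : (0 : ℝ) < (i ! : ℝ) := by exact_mod_cast Nat.factorial_pos i
  rw [h2, le_div_iff₀ (by positivity)]
  calc (α : ℝ) ^ i / (i ! : ℝ) * τ * (((i + 1 : ℕ) : ℝ) * (i ! : ℝ))
      = ((i + 1 : ℕ) : ℝ) * (α : ℝ) ^ i * τ := by field_simp
    _ ≤ _ := h1

theorem ex_succ_succ (α τ : ℝ≥0) (i : ℕ) : ex α i * (τ ^ 2 / 2 : ℝ≥0) ≤ ex (α + τ) (i + 2) := by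
  unfold ex
  rw [← ENNReal.coe_mul, ENNReal.coe_le_coe]
  rw [← NNReal.coe_le_coe]
  push_cast
  have h1 : (((i + 2 : ℕ) : ℝ) * ((i + 1 : ℕ) : ℝ) / 2) * (α : ℝ) ^ i * (τ : ℝ) ^ 2 ≤
      ((α : ℝ) + τ) ^ (i + 2) := by
    have hα := α.coe_nonneg
    have hτ := τ.coe_nonneg
    rw [add_pow]
    have hc : ((i + 2).choose i : ℝ) = ((i + 2 : ℕ) : ℝ) * ((i + 1 : ℕ) : ℝ) / 2 := by
      have : (i + 2).choose i = (i + 2).choose 2 := by
        rw [← Nat.choose_symm (show 2 ≤ i + 2 by omega)]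
        rfl
      rw [this, Nat.cast_choose_two]
      push_cast
      ring
    have : (((i + 2 : ℕ) : ℝ) * ((i + 1 : ℕ) : ℝ) / 2) * (α : ℝ) ^ i * (τ : ℝ) ^ 2 =
        (α : ℝ) ^ i * (τ : ℝ) ^ (i + 2 - i) * ((i + 2).choose i : ℝ) := by
      rw [show i + 2 - i = 2 by omega, hc]
      ring
    rw [this]
    exact Finset.single_le_sum (f := fun m => (α : ℝ) ^ m * (τ : ℝ) ^ (i + 2 - m) *
      ((i + 2).choose m : ℝ)) (fun m _ => by positivity) (mem_range.2 (by omega))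
  have h2 : (((i + 2)! : ℕ) : ℝ) = ((i + 2 : ℕ) : ℝ) * (((i + 1 : ℕ) : ℝ) * (i ! : ℝ)) := by
    rw [Nat.factorial_succ, Nat.factorial_succ]; push_cast; ring
  have h3 : (0 : ℝ) < (i ! : ℝ) := by exact_mod_cast Nat.factorial_pos i
  rw [h2, le_div_iff₀ (by positivity)]
  calc (α : ℝ) ^ i / (i ! : ℝ) * ((τ : ℝ) ^ 2 / 2) *
        (((i + 2 : ℕ) : ℝ) * (((i + 1 : ℕ) : ℝ) * (i ! : ℝ)))
      = (((i + 2 : ℕ) : ℝ) * ((i + 1 : ℕ) : ℝ) / 2) * (α : ℝ) ^ i * (τ : ℝ) ^ 2 := by field_simp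
    _ ≤ _ := h1

/-- shift of the first index by two -/
theorem gf_shift2 {a b : ℕ → ℕ → ℝ≥0∞} (h : ∀ i j, a i j ≤ b (i + 2) j) (α β τ : ℝ≥0) :
    gf a α β * (τ ^ 2 / 2 : ℝ≥0) ≤ gf b (α + τ) β := by
  unfold gf
  rw [← ENNReal.tsum_mul_right]
  calc ∑' i, (∑' j, a i j * (ex α i * ex β j)) * (τ ^ 2 / 2 : ℝ≥0)
      ≤ ∑' i, ∑' j, b (i + 2) j * (ex (α + τ) (i + 2) * ex β j) := by
        refine ENNReal.tsum_le_tsum fun i => ?_
        rw [← ENNReal.tsum_mul_right]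
        refine ENNReal.tsum_le_tsum fun j => ?_
        calc a i j * (ex α i * ex β j) * (τ ^ 2 / 2 : ℝ≥0)
            = a i j * ((ex α i * (τ ^ 2 / 2 : ℝ≥0)) * ex β j) := by ring
          _ ≤ _ := by
              gcongr
              · exact h i j
              · exact ex_succ_succ α τ i
    _ ≤ ∑' i, ∑' j, b i j * (ex (α + τ) i * ex β j) :=
        ENNReal.tsum_comp_le_tsum_of_injective (add_left_injective 2)
          (fun i => ∑' j, b i j * (ex (α + τ) i * ex β j))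

/-- shift of the second index by two -/
theorem gf_shift2' {a b : ℕ → ℕ → ℝ≥0∞} (h : ∀ i j, a i j ≤ b i (j + 2)) (α β τ : ℝ≥0) :
    gf a α β * (τ ^ 2 / 2 : ℝ≥0) ≤ gf b α (β + τ) := by
  unfold gf
  rw [← ENNReal.tsum_mul_right]
  refine ENNReal.tsum_le_tsum fun i => ?_
  rw [← ENNReal.tsum_mul_right]
  calc ∑' j, a i j * (ex α i * ex β j) * (τ ^ 2 / 2 : ℝ≥0)
      ≤ ∑' j, b i (j + 2) * (ex α i * ex (β + τ) (j + 2)) := by
        refine ENNReal.tsum_le_tsum fun j => ?_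
        calc a i j * (ex α i * ex β j) * (τ ^ 2 / 2 : ℝ≥0)
            = a i j * (ex α i * (ex β j * (τ ^ 2 / 2 : ℝ≥0))) := by ring
          _ ≤ _ := by
              gcongr
              · exact h i j
              · exact ex_succ_succ β τ j
    _ ≤ ∑' j, b i j * (ex α i * ex (β + τ) j) :=
        ENNReal.tsum_comp_le_tsum_of_injective (add_left_injective 2)
          (fun j => b i j * (ex α i * ex (β + τ) j))

/-- shift of the first index by one -/
theorem gf_shift1 {a b : ℕ → ℕ → ℝ≥0∞} (h : ∀ i j, a i j ≤ b (i + 1) j) (α β τ : ℝ≥0) :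
    gf a α β * τ ≤ gf b (α + τ) β := by
  unfold gf
  rw [← ENNReal.tsum_mul_right]
  calc ∑' i, (∑' j, a i j * (ex α i * ex β j)) * τ
      ≤ ∑' i, ∑' j, b (i + 1) j * (ex (α + τ) (i + 1) * ex β j) := by
        refine ENNReal.tsum_le_tsum fun i => ?_
        rw [← ENNReal.tsum_mul_right]
        refine ENNReal.tsum_le_tsum fun j => ?_
        calc a i j * (ex α i * ex β j) * τ
            = a i j * ((ex α i * τ) * ex β j) := by ring
          _ ≤ _ := by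
              gcongr
              · exact h i j
              · exact ex_succ α τ i
    _ ≤ ∑' i, ∑' j, b i j * (ex (α + τ) i * ex β j) :=
        ENNReal.tsum_comp_le_tsum_of_injective (add_left_injective 1)
          (fun i => ∑' j, b i j * (ex (α + τ) i * ex β j))

end Pool.Agent.FloorDiag
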