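import Pool.Agent.Lib.MP_6aab98_ag.Split

/-! # MP_6aab98_ag: elementary graph theory of systems of floors and elevators -/

namespace Pool.Agent.FloorDiag

open Finset

namespace Dgm

variable {D : Dgm}

/-- elevators of `W` starting in `W` -/
def inS (D : Dgm) (W : Finset ℕ) : Finset Elev := D.E.filter (fun e => e.pt ∈ W ∧ e.src ∈ W)

open Classical in
/-- elevators of `W` ending in `W` -/
noncomputable def inT (D : Dgm) (W : Finset ℕ) : Finset Elev :=
  D.E.filter (fun e => e.pt ∈ W ∧ ∃ q ∈ W, e.tgt = some q)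

/-- number of incidences inside `W` -/
noncomputable def inc (D : Dgm) (W : Finset ℕ) : ℕ := (D.inS W).card + (D.inT W).card

theorem mem_inS {W : Finset ℕ} {e : Elev} : e ∈ D.inS W ↔ e ∈ D.E ∧ e.pt ∈ W ∧ e.src ∈ W := by
  simp [inS]

theorem mem_inT {W : Finset ℕ} {e : Elev} :
    e ∈ D.inT W ↔ e ∈ D.E ∧ e.pt ∈ W ∧ ∃ q ∈ W, e.tgt = some q := by
  simp [inT]

/-- elevators of `W` at the floor `f` -/
def atF (D : Dgm) (W : Finset ℕ) (f : ℕ) : Finset Elev :=
  D.E.filter (fun e => e.pt ∈ W ∧ (e.src = f ∨ e.tgt = some f))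

theorem mem_atF {W : Finset ℕ} {f : ℕ} {e : Elev} :
    e ∈ D.atF W f ↔ e ∈ D.E ∧ e.pt ∈ W ∧ (e.src = f ∨ e.tgt = some f) := by
  simp [atF]

/-- every point of `C` has at least two neighbours in `C` -/
structure Dense (D : Dgm) (C : Finset ℕ) : Prop where
  sub : C ⊆ D.pts
  elev : ∀ e ∈ D.E, e.pt ∈ C → e.src ∈ C ∧ ∃ q ∈ C, e.tgt = some q
  fl : ∀ f ∈ D.F, f ∈ C → 2 ≤ (D.atF C f).card

open Classical in
/-- the largest dense set -/
noncomputable def core (D : Dgm) : Finset ℕ := (D.pts.powerset.filter (fun C => D.Dense C)).sup id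

theorem dense_le_core {C : Finset ℕ} (h : D.Dense C) : C ⊆ D.core := by
  classical
  have : id C ≤ D.core := Finset.le_sup (f := id) (by simp [h, h.sub])
  exact this

theorem core_dense : D.Dense D.core := by
  classical
  have hmem : ∀ x ∈ D.core, ∃ C, D.Dense C ∧ x ∈ C := by
    intro x hx
    unfold core at hx
    rw [Finset.mem_sup] at hx
    obtain ⟨C, hC, hx⟩ := hx
    simp only [mem_filter, mem_powerset] at hC
    exact ⟨C, hC.2, hx⟩
  refine ⟨?_, ?_, ?_⟩
  · intro x hx
    obtain ⟨C, hC, hx⟩ := hmem x hx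
    exact hC.sub hx
  · intro e he hx
    obtain ⟨C, hC, hx⟩ := hmem _ hx
    obtain ⟨h1, q, hq, h2⟩ := hC.elev e he hx
    exact ⟨dense_le_core hC h1, q, dense_le_core hC hq, h2⟩
  · intro f hf hx
    obtain ⟨C, hC, hx⟩ := hmem _ hx
    refine le_trans (hC.fl f hf hx) (card_le_card ?_)
    intro e he
    rw [mem_atF] at he ⊢
    exact ⟨he.1, dense_le_core hC he.2.1, he.2.2⟩

theorem Valid.pt_ne_src (hv : D.Valid) {e : Elev} (he : e ∈ D.E) : e.pt ≠ e.src :=
  (hv.src_lt e he).ne'

theorem Valid.pt_notF (hv : D.Valid) {e : Elev} (he : e ∈ D.E) {f : ℕ} (hf : f ∈ D.F) :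
    e.pt ≠ f := fun h => hv.disj e he (h ▸ hf)

/-- removing an elevator point with a missing end -/
theorem inc_erase_elev (hv : D.Valid) {W : Finset ℕ} {e : Elev} (he : e ∈ D.E)
    (hne : ¬ (e.src ∈ W ∧ ∃ q ∈ W, e.tgt = some q)) :
    D.inc W ≤ D.inc (W.erase e.pt) + 1 := by
  classical
  have h1 : D.inS W ⊆ D.inS (W.erase e.pt) ∪ (if e.src ∈ W then {e} else ∅) := by
    intro x hx
    rw [mem_inS] at hx
    by_cases hxe : x = e
    · subst hxe
      rw [if_pos hx.2.2]
      simp
    · apply mem_union_left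
      rw [mem_inS]
      refine ⟨hx.1, mem_erase.2 ⟨fun h => hxe (hv.inj x hx.1 e he h), hx.2.1⟩,
        mem_erase.2 ⟨fun h => ?_, hx.2.2⟩⟩
      exact hv.disj e he (h ▸ hv.src_mem x hx.1)
  have h2 : D.inT W ⊆ D.inT (W.erase e.pt) ∪
      (if ∃ q ∈ W, e.tgt = some q then {e} else ∅) := by
    intro x hx
    rw [mem_inT] at hx
    by_cases hxe : x = e
    · subst hxe
      rw [if_pos hx.2.2]
      simp
    · apply mem_union_left
      rw [mem_inT]
      obtain ⟨q, hq, hxq⟩ := hx.2.2
      refine ⟨hx.1, mem_erase.2 ⟨fun h => hxe (hv.inj x hx.1 e he h), hx.2.1⟩,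
        q, mem_erase.2 ⟨fun h => ?_, hq⟩, hxq⟩
      exact hv.disj e he (h ▸ hv.tgt_mem x hx.1 q hxq)
  have h3 := (card_le_card h1).trans (card_union_le _ _)
  have h4 := (card_le_card h2).trans (card_union_le _ _)
  unfold inc
  by_cases ha : e.src ∈ W
  · have hb : ¬ ∃ q ∈ W, e.tgt = some q := fun h => hne ⟨ha, h⟩
    rw [if_pos ha] at h3
    rw [if_neg hb] at h4
    simp only [card_singleton, card_empty] at h3 h4
    omega
  · rw [if_neg ha] at h3
    by_cases hb : ∃ q ∈ W, e.tgt = some q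
    · rw [if_pos hb] at h4
      simp only [card_singleton, card_empty] at h3 h4
      omega
    · rw [if_neg hb] at h4
      simp only [card_empty] at h3 h4
      omega

/-- the two kinds of elevators at a floor -/
theorem card_atF (hv : D.Valid) (W : Finset ℕ) (f : ℕ) :
    (D.atF W f).card = (D.E.filter (fun e => e.pt ∈ W ∧ e.src = f)).card +
      (D.E.filter (fun e => e.pt ∈ W ∧ e.tgt = some f)).card := by
  rw [← card_union_of_disjoint]
  · congr 1
    ext e
    simp only [mem_atF, mem_union, mem_filter]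
    tauto
  · rw [Finset.disjoint_left]
    intro e h1 h2
    simp only [mem_filter] at h1 h2
    have h3 := hv.src_lt e h1.1
    have h4 := hv.tgt_lt e h1.1 f h2.2.2
    omega

/-- removing a floor -/
theorem inc_erase_floor (hv : D.Valid) {W : Finset ℕ} {f : ℕ} (hf : f ∈ D.F) :
    D.inc W ≤ D.inc (W.erase f) + (D.atF W f).card := by
  have h1 : D.inS W ⊆ D.inS (W.erase f) ∪ D.E.filter (fun e => e.pt ∈ W ∧ e.src = f) := by
    intro x hx
    rw [mem_inS] at hx
    by_cases hxf : x.src = f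
    · apply mem_union_right
      simp only [mem_filter]
      exact ⟨hx.1, hx.2.1, hxf⟩
    · apply mem_union_left
      rw [mem_inS]
      exact ⟨hx.1, mem_erase.2 ⟨hv.pt_notF hx.1 hf, hx.2.1⟩, mem_erase.2 ⟨hxf, hx.2.2⟩⟩
  have h2 : D.inT W ⊆ D.inT (W.erase f) ∪ D.E.filter (fun e => e.pt ∈ W ∧ e.tgt = some f) := by
    intro x hx
    rw [mem_inT] at hx
    obtain ⟨q, hq, hxq⟩ := hx.2.2
    by_cases hxf : q = f
    · subst hxf
      apply mem_union_right
      simp only [mem_filter]
      exact ⟨hx.1, hx.2.1, hxq⟩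
    · apply mem_union_left
      rw [mem_inT]
      exact ⟨hx.1, mem_erase.2 ⟨hv.pt_notF hx.1 hf, hx.2.1⟩, q, mem_erase.2 ⟨hxf, hq⟩, hxq⟩
  have h3 := (card_le_card h1).trans (card_union_le _ _)
  have h4 := (card_le_card h2).trans (card_union_le _ _)
  have h5 := card_atF hv W f
  unfold inc
  omega

/-- a set which is not dense has a point with at most one neighbour -/
theorem exists_weak (hv : D.Valid) {W : Finset ℕ} (hW : W ⊆ D.pts) (hn : ¬ D.Dense W) :
    ∃ z ∈ W, D.inc W ≤ D.inc (W.erase z) + 1 ∧ ∀ C, D.Dense C → C ⊆ W → z ∉ C := by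
  by_contra hcon
  push Not at hcon
  apply hn
  refine ⟨hW, ?_, ?_⟩
  · intro e he hp
    by_contra h
    obtain ⟨C, hC, hCW, hz⟩ := hcon e.pt hp (inc_erase_elev hv he h)
    obtain ⟨h1, q, hq, h2⟩ := hC.elev e he hz
    exact h ⟨hCW h1, q, hCW hq, h2⟩
  · intro f hf hfW
    by_contra h
    push Not at h
    obtain ⟨C, hC, hCW, hz⟩ := hcon f hfW ((inc_erase_floor hv hf).trans (by omega))
    have h1 := hC.fl f hf hz
    have h2 : (D.atF C f).card ≤ (D.atF W f).card := by
      apply card_le_card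
      intro e he
      rw [mem_atF] at he ⊢
      exact ⟨he.1, hCW he.2.1, he.2.2⟩
    omega

/-- stripping down to the core -/
theorem strip (hv : D.Valid) : ∀ n (W : Finset ℕ), W.card = n → D.core ⊆ W → W ⊆ D.pts →
    D.inc W + D.core.card ≤ D.inc D.core + W.card := by
  intro n
  induction n with
  | zero =>
    intro W hn hC hW
    have : W = ∅ := card_eq_zero.1 hn
    subst this
    have : D.core = ∅ := subset_empty.1 hC
    rw [this]
  | succ n ih =>
    intro W hn hC hW
    by_cases hWC : W ⊆ D.core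
    · have : W = D.core := Subset.antisymm hWC hC
      rw [this]
    · have hnd : ¬ D.Dense W := fun h => hWC (dense_le_core h)
      obtain ⟨z, hz, h1, h2⟩ := exists_weak hv hW hnd
      have hz' := h2 _ core_dense hC
      have hcard : (W.erase z).card = n := by rw [card_erase_of_mem hz, hn]; rfl
      have := ih (W.erase z) hcard (fun x hx => mem_erase.2 ⟨fun h => hz' (h ▸ hx), hC hx⟩)
        ((erase_subset _ _).trans hW)
      omega

theorem inc_empty : D.inc ∅ = 0 := by
  unfold inc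
  have h1 : D.inS ∅ = ∅ := by
    ext e; simp [mem_inS]
  have h2 : D.inT ∅ = ∅ := by
    ext e; simp [mem_inT]
  rw [h1, h2]; rfl

theorem inc_singleton (hv : D.Valid) (z : ℕ) : D.inc {z} = 0 := by
  unfold inc
  have h1 : D.inS {z} = ∅ := by
    ext e
    simp only [mem_inS, mem_singleton, notMem_empty, iff_false]
    rintro ⟨he, h1, h2⟩
    exact hv.pt_ne_src he (h1.trans h2.symm)
  have h2 : D.inT {z} = ∅ := by
    ext e
    simp only [mem_inT, mem_singleton, notMem_empty, iff_false]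
    rintro ⟨he, h1, q, rfl, h3⟩
    have := hv.tgt_lt e he _ h3
    omega
  rw [h1, h2]; rfl

/-- without core: forest -/
theorem strip0 (hv : D.Valid) (h0 : D.core = ∅) : ∀ n (W : Finset ℕ), W.card = n + 1 →
    W ⊆ D.pts → D.inc W ≤ n := by
  intro n
  induction n with
  | zero =>
    intro W hn hW
    obtain ⟨z, rfl⟩ := card_eq_one.1 hn
    rw [inc_singleton hv]
  | succ n ih =>
    intro W hn hW
    have hnd : ¬ D.Dense W := by
      intro h
      have := dense_le_core h
      rw [h0, subset_empty] at this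
      rw [this] at hn
      simp at hn
    obtain ⟨z, hz, h1, _⟩ := exists_weak hv hW hnd
    have hcard : (W.erase z).card = n + 1 := by rw [card_erase_of_mem hz, hn]; rfl
    have := ih (W.erase z) hcard ((erase_subset _ _).trans hW)
    omega

/-- closed relatively to `Y`, up to one incidence -/
def ClosedIn (D : Dgm) (o : Option Elev) (Y : Finset ℕ) (Z : Set ℕ) : Prop :=
  ∀ e ∈ D.E, e.pt ∈ Y → (some e ≠ o → e.src ∈ Y → (e.pt ∈ Z ↔ e.src ∈ Z)) ∧
    ∀ q ∈ Y, e.tgt = some q → (e.pt ∈ Z ↔ q ∈ Z)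

/-- connected relatively to `Y` -/
def ConnIn (D : Dgm) (o : Option Elev) (Y : Finset ℕ) : Prop :=
  ∀ Z : Set ℕ, D.ClosedIn o Y Z → (∃ x ∈ Y, x ∈ Z) → ∀ y ∈ Y, y ∈ Z

theorem inS_mono {W W' : Finset ℕ} (h : W ⊆ W') : D.inS W ⊆ D.inS W' := by
  intro e he
  rw [mem_inS] at he ⊢
  exact ⟨he.1, h he.2.1, h he.2.2⟩

theorem inT_mono {W W' : Finset ℕ} (h : W ⊆ W') : D.inT W ⊆ D.inT W' := by
  intro e he
  rw [mem_inT] at he ⊢
  obtain ⟨q, hq, h3⟩ := he.2.2
  exact ⟨he.1, h he.2.1, q, h hq, h3⟩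

/-- growing inside a connected set -/
theorem growth {Y : Finset ℕ} (hc : D.ConnIn none Y) : ∀ n (W : Finset ℕ),
    W ⊆ Y → W.Nonempty → Y.card = W.card + n → D.inc W + n ≤ D.inc Y := by
  intro n
  induction n with
  | zero =>
    intro W hWY _ hn
    have : W = Y := eq_of_subset_of_card_le hWY (by omega)
    rw [this]; omega
  | succ n ih =>
    intro W hWY hne hn
    have hncl : ¬ D.ClosedIn none Y (W : Set ℕ) := by
      intro hcl
      obtain ⟨x, hx⟩ := hne
      have h1 := hc _ hcl ⟨x, hWY hx, hx⟩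
      have h2 : Y.card ≤ W.card := card_le_card (fun y hy => h1 y hy)
      omega
    -- there is a new point `z` adjacent to `W`
    have hz : ∃ z ∈ Y, z ∉ W ∧ D.inc W + 1 ≤ D.inc (insert z W) := by
      unfold ClosedIn at hncl
      push Not at hncl
      obtain ⟨e, he, hpY, h⟩ := hncl
      by_cases hs : e.src ∈ Y ∧ ¬ (e.pt ∈ W ↔ e.src ∈ W)
      · obtain ⟨hsY, hs⟩ := hs
        have hcount : ∀ z, e.pt ∈ insert z W → e.src ∈ insert z W →
            D.inc W + 1 ≤ D.inc (insert z W) := by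
          intro z h1 h2
          have h3 : D.inS W ⊂ D.inS (insert z W) := by
            rw [Finset.ssubset_iff_of_subset (inS_mono (subset_insert _ _))]
            refine ⟨e, mem_inS.2 ⟨he, h1, h2⟩, ?_⟩
            rw [mem_inS]
            rintro ⟨_, h4, h5⟩
            exact hs (iff_of_true h4 h5)
          have h4 := card_lt_card h3
          have h5 := card_le_card (inT_mono (D := D) (subset_insert z W))
          unfold inc
          omega
        by_cases hp : e.pt ∈ W
        · have hsW : e.src ∉ W := fun h => hs (iff_of_true hp h)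
          exact ⟨e.src, hsY, hsW, hcount _ (mem_insert_of_mem hp) (mem_insert_self _ _)⟩
        · have hsW : e.src ∈ W := by
            by_contra h
            exact hs (iff_of_false hp h)
          exact ⟨e.pt, hpY, hp, hcount _ (mem_insert_self _ _) (mem_insert_of_mem hsW)⟩
      · have hs' : some e ≠ none → e.src ∈ Y → (e.pt ∈ (W : Set ℕ) ↔ e.src ∈ (W : Set ℕ)) := by
          intro _ hsY
          by_contra h'
          exact hs ⟨hsY, h'⟩
        obtain ⟨q, hqY, hq, hne'⟩ := h hs'
        have hnot : ¬ (e.pt ∈ W ↔ q ∈ W) := by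
          rcases hne' with h1 | h1
          · intro h2
            exact h1.2 (h2.1 h1.1)
          · intro h2
            exact h1.1 (h2.2 h1.2)
        have hcount : ∀ z, e.pt ∈ insert z W → q ∈ insert z W →
            D.inc W + 1 ≤ D.inc (insert z W) := by
          intro z h1 h2
          have h3 : D.inT W ⊂ D.inT (insert z W) := by
            rw [Finset.ssubset_iff_of_subset (inT_mono (subset_insert _ _))]
            refine ⟨e, mem_inT.2 ⟨he, h1, q, h2, hq⟩, ?_⟩
            rw [mem_inT]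
            rintro ⟨_, h4, q', h5, h6⟩
            rw [hq] at h6
            cases h6
            exact hnot (iff_of_true h4 h5)
          have h4 := card_lt_card h3
          have h5 := card_le_card (inS_mono (D := D) (subset_insert z W))
          unfold inc
          omega
        by_cases hp : e.pt ∈ W
        · have hsW : q ∉ W := fun h => hnot (iff_of_true hp h)
          exact ⟨q, hqY, hsW, hcount _ (mem_insert_of_mem hp) (mem_insert_self _ _)⟩
        · have hsW : q ∈ W := by
            by_contra h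
            exact hnot (iff_of_false hp h)
          exact ⟨e.pt, hpY, hp, hcount _ (mem_insert_self _ _) (mem_insert_of_mem hsW)⟩
    obtain ⟨z, hzY, hzW, hzc⟩ := hz
    have := ih (insert z W) (insert_subset hzY hWY) (insert_nonempty _ _)
      (by rw [card_insert_of_notMem hzW]; omega)
    omega

open Classical in
/-- component of `v` in `Y` -/
noncomputable def comp (D : Dgm) (o : Option Elev) (Y : Finset ℕ) (v : ℕ) : Finset ℕ :=
  Y.filter (fun x => ∀ Z : Set ℕ, D.ClosedIn o Y Z → v ∈ Z → x ∈ Z)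

theorem mem_comp {o : Option Elev} {Y : Finset ℕ} {v x : ℕ} :
    x ∈ D.comp o Y v ↔ x ∈ Y ∧ ∀ Z : Set ℕ, D.ClosedIn o Y Z → v ∈ Z → x ∈ Z := by
  simp [comp]

theorem comp_self {o : Option Elev} {Y : Finset ℕ} {v : ℕ} (hv : v ∈ Y) : v ∈ D.comp o Y v :=
  mem_comp.2 ⟨hv, fun _ _ h => h⟩

theorem comp_sub {o : Option Elev} {Y : Finset ℕ} {v : ℕ} : D.comp o Y v ⊆ Y :=
  fun _ hx => (mem_comp.1 hx).1

theorem comp_src {o : Option Elev} {Y : Finset ℕ} {v : ℕ} {e : Elev} (he : e ∈ D.E)
    (ho : some e ≠ o) (h1 : e.pt ∈ Y) (h2 : e.src ∈ Y) :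
    e.pt ∈ D.comp o Y v ↔ e.src ∈ D.comp o Y v := by
  rw [mem_comp, mem_comp]
  constructor
  · rintro ⟨_, h⟩
    exact ⟨h2, fun Z hZ hvZ => ((hZ e he h1).1 ho h2).1 (h Z hZ hvZ)⟩
  · rintro ⟨_, h⟩
    exact ⟨h1, fun Z hZ hvZ => ((hZ e he h1).1 ho h2).2 (h Z hZ hvZ)⟩

theorem comp_tgt {o : Option Elev} {Y : Finset ℕ} {v q : ℕ} {e : Elev} (he : e ∈ D.E)
    (h1 : e.pt ∈ Y) (h2 : q ∈ Y) (hq : e.tgt = some q) :
    e.pt ∈ D.comp o Y v ↔ q ∈ D.comp o Y v := by
  rw [mem_comp, mem_comp]
  constructor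
  · rintro ⟨_, h⟩
    exact ⟨h2, fun Z hZ hvZ => ((hZ e he h1).2 q h2 hq).1 (h Z hZ hvZ)⟩
  · rintro ⟨_, h⟩
    exact ⟨h1, fun Z hZ hvZ => ((hZ e he h1).2 q h2 hq).2 (h Z hZ hvZ)⟩

theorem comp_conn {o : Option Elev} {Y : Finset ℕ} {v : ℕ} (hv : v ∈ Y) :
    D.ConnIn o (D.comp o Y v) := by
  have main : ∀ Z : Set ℕ, D.ClosedIn o (D.comp o Y v) Z → v ∈ Z →
      ∀ y ∈ D.comp o Y v, y ∈ Z := by
    intro Z hZ hvZ y hy
    have hcl : D.ClosedIn o Y {x | x ∈ D.comp o Y v → x ∈ Z} := by
      intro e he hp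
      constructor
      · intro ho hs
        have h1 := comp_src (v := v) he ho hp hs
        simp only [Set.mem_setOf_eq]
        constructor
        · intro h2 h3
          have h4 := h1.2 h3
          exact ((hZ e he h4).1 ho h3).1 (h2 h4)
        · intro h2 h3
          have h4 := h1.1 h3
          exact ((hZ e he h3).1 ho h4).2 (h2 h4)
      · intro q hq hqe
        have h1 := comp_tgt (o := o) (v := v) he hp hq hqe
        simp only [Set.mem_setOf_eq]
        constructor
        · intro h2 h3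
          have h4 := h1.2 h3
          exact ((hZ e he h4).2 q h3 hqe).1 (h2 h4)
        · intro h2 h3
          have h4 := h1.1 h3
          exact ((hZ e he h3).2 q h4 hqe).2 (h2 h4)
    exact (mem_comp.1 hy).2 _ hcl (fun _ => hvZ) hy
  intro Z hZ hx
  by_cases hvZ : v ∈ Z
  · exact main Z hZ hvZ
  · exfalso
    have hZc : D.ClosedIn o (D.comp o Y v) Zᶜ := by
      intro e he hp
      have := hZ e he hp
      refine ⟨fun ho hs => ?_, fun q hq hqe => ?_⟩
      · exact not_congr (this.1 ho hs)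
      · exact not_congr (this.2 q hq hqe)
    obtain ⟨x, hx1, hx2⟩ := hx
    exact (main Zᶜ hZc hvZ x hx1) hx2

end Dgm

end Pool.Agent.FloorDiag
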