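import Pool.Agent.Lib.MP_6aab98_ag.Classes

/-! # MP_6aab98_ag: from the certificates to all systems, induction on the genus -/

namespace Pool.Agent.FloorDiag

open Finset
open scoped ENNReal NNReal Nat

theorem fact_pow (i k : ℕ) : i ! * i ^ k ≤ k ! * i ^ i := by
  rcases le_total i k with h | h
  · have h1 : i ! * i ^ (k - i) ≤ k ! := Nat.factorial_mul_pow_sub_le_factorial h
    calc i ! * i ^ k = (i ! * i ^ (k - i)) * i ^ i := by
          rw [mul_assoc, ← pow_add]; congr 2; omega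
      _ ≤ k ! * i ^ i := by gcongr
  · have h2 : i ! ≤ k ! * i ^ (i - k) := by
      have h3 := Nat.factorial_mul_descFactorial (n := i) (k := i - k) (Nat.sub_le _ _)
      have h4 := Nat.descFactorial_le_pow i (i - k)
      rw [show i - (i - k) = k by omega] at h3
      rw [← h3]
      gcongr
    calc i ! * i ^ k ≤ (k ! * i ^ (i - k)) * i ^ k := by gcongr
      _ = k ! * i ^ i := by rw [mul_assoc, ← pow_add]; congr 2; omega

theorem unimodal (i j : ℕ) :
    (i + j) ^ (i + j) * (i ! * j !) ≤ (i + j + 1) * ((i + j)! * (i ^ i * j ^ j)) := by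
  have hC : (i + j).choose i * i ! * j ! = (i + j)! := by
    have := Nat.choose_mul_factorial_mul_factorial (n := i + j) (k := i) (by omega)
    rwa [show i + j - i = j by omega] at this
  have hterm : ∀ k ∈ range (i + j + 1), i ^ k * j ^ (i + j - k) * (i + j).choose k ≤
      (i + j).choose i * (i ^ i * j ^ j) := by
    intro k hk
    have hk' : k ≤ i + j := by have := mem_range.1 hk; omega
    have hCk := Nat.choose_mul_factorial_mul_factorial hk'
    have h1 := fact_pow i k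
    have h2 := fact_pow j (i + j - k)
    have hpos : 0 < i ! * j ! * (k ! * (i + j - k)!) := by positivity
    refine Nat.le_of_mul_le_mul_right ?_ hpos
    calc i ^ k * j ^ (i + j - k) * (i + j).choose k * (i ! * j ! * (k ! * (i + j - k)!))
        = ((i + j).choose k * k ! * (i + j - k)!) * ((i ! * i ^ k) * (j ! * j ^ (i + j - k))) := by
          ring
      _ = (i + j)! * ((i ! * i ^ k) * (j ! * j ^ (i + j - k))) := by rw [hCk]
      _ ≤ (i + j)! * ((k ! * i ^ i) * ((i + j - k)! * j ^ j)) := by gcongr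
      _ = ((i + j).choose i * i ! * j !) * ((k ! * i ^ i) * ((i + j - k)! * j ^ j)) := by rw [hC]
      _ = (i + j).choose i * (i ^ i * j ^ j) * (i ! * j ! * (k ! * (i + j - k)!)) := by ring
  have hsum : (i + j) ^ (i + j) ≤ (i + j + 1) * ((i + j).choose i * (i ^ i * j ^ j)) := by
    rw [add_pow]
    calc ∑ k ∈ range (i + j + 1), i ^ k * j ^ (i + j - k) * (i + j).choose k
        ≤ ∑ _k ∈ range (i + j + 1), (i + j).choose i * (i ^ i * j ^ j) := sum_le_sum hterm
      _ = _ := by rw [sum_const, card_range, smul_eq_mul]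
  calc (i + j) ^ (i + j) * (i ! * j !)
      ≤ ((i + j + 1) * ((i + j).choose i * (i ^ i * j ^ j))) * (i ! * j !) := by gcongr
    _ = (i + j + 1) * (((i + j).choose i * i ! * j !) * (i ^ i * j ^ j)) := by ring
    _ = _ := by rw [hC]

theorem ex_split (lam del : ℝ≥0) (i j : ℕ) :
    ex lam (i + j) * del ≤ ((lam + del : ℝ≥0) : ℝ≥0∞) *
      (ex ((lam + del) * (i / (i + j : ℕ))) i * ex ((lam + del) * (j / (i + j : ℕ))) j) := by
  set mu := lam + del with hmu
  rcases Nat.eq_zero_or_pos (i + j) with h0 | hpos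
  · obtain ⟨rfl, rfl⟩ : i = 0 ∧ j = 0 := by omega
    simp only [add_zero, ex_zero, mul_one, one_mul, ENNReal.coe_le_coe]
    exact le_add_of_nonneg_left zero_le
  · unfold ex
    rw [← ENNReal.coe_mul, ← ENNReal.coe_mul, ← ENNReal.coe_mul, ENNReal.coe_le_coe,
      ← NNReal.coe_le_coe]
    push_cast
    set m := i + j with hm
    have hmR : (0 : ℝ) < (m : ℝ) := by exact_mod_cast hpos
    have hmR' : (i : ℝ) + j = (m : ℝ) := by rw [hm]; push_cast; ring
    have h1 : (m + 1 : ℝ) * (lam : ℝ) ^ m * del ≤ (mu : ℝ) ^ (m + 1) := by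
      have hα := lam.coe_nonneg
      have hτ := del.coe_nonneg
      have hmu' : (mu : ℝ) = lam + del := by rw [hmu]; push_cast; ring
      rw [hmu', add_pow]
      have : (m + 1 : ℝ) * (lam : ℝ) ^ m * del =
          (lam : ℝ) ^ m * (del : ℝ) ^ (m + 1 - m) * ((m + 1).choose m : ℝ) := by
        rw [show m + 1 - m = 1 by omega, Nat.choose_succ_self_right]
        push_cast
        ring
      rw [this]
      exact Finset.single_le_sum (f := fun k => (lam : ℝ) ^ k * (del : ℝ) ^ (m + 1 - k) *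
        ((m + 1).choose k : ℝ)) (fun k _ => by positivity) (mem_range.2 (by omega))
    have h2 : ((m : ℝ) ^ m * ((i ! : ℝ) * (j ! : ℝ))) ≤
        (m + 1 : ℝ) * ((m ! : ℝ) * ((i : ℝ) ^ i * (j : ℝ) ^ j)) := by
      exact_mod_cast unimodal i j
    have hfm : (0 : ℝ) < (m ! : ℝ) := by exact_mod_cast Nat.factorial_pos m
    have hfi : (0 : ℝ) < (i ! : ℝ) := by exact_mod_cast Nat.factorial_pos i
    have hfj : (0 : ℝ) < (j ! : ℝ) := by exact_mod_cast Nat.factorial_pos j
    have hmu0 : (0 : ℝ) ≤ (mu : ℝ) := mu.coe_nonneg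
    rw [hmR']
    have h3 : (mu : ℝ) * (((mu : ℝ) * ((i : ℝ) / m)) ^ i / (i ! : ℝ) *
        (((mu : ℝ) * ((j : ℝ) / m)) ^ j / (j ! : ℝ))) =
        (mu : ℝ) ^ (m + 1) * ((i : ℝ) ^ i * (j : ℝ) ^ j) / ((m : ℝ) ^ m * ((i ! : ℝ) * (j ! : ℝ))) := by
      have hp : (m : ℝ) ^ m = (m : ℝ) ^ i * (m : ℝ) ^ j := by rw [← pow_add]
      have hq : (mu : ℝ) ^ (m + 1) = (mu : ℝ) * ((mu : ℝ) ^ i * (mu : ℝ) ^ j) := by
        rw [← pow_add, ← hm]; ring
      rw [hp, hq, mul_pow, mul_pow, div_pow, div_pow]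
      field_simp
    rw [h3, le_div_iff₀ (by positivity)]
    calc (lam : ℝ) ^ m / (m ! : ℝ) * del * ((m : ℝ) ^ m * ((i ! : ℝ) * (j ! : ℝ)))
        ≤ (lam : ℝ) ^ m / (m ! : ℝ) * del *
          ((m + 1 : ℝ) * ((m ! : ℝ) * ((i : ℝ) ^ i * (j : ℝ) ^ j))) := by gcongr
      _ = ((m + 1 : ℝ) * (lam : ℝ) ^ m * del) * ((i : ℝ) ^ i * (j : ℝ) ^ j) := by field_simp
      _ ≤ _ := by gcongr

theorem grid {mu : ℝ≥0} {K : ℕ} (hK : 1 ≤ K) (i j : ℕ) :
    ex (mu * (i / (i + j : ℕ))) i * ex (mu * (j / (i + j : ℕ))) j ≤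
      ∑ k ∈ range (K + 1), ex (mu * ((k + 1 : ℕ) / (K : ℝ≥0))) i *
        ex (mu * ((K - k + 1 : ℕ) / (K : ℝ≥0))) j := by
  set k := K * i / (i + j) with hk
  have hkK : k ≤ K := by
    rcases Nat.eq_zero_or_pos (i + j) with h0 | hpos
    · rw [hk, h0]; simp
    · rw [hk]
      apply Nat.div_le_of_le_mul
      nlinarith
  refine le_trans ?_ (single_le_sum (f := fun k => ex (mu * ((k + 1 : ℕ) / (K : ℝ≥0))) i *
        ex (mu * ((K - k + 1 : ℕ) / (K : ℝ≥0))) j) (fun _ _ => zero_le)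
        (mem_range.2 (show k < K + 1 by omega)))
  have hKR : (0 : ℝ≥0) < (K : ℝ≥0) := by exact_mod_cast hK
  have key : (i / (i + j : ℕ) : ℝ≥0) ≤ ((k + 1 : ℕ) / (K : ℝ≥0)) ∧
      (j / (i + j : ℕ) : ℝ≥0) ≤ ((K - k + 1 : ℕ) / (K : ℝ≥0)) := by
    rcases Nat.eq_zero_or_pos (i + j) with h0 | hpos
    · rw [h0]; simp
    · have hm : (0 : ℝ≥0) < ((i + j : ℕ) : ℝ≥0) := by exact_mod_cast hpos
      have h1 : K * i < (k + 1) * (i + j) := by
        rw [hk]
        have := Nat.lt_div_mul_add (a := K * i) hpos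
        calc K * i < K * i / (i + j) * (i + j) + (i + j) := this
          _ = _ := by ring
      have h2 : k * (i + j) ≤ K * i := Nat.div_mul_le_self _ _
      constructor
      · rw [div_le_div_iff₀ hm hKR]
        have : i * K ≤ (k + 1) * (i + j) := by nlinarith
        exact_mod_cast this
      · rw [div_le_div_iff₀ hm hKR]
        obtain ⟨r, hr⟩ : ∃ r, K = k + r := ⟨K - k, by omega⟩
        have hr' : K - k = r := by omega
        have : j * K ≤ (K - k + 1) * (i + j) := by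
          rw [hr']
          rw [hr] at h2 ⊢
          nlinarith
        exact_mod_cast this
  exact mul_le_mul' (ex_mono (mul_le_mul' le_rfl key.1) i) (ex_mono (mul_le_mul' le_rfl key.2) j)

theorem cauchy2 (f : ℕ → ℕ → ℝ≥0∞) :
    ∑' n, ∑ k ∈ range (n + 1), f k (n - k) = ∑' n, ∑' m, f n m := by
  have h1 : ∀ n, ∑ k ∈ range (n + 1), f k (n - k) =
      ∑' x : antidiagonal n, f x.1.1 x.1.2 := by
    intro n
    have h2 : ∑' x : antidiagonal n, f x.1.1 x.1.2 =
        ∑ x ∈ antidiagonal n, f x.1 x.2 :=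
      Finset.tsum_subtype (antidiagonal n) (fun x : ℕ × ℕ => f x.1 x.2)
    rw [h2]
    exact (Finset.Nat.sum_antidiagonal_eq_sum_range_succ (fun x y => f x y) n).symm
  calc ∑' n, ∑ k ∈ range (n + 1), f k (n - k)
      = ∑' n, ∑' x : antidiagonal n, f x.1.1 x.1.2 := tsum_congr h1
    _ = ∑' x : (Σ n, antidiagonal n), f x.2.1.1 x.2.1.2 :=
        (ENNReal.tsum_sigma' (fun x : (Σ n, antidiagonal n) => f x.2.1.1 x.2.1.2)).symm
    _ = ∑' x : ℕ × ℕ, f x.1 x.2 :=
        Equiv.tsum_eq (Finset.HasAntidiagonal.sigmaAntidiagonalEquivProd (A := ℕ))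
          (fun x : ℕ × ℕ => f x.1 x.2)
    _ = ∑' n, ∑' m, f n m := ENNReal.tsum_prod'

theorem ex_add (α β : ℝ≥0) (n : ℕ) :
    ∑ i ∈ range (n + 1), ex α i * ex β (n - i) = ex (α + β) n := by
  have h1 : ∀ i ∈ range (n + 1), ex α i * ex β (n - i) =
      ((α ^ i * β ^ (n - i) * (n.choose i : ℝ≥0) / (n ! : ℝ≥0) : ℝ≥0) : ℝ≥0∞) := by
    intro i hi
    have hi' : i ≤ n := by have := mem_range.1 hi; omega
    unfold ex
    rw [← ENNReal.coe_mul]
    congr 1
    have h1 : (n.choose i : ℝ≥0) * (i ! : ℝ≥0) * ((n - i)! : ℝ≥0) = (n ! : ℝ≥0) := by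
      exact_mod_cast Nat.choose_mul_factorial_mul_factorial hi'
    have h2 : ((i ! : ℕ) : ℝ≥0) ≠ 0 := by exact_mod_cast Nat.factorial_ne_zero i
    have h3 : (((n - i)! : ℕ) : ℝ≥0) ≠ 0 := by exact_mod_cast Nat.factorial_ne_zero (n - i)
    have h4 : ((n ! : ℕ) : ℝ≥0) ≠ 0 := by exact_mod_cast Nat.factorial_ne_zero n
    rw [div_mul_div_comm, div_eq_div_iff (mul_ne_zero h2 h3) h4, ← h1]
    ring
  rw [sum_congr rfl h1, ← ENNReal.ofNNReal_finsetSum, ← sum_div, ← add_pow]
  rfl

/-- generating function of all systems of genus `g` -/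
noncomputable def Fg (g : ℕ) (lam : ℝ≥0) : ℝ≥0∞ := ∑' n, Nn g (n + 1) * ex lam n

theorem V_le_Fg (g : ℕ) (α β : ℝ≥0) : V g 1 α β ≤ Fg g (α + β) := by
  unfold V gf Fg
  calc ∑' i, ∑' j, cnt (Pc g 1) i j * (ex α i * ex β j)
      ≤ ∑' i, ∑' j, Nn g (i + j + 1) * (ex α i * ex β j) :=
        ENNReal.tsum_le_tsum fun i => ENNReal.tsum_le_tsum fun j => by
          gcongr; exact cnt_le_Nn g i j
    _ = ∑' n, ∑ i ∈ range (n + 1), Nn g (i + (n - i) + 1) * (ex α i * ex β (n - i)) :=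
        (cauchy2 (fun i j => Nn g (i + j + 1) * (ex α i * ex β j))).symm
    _ = ∑' n, Nn g (n + 1) * ex (α + β) n := by
        apply tsum_congr
        intro n
        rw [← ex_add, Finset.mul_sum]
        apply sum_congr rfl
        intro i hi
        have : i + (n - i) + 1 = n + 1 := by have := mem_range.1 hi; omega
        rw [this]

theorem Fg_mono {g : ℕ} {a b : ℝ≥0} (h : a ≤ b) : Fg g a ≤ Fg g b := by
  unfold Fg
  exact ENNReal.tsum_le_tsum fun n => by gcongr; exact ex_mono h n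

theorem Fg_step {L : ℝ≥0} {g : ℕ}
    (hC : ∀ α β : ℝ≥0, 0 < α → 0 < β → α + β < L →
      gf (cnt (fun D v => ∃ o, CertAll g o D v)) α β ≠ ∞) {lam : ℝ≥0} (hlam : lam < L) :
    Fg (g + 1) lam ≠ ∞ := by
  obtain ⟨mu, h1, h2⟩ := exists_between hlam
  obtain ⟨τ, hτ, hlt⟩ := exists_room h2
  set del := mu - lam with hdel
  have hmu : lam + del = mu := add_tsub_cancel_of_le h1.le
  have hmu0 : 0 < mu := lt_of_le_of_lt zero_le h1
  obtain ⟨K, hK⟩ := exists_nat_gt (2 * mu / τ)
  have hK1 : 1 ≤ K := by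
    by_contra h
    have : K = 0 := by omega
    rw [this] at hK
    simp at hK
  have hKR : (0 : ℝ≥0) < (K : ℝ≥0) := by exact_mod_cast hK1
  have hdel0 : del ≠ 0 := (tsub_pos_of_lt h1).ne'
  have hC' : ∀ k ∈ range (K + 1), gf (cnt (fun D v => ∃ o, CertAll g o D v))
      (mu * ((k + 1 : ℕ) / (K : ℝ≥0))) (mu * ((K - k + 1 : ℕ) / (K : ℝ≥0))) ≠ ∞ := by
    intro k hk
    have hk' : k ≤ K := by have := mem_range.1 hk; omega
    refine hC _ _ (by positivity) (by positivity) ?_
    rw [← mul_add, ← add_div]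
    have : (((k + 1 : ℕ) : ℝ≥0) + ((K - k + 1 : ℕ) : ℝ≥0)) = (K : ℝ≥0) + 2 := by
      have : k + 1 + (K - k + 1) = K + 2 := by omega
      exact_mod_cast this
    rw [this, add_div, div_self hKR.ne', mul_add, mul_one]
    refine lt_trans ?_ hlt
    have h3 : mu * (2 / (K : ℝ≥0)) < τ := by
      rw [div_lt_iff₀ hτ] at hK
      rw [mul_div_assoc', div_lt_iff₀ hKR]
      calc mu * 2 = 2 * mu := by ring
        _ < K * τ := hK
        _ = τ * K := by ring
    gcongr
  have key : Fg (g + 1) lam * del ≤ (mu : ℝ≥0∞) * ∑ k ∈ range (K + 1),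
      gf (cnt (fun D v => ∃ o, CertAll g o D v))
      (mu * ((k + 1 : ℕ) / (K : ℝ≥0))) (mu * ((K - k + 1 : ℕ) / (K : ℝ≥0))) := by
    set c := cnt (fun D v => ∃ o, CertAll g o D v) with hc
    calc Fg (g + 1) lam * del
        = ∑' n, Nn (g + 1) (n + 1) * (ex lam n * del) := by
          unfold Fg
          rw [← ENNReal.tsum_mul_right]
          exact tsum_congr fun n => by ring
      _ ≤ ∑' n, ∑ i ∈ range (n + 1), c i (n - i) * (mu * ∑ k ∈ range (K + 1),
            ex (mu * ((k + 1 : ℕ) / (K : ℝ≥0))) i *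
              ex (mu * ((K - k + 1 : ℕ) / (K : ℝ≥0))) (n - i)) := by
          refine ENNReal.tsum_le_tsum fun n => ?_
          calc Nn (g + 1) (n + 1) * (ex lam n * del)
              ≤ (∑ i ∈ range (n + 1), c i (n - i)) * (ex lam n * del) := by
                gcongr; exact Nn_le g n
            _ = ∑ i ∈ range (n + 1), c i (n - i) * (ex lam n * del) := by rw [Finset.sum_mul]
            _ ≤ _ := by
                refine sum_le_sum fun i hi => ?_
                have hin : i + (n - i) = n := by have := mem_range.1 hi; omega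
                have h4 := ex_split lam del i (n - i)
                rw [hmu, hin] at h4
                have h5 := grid (mu := mu) hK1 i (n - i)
                rw [hin] at h5
                exact mul_le_mul' le_rfl (h4.trans (mul_le_mul' le_rfl h5))
      _ = ∑' i, ∑' j, c i j * (mu * ∑ k ∈ range (K + 1),
            ex (mu * ((k + 1 : ℕ) / (K : ℝ≥0))) i *
              ex (mu * ((K - k + 1 : ℕ) / (K : ℝ≥0))) j) :=
          cauchy2 (fun i j => c i j * (mu * ∑ k ∈ range (K + 1),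
            ex (mu * ((k + 1 : ℕ) / (K : ℝ≥0))) i *
              ex (mu * ((K - k + 1 : ℕ) / (K : ℝ≥0))) j))
      _ = _ := by
          unfold gf
          rw [Finset.mul_sum]
          simp_rw [← ENNReal.tsum_mul_left]
          rw [← Summable.tsum_finsetSum (fun _ _ => ENNReal.summable)]
          apply tsum_congr
          intro i
          rw [← Summable.tsum_finsetSum (fun _ _ => ENNReal.summable)]
          apply tsum_congr
          intro j
          rw [Finset.mul_sum, Finset.mul_sum]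
          apply sum_congr rfl
          intro k _
          ring
  have hfin : (mu : ℝ≥0∞) * ∑ k ∈ range (K + 1),
      gf (cnt (fun D v => ∃ o, CertAll g o D v))
      (mu * ((k + 1 : ℕ) / (K : ℝ≥0))) (mu * ((K - k + 1 : ℕ) / (K : ℝ≥0))) ≠ ∞ :=
    ENNReal.mul_ne_top ENNReal.coe_ne_top (ENNReal.sum_ne_top.2 hC')
  intro htop
  rw [htop, ENNReal.top_mul (by rw [ne_eq, ENNReal.coe_eq_zero]; exact hdel0)] at key
  exact hfin (top_le_iff.1 key)

theorem all_fin {L : ℝ≥0} (h0 : ∀ lam < L, Fg 0 lam ≠ ∞) :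
    ∀ g, ∀ lam < L, Fg g lam ≠ ∞ := by
  intro g
  induction g using Nat.strong_induction_on with
  | _ g ih =>
    rcases g with _ | g
    · exact h0
    · intro lam hlam
      have hV : ∀ h ≤ g, ∀ α β : ℝ≥0, α + β < L → V h 1 α β ≠ ∞ := by
        intro h hh α β hab
        exact ne_top_of_le_ne_top (ih h (by omega) _ hab) (V_le_Fg h α β)
      have hL : TreeFin L := fun α β hab => hV 0 (Nat.zero_le _) α β hab
      exact Fg_step (fun α β hα hβ hab => CertAll_fin hL hV hα hβ hab) hlam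

end Pool.Agent.FloorDiag
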