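import Pool.Agent.Lib.MP_6aab98_ag.Finite

/-! # MP_6aab98_ag: adding a handle behind the last point -/

namespace Pool.Agent.FloorDiag

open Finset
open scoped ENNReal NNReal Nat

/-- the elevator through the last point now ends at the new floor `n` -/
def ret (n : ℕ) (e : Elev) : Elev := if e.pt + 1 = n then ⟨e.pt, e.src, some n, e.wt⟩ else e

/-- the inverse -/
def unret (n : ℕ) (e : Elev) : Elev := if e.pt + 1 = n then ⟨e.pt, e.src, none, e.wt⟩ else e

/-- the new elevators -/
def Gn (n : ℕ) : Finset Elev :=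
  {⟨n + 1, n, some (n + 3), 1⟩, ⟨n + 2, n, some (n + 3), 1⟩, ⟨n + 4, n + 3, none, 1⟩,
    ⟨n + 5, n + 3, none, 1⟩, ⟨n + 6, n + 3, none, 1⟩}

theorem ret_pt (n : ℕ) (e : Elev) : (ret n e).pt = e.pt := by
  unfold ret; split_ifs <;> rfl

theorem ret_src (n : ℕ) (e : Elev) : (ret n e).src = e.src := by
  unfold ret; split_ifs <;> rfl

theorem ret_wt (n : ℕ) (e : Elev) : (ret n e).wt = e.wt := by
  unfold ret; split_ifs <;> rfl

theorem mem_Gn {n : ℕ} {e : Elev} : e ∈ Gn n ↔ e = ⟨n + 1, n, some (n + 3), 1⟩ ∨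
    e = ⟨n + 2, n, some (n + 3), 1⟩ ∨ e = ⟨n + 4, n + 3, none, 1⟩ ∨
    e = ⟨n + 5, n + 3, none, 1⟩ ∨ e = ⟨n + 6, n + 3, none, 1⟩ := by
  simp [Gn]

theorem prod_Gn (n : ℕ) : ∏ e ∈ Gn n, e.wt ^ 2 = 1 := by
  apply prod_eq_one
  intro e he
  rcases mem_Gn.1 he with rfl | rfl | rfl | rfl | rfl <;> rfl

theorem sum_Gn (n : ℕ) (w : Elev → ℤ) : ∑ e ∈ Gn n, w e = w ⟨n + 1, n, some (n + 3), 1⟩ +
    (w ⟨n + 2, n, some (n + 3), 1⟩ + (w ⟨n + 4, n + 3, none, 1⟩ +
    (w ⟨n + 5, n + 3, none, 1⟩ + w ⟨n + 6, n + 3, none, 1⟩))) := by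
  unfold Gn
  rw [sum_insert (by simp), sum_insert (by simp), sum_insert (by simp), sum_insert (by simp),
    sum_singleton]

/-- the system with one more handle -/
def addH (n : ℕ) (D : Dgm) : Dgm := ⟨insert n (insert (n + 3) D.F), D.E.image (ret n) ∪ Gn n⟩

/-- recovery of the original system -/
def unH (n : ℕ) (D : Dgm) : Dgm :=
  ⟨D.F.filter (fun x => x < n), (D.E.filter (fun e => e.pt < n)).image (unret n)⟩

theorem mem_addH {n : ℕ} {D : Dgm} {x : Elev} :
    x ∈ (addH n D).E ↔ (∃ e ∈ D.E, ret n e = x) ∨ x ∈ Gn n := by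
  simp [addH]

theorem mem_addHF {n : ℕ} {D : Dgm} {x : ℕ} :
    x ∈ (addH n D).F ↔ x = n ∨ x = n + 3 ∨ x ∈ D.F := by
  simp [addH]

/-- the last point lies on an unbounded elevator -/
theorem last_end {g n : ℕ} {D : Dgm} (hp : D.pts = range (n + 1)) (h : Full g D) :
    ∃ e ∈ D.E, e.pt = n ∧ e.tgt = none ∧ e.wt = 1 := by
  have hv := h.valid
  have hmem : n ∈ D.pts := by rw [hp]; exact mem_range.2 (by omega)
  have hlt : ∀ x ∈ D.pts, x ≤ n := by
    intro x hx
    rw [hp] at hx
    have := mem_range.1 hx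
    omega
  rcases Dgm.mem_pts.1 hmem with hF | ⟨e, he, hpt⟩
  · exfalso
    have h1 := h.div n hF
    rw [Dgm.div_eq_sum] at h1
    have h2 : ∑ e ∈ D.E, e.dv n ≤ 0 := by
      apply sum_nonpos
      intro e he
      unfold Elev.dv
      rw [if_neg]
      · split_ifs
        · have : (0 : ℤ) ≤ e.wt := by positivity
          linarith
        · simp
      · intro hs
        have h3 := hv.src_lt e he
        have h4 := hlt _ (Dgm.mem_pts_of_E he)
        omega
    omega
  · refine ⟨e, he, hpt, ?_, ?_⟩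
    · by_contra hne
      obtain ⟨q, hq⟩ := Option.ne_none_iff_exists'.1 hne
      have h3 := hv.tgt_lt e he q hq
      have h4 := hlt _ (Dgm.mem_pts_of_F (hv.tgt_mem e he q hq))
      omega
    · by_cases hne : e.tgt = none
      · exact hv.wt_end e he hne
      · exfalso
        obtain ⟨q, hq⟩ := Option.ne_none_iff_exists'.1 hne
        have h3 := hv.tgt_lt e he q hq
        have h4 := hlt _ (Dgm.mem_pts_of_F (hv.tgt_mem e he q hq))
        omega

theorem addH_facts {g n : ℕ} {D : Dgm} (hp : D.pts = range (n + 1)) (h : Full g D) :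
    (addH (n + 1) D).pts = range (n + 8) ∧ Full (g + 1) (addH (n + 1) D) ∧
      (addH (n + 1) D).mult = D.mult ∧ unH (n + 1) (addH (n + 1) D) = D := by
  obtain ⟨e0, he0, hpt0, htgt0, hwt0⟩ := last_end hp h
  have hv := h.valid
  have hlt : ∀ x ∈ D.pts, x < n + 1 := by
    intro x hx
    rw [hp] at hx
    exact mem_range.1 hx
  have hEn : ∀ e ∈ D.E, e.pt = n → e = e0 := by
    intro e he hpe
    exact hv.inj e he e0 he0 (hpe.trans hpt0.symm)
  have hrete : ∀ e ∈ D.E, e ≠ e0 → ret (n + 1) e = e := by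
    intro e he hne
    unfold ret
    rw [if_neg]
    intro hh
    exact hne (hEn e he (by omega))
  have hret0 : ret (n + 1) e0 = ⟨n, e0.src, some (n + 1), 1⟩ := by
    unfold ret
    rw [if_pos (by omega), hpt0, hwt0]
  have hpts : (addH (n + 1) D).pts = range (n + 8) := by
    ext x
    rw [Dgm.mem_pts, mem_range]
    constructor
    · rintro (hx | ⟨e, he, rfl⟩)
      · rcases mem_addHF.1 hx with rfl | rfl | hx
        · omega
        · omega
        · have := hlt x (Dgm.mem_pts_of_F hx)
          omega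
      · rcases mem_addH.1 he with ⟨e1, he1, rfl⟩ | he1
        · rw [ret_pt]
          have := hlt _ (Dgm.mem_pts_of_E he1)
          omega
        · rcases mem_Gn.1 he1 with rfl | rfl | rfl | rfl | rfl <;> simp only <;> omega
    · intro hx
      by_cases hx1 : x < n + 1
      · have : x ∈ D.pts := by rw [hp]; exact mem_range.2 hx1
        rcases Dgm.mem_pts.1 this with hF | ⟨e, he, rfl⟩
        · exact Or.inl (mem_addHF.2 (Or.inr (Or.inr hF)))
        · exact Or.inr ⟨ret (n + 1) e, mem_addH.2 (Or.inl ⟨e, he, rfl⟩), ret_pt _ _⟩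
      · obtain ⟨k, rfl⟩ : ∃ k, x = n + 1 + k := ⟨x - (n + 1), by omega⟩
        have hk : k < 7 := by omega
        interval_cases k
        · exact Or.inl (mem_addHF.2 (Or.inl rfl))
        · exact Or.inr ⟨_, mem_addH.2 (Or.inr (mem_Gn.2 (Or.inl rfl))), rfl⟩
        · exact Or.inr ⟨_, mem_addH.2 (Or.inr (mem_Gn.2 (Or.inr (Or.inl rfl)))), rfl⟩
        · exact Or.inl (mem_addHF.2 (Or.inr (Or.inl rfl)))
        · exact Or.inr ⟨_, mem_addH.2 (Or.inr (mem_Gn.2 (Or.inr (Or.inr (Or.inl rfl))))), rfl⟩
        · exact Or.inr ⟨_, mem_addH.2 (Or.inr (mem_Gn.2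
            (Or.inr (Or.inr (Or.inr (Or.inl rfl)))))), rfl⟩
        · exact Or.inr ⟨_, mem_addH.2 (Or.inr (mem_Gn.2
            (Or.inr (Or.inr (Or.inr (Or.inr rfl)))))), rfl⟩
  have hinjret : ∀ e ∈ D.E, ∀ e' ∈ D.E, ret (n + 1) e = ret (n + 1) e' → e = e' := by
    intro e he e' he' hh
    apply hv.inj e he e' he'
    have := congrArg Elev.pt hh
    rwa [ret_pt, ret_pt] at this
  have hdisj : Disjoint (D.E.image (ret (n + 1))) (Gn (n + 1)) := by
    rw [Finset.disjoint_left]
    intro x hx hx'
    obtain ⟨e, he, rfl⟩ := mem_image.1 hx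
    have h1 := hlt _ (Dgm.mem_pts_of_E he)
    have h2 := ret_pt (n + 1) e
    rcases mem_Gn.1 hx' with h3 | h3 | h3 | h3 | h3 <;>
    · rw [h3] at h2
      simp only at h2
      omega
  have hF1 : n + 1 ∉ D.F := fun h1 => by have := hlt _ (Dgm.mem_pts_of_F h1); omega
  have hF2 : n + 1 + 3 ∉ D.F := fun h1 => by have := hlt _ (Dgm.mem_pts_of_F h1); omega
  have hcardF : (addH (n + 1) D).F.card = D.F.card + 2 := by
    simp only [addH]
    rw [card_insert_of_notMem (by
      rw [mem_insert]
      rintro (h1 | h1)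
      · omega
      · exact hF1 h1), card_insert_of_notMem hF2]
  have hcardE : (addH (n + 1) D).E.card = D.E.card + 5 := by
    simp only [addH]
    rw [card_union_of_disjoint hdisj, card_image_of_injOn (fun e he e' he' hh => hinjret e he e' he' hh)]
    congr 1
    unfold Gn
    rw [card_insert_of_notMem (by simp), card_insert_of_notMem (by simp),
      card_insert_of_notMem (by simp), card_insert_of_notMem (by simp), card_singleton]
  have hmult : (addH (n + 1) D).mult = D.mult := by
    unfold Dgm.mult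
    simp only [addH]
    rw [prod_union hdisj, prod_Gn, mul_one, prod_image (fun e he e' he' hh => hinjret e he e' he' hh)]
    exact prod_congr rfl fun e _ => by rw [ret_wt]
  have hdv : ∀ f, (addH (n + 1) D).div f = ∑ e ∈ D.E, (ret (n + 1) e).dv f +
      ∑ e ∈ Gn (n + 1), e.dv f := by
    intro f
    rw [Dgm.div_eq_sum]
    simp only [addH]
    rw [sum_union hdisj, sum_image (fun e he e' he' hh => hinjret e he e' he' hh)]
  have hdvret : ∀ f, f ≠ n + 1 → ∑ e ∈ D.E, (ret (n + 1) e).dv f = D.div f := by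
    intro f hf
    rw [Dgm.div_eq_sum]
    apply sum_congr rfl
    intro e he
    by_cases hee : e = e0
    · subst hee
      rw [hret0]
      unfold Elev.dv
      simp only [htgt0, hwt0, Option.some.injEq, reduceCtorEq, if_false, if_neg (Ne.symm hf)]
    · rw [hrete e he hee]
  have hvalid : (addH (n + 1) D).Valid := by
    refine ⟨?_, ?_, ?_, ?_, ?_, ?_, ?_, ?_⟩
    · intro x hx y hy hxy
      rcases mem_addH.1 hx with ⟨e, he, rfl⟩ | hx' <;> rcases mem_addH.1 hy with ⟨e', he', rfl⟩ | hy'
      · rw [ret_pt, ret_pt] at hxy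
        rw [hv.inj e he e' he' hxy]
      · exfalso
        rw [ret_pt] at hxy
        have h1 := hlt _ (Dgm.mem_pts_of_E he)
        rcases mem_Gn.1 hy' with rfl | rfl | rfl | rfl | rfl <;> simp only at hxy <;> omega
      · exfalso
        rw [ret_pt] at hxy
        have h1 := hlt _ (Dgm.mem_pts_of_E he')
        rcases mem_Gn.1 hx' with rfl | rfl | rfl | rfl | rfl <;> simp only at hxy <;> omega
      · rcases mem_Gn.1 hx' with rfl | rfl | rfl | rfl | rfl <;>
          rcases mem_Gn.1 hy' with rfl | rfl | rfl | rfl | rfl <;>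
          first
          | rfl
          | (exfalso; simp only at hxy; omega)
    · intro x hx hF
      rcases mem_addH.1 hx with ⟨e, he, rfl⟩ | hx'
      · rw [ret_pt] at hF
        have h1 := hlt _ (Dgm.mem_pts_of_E he)
        rcases mem_addHF.1 hF with h2 | h2 | h2
        · omega
        · omega
        · exact hv.disj e he h2
      · rcases mem_addHF.1 hF with h2 | h2 | h2
        · rcases mem_Gn.1 hx' with rfl | rfl | rfl | rfl | rfl <;> simp only at h2 <;> omega
        · rcases mem_Gn.1 hx' with rfl | rfl | rfl | rfl | rfl <;> simp only at h2 <;> omega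
        · have h3 := hlt _ (Dgm.mem_pts_of_F h2)
          rcases mem_Gn.1 hx' with rfl | rfl | rfl | rfl | rfl <;> simp only at h3 <;> omega
    · intro x hx
      rw [mem_addHF]
      rcases mem_addH.1 hx with ⟨e, he, rfl⟩ | hx'
      · rw [ret_src]
        exact Or.inr (Or.inr (hv.src_mem e he))
      · rcases mem_Gn.1 hx' with rfl | rfl | rfl | rfl | rfl <;> simp
    · intro x hx
      rcases mem_addH.1 hx with ⟨e, he, rfl⟩ | hx'
      · rw [ret_src, ret_pt]
        exact hv.src_lt e he
      · rcases mem_Gn.1 hx' with rfl | rfl | rfl | rfl | rfl <;> simp only <;> omega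
    · intro x hx q hq
      rw [mem_addHF]
      rcases mem_addH.1 hx with ⟨e, he, rfl⟩ | hx'
      · by_cases hee : e = e0
        · subst hee
          rw [hret0] at hq
          simp only [Option.some.injEq] at hq
          exact Or.inl hq.symm
        · rw [hrete e he hee] at hq
          exact Or.inr (Or.inr (hv.tgt_mem e he q hq))
      · rcases mem_Gn.1 hx' with rfl | rfl | rfl | rfl | rfl <;> simp at hq <;> omega
    · intro x hx q hq
      rcases mem_addH.1 hx with ⟨e, he, rfl⟩ | hx'
      · by_cases hee : e = e0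
        · subst hee
          rw [hret0] at hq
          simp only [Option.some.injEq] at hq
          rw [ret_pt]
          omega
        · rw [hrete e he hee] at hq ⊢
          exact hv.tgt_lt e he q hq
      · rcases mem_Gn.1 hx' with rfl | rfl | rfl | rfl | rfl <;> simp at hq <;> simp only <;> omega
    · intro x hx
      rcases mem_addH.1 hx with ⟨e, he, rfl⟩ | hx'
      · rw [ret_wt]
        exact hv.wt_pos e he
      · rcases mem_Gn.1 hx' with rfl | rfl | rfl | rfl | rfl <;> simp
    · intro x hx hq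
      rcases mem_addH.1 hx with ⟨e, he, rfl⟩ | hx'
      · by_cases hee : e = e0
        · subst hee
          rw [hret0] at hq
          simp at hq
        · rw [hrete e he hee] at hq ⊢
          exact hv.wt_end e he hq
      · rcases mem_Gn.1 hx' with rfl | rfl | rfl | rfl | rfl <;> simp
  have hconn : (addH (n + 1) D).Conn := by
    intro X hX hx y hy
    have hclD : D.Closed X := by
      intro e he
      have h1 := hX (ret (n + 1) e) (mem_addH.2 (Or.inl ⟨e, he, rfl⟩))
      rw [ret_pt, ret_src] at h1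
      refine ⟨h1.1, fun q hq => ?_⟩
      by_cases hee : e = e0
      · subst hee
        rw [htgt0] at hq
        simp at hq
      · have h2 := h1.2 q (by rw [hrete e he hee]; exact hq)
        exact h2
    have hn : n ∈ X ↔ n + 1 ∈ X := by
      have h1 := hX (ret (n + 1) e0) (mem_addH.2 (Or.inl ⟨e0, he0, rfl⟩))
      rw [hret0] at h1
      exact h1.2 (n + 1) rfl
    have g1 := hX _ (mem_addH.2 (Or.inr (mem_Gn.2 (Or.inl rfl))))
    have g2 := hX _ (mem_addH.2 (Or.inr (mem_Gn.2 (Or.inr (Or.inl rfl)))))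
    have g3 := hX _ (mem_addH.2 (Or.inr (mem_Gn.2 (Or.inr (Or.inr (Or.inl rfl))))))
    have g4 := hX _ (mem_addH.2 (Or.inr (mem_Gn.2 (Or.inr (Or.inr (Or.inr (Or.inl rfl)))))))
    have g5 := hX _ (mem_addH.2 (Or.inr (mem_Gn.2 (Or.inr (Or.inr (Or.inr (Or.inr rfl)))))))
    have g1' := g1.2 (n + 1 + 3) rfl
    have g2' := g2.2 (n + 1 + 3) rfl
    simp only at g1 g2 g3 g4 g5 g1' g2'
    have hnD : n ∈ D.pts := by rw [hp]; exact mem_range.2 (by omega)
    have hkey : ∀ x ∈ (addH (n + 1) D).pts, (x ∈ X ↔ n ∈ X) ∨ x < n + 1 := by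
      intro x hx
      rw [hpts, mem_range] at hx
      by_cases hx1 : x < n + 1
      · exact Or.inr hx1
      · left
        obtain ⟨k, rfl⟩ : ∃ k, x = n + 1 + k := ⟨x - (n + 1), by omega⟩
        have hk : k < 7 := by omega
        interval_cases k
        · exact hn.symm
        · rw [hn]; exact g1.1
        · rw [hn]; exact g2.1
        · rw [hn, ← g1', g1.1]
        · rw [hn, g3.1, ← g1', g1.1]
        · rw [hn, g4.1, ← g1', g1.1]
        · rw [hn, g5.1, ← g1', g1.1]
    have hnX : n ∈ X := by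
      obtain ⟨x, hx1, hx2⟩ := hx
      rcases hkey x hx1 with h1 | h1
      · exact h1.1 hx2
      · have : x ∈ D.pts := by rw [hp]; exact mem_range.2 h1
        exact h.conn X hclD ⟨x, this, hx2⟩ n hnD
    rcases hkey y hy with h1 | h1
    · exact h1.2 hnX
    · have : y ∈ D.pts := by rw [hp]; exact mem_range.2 h1
      exact h.conn X hclD ⟨n, hnD, hnX⟩ y this
  have hdiv : ∀ f ∈ (addH (n + 1) D).F, (addH (n + 1) D).div f = 1 := by
    intro f hf
    rcases mem_addHF.1 hf with rfl | rfl | hf
    · rw [hdv, sum_Gn, sum_eq_single e0]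
      · rw [hret0]
        have h1 : e0.src ≠ n + 1 := by
          have h2 := hv.src_lt e0 he0
          omega
        simp [Elev.dv, h1]
      · intro e he hee
        rw [hrete e he hee]
        apply Dgm.Elev.dv_of_ne
        · have h2 := hv.src_lt e he
          have h3 := hlt _ (Dgm.mem_pts_of_E he)
          omega
        · intro hq
          exact hF1 (hv.tgt_mem e he _ hq)
      · intro h1
        exact absurd he0 h1
    · rw [hdv, hdvret _ (by omega), sum_Gn, Dgm.div_eq_sum, hv.sum_dv_zero hF2]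
      simp [Elev.dv]
    · have h1 := hlt _ (Dgm.mem_pts_of_F hf)
      rw [hdv, hdvret _ (by omega), sum_Gn, h.div f hf]
      have e1 : n + 1 ≠ f := by omega
      have e2 : n + 1 + 3 ≠ f := by omega
      simp [Elev.dv, e1, e2]
  refine ⟨hpts, ⟨hvalid, hconn, hdiv, ?_, ⟨n + 1, mem_addHF.2 (Or.inl rfl)⟩⟩, hmult, ?_⟩
  · have := h.cnt
    rw [hcardF, hcardE]
    push_cast
    linarith
  · have hd : ∀ A B : Dgm, A.F = B.F → A.E = B.E → A = B := by
      intro A B h1 h2
      cases A; cases B
      simp_all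
    apply hd
    · ext x
      simp only [unH, mem_filter, mem_addHF]
      constructor
      · rintro ⟨h1 | h1 | h1, h2⟩
        · omega
        · omega
        · exact h1
      · intro h1
        exact ⟨Or.inr (Or.inr h1), hlt _ (Dgm.mem_pts_of_F h1)⟩
    · have hunret : ∀ e ∈ D.E, unret (n + 1) (ret (n + 1) e) = e := by
        intro e he
        by_cases hee : e = e0
        · subst hee
          rw [hret0]
          unfold unret
          rw [if_pos rfl]
          cases e
          simp_all
        · rw [hrete e he hee]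
          unfold unret
          rw [if_neg]
          intro hh
          exact hee (hEn e he (by omega))
      ext x
      simp only [unH, mem_image, mem_filter, mem_addH]
      constructor
      · rintro ⟨y, ⟨⟨e, he, rfl⟩ | hy, hlt'⟩, rfl⟩
        · rw [hunret e he]
          exact he
        · exfalso
          rcases mem_Gn.1 hy with rfl | rfl | rfl | rfl | rfl <;> simp only at hlt' <;> omega
      · intro hx
        refine ⟨ret (n + 1) x, ⟨Or.inl ⟨x, hx, rfl⟩, ?_⟩, hunret x hx⟩
        rw [ret_pt]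
        exact hlt _ (Dgm.mem_pts_of_E hx)

theorem Nn_handle (g n : ℕ) : Nn g (n + 1) ≤ Nn (g + 1) (n + 8) := by
  let f : {D : Dgm // D.pts = range (n + 1) ∧ Full g D} →
      {D : Dgm // D.pts = range (n + 8) ∧ Full (g + 1) D} := fun D =>
    ⟨addH (n + 1) D.1, (addH_facts D.2.1 D.2.2).1, (addH_facts D.2.1 D.2.2).2.1⟩
  have hf : Function.Injective f := by
    intro D D' hh
    have h1 : addH (n + 1) D.1 = addH (n + 1) D'.1 := congrArg Subtype.val hh
    apply Subtype.ext
    rw [← (addH_facts D.2.1 D.2.2).2.2.2, h1, (addH_facts D'.2.1 D'.2.2).2.2.2]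
  calc Nn g (n + 1) = ∑' D : {D : Dgm // D.pts = range (n + 1) ∧ Full g D},
        ((f D).1.mult : ℝ≥0∞) := by
        unfold Nn
        apply tsum_congr
        intro D
        simp only [f]
        rw [(addH_facts D.2.1 D.2.2).2.2.1]
    _ ≤ Nn (g + 1) (n + 8) :=
        ENNReal.tsum_comp_le_tsum_of_injective hf (fun D => (D.1.mult : ℝ≥0∞))

theorem N_handle (g : ℕ) {d : ℕ} (hd : 1 ≤ d) : N g d ≤ N (g + 1) (d + 2) := by
  have h1 := Nn_handle g (3 * d - 2 + g)
  have e1 : 3 * d - 2 + g + 1 = 3 * d - 1 + g := by omega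
  have e2 : 3 * d - 2 + g + 8 = 3 * (d + 2) - 1 + (g + 1) := by omega
  rw [e1, e2, ← N_eq g hd, ← N_eq (g + 1) (by omega)] at h1
  exact_mod_cast h1

end Pool.Agent.FloorDiag
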