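import Pool.Agent.Lib.MP_6aab98_ag.Rate

/-! # MP_6aab98_ag: the upper exponential rates agree -/

namespace Pool.Agent.FloorDiag

open Finset Filter Topology
open scoped ENNReal NNReal Nat

/-- upper exponential rate -/
noncomputable def lN (g : ℕ) : ℝ≥0∞ := limsup (fun d : ℕ => ENNReal.ofReal (rN g d)) atTop

theorem lN_le (g : ℕ) : lN g ≤ lN 0 := by
  refine le_of_forall_gt_imp_ge_of_dense fun c hc => ?_
  rcases eq_or_ne c ∞ with rfl | hct
  · exact le_top
  obtain ⟨x, hx1, hx2⟩ := exists_between hc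
  have hxt : x ≠ ∞ := (hx2.trans_le le_top).ne
  have h1 : ∀ᶠ d : ℕ in atTop, ENNReal.ofReal (rN 0 d) < x := eventually_lt_of_limsup_lt hx1
  have hx0 : 0 < x := lt_of_le_of_lt zero_le hx1
  have hθ : 0 < x.toReal := ENNReal.toReal_pos hx0.ne' hxt
  have h2 : ∀ᶠ d in atTop, rN 0 d < x.toReal := by
    filter_upwards [h1] with d hd
    exact (ENNReal.ofReal_lt_iff_lt_toReal (rN_nonneg 0 d) hxt).1 hd
  have hβ : x.toReal < c.toReal := (ENNReal.toReal_lt_toReal hxt hct).2 hx2
  have h3 := upper hθ h2 g hβ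
  refine limsup_le_of_le (by isBoundedDefault) ?_
  filter_upwards [h3] with d hd
  exact ((ENNReal.ofReal_lt_iff_lt_toReal (rN_nonneg g d) hct).2 hd).le

theorem lN_mono (g : ℕ) : lN g ≤ lN (g + 1) := by
  refine le_of_forall_lt_imp_le_of_dense fun c hc => ?_
  obtain ⟨y, hy1, hy2⟩ := exists_between hc
  obtain ⟨x, hx1, hx2⟩ := exists_between hy1
  have hyt : y ≠ ∞ := (hy2.trans_le le_top).ne
  have hxt : x ≠ ∞ := (hx2.trans_le le_top).ne
  have hx0 : 0 < x.toReal := ENNReal.toReal_pos (lt_of_le_of_lt zero_le hx1).ne' hxt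
  have hxy : x.toReal < y.toReal := (ENNReal.toReal_lt_toReal hxt hyt).2 hx2
  have h1 : ∃ᶠ d : ℕ in atTop, y < ENNReal.ofReal (rN g d) := frequently_lt_of_lt_limsup
    (by isBoundedDefault) hy2
  have h2 := lower_step (g := g) hx0 hxy
  have h3 : ∃ᶠ d : ℕ in atTop, c ≤ ENNReal.ofReal (rN (g + 1) (d + 2)) := by
    refine (h1.and_eventually h2).mono ?_
    rintro d ⟨hd1, hd2⟩
    have h4 : y.toReal < rN g d := by
      rw [← ENNReal.ofReal_lt_ofReal_iff_of_nonneg ENNReal.toReal_nonneg, ENNReal.ofReal_toReal hyt]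
      exact hd1
    have h5 := hd2 h4
    refine hx1.le.trans ?_
    rw [← ENNReal.ofReal_toReal hxt]
    exact ENNReal.ofReal_le_ofReal h5.le
  have h4 : ∃ᶠ d : ℕ in atTop, c ≤ ENNReal.ofReal (rN (g + 1) d) := by
    have ht : Tendsto (fun d : ℕ => d + 2) atTop atTop := tendsto_add_atTop_nat 2
    exact ht.frequently h3
  exact le_limsup_of_frequently_le h4 (by isBoundedDefault)

theorem lN_eq (g : ℕ) : lN g = lN 0 := by
  refine le_antisymm (lN_le g) ?_
  induction g with
  | zero => exact le_rfl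
  | succ g ih => exact ih.trans (lN_mono g)

end Pool.Agent.FloorDiag
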