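import Pool.Agent.Lib.MP_6aab98_ag.Gf

/-! # MP_6aab98_ag: decomposition at the marked floor and linking, on the level of counts -/

namespace Pool.Agent.FloorDiag

open Finset
open scoped ENNReal NNReal Nat

open Classical in
theorem W_eq_ite (A : Dgm → ℕ → Prop) (V : Finset ℕ) (v : ℕ) :
    W A V v = ∑' D : Dgm, (if D.pts = V ∧ A D v then (D.mult : ℝ≥0∞) else 0) := by
  have h := _root_.tsum_subtype {D : Dgm | D.pts = V ∧ A D v} (fun D => (D.mult : ℝ≥0∞))
  refine Eq.trans h ?_
  apply tsum_congr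
  intro D
  simp only [Set.indicator]
  rfl

theorem tsum_prod_mul {α β : Type*} (f : α → ℝ≥0∞) (g : β → ℝ≥0∞) :
    ∑' p : α × β, f p.1 * g p.2 = (∑' x, f x) * ∑' y, g y := by
  rw [ENNReal.tsum_prod' (f := fun p : α × β => f p.1 * g p.2)]
  simp_rw [ENNReal.tsum_mul_left, ENNReal.tsum_mul_right]

theorem sum_unique_le {ι : Type*} (s : Finset ι) (f : ι → ℝ≥0∞) (c : ℝ≥0∞)
    (hle : ∀ x ∈ s, f x ≤ c) (hu : ∀ x ∈ s, ∀ y ∈ s, f x ≠ 0 → f y ≠ 0 → x = y) :
    ∑ x ∈ s, f x ≤ c := by
  by_cases h : ∀ x ∈ s, f x = 0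
  · rw [sum_eq_zero h]; exact zero_le
  · push Not at h
    obtain ⟨x, hx, hx0⟩ := h
    rw [sum_eq_single x]
    · exact hle x hx
    · intro y hy hne
      by_contra h0
      exact hne (hu y hy x hx h0 hx0)
    · intro h0
      exact absurd hx h0

/-- the point sets around `v` -/
theorem W_insert {A : Dgm → ℕ → Prop} (hA : Inv A) (hval : ∀ D v, A D v → D.Valid) {v : ℕ}
    {I J : Finset ℕ} (hI : ∀ x ∈ I, x < v) (hJ : ∀ x ∈ J, v < x) :
    W A (insert v (I ∪ J)) v = cnt A I.card J.card := by
  rw [W_eq_cnt hA hval (mem_insert_self _ _)]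
  congr 1
  · congr 1
    ext x
    simp only [mem_filter, mem_insert, mem_union]
    constructor
    · rintro ⟨rfl | h | h, hlt⟩
      · omega
      · exact h
      · have := hJ x h; omega
    · intro h
      exact ⟨Or.inr (Or.inl h), hI x h⟩
  · congr 1
    ext x
    simp only [mem_filter, mem_insert, mem_union]
    constructor
    · rintro ⟨rfl | h | h, hlt⟩
      · omega
      · have := hI x h; omega
      · exact h
    · intro h
      exact ⟨Or.inr (Or.inr h), hJ x h⟩

namespace Dgm

/-- restriction to the points of `Y` -/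
def restr (D : Dgm) (Y : Finset ℕ) : Dgm :=
  ⟨D.F.filter (fun x => x ∈ Y), D.E.filter (fun e => e.pt ∈ Y)⟩

theorem pts_restr (D : Dgm) (Y : Finset ℕ) : (D.restr Y).pts = D.pts ∩ Y := by
  ext x
  simp only [restr, mem_pts, mem_inter, mem_filter]
  constructor
  · rintro (⟨h1, h2⟩ | ⟨e, ⟨h1, h2⟩, rfl⟩)
    · exact ⟨Or.inl h1, h2⟩
    · exact ⟨Or.inr ⟨e, h1, rfl⟩, h2⟩
  · rintro ⟨h1 | ⟨e, h1, rfl⟩, h2⟩
    · exact Or.inl ⟨h1, h2⟩
    · exact Or.inr ⟨e, ⟨h1, h2⟩, rfl⟩

end Dgm

/-- `D` splits at the floor `v` into a member of `A` and a member of `B` -/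
def Splits (A B : Dgm → ℕ → Prop) (D : Dgm) (v : ℕ) : Prop :=
  ∃ X : Finset ℕ, v ∉ X ∧ X ⊆ D.pts ∧ A (D.restr (insert v X)) v ∧ B (D.restr (D.pts \ X)) v

theorem dec {A B C : Dgm → ℕ → Prop} (hA : Inv A) (hB : Inv B)
    (hAv : ∀ D v, A D v → D.Valid) (hBv : ∀ D v, B D v → D.Valid)
    (hC : ∀ D v, C D v → D.Valid ∧ v ∈ D.F ∧ Splits A B D v) (i j : ℕ) :
    cnt C i j ≤ conv (cnt A) (cnt B) i j := by
  classical
  set S : Finset ℕ := range i with hS
  set T : Finset ℕ := Ico (i + 1) (i + 1 + j) with hT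
  have hSc : S.card = i := card_range i
  have hTc : T.card = j := by rw [hT, Nat.card_Ico]; omega
  have key : ∑ I ∈ S.powerset, ∑ J ∈ T.powerset,
      W A (insert i (I ∪ J)) i * W B (insert i ((S \ I) ∪ (T \ J))) i =
      conv (cnt A) (cnt B) i j := by
    have h0 := conv_subsets (cnt A) (cnt B) S T
    rw [hSc, hTc] at h0
    rw [← h0]
    apply sum_congr rfl
    intro I hI
    apply sum_congr rfl
    intro J hJ
    have hI' := mem_powerset.1 hI
    have hJ' := mem_powerset.1 hJ
    rw [W_insert hA hAv (fun x hx => mem_range.1 (hI' hx))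
        (fun x hx => by have := mem_Ico.1 (hJ' hx); omega),
      W_insert hB hBv (fun x hx => mem_range.1 (mem_sdiff.1 hx).1)
        (fun x hx => by have := mem_Ico.1 (mem_sdiff.1 hx).1; omega),
      card_sdiff_of_subset hI', card_sdiff_of_subset hJ', hSc, hTc]
  rw [← key]
  set G : Dgm × Dgm → ℝ≥0∞ := fun p => ∑ I ∈ S.powerset, ∑ J ∈ T.powerset,
    (if p.1.pts = insert i (I ∪ J) ∧ A p.1 i then (p.1.mult : ℝ≥0∞) else 0) *
    (if p.2.pts = insert i ((S \ I) ∪ (T \ J)) ∧ B p.2 i then (p.2.mult : ℝ≥0∞) else 0) with hG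
  have hsum : ∑' p, G p = ∑ I ∈ S.powerset, ∑ J ∈ T.powerset,
      W A (insert i (I ∪ J)) i * W B (insert i ((S \ I) ∪ (T \ J))) i := by
    rw [hG, Summable.tsum_finsetSum (fun _ _ => ENNReal.summable)]
    apply sum_congr rfl
    intro I _
    rw [Summable.tsum_finsetSum (fun _ _ => ENNReal.summable)]
    apply sum_congr rfl
    intro J _
    rw [W_eq_ite, W_eq_ite]
    exact tsum_prod_mul
      (fun D : Dgm => if D.pts = insert i (I ∪ J) ∧ A D i then (D.mult : ℝ≥0∞) else 0)
      (fun D : Dgm => if D.pts = insert i ((S \ I) ∪ (T \ J)) ∧ B D i then (D.mult : ℝ≥0∞) else 0)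
  rw [← hsum]
  choose X hX using fun D : {D : Dgm // D.pts = range (i + 1 + j) ∧ C D i} => (hC D.1 i D.2.2).2.2
  let ph : {D : Dgm // D.pts = range (i + 1 + j) ∧ C D i} → Dgm × Dgm :=
    fun D => (D.1.restr (insert i (X D)), D.1.restr (D.1.pts \ X D))
  have hph : Function.Injective ph := by
    intro D D' hh
    have h1 : D.1.restr (insert i (X D)) = D'.1.restr (insert i (X D')) := congrArg Prod.fst hh
    have h2 : D.1.restr (D.1.pts \ X D) = D'.1.restr (D'.1.pts \ X D') := congrArg Prod.snd hh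
    have hrec : ∀ D0 : {D : Dgm // D.pts = range (i + 1 + j) ∧ C D i},
        D0.1.F = (D0.1.restr (insert i (X D0))).F ∪ (D0.1.restr (D0.1.pts \ X D0)).F ∧
        D0.1.E = (D0.1.restr (insert i (X D0))).E ∪ (D0.1.restr (D0.1.pts \ X D0)).E := by
      intro D0
      constructor
      · ext x
        simp only [Dgm.restr, mem_union, mem_filter, mem_insert, mem_sdiff]
        constructor
        · intro hx
          by_cases hxX : x ∈ X D0
          · exact Or.inl ⟨hx, Or.inr hxX⟩
          · exact Or.inr ⟨hx, Dgm.mem_pts_of_F hx, hxX⟩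
        · rintro (h | h) <;> exact h.1
      · ext x
        simp only [Dgm.restr, mem_union, mem_filter, mem_insert, mem_sdiff]
        constructor
        · intro hx
          by_cases hxX : x.pt ∈ X D0
          · exact Or.inl ⟨hx, Or.inr hxX⟩
          · exact Or.inr ⟨hx, Dgm.mem_pts_of_E hx, hxX⟩
        · rintro (h | h) <;> exact h.1
    have e1 := hrec D
    have e2 := hrec D'
    rw [h1, h2] at e1
    apply Subtype.ext
    have hF : D.1.F = D'.1.F := e1.1.trans e2.1.symm
    have hE : D.1.E = D'.1.E := e1.2.trans e2.2.symm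
    obtain ⟨D, hD⟩ := D
    obtain ⟨D', hD'⟩ := D'
    cases D; cases D'
    simp only at hF hE
    simp only [hF, hE]
  calc cnt C i j = ∑' D : {D : Dgm // D.pts = range (i + 1 + j) ∧ C D i}, (D.1.mult : ℝ≥0∞) := rfl
    _ ≤ ∑' D : {D : Dgm // D.pts = range (i + 1 + j) ∧ C D i}, G (ph D) := by
        refine ENNReal.tsum_le_tsum fun D => ?_
        obtain ⟨hX1, hX2, hX3, hX4⟩ := hX D
        obtain ⟨hv, hF, _⟩ := hC D.1 i D.2.2
        have hpts := D.2.1
        have hmult : D.1.mult = (D.1.restr (insert i (X D))).mult *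
            (D.1.restr (D.1.pts \ X D)).mult := by
          unfold Dgm.mult
          have hpart : D.1.E = (D.1.restr (insert i (X D))).E ∪ (D.1.restr (D.1.pts \ X D)).E := by
            ext x
            simp only [Dgm.restr, mem_union, mem_filter, mem_insert, mem_sdiff]
            constructor
            · intro hx
              by_cases hxX : x.pt ∈ X D
              · exact Or.inl ⟨hx, Or.inr hxX⟩
              · exact Or.inr ⟨hx, Dgm.mem_pts_of_E hx, hxX⟩
            · rintro (h | h) <;> exact h.1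
          have hdis : Disjoint (D.1.restr (insert i (X D))).E (D.1.restr (D.1.pts \ X D)).E := by
            rw [Finset.disjoint_left]
            intro x hx hx'
            simp only [Dgm.restr, mem_filter, mem_insert, mem_sdiff] at hx hx'
            rcases hx.2 with h | h
            · exact hv.disj x hx.1 (h ▸ hF)
            · exact hx'.2.2 h
          conv_lhs => rw [hpart]
          rw [prod_union hdis]
        have hIs : (X D).filter (fun x => x < i) ∈ S.powerset := by
          rw [mem_powerset]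
          intro x hx
          exact mem_range.2 (mem_filter.1 hx).2
        have hJs : (X D).filter (fun x => i < x) ∈ T.powerset := by
          rw [mem_powerset]
          intro x hx
          have h1 := hX2 (mem_filter.1 hx).1
          rw [hpts, mem_range] at h1
          have h2 := (mem_filter.1 hx).2
          exact mem_Ico.2 ⟨by omega, by omega⟩
        have hXeq : insert i (X D) = insert i ((X D).filter (fun x => x < i) ∪
            (X D).filter (fun x => i < x)) := by
          ext x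
          simp only [mem_insert, mem_union, mem_filter]
          constructor
          · rintro (h | h)
            · exact Or.inl h
            · rcases lt_trichotomy x i with h' | h' | h'
              · exact Or.inr (Or.inl ⟨h, h'⟩)
              · exact Or.inl h'
              · exact Or.inr (Or.inr ⟨h, h'⟩)
          · rintro (h | h | h)
            · exact Or.inl h
            · exact Or.inr h.1
            · exact Or.inr h.1
        have hYeq : D.1.pts \ X D = insert i ((S \ (X D).filter (fun x => x < i)) ∪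
            (T \ (X D).filter (fun x => i < x))) := by
          rw [hpts]
          ext x
          simp only [mem_insert, mem_union, mem_filter, mem_sdiff, hS, hT, mem_range, mem_Ico]
          constructor
          · rintro ⟨h1, h2⟩
            rcases lt_trichotomy x i with h' | h' | h'
            · exact Or.inr (Or.inl ⟨h', fun h => h2 h.1⟩)
            · exact Or.inl h'
            · exact Or.inr (Or.inr ⟨⟨by omega, h1⟩, fun h => h2 h.1⟩)
          · rintro (rfl | ⟨h1, h2⟩ | ⟨h1, h2⟩)
            · exact ⟨by omega, hX1⟩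
            · exact ⟨by omega, fun h => h2 ⟨h, h1⟩⟩
            · exact ⟨by omega, fun h => h2 ⟨h, by omega⟩⟩
        have hp1 : (D.1.restr (insert i (X D))).pts = insert i ((X D).filter (fun x => x < i) ∪
            (X D).filter (fun x => i < x)) := by
          rw [Dgm.pts_restr, ← hXeq]
          apply inter_eq_right.2
          intro x hx
          rcases mem_insert.1 hx with rfl | hx
          · exact Dgm.mem_pts_of_F hF
          · exact hX2 hx
        have hp2 : (D.1.restr (D.1.pts \ X D)).pts = insert i ((S \ (X D).filter (fun x => x < i)) ∪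
            (T \ (X D).filter (fun x => i < x))) := by
          rw [Dgm.pts_restr, ← hYeq]
          exact inter_eq_right.2 sdiff_subset
        have hle1 : (if (ph D).1.pts = insert i ((X D).filter (fun x => x < i) ∪
            (X D).filter (fun x => i < x)) ∧ A (ph D).1 i then ((ph D).1.mult : ℝ≥0∞) else 0) *
            (if (ph D).2.pts = insert i ((S \ (X D).filter (fun x => x < i)) ∪
            (T \ (X D).filter (fun x => i < x))) ∧ B (ph D).2 i then ((ph D).2.mult : ℝ≥0∞) else 0) ≤
            G (ph D) := by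
          rw [hG]
          refine le_trans ?_ (single_le_sum (fun _ _ => zero_le) hIs)
          exact single_le_sum (f := fun J =>
            (if (ph D).1.pts = insert i ((X D).filter (fun x => x < i) ∪ J) ∧ A (ph D).1 i
              then ((ph D).1.mult : ℝ≥0∞) else 0) *
            (if (ph D).2.pts = insert i ((S \ (X D).filter (fun x => x < i)) ∪ (T \ J)) ∧ B (ph D).2 i
              then ((ph D).2.mult : ℝ≥0∞) else 0)) (fun _ _ => zero_le) hJs
        refine le_trans ?_ hle1
        rw [if_pos ⟨hp1, hX3⟩, if_pos ⟨hp2, hX4⟩, hmult]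
        push_cast
        exact le_rfl
    _ ≤ ∑' p, G p := ENNReal.tsum_comp_le_tsum_of_injective hph G

theorem linkW {A B C : Dgm → ℕ → Prop} (hA : Inv A) (hB : Inv B)
    (hAv : ∀ D v, A D v → D.Valid ∧ v ∈ D.F ∧ D.Conn) (hBv : ∀ D v, B D v → D.Valid ∧ v ∈ D.F)
    {a : ℕ} (ha : 1 ≤ a) (i j r : ℕ)
    (hC : ∀ D1 D2, Dgm.GlueOk a (i + 1) i (i + 2) D1 D2 → A D1 i → B D2 (i + 2) →
      C (Dgm.glue a (i + 1) i (i + 2) D1 D2) r) :
    (a : ℝ≥0∞) ^ 2 * conv (cnt A) (cnt B) i j ≤ W C (range (i + 3 + j)) r := by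
  classical
  set S : Finset ℕ := range i with hS
  set T : Finset ℕ := Ico (i + 3) (i + 3 + j) with hT
  have hSc : S.card = i := card_range i
  have hTc : T.card = j := by rw [hT, Nat.card_Ico]; omega
  have key : ∑ I ∈ S.powerset, ∑ J ∈ T.powerset,
      W A (insert i (I ∪ J)) i * W B (insert (i + 2) ((S \ I) ∪ (T \ J))) (i + 2) =
      conv (cnt A) (cnt B) i j := by
    have h0 := conv_subsets (cnt A) (cnt B) S T
    rw [hSc, hTc] at h0
    rw [← h0]
    apply sum_congr rfl
    intro I hI
    apply sum_congr rfl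
    intro J hJ
    have hI' := mem_powerset.1 hI
    have hJ' := mem_powerset.1 hJ
    rw [W_insert hA (fun D v h => (hAv D v h).1) (fun x hx => mem_range.1 (hI' hx))
        (fun x hx => by have := mem_Ico.1 (hJ' hx); omega),
      W_insert hB (fun D v h => (hBv D v h).1)
        (fun x hx => by have := mem_range.1 (mem_sdiff.1 hx).1; omega)
        (fun x hx => by have := mem_Ico.1 (mem_sdiff.1 hx).1; omega),
      card_sdiff_of_subset hI', card_sdiff_of_subset hJ', hSc, hTc]
  rw [← key]
  set P : Set (Dgm × Dgm) := {p | ∃ I ∈ S.powerset, ∃ J ∈ T.powerset,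
    (p.1.pts = insert i (I ∪ J) ∧ A p.1 i) ∧
    (p.2.pts = insert (i + 2) ((S \ I) ∪ (T \ J)) ∧ B p.2 (i + 2))} with hP
  set H : Finset ℕ × Finset ℕ → Dgm × Dgm → ℝ≥0∞ := fun x p =>
    (if p.1.pts = insert i (x.1 ∪ x.2) ∧ A p.1 i then (p.1.mult : ℝ≥0∞) else 0) *
    (if p.2.pts = insert (i + 2) ((S \ x.1) ∪ (T \ x.2)) ∧ B p.2 (i + 2)
      then (p.2.mult : ℝ≥0∞) else 0) with hH
  have hsum : ∑ I ∈ S.powerset, ∑ J ∈ T.powerset,
      W A (insert i (I ∪ J)) i * W B (insert (i + 2) ((S \ I) ∪ (T \ J))) (i + 2) =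
      ∑' p, ∑ x ∈ S.powerset ×ˢ T.powerset, H x p := by
    rw [Summable.tsum_finsetSum (fun _ _ => ENNReal.summable), sum_product]
    apply sum_congr rfl
    intro I _
    apply sum_congr rfl
    intro J _
    rw [W_eq_ite, W_eq_ite]
    exact (tsum_prod_mul
      (fun D : Dgm => if D.pts = insert i (I ∪ J) ∧ A D i then (D.mult : ℝ≥0∞) else 0)
      (fun D : Dgm => if D.pts = insert (i + 2) ((S \ I) ∪ (T \ J)) ∧ B D (i + 2)
        then (D.mult : ℝ≥0∞) else 0)).symm
  have hH0 : ∀ x p, H x p ≠ 0 → (p.1.pts = insert i (x.1 ∪ x.2) ∧ A p.1 i) ∧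
      (p.2.pts = insert (i + 2) ((S \ x.1) ∪ (T \ x.2)) ∧ B p.2 (i + 2)) := by
    intro x p hne
    simp only [hH] at hne
    constructor
    · by_contra h0
      rw [if_neg h0, zero_mul] at hne
      exact hne rfl
    · by_contra h0
      rw [if_neg h0, mul_zero] at hne
      exact hne rfl
  have hpt : ∀ p, ∑ x ∈ S.powerset ×ˢ T.powerset, H x p ≤
      P.indicator (fun p => ((p.1.mult : ℝ≥0∞) * (p.2.mult : ℝ≥0∞))) p := by
    intro p
    by_cases hp : p ∈ P
    · rw [Set.indicator_of_mem hp]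
      apply sum_unique_le
      · intro x _
        simp only [hH]
        gcongr
        · split_ifs
          · exact le_rfl
          · exact zero_le
        · split_ifs
          · exact le_rfl
          · exact zero_le
      · intro x hx y hy hx0 hy0
        have h1 := (hH0 x p hx0).1.1
        have h2 := (hH0 y p hy0).1.1
        have h3 : insert i (x.1 ∪ x.2) = insert i (y.1 ∪ y.2) := h1.symm.trans h2
        obtain ⟨hx1, hx2⟩ := mem_product.1 hx
        obtain ⟨hy1, hy2⟩ := mem_product.1 hy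
        rw [mem_powerset] at hx1 hx2 hy1 hy2
        have hmem : ∀ z, z ∈ insert i (x.1 ∪ x.2) ↔ z ∈ insert i (y.1 ∪ y.2) := by
          intro z; rw [h3]
        simp only [mem_insert, mem_union] at hmem
        have b1 : ∀ z ∈ x.1, z < i := fun z hz => mem_range.1 (hx1 hz)
        have b2 : ∀ z ∈ y.1, z < i := fun z hz => mem_range.1 (hy1 hz)
        have b3 : ∀ z ∈ x.2, i + 3 ≤ z := fun z hz => (mem_Ico.1 (hx2 hz)).1
        have b4 : ∀ z ∈ y.2, i + 3 ≤ z := fun z hz => (mem_Ico.1 (hy2 hz)).1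
        apply Prod.ext
        · ext z
          constructor
          · intro hz
            have hz' := b1 z hz
            rcases (hmem z).1 (Or.inr (Or.inl hz)) with h | h | h
            · omega
            · exact h
            · have := b4 z h; omega
          · intro hz
            have hz' := b2 z hz
            rcases (hmem z).2 (Or.inr (Or.inl hz)) with h | h | h
            · omega
            · exact h
            · have := b3 z h; omega
        · ext z
          constructor
          · intro hz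
            have hz' := b3 z hz
            rcases (hmem z).1 (Or.inr (Or.inr hz)) with h | h | h
            · omega
            · have := b2 z h; omega
            · exact h
          · intro hz
            have hz' := b4 z hz
            rcases (hmem z).2 (Or.inr (Or.inr hz)) with h | h | h
            · omega
            · have := b1 z h; omega
            · exact h
    · rw [Set.indicator_of_notMem hp]
      apply le_of_eq
      apply sum_eq_zero
      intro x hx
      by_contra h0
      obtain ⟨hx1, hx2⟩ := mem_product.1 hx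
      exact hp ⟨x.1, hx1, x.2, hx2, hH0 x p h0⟩
  have hok : ∀ p ∈ P, Dgm.GlueOk a (i + 1) i (i + 2) p.1 p.2 ∧ A p.1 i ∧ B p.2 (i + 2) ∧
      (Dgm.glue a (i + 1) i (i + 2) p.1 p.2).pts = range (i + 3 + j) := by
    rintro p ⟨I, hI, J, hJ, ⟨hp1, hA1⟩, hp2, hB2⟩
    rw [mem_powerset] at hI hJ
    have b1 : ∀ z ∈ I, z < i := fun z hz => mem_range.1 (hI hz)
    have b2 : ∀ z ∈ J, i + 3 ≤ z ∧ z < i + 3 + j := fun z hz => mem_Ico.1 (hJ hz)
    refine ⟨⟨(hAv _ _ hA1).1, (hBv _ _ hB2).1, ?_, (hAv _ _ hA1).2.1, (hBv _ _ hB2).2, ?_, ?_,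
      by omega, by omega, ha⟩, hA1, hB2, ?_⟩
    · rw [hp1, hp2, Finset.disjoint_left]
      intro z hz hz'
      simp only [mem_insert, mem_union, mem_sdiff, hS, hT, mem_range, mem_Ico] at hz hz'
      rcases hz with rfl | hz | hz
      · rcases hz' with h | h | h <;> omega
      · have := b1 z hz
        rcases hz' with h | h | h
        · omega
        · exact h.2 hz
        · omega
      · have := b2 z hz
        rcases hz' with h | h | h
        · omega
        · omega
        · exact h.2 hz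
    · rw [hp1]
      simp only [mem_insert, mem_union]
      rintro (h | h | h)
      · omega
      · have := b1 _ h; omega
      · have := b2 _ h; omega
    · rw [hp2]
      simp only [mem_insert, mem_union, mem_sdiff, hS, hT, mem_range, mem_Ico]
      rintro (h | h | h) <;> omega
    · rw [Dgm.glue_pts, hp1, hp2]
      ext z
      simp only [mem_insert, mem_union, mem_sdiff, hS, hT, mem_range, mem_Ico]
      constructor
      · rintro (h | (h | h | h) | (h | h | h))
        · omega
        · omega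
        · have := b1 z h; omega
        · have := b2 z h; omega
        · omega
        · omega
        · omega
      · intro h
        rcases lt_trichotomy z i with h1 | h1 | h1
        · by_cases hz : z ∈ I
          · exact Or.inr (Or.inl (Or.inr (Or.inl hz)))
          · exact Or.inr (Or.inr (Or.inr (Or.inl ⟨h1, hz⟩)))
        · exact Or.inr (Or.inl (Or.inl h1))
        · by_cases h2 : z = i + 1
          · exact Or.inl h2
          · by_cases h3 : z = i + 2
            · exact Or.inr (Or.inr (Or.inl h3))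
            · by_cases hz : z ∈ J
              · exact Or.inr (Or.inl (Or.inr (Or.inr hz)))
              · exact Or.inr (Or.inr (Or.inr (Or.inr ⟨⟨by omega, h⟩, hz⟩)))
  let f : P → {D : Dgm // D.pts = range (i + 3 + j) ∧ C D r} := fun p =>
    ⟨Dgm.glue a (i + 1) i (i + 2) p.1.1 p.1.2, (hok p.1 p.2).2.2.2,
      hC _ _ (hok p.1 p.2).1 (hok p.1 p.2).2.1 (hok p.1 p.2).2.2.1⟩
  have hf : Function.Injective f := by
    intro p p' hh
    have h1 : Dgm.glue a (i + 1) i (i + 2) p.1.1 p.1.2 =
        Dgm.glue a (i + 1) i (i + 2) p'.1.1 p'.1.2 := congrArg Subtype.val hh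
    have h2 := hok p.1 p.2
    have h3 := hok p'.1 p'.2
    have h4 := Dgm.glue_inj h2.1 h3.1 h1 (hAv _ _ h2.2.1).2.2 (hAv _ _ h3.2.1).2.2
    exact Subtype.ext (Prod.ext h4.1 h4.2)
  calc (a : ℝ≥0∞) ^ 2 * ∑ I ∈ S.powerset, ∑ J ∈ T.powerset,
      W A (insert i (I ∪ J)) i * W B (insert (i + 2) ((S \ I) ∪ (T \ J))) (i + 2)
      = (a : ℝ≥0∞) ^ 2 * ∑' p, ∑ x ∈ S.powerset ×ˢ T.powerset, H x p := by rw [hsum]
    _ ≤ (a : ℝ≥0∞) ^ 2 * ∑' p, P.indicator
          (fun p => ((p.1.mult : ℝ≥0∞) * (p.2.mult : ℝ≥0∞))) p := by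
        gcongr with p
        exact hpt p
    _ = (a : ℝ≥0∞) ^ 2 * ∑' p : P, ((p.1.1.mult : ℝ≥0∞) * (p.1.2.mult : ℝ≥0∞)) := by
        rw [← _root_.tsum_subtype]
    _ = ∑' p : P, ((f p).1.mult : ℝ≥0∞) := by
        rw [← ENNReal.tsum_mul_left]
        apply tsum_congr
        intro p
        have := (hok p.1 p.2).1.mult
        simp only [f, this]
        push_cast
        ring
    _ ≤ ∑' D : {D : Dgm // D.pts = range (i + 3 + j) ∧ C D r}, (D.1.mult : ℝ≥0∞) :=
        ENNReal.tsum_comp_le_tsum_of_injective hf (fun D => (D.1.mult : ℝ≥0∞))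
    _ = W C (range (i + 3 + j)) r := rfl

/-- linking, the root is the end of the new elevator -/
theorem link2 {A B C : Dgm → ℕ → Prop} (hA : Inv A) (hB : Inv B)
    (hAv : ∀ D v, A D v → D.Valid ∧ v ∈ D.F ∧ D.Conn) (hBv : ∀ D v, B D v → D.Valid ∧ v ∈ D.F)
    {a : ℕ} (ha : 1 ≤ a)
    (hC : ∀ c r1 r2 D1 D2, Dgm.GlueOk a c r1 r2 D1 D2 → A D1 r1 → B D2 r2 →
      C (Dgm.glue a c r1 r2 D1 D2) r2) (α β τ : ℝ≥0) :
    (a : ℝ≥0∞) ^ 2 * (τ ^ 2 / 2 : ℝ≥0) * (gf (cnt A) α β * gf (cnt B) α β) ≤
      gf (cnt C) (α + τ) β := by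
  have h1 : ∀ i j, (fun i j => (a : ℝ≥0∞) ^ 2 * conv (cnt A) (cnt B) i j) i j ≤
      cnt C (i + 2) j := by
    intro i j
    have := linkW hA hB hAv hBv ha i j (i + 2) (fun D1 D2 h1 h2 h3 => hC _ _ _ D1 D2 h1 h2 h3)
    refine le_trans this (le_of_eq ?_)
    unfold cnt
    congr 2
  have h2 := gf_shift2 h1 α β τ
  have h3 : gf (fun i j => (a : ℝ≥0∞) ^ 2 * conv (cnt A) (cnt B) i j) α β =
      (a : ℝ≥0∞) ^ 2 * gf (conv (cnt A) (cnt B)) α β := by
    unfold gf
    simp_rw [mul_assoc, ENNReal.tsum_mul_left]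
  rw [h3, gf_conv] at h2
  calc (a : ℝ≥0∞) ^ 2 * (τ ^ 2 / 2 : ℝ≥0) * (gf (cnt A) α β * gf (cnt B) α β)
      = (a : ℝ≥0∞) ^ 2 * (gf (cnt A) α β * gf (cnt B) α β) * (τ ^ 2 / 2 : ℝ≥0) := by ring
    _ ≤ _ := h2

/-- linking, the root is the start of the new elevator -/
theorem link1 {A B C : Dgm → ℕ → Prop} (hA : Inv A) (hB : Inv B)
    (hAv : ∀ D v, A D v → D.Valid ∧ v ∈ D.F ∧ D.Conn) (hBv : ∀ D v, B D v → D.Valid ∧ v ∈ D.F)
    {a : ℕ} (ha : 1 ≤ a)
    (hC : ∀ c r1 r2 D1 D2, Dgm.GlueOk a c r1 r2 D1 D2 → A D1 r1 → B D2 r2 →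
      C (Dgm.glue a c r1 r2 D1 D2) r1) (α β τ : ℝ≥0) :
    (a : ℝ≥0∞) ^ 2 * (τ ^ 2 / 2 : ℝ≥0) * (gf (cnt A) α β * gf (cnt B) α β) ≤
      gf (cnt C) α (β + τ) := by
  have h1 : ∀ i j, (fun i j => (a : ℝ≥0∞) ^ 2 * conv (cnt A) (cnt B) i j) i j ≤
      cnt C i (j + 2) := by
    intro i j
    have := linkW hA hB hAv hBv ha i j i (fun D1 D2 h1 h2 h3 => hC _ _ _ D1 D2 h1 h2 h3)
    refine le_trans this (le_of_eq ?_)
    unfold cnt
    congr 2
    omega
  have h2 := gf_shift2' h1 α β τ
  have h3 : gf (fun i j => (a : ℝ≥0∞) ^ 2 * conv (cnt A) (cnt B) i j) α β =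
      (a : ℝ≥0∞) ^ 2 * gf (conv (cnt A) (cnt B)) α β := by
    unfold gf
    simp_rw [mul_assoc, ENNReal.tsum_mul_left]
  rw [h3, gf_conv] at h2
  calc (a : ℝ≥0∞) ^ 2 * (τ ^ 2 / 2 : ℝ≥0) * (gf (cnt A) α β * gf (cnt B) α β)
      = (a : ℝ≥0∞) ^ 2 * (gf (cnt A) α β * gf (cnt B) α β) * (τ ^ 2 / 2 : ℝ≥0) := by ring
    _ ≤ _ := h2

end Pool.Agent.FloorDiag
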