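import Pool.Agent.Lib.MP_6aab98_ag.Handle

/-! # MP_6aab98_ag: merging two systems at a new floor behind all points -/

namespace Pool.Agent.FloorDiag

open Finset
open scoped ENNReal NNReal Nat

/-- the elevators through `a` and `b` now end at the new floor `v` -/
def rt (a b v : ℕ) (e : Elev) : Elev :=
  if e.pt = a ∨ e.pt = b then ⟨e.pt, e.src, some v, e.wt⟩ else e

/-- the inverse -/
def unrt (v : ℕ) (e : Elev) : Elev := if e.tgt = some v then ⟨e.pt, e.src, none, e.wt⟩ else e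

/-- three unbounded elevators -/
def G3 (v : ℕ) : Finset Elev := {⟨v + 1, v, none, 1⟩, ⟨v + 2, v, none, 1⟩, ⟨v + 3, v, none, 1⟩}

theorem rt_pt (a b v : ℕ) (e : Elev) : (rt a b v e).pt = e.pt := by
  unfold rt; split_ifs <;> rfl

theorem rt_src (a b v : ℕ) (e : Elev) : (rt a b v e).src = e.src := by
  unfold rt; split_ifs <;> rfl

theorem rt_wt (a b v : ℕ) (e : Elev) : (rt a b v e).wt = e.wt := by
  unfold rt; split_ifs <;> rfl

theorem rt_comm (a b v : ℕ) (e : Elev) : rt a b v e = rt b a v e := by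
  unfold rt
  simp only [or_comm]

theorem mem_G3 {v : ℕ} {e : Elev} : e ∈ G3 v ↔ e = ⟨v + 1, v, none, 1⟩ ∨
    e = ⟨v + 2, v, none, 1⟩ ∨ e = ⟨v + 3, v, none, 1⟩ := by
  simp [G3]

theorem prod_G3 (v : ℕ) : ∏ e ∈ G3 v, e.wt ^ 2 = 1 := by
  apply prod_eq_one
  intro e he
  rcases mem_G3.1 he with rfl | rfl | rfl <;> rfl

theorem sum_G3 (v : ℕ) (w : Elev → ℤ) : ∑ e ∈ G3 v, w e = w ⟨v + 1, v, none, 1⟩ +
    (w ⟨v + 2, v, none, 1⟩ + w ⟨v + 3, v, none, 1⟩) := by
  unfold G3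
  rw [sum_insert (by simp), sum_insert (by simp), sum_singleton]

/-- a part: a full system all of whose points are before `v`, with a chosen unbounded elevator
through `a`; the point `b` is not in the part -/
structure Part (g a b v : ℕ) (D : Dgm) (e0 : Elev) : Prop where
  full : Full g D
  mem : e0 ∈ D.E
  pt : e0.pt = a
  tgt : e0.tgt = none
  wt : e0.wt = 1
  nb : b ∉ D.pts
  lt : ∀ x ∈ D.pts, x < v

namespace Part

variable {g a b v : ℕ} {D : Dgm} {e0 : Elev}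

theorem ret_ne (h : Part g a b v D e0) {e : Elev} (he : e ∈ D.E) (hne : e ≠ e0) :
    rt a b v e = e := by
  unfold rt
  rw [if_neg]
  rintro (h1 | h1)
  · exact hne (h.full.valid.inj e he e0 h.mem (h1.trans h.pt.symm))
  · exact h.nb (h1 ▸ Dgm.mem_pts_of_E he)

theorem ret_eq (h : Part g a b v D e0) : rt a b v e0 = ⟨a, e0.src, some v, 1⟩ := by
  unfold rt
  rw [if_pos (Or.inl h.pt), h.pt, h.wt]

theorem ret_tgt (h : Part g a b v D e0) {e : Elev} (he : e ∈ D.E) {q : ℕ}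
    (hq : (rt a b v e).tgt = some q) : (e = e0 ∧ q = v) ∨ (e.tgt = some q ∧ q ∈ D.F) := by
  by_cases hee : e = e0
  · subst hee
    rw [h.ret_eq] at hq
    simp only [Option.some.injEq] at hq
    exact Or.inl ⟨rfl, hq.symm⟩
  · rw [h.ret_ne he hee] at hq
    exact Or.inr ⟨hq, h.full.valid.tgt_mem e he q hq⟩

theorem dv_eq (h : Part g a b v D e0) {e : Elev} (he : e ∈ D.E) {f : ℕ} (hf : f ≠ v) :
    (rt a b v e).dv f = e.dv f := by
  by_cases hee : e = e0
  · subst hee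
    rw [h.ret_eq]
    unfold Elev.dv
    simp only [h.tgt, h.wt, Option.some.injEq, reduceCtorEq, if_false, if_neg (Ne.symm hf)]
  · rw [h.ret_ne he hee]

theorem vF (h : Part g a b v D e0) : v ∉ D.F := fun h1 => by
  have := h.lt v (Dgm.mem_pts_of_F h1)
  omega

theorem sum_v (h : Part g a b v D e0) : ∑ e ∈ D.E, (rt a b v e).dv v = -1 := by
  rw [sum_eq_single e0]
  · rw [h.ret_eq]
    have h1 : e0.src ≠ v := by
      have h2 := h.lt _ (h.full.valid.src_pts h.mem)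
      omega
    simp [Elev.dv, h1]
  · intro e he hee
    rw [h.ret_ne he hee]
    apply Dgm.Elev.dv_of_ne
    · have h2 := h.lt _ (h.full.valid.src_pts he)
      omega
    · intro hq
      exact h.vF (h.full.valid.tgt_mem e he _ hq)
  · intro h1
    exact absurd h.mem h1

theorem unret (h : Part g a b v D e0) {e : Elev} (he : e ∈ D.E) : unrt v (rt a b v e) = e := by
  by_cases hee : e = e0
  · subst hee
    rw [h.ret_eq]
    unfold unrt
    rw [if_pos rfl]
    have h1 := h.pt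
    have h2 := h.tgt
    have h3 := h.wt
    cases e
    simp only at h1 h2 h3
    subst h1 h2 h3
    rfl
  · rw [h.ret_ne he hee]
    unfold unrt
    rw [if_neg]
    intro hq
    exact h.vF (h.full.valid.tgt_mem e he _ hq)

end Part

/-- two parts -/
structure MOk (g1 g2 a b v : ℕ) (D1 D2 : Dgm) (e1 e2 : Elev) : Prop where
  p1 : Part g1 a b v D1 e1
  p2 : Part g2 b a v D2 e2
  disj : Disjoint D1.pts D2.pts

/-- the union of two systems -/
def uni (D1 D2 : Dgm) : Dgm := ⟨D1.F ∪ D2.F, D1.E ∪ D2.E⟩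

/-- the merged system -/
def mrg (a b v : ℕ) (D1 D2 : Dgm) : Dgm :=
  ⟨insert v (D1.F ∪ D2.F), (D1.E ∪ D2.E).image (rt a b v) ∪ G3 v⟩

/-- recovery of the union -/
def unM (v : ℕ) (D : Dgm) : Dgm :=
  ⟨D.F.filter (fun x => x < v), (D.E.filter (fun e => e.pt < v)).image (unrt v)⟩

theorem mem_mrg {a b v : ℕ} {D1 D2 : Dgm} {x : Elev} : x ∈ (mrg a b v D1 D2).E ↔
    (∃ e ∈ D1.E, rt a b v e = x) ∨ (∃ e ∈ D2.E, rt b a v e = x) ∨ x ∈ G3 v := by
  simp only [mrg, mem_union, mem_image]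
  constructor
  · rintro (⟨e, he | he, rfl⟩ | h)
    · exact Or.inl ⟨e, he, rfl⟩
    · exact Or.inr (Or.inl ⟨e, he, rt_comm _ _ _ _⟩)
    · exact Or.inr (Or.inr h)
  · rintro (⟨e, he, rfl⟩ | ⟨e, he, rfl⟩ | h)
    · exact Or.inl ⟨e, Or.inl he, rfl⟩
    · exact Or.inl ⟨e, Or.inr he, rt_comm _ _ _ _⟩
    · exact Or.inr h

theorem mem_mrgF {a b v : ℕ} {D1 D2 : Dgm} {x : ℕ} : x ∈ (mrg a b v D1 D2).F ↔
    x = v ∨ x ∈ D1.F ∨ x ∈ D2.F := by
  simp [mrg]

namespace MOk

variable {g1 g2 a b v : ℕ} {D1 D2 : Dgm} {e1 e2 : Elev}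

theorem ne_pt (h : MOk g1 g2 a b v D1 D2 e1 e2) {x y : ℕ} (hx : x ∈ D1.pts) (hy : y ∈ D2.pts) :
    x ≠ y := by
  rintro rfl
  exact Finset.disjoint_left.1 h.disj hx hy

theorem inj (h : MOk g1 g2 a b v D1 D2 e1 e2) : ∀ e ∈ D1.E ∪ D2.E, ∀ e' ∈ D1.E ∪ D2.E,
    rt a b v e = rt a b v e' → e = e' := by
  intro e he e' he' hh
  have hpt : e.pt = e'.pt := by
    have := congrArg Elev.pt hh
    rwa [rt_pt, rt_pt] at this
  rcases mem_union.1 he with he | he <;> rcases mem_union.1 he' with he' | he'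
  · exact h.p1.full.valid.inj e he e' he' hpt
  · exact absurd hpt (h.ne_pt (Dgm.mem_pts_of_E he) (Dgm.mem_pts_of_E he'))
  · exact absurd hpt.symm (h.ne_pt (Dgm.mem_pts_of_E he') (Dgm.mem_pts_of_E he))
  · exact h.p2.full.valid.inj e he e' he' hpt

theorem disjE (h : MOk g1 g2 a b v D1 D2 e1 e2) : Disjoint D1.E D2.E := by
  rw [Finset.disjoint_left]
  intro e he he'
  exact h.ne_pt (Dgm.mem_pts_of_E he) (Dgm.mem_pts_of_E he') rfl

theorem disjF (h : MOk g1 g2 a b v D1 D2 e1 e2) : Disjoint D1.F D2.F := by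
  rw [Finset.disjoint_left]
  intro e he he'
  exact h.ne_pt (Dgm.mem_pts_of_F he) (Dgm.mem_pts_of_F he') rfl

theorem disjG (h : MOk g1 g2 a b v D1 D2 e1 e2) :
    Disjoint ((D1.E ∪ D2.E).image (rt a b v)) (G3 v) := by
  rw [Finset.disjoint_left]
  intro x hx hx'
  obtain ⟨e, he, rfl⟩ := mem_image.1 hx
  have h1 : e.pt < v := by
    rcases mem_union.1 he with he | he
    · exact h.p1.lt _ (Dgm.mem_pts_of_E he)
    · exact h.p2.lt _ (Dgm.mem_pts_of_E he)
  have h2 := rt_pt a b v e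
  rcases mem_G3.1 hx' with h3 | h3 | h3 <;>
  · rw [h3] at h2
    simp only at h2
    omega

theorem pts (h : MOk g1 g2 a b v D1 D2 e1 e2) : (mrg a b v D1 D2).pts =
    D1.pts ∪ D2.pts ∪ {v, v + 1, v + 2, v + 3} := by
  ext x
  rw [Dgm.mem_pts]
  simp only [mem_union, mem_insert, mem_singleton, mem_mrgF]
  constructor
  · rintro ((h1 | h1 | h1) | ⟨e, he, rfl⟩)
    · exact Or.inr (Or.inl h1)
    · exact Or.inl (Or.inl (Dgm.mem_pts_of_F h1))
    · exact Or.inl (Or.inr (Dgm.mem_pts_of_F h1))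
    · rcases mem_mrg.1 he with ⟨e, he1, rfl⟩ | ⟨e, he1, rfl⟩ | he1
      · rw [rt_pt]; exact Or.inl (Or.inl (Dgm.mem_pts_of_E he1))
      · rw [rt_pt]; exact Or.inl (Or.inr (Dgm.mem_pts_of_E he1))
      · rcases mem_G3.1 he1 with rfl | rfl | rfl
        · exact Or.inr (Or.inr (Or.inl rfl))
        · exact Or.inr (Or.inr (Or.inr (Or.inl rfl)))
        · exact Or.inr (Or.inr (Or.inr (Or.inr rfl)))
  · rintro ((h1 | h1) | h1 | h1 | h1 | h1)
    · rcases Dgm.mem_pts.1 h1 with h2 | ⟨e, he, rfl⟩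
      · exact Or.inl (Or.inr (Or.inl h2))
      · exact Or.inr ⟨_, mem_mrg.2 (Or.inl ⟨e, he, rfl⟩), rt_pt _ _ _ _⟩
    · rcases Dgm.mem_pts.1 h1 with h2 | ⟨e, he, rfl⟩
      · exact Or.inl (Or.inr (Or.inr h2))
      · exact Or.inr ⟨_, mem_mrg.2 (Or.inr (Or.inl ⟨e, he, rfl⟩)), rt_pt _ _ _ _⟩
    · exact Or.inl (Or.inl h1)
    · exact Or.inr ⟨_, mem_mrg.2 (Or.inr (Or.inr (mem_G3.2 (Or.inl rfl)))), h1.symm⟩
    · exact Or.inr ⟨_, mem_mrg.2 (Or.inr (Or.inr (mem_G3.2 (Or.inr (Or.inl rfl))))), h1.symm⟩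
    · exact Or.inr ⟨_, mem_mrg.2 (Or.inr (Or.inr (mem_G3.2 (Or.inr (Or.inr rfl))))), h1.symm⟩

theorem mult (h : MOk g1 g2 a b v D1 D2 e1 e2) :
    (mrg a b v D1 D2).mult = D1.mult * D2.mult := by
  unfold Dgm.mult
  simp only [mrg]
  rw [prod_union h.disjG, prod_G3, mul_one,
    prod_image (fun e he e' he' hh => h.inj e he e' he' hh), prod_union h.disjE]
  congr 1 <;> exact prod_congr rfl fun e _ => by rw [rt_wt]

theorem valid (h : MOk g1 g2 a b v D1 D2 e1 e2) : (mrg a b v D1 D2).Valid := by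
  have v1 := h.p1.full.valid
  have v2 := h.p2.full.valid
  refine ⟨?_, ?_, ?_, ?_, ?_, ?_, ?_, ?_⟩
  · intro x hx y hy hxy
    have hpart : ∀ z ∈ (mrg a b v D1 D2).E, (∃ e ∈ D1.E ∪ D2.E, rt a b v e = z) ∨ z ∈ G3 v := by
      intro z hz
      simpa [mrg] using hz
    have hltE : ∀ e ∈ D1.E ∪ D2.E, e.pt < v := by
      intro e he
      rcases mem_union.1 he with he | he
      · exact h.p1.lt _ (Dgm.mem_pts_of_E he)
      · exact h.p2.lt _ (Dgm.mem_pts_of_E he)
    rcases hpart x hx with ⟨e, he, rfl⟩ | hx' <;> rcases hpart y hy with ⟨e', he', rfl⟩ | hy'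
    · rw [rt_pt, rt_pt] at hxy
      have : e = e' := by
        rcases mem_union.1 he with he | he <;> rcases mem_union.1 he' with he' | he'
        · exact v1.inj e he e' he' hxy
        · exact absurd hxy (h.ne_pt (Dgm.mem_pts_of_E he) (Dgm.mem_pts_of_E he'))
        · exact absurd hxy.symm (h.ne_pt (Dgm.mem_pts_of_E he') (Dgm.mem_pts_of_E he))
        · exact v2.inj e he e' he' hxy
      rw [this]
    · exfalso
      rw [rt_pt] at hxy
      have h1 := hltE e he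
      rcases mem_G3.1 hy' with rfl | rfl | rfl <;> simp only at hxy <;> omega
    · exfalso
      rw [rt_pt] at hxy
      have h1 := hltE e' he'
      rcases mem_G3.1 hx' with rfl | rfl | rfl <;> simp only at hxy <;> omega
    · rcases mem_G3.1 hx' with rfl | rfl | rfl <;>
        rcases mem_G3.1 hy' with rfl | rfl | rfl <;>
        first
        | rfl
        | (exfalso; simp only at hxy; omega)
  · intro x hx hF
    rcases mem_mrg.1 hx with ⟨e, he, rfl⟩ | ⟨e, he, rfl⟩ | hx'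
    · rw [rt_pt] at hF
      have h1 := h.p1.lt _ (Dgm.mem_pts_of_E he)
      rcases mem_mrgF.1 hF with h2 | h2 | h2
      · omega
      · exact v1.disj e he h2
      · exact h.ne_pt (Dgm.mem_pts_of_E he) (Dgm.mem_pts_of_F h2) rfl
    · rw [rt_pt] at hF
      have h1 := h.p2.lt _ (Dgm.mem_pts_of_E he)
      rcases mem_mrgF.1 hF with h2 | h2 | h2
      · omega
      · exact h.ne_pt (Dgm.mem_pts_of_F h2) (Dgm.mem_pts_of_E he) rfl
      · exact v2.disj e he h2
    · rcases mem_mrgF.1 hF with h2 | h2 | h2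
      · rcases mem_G3.1 hx' with rfl | rfl | rfl <;> simp only at h2 <;> omega
      · have h3 := h.p1.lt _ (Dgm.mem_pts_of_F h2)
        rcases mem_G3.1 hx' with rfl | rfl | rfl <;> simp only at h3 <;> omega
      · have h3 := h.p2.lt _ (Dgm.mem_pts_of_F h2)
        rcases mem_G3.1 hx' with rfl | rfl | rfl <;> simp only at h3 <;> omega
  · intro x hx
    rw [mem_mrgF]
    rcases mem_mrg.1 hx with ⟨e, he, rfl⟩ | ⟨e, he, rfl⟩ | hx'
    · rw [rt_src]; exact Or.inr (Or.inl (v1.src_mem e he))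
    · rw [rt_src]; exact Or.inr (Or.inr (v2.src_mem e he))
    · rcases mem_G3.1 hx' with rfl | rfl | rfl <;> exact Or.inl rfl
  · intro x hx
    rcases mem_mrg.1 hx with ⟨e, he, rfl⟩ | ⟨e, he, rfl⟩ | hx'
    · rw [rt_src, rt_pt]; exact v1.src_lt e he
    · rw [rt_src, rt_pt]; exact v2.src_lt e he
    · rcases mem_G3.1 hx' with rfl | rfl | rfl <;> simp only <;> omega
  · intro x hx q hq
    rw [mem_mrgF]
    rcases mem_mrg.1 hx with ⟨e, he, rfl⟩ | ⟨e, he, rfl⟩ | hx'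
    · rcases h.p1.ret_tgt he hq with ⟨_, h1⟩ | ⟨_, h1⟩
      · exact Or.inl h1
      · exact Or.inr (Or.inl h1)
    · rcases h.p2.ret_tgt he hq with ⟨_, h1⟩ | ⟨_, h1⟩
      · exact Or.inl h1
      · exact Or.inr (Or.inr h1)
    · rcases mem_G3.1 hx' with rfl | rfl | rfl <;> simp at hq
  · intro x hx q hq
    rcases mem_mrg.1 hx with ⟨e, he, rfl⟩ | ⟨e, he, rfl⟩ | hx'
    · rw [rt_pt]
      rcases h.p1.ret_tgt he hq with ⟨_, h1⟩ | ⟨h1, _⟩
      · rw [h1]; exact h.p1.lt _ (Dgm.mem_pts_of_E he)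
      · exact v1.tgt_lt e he q h1
    · rw [rt_pt]
      rcases h.p2.ret_tgt he hq with ⟨_, h1⟩ | ⟨h1, _⟩
      · rw [h1]; exact h.p2.lt _ (Dgm.mem_pts_of_E he)
      · exact v2.tgt_lt e he q h1
    · rcases mem_G3.1 hx' with rfl | rfl | rfl <;> simp at hq
  · intro x hx
    rcases mem_mrg.1 hx with ⟨e, he, rfl⟩ | ⟨e, he, rfl⟩ | hx'
    · rw [rt_wt]; exact v1.wt_pos e he
    · rw [rt_wt]; exact v2.wt_pos e he
    · rcases mem_G3.1 hx' with rfl | rfl | rfl <;> simp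
  · intro x hx hq
    rcases mem_mrg.1 hx with ⟨e, he, rfl⟩ | ⟨e, he, rfl⟩ | hx'
    · by_cases hee : e = e1
      · subst hee
        rw [h.p1.ret_eq] at hq
        simp at hq
      · rw [h.p1.ret_ne he hee] at hq ⊢
        exact v1.wt_end e he hq
    · by_cases hee : e = e2
      · subst hee
        rw [h.p2.ret_eq] at hq
        simp at hq
      · rw [h.p2.ret_ne he hee] at hq ⊢
        exact v2.wt_end e he hq
    · rcases mem_G3.1 hx' with rfl | rfl | rfl <;> simp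

theorem conn (h : MOk g1 g2 a b v D1 D2 e1 e2) : (mrg a b v D1 D2).Conn := by
  intro X hX hx y hy
  have hcl1 : D1.Closed X := by
    intro e he
    have h1 := hX (rt a b v e) (mem_mrg.2 (Or.inl ⟨e, he, rfl⟩))
    rw [rt_pt, rt_src] at h1
    refine ⟨h1.1, fun q hq => ?_⟩
    by_cases hee : e = e1
    · subst hee
      rw [h.p1.tgt] at hq
      simp at hq
    · exact h1.2 q (by rw [h.p1.ret_ne he hee]; exact hq)
  have hcl2 : D2.Closed X := by
    intro e he
    have h1 := hX (rt b a v e) (mem_mrg.2 (Or.inr (Or.inl ⟨e, he, rfl⟩)))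
    rw [rt_pt, rt_src] at h1
    refine ⟨h1.1, fun q hq => ?_⟩
    by_cases hee : e = e2
    · subst hee
      rw [h.p2.tgt] at hq
      simp at hq
    · exact h1.2 q (by rw [h.p2.ret_ne he hee]; exact hq)
  have ha : a ∈ X ↔ v ∈ X := by
    have h1 := hX (rt a b v e1) (mem_mrg.2 (Or.inl ⟨e1, h.p1.mem, rfl⟩))
    rw [h.p1.ret_eq] at h1
    exact h1.2 v rfl
  have hb : b ∈ X ↔ v ∈ X := by
    have h1 := hX (rt b a v e2) (mem_mrg.2 (Or.inr (Or.inl ⟨e2, h.p2.mem, rfl⟩)))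
    rw [h.p2.ret_eq] at h1
    exact h1.2 v rfl
  have haD : a ∈ D1.pts := h.p1.pt ▸ Dgm.mem_pts_of_E h.p1.mem
  have hbD : b ∈ D2.pts := h.p2.pt ▸ Dgm.mem_pts_of_E h.p2.mem
  have g1' := hX _ (mem_mrg.2 (Or.inr (Or.inr (mem_G3.2 (Or.inl rfl)))))
  have g2' := hX _ (mem_mrg.2 (Or.inr (Or.inr (mem_G3.2 (Or.inr (Or.inl rfl))))))
  have g3' := hX _ (mem_mrg.2 (Or.inr (Or.inr (mem_G3.2 (Or.inr (Or.inr rfl))))))
  simp only at g1' g2' g3'
  have hkey : ∀ x ∈ (mrg a b v D1 D2).pts, (x ∈ X ↔ v ∈ X) := by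
    intro x hx
    rw [h.pts] at hx
    simp only [mem_union, mem_insert, mem_singleton] at hx
    rcases hx with (hx | hx) | hx | hx | hx | hx
    · constructor
      · intro hxX
        exact ha.1 (h.p1.full.conn X hcl1 ⟨x, hx, hxX⟩ a haD)
      · intro hvX
        exact h.p1.full.conn X hcl1 ⟨a, haD, ha.2 hvX⟩ x hx
    · constructor
      · intro hxX
        exact hb.1 (h.p2.full.conn X hcl2 ⟨x, hx, hxX⟩ b hbD)
      · intro hvX
        exact h.p2.full.conn X hcl2 ⟨b, hbD, hb.2 hvX⟩ x hx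
    · rw [hx]
    · rw [hx]; exact g1'.1
    · rw [hx]; exact g2'.1
    · rw [hx]; exact g3'.1
  obtain ⟨x, hx1, hx2⟩ := hx
  exact (hkey y hy).2 ((hkey x hx1).1 hx2)

theorem div_sum (h : MOk g1 g2 a b v D1 D2 e1 e2) (f : ℕ) : (mrg a b v D1 D2).div f =
    (∑ e ∈ D1.E, (rt a b v e).dv f + ∑ e ∈ D2.E, (rt b a v e).dv f) + ∑ e ∈ G3 v, e.dv f := by
  rw [Dgm.div_eq_sum]
  simp only [mrg]
  rw [sum_union h.disjG, sum_image (fun e he e' he' hh => h.inj e he e' he' hh),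
    sum_union h.disjE]
  congr 2
  exact sum_congr rfl fun e _ => by rw [rt_comm]

theorem full (h : MOk g1 g2 a b v D1 D2 e1 e2) : Full (g1 + g2) (mrg a b v D1 D2) := by
  have v1 := h.p1.full.valid
  have v2 := h.p2.full.valid
  refine ⟨h.valid, h.conn, ?_, ?_, ⟨v, mem_mrgF.2 (Or.inl rfl)⟩⟩
  · intro f hf
    rw [h.div_sum, sum_G3]
    rcases mem_mrgF.1 hf with rfl | hf | hf
    · rw [h.p1.sum_v, h.p2.sum_v]
      simp [Elev.dv]
    · have hfv : f ≠ v := by
        have := h.p1.lt _ (Dgm.mem_pts_of_F hf)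
        omega
      rw [sum_congr rfl (fun e he => h.p1.dv_eq he hfv), sum_congr rfl (fun e he => h.p2.dv_eq he hfv),
        ← Dgm.div_eq_sum, h.p1.full.div f hf,
        v2.sum_dv_zero (fun h1 => Finset.disjoint_left.1 h.disjF hf h1)]
      simp [Elev.dv, hfv.symm]
    · have hfv : f ≠ v := by
        have := h.p2.lt _ (Dgm.mem_pts_of_F hf)
        omega
      rw [sum_congr rfl (fun e he => h.p1.dv_eq he hfv), sum_congr rfl (fun e he => h.p2.dv_eq he hfv),
        v1.sum_dv_zero (fun h1 => Finset.disjoint_left.1 h.disjF h1 hf), ← Dgm.div_eq_sum,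
        h.p2.full.div f hf]
      simp [Elev.dv, hfv.symm]
  · have c1 := h.p1.full.cnt
    have c2 := h.p2.full.cnt
    have cF : (mrg a b v D1 D2).F.card = D1.F.card + D2.F.card + 1 := by
      simp only [mrg]
      rw [card_insert_of_notMem, card_union_of_disjoint h.disjF]
      rw [mem_union]
      rintro (h1 | h1)
      · exact h.p1.vF h1
      · exact h.p2.vF h1
    have cE : (mrg a b v D1 D2).E.card = D1.E.card + D2.E.card + 3 := by
      simp only [mrg]
      rw [card_union_of_disjoint h.disjG,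
        card_image_of_injOn (fun e he e' he' hh => h.inj e he e' he' hh),
        card_union_of_disjoint h.disjE]
      congr 1
      unfold G3
      rw [card_insert_of_notMem (by simp), card_insert_of_notMem (by simp), card_singleton]
    rw [cF, cE]
    push_cast
    linarith

theorem recover (h : MOk g1 g2 a b v D1 D2 e1 e2) : unM v (mrg a b v D1 D2) = uni D1 D2 := by
  have hd : ∀ A B : Dgm, A.F = B.F → A.E = B.E → A = B := by
    intro A B h1 h2
    cases A; cases B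
    simp_all
  apply hd
  · ext x
    simp only [unM, uni, mem_filter, mem_mrgF, mem_union]
    constructor
    · rintro ⟨h1 | h1, h2⟩
      · omega
      · exact h1
    · intro h1
      refine ⟨Or.inr h1, ?_⟩
      rcases h1 with h1 | h1
      · exact h.p1.lt _ (Dgm.mem_pts_of_F h1)
      · exact h.p2.lt _ (Dgm.mem_pts_of_F h1)
  · ext x
    simp only [unM, uni, mem_image, mem_filter, mem_mrg, mem_union]
    constructor
    · rintro ⟨y, ⟨⟨e, he, rfl⟩ | ⟨e, he, rfl⟩ | hy, hlt⟩, rfl⟩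
      · rw [h.p1.unret he]; exact Or.inl he
      · rw [h.p2.unret he]; exact Or.inr he
      · exfalso
        rcases mem_G3.1 hy with rfl | rfl | rfl <;> simp only at hlt <;> omega
    · rintro (hx | hx)
      · exact ⟨_, ⟨Or.inl ⟨x, hx, rfl⟩, by rw [rt_pt]; exact h.p1.lt _ (Dgm.mem_pts_of_E hx)⟩,
          h.p1.unret hx⟩
      · exact ⟨_, ⟨Or.inr (Or.inl ⟨x, hx, rfl⟩), by rw [rt_pt]; exact h.p2.lt _ (Dgm.mem_pts_of_E hx)⟩,
          h.p2.unret hx⟩

end MOk

/-- a connected system inside a disjoint union is one of the parts -/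
theorem uni_sub {D1 D2 D1' D2' : Dgm} (hv1' : D1'.Valid) (hv2' : D2'.Valid)
    (hc : D1.Conn) (hd' : Disjoint D1'.pts D2'.pts) (hh : uni D1 D2 = uni D1' D2') {m : ℕ}
    (hm : m ∈ D1.pts) (hm' : m ∈ D1'.pts) : D1.pts ⊆ D1'.pts := by
  have hE : D1.E ∪ D2.E = D1'.E ∪ D2'.E := congrArg Dgm.E hh
  have hd := Finset.disjoint_left.1 hd'
  have hcl : D1.Closed (D1'.pts : Set ℕ) := by
    intro e he
    have he' : e ∈ D1'.E ∪ D2'.E := hE ▸ mem_union_left _ he
    rcases mem_union.1 he' with h1 | h1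
    · refine ⟨⟨fun _ => mem_coe.2 (hv1'.src_pts h1), fun _ => mem_coe.2 (Dgm.mem_pts_of_E h1)⟩,
        fun q hq => ⟨fun _ => mem_coe.2 (hv1'.tgt_pts h1 hq), fun _ => mem_coe.2 (Dgm.mem_pts_of_E h1)⟩⟩
    · refine ⟨⟨fun h2 => absurd (Dgm.mem_pts_of_E h1) (hd (mem_coe.1 h2)),
        fun h2 => absurd (hv2'.src_pts h1) (hd (mem_coe.1 h2))⟩,
        fun q hq => ⟨fun h2 => absurd (Dgm.mem_pts_of_E h1) (hd (mem_coe.1 h2)),
          fun h2 => absurd (hv2'.tgt_pts h1 hq) (hd (mem_coe.1 h2))⟩⟩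
  intro x hx
  exact mem_coe.1 (hc _ hcl ⟨m, hm, mem_coe.2 hm'⟩ x hx)

theorem uni_inj {D1 D2 D1' D2' : Dgm} (hv1 : D1.Valid) (hv2 : D2.Valid) (hv1' : D1'.Valid)
    (hv2' : D2'.Valid) (hc : D1.Conn) (hc' : D1'.Conn) (hd : Disjoint D1.pts D2.pts)
    (hd' : Disjoint D1'.pts D2'.pts) (hh : uni D1 D2 = uni D1' D2') {m : ℕ}
    (hm : m ∈ D1.pts) (hm' : m ∈ D1'.pts) : D1 = D1' ∧ D2 = D2' := by
  have hpts : D1.pts = D1'.pts := Subset.antisymm (uni_sub hv1' hv2' hc hd' hh hm hm')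
    (uni_sub hv1 hv2 hc' hd hh.symm hm' hm)
  have hE : D1.E ∪ D2.E = D1'.E ∪ D2'.E := congrArg Dgm.E hh
  have hF : D1.F ∪ D2.F = D1'.F ∪ D2'.F := congrArg Dgm.F hh
  have hdl := Finset.disjoint_left.1 hd
  have hdl' := Finset.disjoint_left.1 hd'
  have hmk : ∀ A B : Dgm, A.F = B.F → A.E = B.E → A = B := by
    intro A B h1 h2
    cases A; cases B
    simp_all
  constructor
  · apply hmk
    · ext x
      constructor
      · intro hx
        rcases mem_union.1 (hF ▸ mem_union_left _ hx : x ∈ D1'.F ∪ D2'.F) with h1 | h1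
        · exact h1
        · exact absurd (Dgm.mem_pts_of_F h1) (hdl' (hpts ▸ Dgm.mem_pts_of_F hx))
      · intro hx
        rcases mem_union.1 (hF.symm ▸ mem_union_left _ hx : x ∈ D1.F ∪ D2.F) with h1 | h1
        · exact h1
        · exact absurd (Dgm.mem_pts_of_F h1) (hdl (hpts.symm ▸ Dgm.mem_pts_of_F hx))
    · ext x
      constructor
      · intro hx
        rcases mem_union.1 (hE ▸ mem_union_left _ hx : x ∈ D1'.E ∪ D2'.E) with h1 | h1
        · exact h1
        · exact absurd (Dgm.mem_pts_of_E h1) (hdl' (hpts ▸ Dgm.mem_pts_of_E hx))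
      · intro hx
        rcases mem_union.1 (hE.symm ▸ mem_union_left _ hx : x ∈ D1.E ∪ D2.E) with h1 | h1
        · exact h1
        · exact absurd (Dgm.mem_pts_of_E h1) (hdl (hpts.symm ▸ Dgm.mem_pts_of_E hx))
  · apply hmk
    · ext x
      constructor
      · intro hx
        rcases mem_union.1 (hF ▸ mem_union_right _ hx : x ∈ D1'.F ∪ D2'.F) with h1 | h1
        · exact absurd (Dgm.mem_pts_of_F hx) (hdl (hpts.symm ▸ Dgm.mem_pts_of_F h1))
        · exact h1
      · intro hx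
        rcases mem_union.1 (hF.symm ▸ mem_union_right _ hx : x ∈ D1.F ∪ D2.F) with h1 | h1
        · exact absurd (Dgm.mem_pts_of_F hx) (hdl' (hpts ▸ Dgm.mem_pts_of_F h1))
        · exact h1
    · ext x
      constructor
      · intro hx
        rcases mem_union.1 (hE ▸ mem_union_right _ hx : x ∈ D1'.E ∪ D2'.E) with h1 | h1
        · exact absurd (Dgm.mem_pts_of_E hx) (hdl (hpts.symm ▸ Dgm.mem_pts_of_E h1))
        · exact h1
      · intro hx
        rcases mem_union.1 (hE.symm ▸ mem_union_right _ hx : x ∈ D1.E ∪ D2.E) with h1 | h1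
        · exact absurd (Dgm.mem_pts_of_E hx) (hdl' (hpts ▸ Dgm.mem_pts_of_E h1))
        · exact h1

end Pool.Agent.FloorDiag
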