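import Pool.Agent.Lib.MP_6aab98_ag.Merge
import Pool.Agent.Lib.MP_6aab98_ag.Limsup

/-! # MP_6aab98_ag: the merging inequality, positivity -/

namespace Pool.Agent.FloorDiag

open Finset
open scoped ENNReal NNReal Nat

theorem Full.map {g : ℕ} {D : Dgm} (h : Full g D) {ψ : ℕ → ℕ} (hψ : StrictMono ψ) :
    Full g (D.map ψ) := by
  have hi := hψ.injective
  refine ⟨(Dgm.valid_map hψ).2 h.valid, ?_, ?_, ?_, ?_⟩
  · rw [← Dgm.connEx_none]
    have h1 := (Dgm.connEx_map hi (D := D) (o := none)).2 (Dgm.connEx_none.2 h.conn)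
    exact h1
  · intro f hf
    obtain ⟨x, hx, rfl⟩ := Dgm.mem_map_F.1 hf
    rw [Dgm.div_map hi]
    exact h.div x hx
  · rw [Dgm.cardF_map hi, Dgm.cardE_map hi]
    exact h.cnt
  · obtain ⟨x, hx⟩ := h.ne
    exact ⟨ψ x, Dgm.mem_map_F.2 ⟨x, hx, rfl⟩⟩

/-- the map onto a set -/
noncomputable def psi (V : Finset ℕ) : ℕ → ℕ := (exists_strictMono V).choose

theorem psi_mono (V : Finset ℕ) : StrictMono (psi V) := (exists_strictMono V).choose_spec.1

theorem psi_image (V : Finset ℕ) : (range V.card).image (psi V) = V :=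
  (exists_strictMono V).choose_spec.2

theorem mok {g1 g2 k l : ℕ} {J : Finset ℕ} (hJ : J ∈ powersetCard k (range (k + l + 1)))
    {D1 D2 : Dgm} (p1 : D1.pts = range (k + 1)) (f1 : Full g1 D1) (p2 : D2.pts = range (l + 1))
    (f2 : Full g2 D2) :
    (D1.map (psi (insert (k + l + 1) J))).pts = insert (k + l + 1) J ∧
    (D2.map (psi (range (k + l + 1) \ J))).pts = range (k + l + 1) \ J ∧
    ∃ e1 e2, MOk g1 g2 (psi (insert (k + l + 1) J) k) (psi (range (k + l + 1) \ J) l) (k + l + 2)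
      (D1.map (psi (insert (k + l + 1) J))) (D2.map (psi (range (k + l + 1) \ J))) e1 e2 := by
  obtain ⟨hJs, hJc⟩ := mem_powersetCard.1 hJ
  have hm : k + l + 1 ∉ J := fun h => by
    have := mem_range.1 (hJs h)
    omega
  set I := insert (k + l + 1) J with hI
  set I' := range (k + l + 1) \ J with hI'
  have hIc : I.card = k + 1 := by rw [hI, card_insert_of_notMem hm, hJc]
  have hIc' : I'.card = l + 1 := by
    rw [hI', card_sdiff_of_subset hJs, hJc, card_range]
    omega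
  have q1 : (D1.map (psi I)).pts = I := by
    rw [Dgm.pts_map, p1, ← hIc, psi_image]
  have q2 : (D2.map (psi I')).pts = I' := by
    rw [Dgm.pts_map, p2, ← hIc', psi_image]
  refine ⟨q1, q2, ?_⟩
  obtain ⟨e1, he1, hpt1, ht1, hw1⟩ := last_end p1 f1
  obtain ⟨e2, he2, hpt2, ht2, hw2⟩ := last_end p2 f2
  have hdisj : Disjoint I I' := by
    rw [Finset.disjoint_left]
    intro x hx hx'
    obtain ⟨h1, h2⟩ := mem_sdiff.1 hx'
    rcases mem_insert.1 hx with h3 | h3
    · have := mem_range.1 h1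
      omega
    · exact h2 h3
  have hlt1 : ∀ x ∈ I, x < k + l + 2 := by
    intro x hx
    rcases mem_insert.1 hx with h3 | h3
    · omega
    · have := mem_range.1 (hJs h3)
      omega
  have hlt2 : ∀ x ∈ I', x < k + l + 2 := by
    intro x hx
    have := mem_range.1 (mem_sdiff.1 hx).1
    omega
  have ha : psi I k ∈ I := by
    have := mem_image_of_mem (psi I) (mem_range.2 (show k < I.card by omega))
    rwa [psi_image] at this
  have hb : psi I' l ∈ I' := by
    have := mem_image_of_mem (psi I') (mem_range.2 (show l < I'.card by omega))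
    rwa [psi_image] at this
  refine ⟨e1.map (psi I), e2.map (psi I'), ⟨⟨f1.map (psi_mono I), Dgm.mem_map_E.2 ⟨e1, he1, rfl⟩,
    ?_, ?_, hw1, ?_, ?_⟩, ⟨f2.map (psi_mono I'), Dgm.mem_map_E.2 ⟨e2, he2, rfl⟩, ?_, ?_, hw2, ?_, ?_⟩,
    ?_⟩⟩
  · simp only [Elev.map, hpt1]
  · simp only [Elev.map, ht1, Option.map_none]
  · rw [q1]
    exact fun h => Finset.disjoint_left.1 hdisj h hb
  · rw [q1]; exact hlt1
  · simp only [Elev.map, hpt2]
  · simp only [Elev.map, ht2, Option.map_none]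
  · rw [q2]
    exact fun h => Finset.disjoint_left.1 hdisj ha h
  · rw [q2]; exact hlt2
  · rw [q1, q2]; exact hdisj

theorem Nn_merge (g1 g2 k l : ℕ) :
    ((k + l + 1).choose k : ℝ≥0∞) * (Nn g1 (k + 1) * Nn g2 (l + 1)) ≤
      Nn (g1 + g2) (k + l + 6) := by
  classical
  let X := {J : Finset ℕ // J ∈ powersetCard k (range (k + l + 1))}
  let A := {D : Dgm // D.pts = range (k + 1) ∧ Full g1 D}
  let B := {D : Dgm // D.pts = range (l + 1) ∧ Full g2 D}
  let C := {D : Dgm // D.pts = range (k + l + 6) ∧ Full (g1 + g2) D}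
  let f : X × (A × B) → C := fun x =>
    ⟨mrg (psi (insert (k + l + 1) x.1.1) k) (psi (range (k + l + 1) \ x.1.1) l) (k + l + 2)
      (x.2.1.1.map (psi (insert (k + l + 1) x.1.1)))
      (x.2.2.1.map (psi (range (k + l + 1) \ x.1.1))), by
      obtain ⟨q1, q2, e1, e2, h⟩ := mok x.1.2 x.2.1.2.1 x.2.1.2.2 x.2.2.2.1 x.2.2.2.2
      refine ⟨?_, h.full⟩
      rw [h.pts, q1, q2]
      have hJs := (mem_powersetCard.1 x.1.2).1
      ext z
      simp only [mem_union, mem_insert, mem_sdiff, mem_range, mem_singleton]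
      constructor
      · rintro ((h1 | h1) | h1)
        · rcases h1 with h1 | h1
          · omega
          · have := mem_range.1 (hJs h1)
            omega
        · omega
        · omega
      · intro hz
        by_cases h1 : z < k + l + 1
        · by_cases h2 : z ∈ x.1.1
          · exact Or.inl (Or.inl (Or.inr h2))
          · exact Or.inl (Or.inr ⟨h1, h2⟩)
        · by_cases h3 : z = k + l + 1
          · exact Or.inl (Or.inl (Or.inl h3))
          · right
            omega⟩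
  have hf : Function.Injective f := by
    rintro ⟨J, D1, D2⟩ ⟨J', D1', D2'⟩ hh
    have h0 := congrArg Subtype.val hh
    obtain ⟨q1, q2, e1, e2, h⟩ := mok J.2 D1.2.1 D1.2.2 D2.2.1 D2.2.2
    obtain ⟨q1', q2', e1', e2', h'⟩ := mok J'.2 D1'.2.1 D1'.2.2 D2'.2.1 D2'.2.2
    have h1 := congrArg (unM (k + l + 2)) h0
    simp only [f] at h1
    rw [h.recover, h'.recover] at h1
    have h2 := uni_inj h.p1.full.valid h.p2.full.valid h'.p1.full.valid h'.p2.full.valid
      h.p1.full.conn h'.p1.full.conn h.disj h'.disj h1 (m := k + l + 1)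
      (by rw [q1]; exact mem_insert_self _ _) (by rw [q1']; exact mem_insert_self _ _)
    have hm : ∀ J : X, k + l + 1 ∉ J.1 := by
      intro J hJ
      have := mem_range.1 ((mem_powersetCard.1 J.2).1 hJ)
      omega
    have h3 : insert (k + l + 1) J.1 = insert (k + l + 1) J'.1 := by
      rw [← q1, ← q1', h2.1]
    have h4 : J = J' := by
      apply Subtype.ext
      rw [← erase_insert (hm J), ← erase_insert (hm J'), h3]
    subst h4
    have h5 : D1 = D1' := Subtype.ext (Dgm.map_injective (psi_mono _).injective h2.1)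
    have h6 : D2 = D2' := Subtype.ext (Dgm.map_injective (psi_mono _).injective h2.2)
    rw [h5, h6]
  have hcard : ∑' _x : X, (1 : ℝ≥0∞) = ((k + l + 1).choose k : ℝ≥0∞) :=
    (Finset.tsum_subtype (powersetCard k (range (k + l + 1))) (fun _ => (1 : ℝ≥0∞))).trans (by
      rw [sum_const, nsmul_eq_mul, mul_one, card_powersetCard, card_range])
  calc ((k + l + 1).choose k : ℝ≥0∞) * (Nn g1 (k + 1) * Nn g2 (l + 1))
      = ∑' x : X × (A × B), 1 * ((x.2.1.1.mult : ℝ≥0∞) * (x.2.2.1.mult : ℝ≥0∞)) := by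
        rw [← hcard]
        unfold Nn
        rw [← tsum_prod_mul (fun D : A => (D.1.mult : ℝ≥0∞)) (fun D : B => (D.1.mult : ℝ≥0∞))]
        exact (tsum_prod_mul (fun _ : X => (1 : ℝ≥0∞))
          (fun y : A × B => (y.1.1.mult : ℝ≥0∞) * (y.2.1.mult : ℝ≥0∞))).symm
    _ = ∑' x : X × (A × B), ((f x).1.mult : ℝ≥0∞) := by
        apply tsum_congr
        intro x
        obtain ⟨q1, q2, e1, e2, h⟩ := mok x.1.2 x.2.1.2.1 x.2.1.2.2 x.2.2.2.1 x.2.2.2.2
        simp only [f]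
        rw [h.mult, Dgm.mult_map (psi_mono _).injective, Dgm.mult_map (psi_mono _).injective,
          one_mul]
        push_cast
        rfl
    _ ≤ Nn (g1 + g2) (k + l + 6) :=
        ENNReal.tsum_comp_le_tsum_of_injective hf (fun D => (D.1.mult : ℝ≥0∞))

theorem N_merge (g1 g2 : ℕ) {d1 d2 : ℕ} (h1 : 1 ≤ d1) (h2 : 1 ≤ d2) :
    (3 * d1 - 2 + g1 + (3 * d2 - 2 + g2) + 1).choose (3 * d1 - 2 + g1) * (N g1 d1 * N g2 d2) ≤
      N (g1 + g2) (d1 + d2 + 1) := by
  have h := Nn_merge g1 g2 (3 * d1 - 2 + g1) (3 * d2 - 2 + g2)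
  rw [show 3 * d1 - 2 + g1 + 1 = 3 * d1 - 1 + g1 by omega,
    show 3 * d2 - 2 + g2 + 1 = 3 * d2 - 1 + g2 by omega,
    show 3 * d1 - 2 + g1 + (3 * d2 - 2 + g2) + 6 = 3 * (d1 + d2 + 1) - 1 + (g1 + g2) by omega,
    ← N_eq g1 h1, ← N_eq g2 h2, ← N_eq (g1 + g2) (by omega)] at h
  exact_mod_cast h

theorem N_pos_of {g n : ℕ} {d : ℕ} (hd : 1 ≤ d) (hn : n = 3 * d - 1 + g) {D : Dgm}
    (hp : D.pts = range n) (hf : Full g D) : 0 < N g d := by
  have h1 : (1 : ℝ≥0∞) ≤ Nn g n := by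
    unfold Nn
    have := ENNReal.le_tsum (f := fun D : {D : Dgm // D.pts = range n ∧ Full g D} =>
      (D.1.mult : ℝ≥0∞)) ⟨D, hp, hf⟩
    refine le_trans ?_ this
    have h2 : 1 ≤ D.mult := by
      unfold Dgm.mult
      apply Nat.one_le_iff_ne_zero.2
      rw [prod_ne_zero_iff]
      intro e he
      have := hf.valid.wt_pos e he
      positivity
    exact_mod_cast h2
  rw [hn, ← N_eq g hd] at h1
  have h2 : 1 ≤ N g d := by exact_mod_cast h1
  omega

theorem N01 : 0 < N 0 1 := by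
  set D0 : Dgm := ⟨{0}, {⟨1, 0, none, 1⟩}⟩ with hD0
  have hE : ∀ e ∈ D0.E, e = ⟨1, 0, none, 1⟩ := by
    intro e he
    simpa [hD0] using he
  refine N_pos_of (n := 2) le_rfl (by norm_num) (D := D0) (by decide)
    ⟨⟨?_, ?_, ?_, ?_, ?_, ?_, ?_, ?_⟩, ?_, ?_, by simp [hD0], by simp [hD0]⟩
  · intro e he e' he' _
    rw [hE e he, hE e' he']
  · intro e he; rw [hE e he]; simp [hD0]
  · intro e he; rw [hE e he]; simp [hD0]
  · intro e he; rw [hE e he]; simp
  · intro e he q hq; rw [hE e he] at hq; simp at hq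
  · intro e he q hq; rw [hE e he] at hq; simp at hq
  · intro e he; rw [hE e he]
  · intro e he _; rw [hE e he]
  · intro X hX hx y hy
    have h1 : 1 ∈ X ↔ 0 ∈ X := (hX ⟨1, 0, none, 1⟩ (by simp [hD0])).1
    have hp : ∀ z ∈ D0.pts, z = 0 ∨ z = 1 := by
      intro z hz
      simpa [hD0, Dgm.pts] using hz
    have h0 : 0 ∈ X := by
      obtain ⟨x, hx1, hx2⟩ := hx
      rcases hp x hx1 with rfl | rfl
      · exact hx2
      · exact h1.1 hx2
    rcases hp y hy with rfl | rfl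
    · exact h0
    · exact h1.2 h0
  · intro f hf
    have : f = 0 := by simpa [hD0] using hf
    subst this
    decide

theorem N02 : 0 < N 0 2 := by
  set D0 : Dgm := ⟨{0, 2}, {⟨1, 0, some 2, 1⟩, ⟨3, 2, none, 1⟩, ⟨4, 2, none, 1⟩}⟩ with hD0
  have hE : ∀ e ∈ D0.E, e = ⟨1, 0, some 2, 1⟩ ∨ e = ⟨3, 2, none, 1⟩ ∨ e = ⟨4, 2, none, 1⟩ := by
    intro e he
    simpa [hD0] using he
  refine N_pos_of (n := 5) (by norm_num) (by norm_num) (D := D0) (by decide)
    ⟨⟨?_, ?_, ?_, ?_, ?_, ?_, ?_, ?_⟩, ?_, ?_, by decide, by simp [hD0]⟩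
  · intro e he e' he' hh
    rcases hE e he with rfl | rfl | rfl <;> rcases hE e' he' with rfl | rfl | rfl <;> simp_all
  · intro e he
    rcases hE e he with rfl | rfl | rfl <;> simp [hD0]
  · intro e he
    rcases hE e he with rfl | rfl | rfl <;> simp [hD0]
  · intro e he
    rcases hE e he with rfl | rfl | rfl <;> simp
  · intro e he q hq
    rcases hE e he with rfl | rfl | rfl
    · simp only [Option.some.injEq] at hq
      subst hq
      simp [hD0]
    · simp at hq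
    · simp at hq
  · intro e he q hq
    rcases hE e he with rfl | rfl | rfl
    · simp only [Option.some.injEq] at hq
      subst hq
      norm_num
    · simp at hq
    · simp at hq
  · intro e he
    rcases hE e he with rfl | rfl | rfl <;> simp
  · intro e he hq
    rcases hE e he with rfl | rfl | rfl <;> rfl
  · intro X hX hx y hy
    have h1 := hX ⟨1, 0, some 2, 1⟩ (by simp [hD0])
    have h3 := (hX ⟨3, 2, none, 1⟩ (by simp [hD0])).1
    have h4 := (hX ⟨4, 2, none, 1⟩ (by simp [hD0])).1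
    have h10 : 1 ∈ X ↔ 0 ∈ X := h1.1
    have h12 : 1 ∈ X ↔ 2 ∈ X := h1.2 2 rfl
    have h32 : 3 ∈ X ↔ 2 ∈ X := h3
    have h42 : 4 ∈ X ↔ 2 ∈ X := h4
    have hkey : ∀ z ∈ D0.pts, z ∈ X ↔ 0 ∈ X := by
      intro z hz
      have hz' : z < 5 := by
        have : D0.pts = range 5 := by decide
        rw [this] at hz
        exact mem_range.1 hz
      interval_cases z <;> tauto
    obtain ⟨x, hx1, hx2⟩ := hx
    exact (hkey y hy).2 ((hkey x hx1).1 hx2)
  · intro f hf
    have : f = 0 ∨ f = 2 := by simpa [hD0] using hf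
    rcases this with rfl | rfl <;> decide

theorem N0_pos : ∀ d, 1 ≤ d → 0 < N 0 d := by
  intro d
  induction d using Nat.strong_induction_on with
  | _ d ih =>
    intro hd
    rcases Nat.lt_or_ge d 3 with h | h
    · interval_cases d
      · exact N01
      · exact N02
    · have h1 := ih (d - 2) (by omega) (by omega)
      have h2 := N_merge 0 0 (d1 := 1) (d2 := d - 2) le_rfl (by omega)
      rw [show 1 + (d - 2) + 1 = d by omega, add_zero] at h2
      refine lt_of_lt_of_le ?_ h2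
      exact Nat.mul_pos (Nat.choose_pos (by omega)) (Nat.mul_pos N01 h1)

theorem cN_merge (g1 g2 : ℕ) {d1 d2 : ℕ} (h1 : 1 ≤ d1) (h2 : 1 ≤ d2) :
    cN g1 d1 * cN g2 d2 ≤
      ((3 * (d1 + d2 + 1) + (g1 + g2) : ℕ) : ℝ) ^ 5 * cN (g1 + g2) (d1 + d2 + 1) := by
  obtain ⟨k, hk⟩ : ∃ k, k = 3 * d1 - 2 + g1 := ⟨_, rfl⟩
  obtain ⟨l, hl⟩ : ∃ l, l = 3 * d2 - 2 + g2 := ⟨_, rfl⟩
  have h3 := N_merge g1 g2 h1 h2
  rw [← hk, ← hl] at h3
  have e1 : 3 * d1 - 1 + g1 = k + 1 := by omega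
  have e2 : 3 * d2 - 1 + g2 = l + 1 := by omega
  have e3 : 3 * (d1 + d2 + 1) - 1 + (g1 + g2) = (k + l + 1) + 5 := by omega
  unfold cN
  rw [e1, e2, e3]
  have h4 : ((k + l + 1).choose k * (k ! * (l + 1)!) : ℕ) = (k + l + 1)! := by
    have := Nat.choose_mul_factorial_mul_factorial (n := k + l + 1) (k := k) (by omega)
    rw [show k + l + 1 - k = l + 1 by omega] at this
    rw [← this]
    ring
  have h5 : ((k + l + 1) + 5)! ≤ (k + l + 1)! * (3 * (d1 + d2 + 1) + (g1 + g2)) ^ 5 := by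
    rw [← Nat.factorial_mul_ascFactorial]
    gcongr
    exact (Nat.ascFactorial_le_pow_add _ _).trans (Nat.pow_le_pow_left (by omega) 5)
  have h3R : ((k + l + 1).choose k : ℝ) * ((N g1 d1 : ℝ) * (N g2 d2 : ℝ)) ≤
      (N (g1 + g2) (d1 + d2 + 1) : ℝ) := by exact_mod_cast h3
  have h4R : ((k + l + 1).choose k : ℝ) * ((k ! : ℝ) * ((l + 1)! : ℝ)) = ((k + l + 1)! : ℝ) := by
    exact_mod_cast h4
  have h5R : ((((k + l + 1) + 5)! : ℕ) : ℝ) ≤
      ((k + l + 1)! : ℝ) * ((3 * (d1 + d2 + 1) + (g1 + g2) : ℕ) : ℝ) ^ 5 := by exact_mod_cast h5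
  have p1 : (0 : ℝ) < (k ! : ℝ) := by exact_mod_cast Nat.factorial_pos _
  have p1' : (0 : ℝ) < ((k + 1)! : ℝ) := by exact_mod_cast Nat.factorial_pos _
  have p2 : (0 : ℝ) < ((l + 1)! : ℝ) := by exact_mod_cast Nat.factorial_pos _
  have p3 : (0 : ℝ) < ((((k + l + 1) + 5)! : ℕ) : ℝ) := by exact_mod_cast Nat.factorial_pos _
  have p4 : (0 : ℝ) < ((k + l + 1).choose k : ℝ) := by exact_mod_cast Nat.choose_pos (by omega)
  have hk1 : (k ! : ℝ) ≤ ((k + 1)! : ℝ) := by exact_mod_cast Nat.factorial_le (by omega)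
  rw [div_mul_div_comm, mul_div_assoc', div_le_div_iff₀ (by positivity) p3]
  set n1 := (N g1 d1 : ℝ)
  set n2 := (N g2 d2 : ℝ)
  set n3 := (N (g1 + g2) (d1 + d2 + 1) : ℝ)
  set P := ((3 * (d1 + d2 + 1) + (g1 + g2) : ℕ) : ℝ) ^ 5
  have q1 : 0 ≤ n1 * n2 := by positivity
  have q3 : 0 ≤ n3 := by positivity
  have q4 : 0 ≤ P := by positivity
  calc n1 * n2 * ((((k + l + 1) + 5)! : ℕ) : ℝ)
      ≤ n1 * n2 * (((k + l + 1)! : ℝ) * P) := by gcongr
    _ = (((k + l + 1).choose k : ℝ) * (n1 * n2)) * ((k ! : ℝ) * ((l + 1)! : ℝ)) * P := by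
        rw [← h4R]; ring
    _ ≤ n3 * ((k ! : ℝ) * ((l + 1)! : ℝ)) * P := by gcongr
    _ ≤ n3 * (((k + 1)! : ℝ) * ((l + 1)! : ℝ)) * P := by gcongr
    _ = _ := by ring

end Pool.Agent.FloorDiag
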