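import Pool.Agent.Lib.MP_6aab98_ag.Handle

/-! # MP_6aab98_ag: exponential rates -/

namespace Pool.Agent.FloorDiag

open Finset Filter Topology
open scoped ENNReal NNReal Nat

/-- normalised number -/
noncomputable def cN (g d : ℕ) : ℝ := (N g d : ℝ) / ((3 * d - 1 + g)! : ℝ)

/-- exponential rate -/
noncomputable def rN (g d : ℕ) : ℝ := ((N g d : ℝ) / ((3 * d - 1 + g)! : ℝ)) ^ (1 / (d : ℝ))

theorem cN_nonneg (g d : ℕ) : 0 ≤ cN g d := by unfold cN; positivity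

theorem rN_nonneg (g d : ℕ) : 0 ≤ rN g d := Real.rpow_nonneg (cN_nonneg g d) _

theorem rN_pow (g : ℕ) {d : ℕ} (hd : 1 ≤ d) : rN g d ^ d = cN g d := by
  unfold rN
  rw [one_div]
  exact Real.rpow_inv_natCast_pow (cN_nonneg g d) (by omega)

theorem lt_rN {g d : ℕ} (hd : 1 ≤ d) {β : ℝ} (h : β ^ d < cN g d) : β < rN g d := by
  rw [← rN_pow g hd] at h
  exact lt_of_pow_lt_pow_left₀ d (rN_nonneg g d) h

theorem rN_lt {g d : ℕ} (hd : 1 ≤ d) {β : ℝ} (hβ : 0 ≤ β) (h : cN g d < β ^ d) : rN g d < β := by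
  rw [← rN_pow g hd] at h
  exact lt_of_pow_lt_pow_left₀ d hβ h

theorem exists_root {x : ℝ} (hx : 0 < x) : ∃ l : ℝ≥0, 0 < l ∧ (l : ℝ) ^ 3 = x := by
  refine ⟨⟨x ^ ((3 : ℕ) : ℝ)⁻¹, Real.rpow_nonneg hx.le _⟩, ?_, ?_⟩
  · exact Real.rpow_pos_of_pos hx _
  · exact Real.rpow_inv_natCast_pow hx.le (by norm_num)

theorem term_eq (g k : ℕ) (lam : ℝ≥0) : (N g (k + 1) : ℝ≥0∞) * ex lam (3 * k + 1 + g) =
    ENNReal.ofReal (((3 * k + 2 + g : ℕ) : ℝ) * cN g (k + 1) * (lam : ℝ) ^ (3 * k + 1 + g)) := by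
  have h1 : ((3 * k + 2 + g : ℕ) : ℝ) * cN g (k + 1) * (lam : ℝ) ^ (3 * k + 1 + g) =
      (N g (k + 1) : ℝ) * ((lam : ℝ) ^ (3 * k + 1 + g) / ((3 * k + 1 + g)! : ℝ)) := by
    unfold cN
    have h2 : 3 * (k + 1) - 1 + g = 3 * k + 1 + g + 1 := by omega
    have h3 : (((3 * k + 1 + g)! : ℕ) : ℝ) ≠ 0 := by exact_mod_cast Nat.factorial_ne_zero _
    have h4 : ((3 * k + 2 + g : ℕ) : ℝ) ≠ 0 := by
      have : 3 * k + 2 + g ≠ 0 := by omega
      exact_mod_cast this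
    rw [h2, Nat.factorial_succ, show 3 * k + 1 + g + 1 = 3 * k + 2 + g by omega]
    push_cast at h4 ⊢
    field_simp
  rw [h1, ENNReal.ofReal_mul (by positivity), ENNReal.ofReal_natCast]
  congr 1
  unfold ex
  rw [ENNReal.coe_nnreal_eq]
  push_cast
  rfl

theorem Fg_fin {g : ℕ} {θ : ℝ} (hθ : 0 ≤ θ) (h : ∀ᶠ d in atTop, cN g d ≤ θ ^ d) {lam : ℝ≥0}
    (hlam : θ * (lam : ℝ) ^ 3 < 1) : Fg g lam ≠ ∞ := by
  rw [Fg_eq]
  simp_rw [term_eq]
  have hnn : ∀ k : ℕ, 0 ≤ ((3 * k + 2 + g : ℕ) : ℝ) * cN g (k + 1) * (lam : ℝ) ^ (3 * k + 1 + g) :=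
    fun k => mul_nonneg (mul_nonneg (by positivity) (cN_nonneg _ _)) (by positivity)
  have hsum : Summable (fun k : ℕ =>
      ((3 * k + 2 + g : ℕ) : ℝ) * cN g (k + 1) * (lam : ℝ) ^ (3 * k + 1 + g)) := by
    obtain ⟨M, hM⟩ := eventually_atTop.1 h
    rw [← summable_nat_add_iff M]
    set x := θ * (lam : ℝ) ^ 3 with hx
    have hx0 : 0 ≤ x := by positivity
    have hxn : ‖x‖ < 1 := by rw [Real.norm_of_nonneg hx0]; exact hlam
    have s1 := summable_pow_mul_geometric_of_norm_lt_one 1 hxn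
    have s0 := summable_pow_mul_geometric_of_norm_lt_one 0 hxn
    have s2 : Summable (fun k : ℕ => ((3 * k + 2 + g : ℕ) : ℝ) * x ^ k * (θ * (lam : ℝ) ^ (1 + g))) := by
      apply Summable.mul_right
      have := (s1.mul_left 3).add (s0.mul_left (2 + g : ℝ))
      refine this.congr fun k => ?_
      push_cast
      ring
    have s3 := (summable_nat_add_iff M).2 s2
    refine Summable.of_nonneg_of_le (fun k => hnn (k + M)) (fun k => ?_) s3
    have h1 := hM (k + M + 1) (by omega)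
    calc ((3 * (k + M) + 2 + g : ℕ) : ℝ) * cN g (k + M + 1) * (lam : ℝ) ^ (3 * (k + M) + 1 + g)
        ≤ ((3 * (k + M) + 2 + g : ℕ) : ℝ) * θ ^ (k + M + 1) *
          (lam : ℝ) ^ (3 * (k + M) + 1 + g) := by gcongr
      _ = ((3 * (k + M) + 2 + g : ℕ) : ℝ) * x ^ (k + M) * (θ * (lam : ℝ) ^ (1 + g)) := by
          rw [hx, mul_pow, ← pow_mul, show 3 * (k + M) + 1 + g = 3 * (k + M) + (1 + g) by ring,
            pow_add (lam : ℝ) (3 * (k + M)) (1 + g)]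
          ring
  rw [← ENNReal.ofReal_tsum_of_nonneg hnn hsum]
  exact ENNReal.ofReal_ne_top

theorem cN_le {g : ℕ} {lam : ℝ≥0} (hlam : 0 < lam) (h : Fg g lam ≠ ∞) :
    ∃ B : ℝ, 0 ≤ B ∧ ∀ d, 1 ≤ d → cN g d ≤ B * (((lam : ℝ) ^ 3)⁻¹) ^ d := by
  have hl : (0 : ℝ) < lam := by exact_mod_cast hlam
  refine ⟨(Fg g lam).toReal * (lam : ℝ) ^ 2 / (lam : ℝ) ^ g, by positivity, fun d hd => ?_⟩
  obtain ⟨k, rfl⟩ : ∃ k, d = k + 1 := ⟨d - 1, by omega⟩
  have h1 : (N g (k + 1) : ℝ≥0∞) * ex lam (3 * k + 1 + g) ≤ Fg g lam := by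
    rw [Fg_eq]
    exact ENNReal.le_tsum (f := fun k => (N g (k + 1) : ℝ≥0∞) * ex lam (3 * k + 1 + g)) k
  rw [term_eq, ENNReal.ofReal_le_iff_le_toReal h] at h1
  have h2 : cN g (k + 1) * (lam : ℝ) ^ (3 * k + 1 + g) ≤ (Fg g lam).toReal := by
    refine le_trans ?_ h1
    have h3 : (1 : ℝ) ≤ ((3 * k + 2 + g : ℕ) : ℝ) := by
      have : 1 ≤ 3 * k + 2 + g := by omega
      exact_mod_cast this
    have h4 : 0 ≤ cN g (k + 1) * (lam : ℝ) ^ (3 * k + 1 + g) :=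
      mul_nonneg (cN_nonneg _ _) (by positivity)
    calc cN g (k + 1) * (lam : ℝ) ^ (3 * k + 1 + g)
        = 1 * (cN g (k + 1) * (lam : ℝ) ^ (3 * k + 1 + g)) := (one_mul _).symm
      _ ≤ ((3 * k + 2 + g : ℕ) : ℝ) * (cN g (k + 1) * (lam : ℝ) ^ (3 * k + 1 + g)) := by gcongr
      _ = _ := by ring
  have h5 : cN g (k + 1) ≤ (Fg g lam).toReal / (lam : ℝ) ^ (3 * k + 1 + g) := by
    rw [le_div_iff₀ (by positivity)]
    exact h2
  refine h5.trans (le_of_eq ?_)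
  have h6 : (lam : ℝ) ^ (3 * (k + 1)) * (lam : ℝ) ^ g =
      (lam : ℝ) ^ (3 * k + 1 + g) * (lam : ℝ) ^ 2 := by
    rw [← pow_add, ← pow_add]; congr 1; ring
  have h7 : (((lam : ℝ) ^ 3)⁻¹) ^ (k + 1) = ((lam : ℝ) ^ (3 * (k + 1)))⁻¹ := by
    rw [inv_pow, ← pow_mul]
  rw [h7, ← div_eq_mul_inv, div_div, div_eq_div_iff (by positivity) (by positivity)]
  linear_combination (Fg g lam).toReal * h6

/-- the upper bound for every genus -/
theorem upper {θ : ℝ} (hθ : 0 < θ) (h : ∀ᶠ d in atTop, rN 0 d < θ) (g : ℕ) {β : ℝ} (hβ : θ < β) :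
    ∀ᶠ d in atTop, rN g d < β := by
  obtain ⟨L, hL0, hL⟩ := exists_root (inv_pos.2 hθ)
  have hc : ∀ᶠ d in atTop, cN 0 d ≤ θ ^ d := by
    filter_upwards [h, eventually_ge_atTop 1] with d h1 h2
    rw [← rN_pow 0 h2]
    exact pow_le_pow_left₀ (rN_nonneg _ _) h1.le d
  have h0 : ∀ lam < L, Fg 0 lam ≠ ∞ := by
    intro lam hlam
    apply Fg_fin hθ.le hc
    have h1 : (lam : ℝ) ^ 3 < (L : ℝ) ^ 3 := by
      have : (lam : ℝ) < L := by exact_mod_cast hlam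
      gcongr
    rw [hL] at h1
    calc θ * (lam : ℝ) ^ 3 < θ * θ⁻¹ := by gcongr
      _ = 1 := mul_inv_cancel₀ hθ.ne'
  have hall := all_fin h0 g
  set θ' := (θ + β) / 2 with hθ'
  have hθ'1 : θ < θ' := by rw [hθ']; linarith
  have hθ'2 : θ' < β := by rw [hθ']; linarith
  have hθ'0 : 0 < θ' := hθ.trans hθ'1
  obtain ⟨l, hl0, hl⟩ := exists_root (inv_pos.2 hθ'0)
  have hlL : l < L := by
    have h1 : (l : ℝ) ^ 3 < (L : ℝ) ^ 3 := by
      rw [hl, hL]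
      exact inv_strictAnti₀ hθ hθ'1
    have := lt_of_pow_lt_pow_left₀ 3 L.coe_nonneg h1
    exact_mod_cast this
  obtain ⟨B, hB, hBd⟩ := cN_le hl0 (hall l hlL)
  rw [hl, inv_inv] at hBd
  have h2 : Tendsto (fun d : ℕ => (β / θ') ^ d) atTop atTop :=
    tendsto_pow_atTop_atTop_of_one_lt (by rw [one_lt_div hθ'0]; exact hθ'2)
  filter_upwards [h2.eventually_gt_atTop B, eventually_ge_atTop 1] with d h3 h4
  apply rN_lt h4 (by linarith)
  refine (hBd d h4).trans_lt ?_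
  rw [div_pow, lt_div_iff₀ (by positivity)] at h3
  exact h3

theorem cN_handle (g : ℕ) {d : ℕ} (hd : 1 ≤ d) :
    cN g d ≤ ((3 * d + 6 + g : ℕ) : ℝ) ^ 7 * cN (g + 1) (d + 2) := by
  have h1 : (N g d : ℝ) ≤ N (g + 1) (d + 2) := by exact_mod_cast N_handle g hd
  have h2 : (3 * (d + 2) - 1 + (g + 1))! ≤ (3 * d - 1 + g)! * (3 * d + 6 + g) ^ 7 := by
    have e1 : 3 * (d + 2) - 1 + (g + 1) = (3 * d - 1 + g) + 7 := by omega
    have e2 : 3 * d + 6 + g = (3 * d - 1 + g) + 7 := by omega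
    rw [e1, e2, ← Nat.factorial_mul_ascFactorial]
    gcongr
    exact Nat.ascFactorial_le_pow_add _ _
  have h2' : (((3 * (d + 2) - 1 + (g + 1))! : ℕ) : ℝ) ≤
      ((3 * d - 1 + g)! : ℝ) * ((3 * d + 6 + g : ℕ) : ℝ) ^ 7 := by exact_mod_cast h2
  unfold cN
  have p1 : (0 : ℝ) < ((3 * d - 1 + g)! : ℝ) := by exact_mod_cast Nat.factorial_pos _
  have p2 : (0 : ℝ) < (((3 * (d + 2) - 1 + (g + 1))! : ℕ) : ℝ) := by
    exact_mod_cast Nat.factorial_pos _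
  rw [mul_div_assoc', div_le_div_iff₀ p1 p2]
  calc (N g d : ℝ) * (((3 * (d + 2) - 1 + (g + 1))! : ℕ) : ℝ)
      ≤ (N (g + 1) (d + 2) : ℝ) * (((3 * d - 1 + g)! : ℝ) * ((3 * d + 6 + g : ℕ) : ℝ) ^ 7) := by
        gcongr
    _ = _ := by ring

theorem poly_lt {β β' : ℝ} (h0 : 0 < β) (h : β < β') (g : ℕ) :
    ∀ᶠ d : ℕ in atTop, ((3 * d + 6 + g : ℕ) : ℝ) ^ 7 * β ^ (d + 2) < β' ^ d := by
  have hβ' : 0 < β' := h0.trans h
  have h1 := tendsto_pow_const_mul_const_pow_of_abs_lt_one 7 (r := β / β')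
    (by rw [abs_of_nonneg (by positivity), div_lt_one hβ']; exact h)
  have h2 := (h1.const_mul (((9 + g : ℕ) : ℝ) ^ 7 * β ^ 2))
  rw [mul_zero] at h2
  filter_upwards [h2.eventually_lt_const zero_lt_one, eventually_ge_atTop 1] with d h3 h4
  have h5 : ((3 * d + 6 + g : ℕ) : ℝ) ≤ ((9 + g : ℕ) : ℝ) * d := by
    have : 3 * d + 6 + g ≤ (9 + g) * d := by nlinarith
    exact_mod_cast this
  calc ((3 * d + 6 + g : ℕ) : ℝ) ^ 7 * β ^ (d + 2)
      ≤ (((9 + g : ℕ) : ℝ) * d) ^ 7 * β ^ (d + 2) := by gcongr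
    _ = (((9 + g : ℕ) : ℝ) ^ 7 * β ^ 2 * ((d : ℝ) ^ 7 * (β / β') ^ d)) * β' ^ d := by
        rw [div_pow, mul_pow, pow_add]; field_simp
    _ < 1 * β' ^ d := by gcongr
    _ = _ := one_mul _

theorem lower_step {g : ℕ} {β β' : ℝ} (h0 : 0 < β) (h : β < β') :
    ∀ᶠ d in atTop, β' < rN g d → β < rN (g + 1) (d + 2) := by
  filter_upwards [poly_lt h0 h g, eventually_ge_atTop 1] with d h1 h2 h3
  apply lt_rN (by omega)
  have h4 : β' ^ d < cN g d := by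
    rw [← rN_pow g h2]
    exact pow_lt_pow_left₀ h3 (h0.trans h).le (by omega)
  have h5 := cN_handle g h2
  have h6 : (0 : ℝ) < ((3 * d + 6 + g : ℕ) : ℝ) ^ 7 := by
    have : 0 < 3 * d + 6 + g := by omega
    have : (0 : ℝ) < ((3 * d + 6 + g : ℕ) : ℝ) := by exact_mod_cast this
    positivity
  refine lt_of_mul_lt_mul_left ?_ h6.le
  linarith

/-- every genus has the exponential rate of genus 0 -/
theorem rate {b : ℝ} (hb : Tendsto (rN 0) atTop (𝓝 b)) : ∀ g, Tendsto (rN g) atTop (𝓝 b) := by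
  have hb0 : 0 ≤ b := ge_of_tendsto' hb (fun d => rN_nonneg 0 d)
  intro g
  induction g with
  | zero => exact hb
  | succ g ih =>
    rw [tendsto_order]
    constructor
    · intro β hβ
      rcases lt_or_ge β 0 with h0 | h0
      · exact Eventually.of_forall fun d => h0.trans_le (rN_nonneg _ d)
      · set β1 := (2 * β + b) / 3 with hβ1
        set β2 := (β + 2 * b) / 3 with hβ2
        have e1 : β < β1 := by rw [hβ1]; linarith
        have e2 : β1 < β2 := by rw [hβ1, hβ2]; linarith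
        have e3 : β2 < b := by rw [hβ2]; linarith
        have h1 := (tendsto_order.1 ih).1 β2 e3
        have h2 := lower_step (g := g) (h0.trans_lt e1) e2
        obtain ⟨M, hM⟩ := eventually_atTop.1 (h1.and h2)
        filter_upwards [eventually_ge_atTop (M + 2)] with d hd
        have h3 := hM (d - 2) (by omega)
        have h4 := h3.2 h3.1
        rw [show d - 2 + 2 = d by omega] at h4
        exact e1.trans h4
    · intro β hβ
      set θ := (b + β) / 2 with hθ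
      have e1 : b < θ := by rw [hθ]; linarith
      have e2 : θ < β := by rw [hθ]; linarith
      exact upper (hb0.trans_lt e1) ((tendsto_order.1 hb).2 θ e1) (g + 1) e2

end Pool.Agent.FloorDiag
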