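import Pool.Agent.Lib.MP_6aab98_ag.Basic

/-! # MP_6aab98_ag: relabelling, weighted counts of pointed systems -/

namespace Pool.Agent.FloorDiag

open Finset
open scoped ENNReal

/-- relabelling of an elevator -/
def Elev.map (ψ : ℕ → ℕ) (e : Elev) : Elev := ⟨ψ e.pt, ψ e.src, e.tgt.map ψ, e.wt⟩

theorem Elev.map_inj {ψ : ℕ → ℕ} (h : Function.Injective ψ) : Function.Injective (Elev.map ψ) := by
  intro e e' hh
  have h1 : ψ e.pt = ψ e'.pt := congrArg Elev.pt hh
  have h2 : ψ e.src = ψ e'.src := congrArg Elev.src hh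
  have h3 : e.tgt.map ψ = e'.tgt.map ψ := congrArg Elev.tgt hh
  have h4 : (e.map ψ).wt = (e'.map ψ).wt := by rw [hh]
  have h3' := Option.map_injective h h3
  cases e; cases e'
  simp only [Elev.mk.injEq]
  exact ⟨h h1, h h2, h3', h4⟩

namespace Dgm

variable {D : Dgm}

/-- relabelling -/
def map (ψ : ℕ → ℕ) (D : Dgm) : Dgm := ⟨D.F.image ψ, D.E.image (Elev.map ψ)⟩

theorem mem_map_E {ψ : ℕ → ℕ} {x : Elev} : x ∈ (D.map ψ).E ↔ ∃ e ∈ D.E, e.map ψ = x := by
  simp [map]

theorem mem_map_F {ψ : ℕ → ℕ} {x : ℕ} : x ∈ (D.map ψ).F ↔ ∃ e ∈ D.F, ψ e = x := by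
  simp [map]

theorem pts_map (ψ : ℕ → ℕ) (D : Dgm) : (D.map ψ).pts = D.pts.image ψ := by
  ext x
  simp only [mem_pts, mem_image, mem_map_F, mem_map_E]
  constructor
  · rintro (⟨y, hy, rfl⟩ | ⟨e, ⟨e', he', rfl⟩, rfl⟩)
    · exact ⟨y, Or.inl hy, rfl⟩
    · exact ⟨e'.pt, Or.inr ⟨e', he', rfl⟩, rfl⟩
  · rintro ⟨y, (hy | ⟨e, he, rfl⟩), rfl⟩
    · exact Or.inl ⟨y, hy, rfl⟩
    · exact Or.inr ⟨_, ⟨e, he, rfl⟩, rfl⟩

theorem map_map (ψ φ : ℕ → ℕ) (D : Dgm) : (D.map φ).map ψ = D.map (ψ ∘ φ) := by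
  unfold map
  simp only [image_image, Dgm.mk.injEq, true_and]
  congr 1
  funext e
  simp [Elev.map, Option.map_map]

theorem map_eq_self {φ : ℕ → ℕ} (hv : D.Valid) (h : ∀ x ∈ D.pts, φ x = x) : D.map φ = D := by
  have h1 : D.F.image φ = D.F := by
    ext x
    simp only [mem_image]
    constructor
    · rintro ⟨y, hy, rfl⟩
      rw [h y (mem_pts_of_F hy)]; exact hy
    · intro hx
      exact ⟨x, hx, h x (mem_pts_of_F hx)⟩
  have h2 : ∀ e ∈ D.E, e.map φ = e := by
    intro e he
    have e1 := h _ (mem_pts_of_E he)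
    have e2 := h _ (hv.src_pts he)
    have e3 : e.tgt.map φ = e.tgt := by
      cases ht : e.tgt with
      | none => rfl
      | some q => simp [h _ (hv.tgt_pts he ht)]
    cases e
    simp only [Elev.map, Elev.mk.injEq] at *
    exact ⟨e1, e2, e3, trivial⟩
  have h3 : D.E.image (Elev.map φ) = D.E := by
    ext x
    simp only [mem_image]
    constructor
    · rintro ⟨y, hy, rfl⟩
      rw [h2 y hy]; exact hy
    · intro hx
      exact ⟨x, hx, h2 x hx⟩
  cases D
  simp_all [map]

theorem map_injective {ψ : ℕ → ℕ} (h : Function.Injective ψ) : Function.Injective (Dgm.map ψ) := by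
  intro D D' hh
  have h1 : D.F.image ψ = D'.F.image ψ := congrArg Dgm.F hh
  have h2 : D.E.image (Elev.map ψ) = D'.E.image (Elev.map ψ) := congrArg Dgm.E hh
  have h1' := Finset.image_injective h h1
  have h2' := Finset.image_injective (Elev.map_inj h) h2
  cases D; cases D'
  simp_all

theorem cardF_map {ψ : ℕ → ℕ} (h : Function.Injective ψ) : (D.map ψ).F.card = D.F.card := by
  simp only [map]
  exact card_image_of_injective _ h

theorem cardE_map {ψ : ℕ → ℕ} (h : Function.Injective ψ) : (D.map ψ).E.card = D.E.card := by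
  simp only [map]
  exact card_image_of_injective _ (Elev.map_inj h)

theorem mult_map {ψ : ℕ → ℕ} (h : Function.Injective ψ) : (D.map ψ).mult = D.mult := by
  simp only [map, mult]
  rw [prod_image (fun x _ y _ hh => Elev.map_inj h hh)]
  rfl

theorem div_map {ψ : ℕ → ℕ} (h : Function.Injective ψ) (f : ℕ) :
    (D.map ψ).div (ψ f) = D.div f := by
  rw [div_eq_sum, div_eq_sum]
  simp only [map]
  rw [sum_image (fun x _ y _ hh => Elev.map_inj h hh)]
  apply sum_congr rfl
  intro e _
  have h1 : (Option.map ψ e.tgt = some (ψ f)) ↔ e.tgt = some f := by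
    cases e.tgt with
    | none => simp
    | some q => simp [h.eq_iff]
  simp only [Elev.dv, Elev.map, h.eq_iff, h1]

theorem valid_map {ψ : ℕ → ℕ} (h : StrictMono ψ) : (D.map ψ).Valid ↔ D.Valid := by
  have hi := h.injective
  constructor
  · intro hv
    refine ⟨?_, ?_, ?_, ?_, ?_, ?_, ?_, ?_⟩
    · intro e he e' he' hh
      apply Elev.map_inj hi
      exact hv.inj _ (mem_map_E.2 ⟨e, he, rfl⟩) _ (mem_map_E.2 ⟨e', he', rfl⟩)
        (by simp [Elev.map, hh])
    · intro e he hF
      exact hv.disj _ (mem_map_E.2 ⟨e, he, rfl⟩) (mem_map_F.2 ⟨_, hF, rfl⟩)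
    · intro e he
      obtain ⟨y, hy, hy'⟩ := mem_map_F.1 (hv.src_mem _ (mem_map_E.2 ⟨e, he, rfl⟩))
      have : y = e.src := hi hy'
      exact this ▸ hy
    · intro e he
      exact h.lt_iff_lt.1 (hv.src_lt _ (mem_map_E.2 ⟨e, he, rfl⟩))
    · intro e he q hq
      obtain ⟨y, hy, hy'⟩ := mem_map_F.1 (hv.tgt_mem _ (mem_map_E.2 ⟨e, he, rfl⟩) (ψ q)
        (by simp [Elev.map, hq]))
      have : y = q := hi hy'
      exact this ▸ hy
    · intro e he q hq
      exact h.lt_iff_lt.1 (hv.tgt_lt _ (mem_map_E.2 ⟨e, he, rfl⟩) (ψ q) (by simp [Elev.map, hq]))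
    · intro e he
      exact hv.wt_pos (e.map ψ) (mem_map_E.2 ⟨e, he, rfl⟩)
    · intro e he hq
      exact hv.wt_end (e.map ψ) (mem_map_E.2 ⟨e, he, rfl⟩) (by simp [Elev.map, hq])
  · intro hv
    refine ⟨?_, ?_, ?_, ?_, ?_, ?_, ?_, ?_⟩
    · intro e he e' he' hh
      obtain ⟨x, hx, rfl⟩ := mem_map_E.1 he
      obtain ⟨y, hy, rfl⟩ := mem_map_E.1 he'
      rw [hv.inj x hx y hy (hi hh)]
    · intro e he hF
      obtain ⟨x, hx, rfl⟩ := mem_map_E.1 he
      obtain ⟨y, hy, hy'⟩ := mem_map_F.1 hF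
      have : y = x.pt := hi hy'
      exact hv.disj x hx (this ▸ hy)
    · intro e he
      obtain ⟨x, hx, rfl⟩ := mem_map_E.1 he
      exact mem_map_F.2 ⟨_, hv.src_mem x hx, rfl⟩
    · intro e he
      obtain ⟨x, hx, rfl⟩ := mem_map_E.1 he
      exact h (hv.src_lt x hx)
    · intro e he q hq
      obtain ⟨x, hx, rfl⟩ := mem_map_E.1 he
      have hq' : x.tgt.map ψ = some q := hq
      obtain ⟨y, hy, rfl⟩ := Option.map_eq_some_iff.1 hq'
      exact mem_map_F.2 ⟨_, hv.tgt_mem x hx y hy, rfl⟩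
    · intro e he q hq
      obtain ⟨x, hx, rfl⟩ := mem_map_E.1 he
      have hq' : x.tgt.map ψ = some q := hq
      obtain ⟨y, hy, rfl⟩ := Option.map_eq_some_iff.1 hq'
      exact h (hv.tgt_lt x hx y hy)
    · intro e he
      obtain ⟨x, hx, rfl⟩ := mem_map_E.1 he
      exact hv.wt_pos x hx
    · intro e he hq
      obtain ⟨x, hx, rfl⟩ := mem_map_E.1 he
      have hq' : x.tgt.map ψ = none := hq
      exact hv.wt_end x hx (Option.map_eq_none_iff.1 hq')

theorem connEx_map {ψ : ℕ → ℕ} (h : Function.Injective ψ) {o : Option Elev} :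
    (D.map ψ).ConnEx (o.map (Elev.map ψ)) ↔ D.ConnEx o := by
  have hne : ∀ e : Elev, some (e.map ψ) ≠ o.map (Elev.map ψ) ↔ some e ≠ o := by
    intro e
    rw [not_iff_not]
    constructor
    · intro hh
      exact Option.map_injective (Elev.map_inj h) (by simpa using hh)
    · rintro rfl
      rfl
  constructor
  · intro hc X hX hx y hy
    have hcl : (D.map ψ).ClosedEx (o.map (Elev.map ψ)) (ψ '' X) := by
      intro e he
      obtain ⟨x, hx, rfl⟩ := mem_map_E.1 he
      refine ⟨fun hh => ?_, fun q hq => ?_⟩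
      · have := (hX x hx).1 ((hne x).1 hh)
        simp only [Elev.map, h.mem_set_image]
        exact this
      · have hq' : x.tgt.map ψ = some q := hq
        obtain ⟨y, hy, rfl⟩ := Option.map_eq_some_iff.1 hq'
        simp only [Elev.map, h.mem_set_image]
        exact (hX x hx).2 y hy
    have := hc (ψ '' X) hcl (by
      obtain ⟨x, hx1, hx2⟩ := hx
      exact ⟨ψ x, by rw [pts_map]; exact mem_image_of_mem _ hx1, ⟨x, hx2, rfl⟩⟩) (ψ y)
      (by rw [pts_map]; exact mem_image_of_mem _ hy)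
    exact (h.mem_set_image).1 this
  · intro hc X hX hx y hy
    have hcl : D.ClosedEx o (ψ ⁻¹' X) := by
      intro e he
      have := hX (e.map ψ) (mem_map_E.2 ⟨e, he, rfl⟩)
      refine ⟨fun hh => this.1 ((hne e).2 hh), fun q hq => this.2 (ψ q) (by simp [Elev.map, hq])⟩
    rw [pts_map] at hy
    obtain ⟨y', hy', rfl⟩ := mem_image.1 hy
    refine hc _ hcl ?_ y' hy'
    obtain ⟨x, hx1, hx2⟩ := hx
    rw [pts_map] at hx1
    obtain ⟨x', hx', rfl⟩ := mem_image.1 hx1
    exact ⟨x', hx', hx2⟩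

end Dgm

/-- a property of pointed systems is invariant -/
def Inv (A : Dgm → ℕ → Prop) : Prop :=
  ∀ ψ : ℕ → ℕ, StrictMono ψ → ∀ D v, A D v ↔ A (D.map ψ) (ψ v)

/-- connected systems of genus `g` pointed at a floor of divergence `p`, the other floors having
divergence 1; `o` is an incidence which is not used for the connectedness -/
structure Q (g : ℕ) (p : ℤ) (o : Option Elev) (D : Dgm) (v : ℕ) : Prop where
  valid : D.Valid
  mem : v ∈ D.F
  conn : D.ConnEx o
  divv : D.div v = p
  div : ∀ f ∈ D.F, f ≠ v → D.div f = 1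
  cnt : (D.F.card : ℤ) + D.E.card = 3 * D.F.card + p - 2 + g

/-- pointed connected systems -/
def Pc (g : ℕ) (p : ℤ) (D : Dgm) (v : ℕ) : Prop := Q g p none D v

/-- pointed connected systems with a redundant incidence at the marked floor -/
def Rc (g : ℕ) (p : ℤ) (a : ℕ) (D : Dgm) (v : ℕ) : Prop :=
  ∃ e0 ∈ D.E, e0.src = v ∧ e0.wt = a ∧ Q g p (some e0) D v

theorem Q_map {ψ : ℕ → ℕ} (h : StrictMono ψ) {g : ℕ} {p : ℤ} {o : Option Elev} {D : Dgm} {v : ℕ} :
    Q g p (o.map (Elev.map ψ)) (D.map ψ) (ψ v) ↔ Q g p o D v := by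
  have hi := h.injective
  constructor
  · intro hq
    refine ⟨(Dgm.valid_map h).1 hq.valid, ?_, (Dgm.connEx_map hi).1 hq.conn, ?_, ?_, ?_⟩
    · obtain ⟨y, hy, hy'⟩ := Dgm.mem_map_F.1 hq.mem
      have : y = v := hi hy'
      exact this ▸ hy
    · rw [← Dgm.div_map hi]; exact hq.divv
    · intro f hf hne
      rw [← Dgm.div_map hi]
      exact hq.div _ (Dgm.mem_map_F.2 ⟨f, hf, rfl⟩) (fun hh => hne (hi hh))
    · have := hq.cnt
      rwa [Dgm.cardF_map hi, Dgm.cardE_map hi] at this
  · intro hq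
    refine ⟨(Dgm.valid_map h).2 hq.valid, Dgm.mem_map_F.2 ⟨v, hq.mem, rfl⟩,
      (Dgm.connEx_map hi).2 hq.conn, ?_, ?_, ?_⟩
    · rw [Dgm.div_map hi]; exact hq.divv
    · intro f hf hne
      obtain ⟨y, hy, rfl⟩ := Dgm.mem_map_F.1 hf
      rw [Dgm.div_map hi]
      exact hq.div _ hy (fun hh => hne (by rw [hh]))
    · have := hq.cnt
      rwa [Dgm.cardF_map hi, Dgm.cardE_map hi]

theorem inv_Pc (g : ℕ) (p : ℤ) : Inv (Pc g p) := by
  intro ψ h D v
  have := Q_map h (g := g) (p := p) (o := none) (D := D) (v := v)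
  exact this.symm

theorem inv_Rc (g : ℕ) (p : ℤ) (a : ℕ) : Inv (Rc g p a) := by
  intro ψ h D v
  constructor
  · rintro ⟨e0, he0, h1, h2, h3⟩
    exact ⟨e0.map ψ, Dgm.mem_map_E.2 ⟨e0, he0, rfl⟩, by simp [Elev.map, h1], by simp [Elev.map, h2],
      (Q_map h (o := some e0)).2 h3⟩
  · rintro ⟨e0, he0, h1, h2, h3⟩
    obtain ⟨x, hx, rfl⟩ := Dgm.mem_map_E.1 he0
    exact ⟨x, hx, h.injective h1, h2, (Q_map h (o := some x)).1 h3⟩

/-- weighted number of systems with point set `V` in the class `A` pointed at `v` -/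
noncomputable def W (A : Dgm → ℕ → Prop) (V : Finset ℕ) (v : ℕ) : ℝ≥0∞ :=
  ∑' D : {D : Dgm // D.pts = V ∧ A D v}, (D.1.mult : ℝ≥0∞)

/-- weighted number of pointed systems with `i` points before and `j` points after the marked
floor -/
noncomputable def cnt (A : Dgm → ℕ → Prop) (i j : ℕ) : ℝ≥0∞ := W A (range (i + 1 + j)) i

theorem exists_strictMono (V : Finset ℕ) :
    ∃ ψ : ℕ → ℕ, StrictMono ψ ∧ (range V.card).image ψ = V := by
  induction V using Finset.induction_on_max with
  | empty => exact ⟨id, strictMono_id, by simp⟩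
  | insert a s hs ih =>
    obtain ⟨ψ, hψ, hi⟩ := ih
    have ha : a ∉ s := fun h => lt_irrefl _ (hs a h)
    rw [card_insert_of_notMem ha]
    refine ⟨fun k => if k < s.card then ψ k else a + (k - s.card), ?_, ?_⟩
    · intro x y hxy
      have hmem : ∀ k, k < s.card → ψ k < a := by
        intro k hk
        apply hs
        rw [← hi]
        exact mem_image_of_mem _ (mem_range.2 hk)
      by_cases h1 : x < s.card
      · by_cases h2 : y < s.card
        · simp only [h1, h2, if_true]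
          exact hψ hxy
        · simp only [h1, h2, if_true, if_false]
          have := hmem x h1
          omega
      · have h2 : ¬ y < s.card := by omega
        simp only [h1, h2, if_false]
        omega
    · rw [range_add_one, image_insert]
      have h1 : (if s.card < s.card then ψ s.card else a + (s.card - s.card)) = a := by simp
      rw [h1]
      congr 1
      refine Eq.trans ?_ hi
      apply Finset.image_congr
      intro x hx
      have hx' : x < s.card := by simpa using hx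
      simp only [if_pos hx']

theorem W_map {A : Dgm → ℕ → Prop} (hA : Inv A) (hval : ∀ D v, A D v → D.Valid) {ψ : ℕ → ℕ}
    (hψ : StrictMono ψ) (V : Finset ℕ) (v : ℕ) : W A (V.image ψ) (ψ v) = W A V v := by
  unfold W
  have hi := hψ.injective
  let f : {D : Dgm // D.pts = V ∧ A D v} → {D : Dgm // D.pts = V.image ψ ∧ A D (ψ v)} :=
    fun D => ⟨D.1.map ψ, by rw [Dgm.pts_map, D.2.1], (hA ψ hψ _ _).1 D.2.2⟩
  have hf : Function.Bijective f := by
    constructor
    · intro D D' hh
      have : D.1.map ψ = D'.1.map ψ := congrArg Subtype.val hh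
      exact Subtype.ext (Dgm.map_injective hi this)
    · rintro ⟨D, hD1, hD2⟩
      obtain ⟨χ, hχ⟩ := hi.hasLeftInverse
      have hval' := hval _ _ hD2
      have hself : D.map (ψ ∘ χ) = D := by
        apply Dgm.map_eq_self hval'
        intro x hx
        rw [hD1] at hx
        obtain ⟨y, _, rfl⟩ := mem_image.1 hx
        simp [hχ y]
      have hmm : (D.map χ).map ψ = D := by rw [Dgm.map_map, hself]
      have hp : (D.map χ).pts = V := by
        have : ((D.map χ).pts).image ψ = V.image ψ := by rw [← Dgm.pts_map, hmm, hD1]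
        exact Finset.image_injective hi this
      have hA' : A (D.map χ) v := by
        rw [hA ψ hψ, hmm]
        exact hD2
      exact ⟨⟨D.map χ, hp, hA'⟩, Subtype.ext hmm⟩
  rw [← (Equiv.ofBijective f hf).tsum_eq]
  apply tsum_congr
  intro D
  simp only [Equiv.ofBijective_apply, f]
  rw [Dgm.mult_map hi]

theorem W_eq_cnt {A : Dgm → ℕ → Prop} (hA : Inv A) (hval : ∀ D v, A D v → D.Valid)
    {V : Finset ℕ} {v : ℕ} (hv : v ∈ V) :
    W A V v = cnt A (V.filter (fun x => x < v)).card (V.filter (fun x => v < x)).card := by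
  obtain ⟨ψ, hψ, hi⟩ := exists_strictMono V
  have hv' := hv
  rw [← hi] at hv'
  obtain ⟨k, hk, rfl⟩ := mem_image.1 hv'
  have hk' : k < V.card := mem_range.1 hk
  have h1 : (V.filter (fun x => x < ψ k)).card = k := by
    have : V.filter (fun x => x < ψ k) = (range k).image ψ := by
      ext x
      simp only [mem_filter, mem_image, mem_range]
      constructor
      · rintro ⟨hx, hlt⟩
        rw [← hi] at hx
        obtain ⟨y, _, rfl⟩ := mem_image.1 hx
        exact ⟨y, hψ.lt_iff_lt.1 hlt, rfl⟩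
      · rintro ⟨y, hy, rfl⟩
        refine ⟨?_, hψ hy⟩
        rw [← hi]
        exact mem_image_of_mem _ (mem_range.2 (by omega))
    rw [this, card_image_of_injective _ hψ.injective, card_range]
  have h2 : (V.filter (fun x => ψ k < x)).card = V.card - k - 1 := by
    have : V.filter (fun x => ψ k < x) = (Ico (k + 1) V.card).image ψ := by
      ext x
      simp only [mem_filter, mem_image, mem_Ico]
      constructor
      · rintro ⟨hx, hlt⟩
        rw [← hi] at hx
        obtain ⟨y, hy, rfl⟩ := mem_image.1 hx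
        exact ⟨y, ⟨hψ.lt_iff_lt.1 hlt, mem_range.1 hy⟩, rfl⟩
      · rintro ⟨y, hy, rfl⟩
        refine ⟨?_, hψ (by omega)⟩
        rw [← hi]
        exact mem_image_of_mem _ (mem_range.2 hy.2)
    rw [this, card_image_of_injective _ hψ.injective, Nat.card_Ico]
    omega
  rw [h1, h2]
  unfold cnt
  rw [show k + 1 + (V.card - k - 1) = V.card by omega]
  have h3 := W_map hA hval hψ (range V.card) k
  rw [hi] at h3
  exact h3

end Pool.Agent.FloorDiag
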