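import Pool.Agent.Lib.MP_6aab98_ag.Tree
import Pool.Agent.Lib.MP_6aab98_ag.Cert

/-! # MP_6aab98_ag: the slack in the number of points, bounds of the two certificate classes -/

namespace Pool.Agent.FloorDiag

open Finset
open scoped ENNReal NNReal Nat

theorem Q.S_le {g S : ℕ} {o : Option Elev} {D : Dgm} {v : ℕ} (h : Q g (1 - (S : ℤ)) o D v) :
    S ≤ D.F.card := by
  have h1 := Dgm.sum_div h.valid
  have h2 : ∑ f ∈ D.F, D.div f = (D.F.card : ℤ) - 1 + (1 - S) := by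
    rw [← add_sum_erase D.F D.div h.mem, h.divv, sum_congr rfl (g := fun _ => (1 : ℤ))
      (fun f hf => h.div f (mem_of_mem_erase hf) (ne_of_mem_erase hf))]
    have h7 := card_erase_of_mem h.mem
    have h8 := card_pos.2 ⟨v, h.mem⟩
    rw [sum_const, h7]
    simp only [nsmul_eq_mul, mul_one]
    push_cast [Nat.cast_sub (show 1 ≤ D.F.card by omega)]
    ring
  omega

theorem ex_smul (c α : ℝ≥0) (i : ℕ) : (c : ℝ≥0∞) ^ i * ex α i = ex (c * α) i := by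
  unfold ex
  rw [← ENNReal.coe_pow, ← ENNReal.coe_mul]
  congr 1
  rw [mul_pow]
  ring

theorem slack (S : ℕ) {c : ℝ≥0} (hc : 1 ≤ c) (α β : ℝ≥0) :
    (c : ℝ≥0∞) ^ (S - 1) * V 0 (1 - S) α β ≤ V 0 (1 - S) (c * α) (c * β) := by
  unfold V gf
  rw [← ENNReal.tsum_mul_left]
  refine ENNReal.tsum_le_tsum fun i => ?_
  rw [← ENNReal.tsum_mul_left]
  refine ENNReal.tsum_le_tsum fun j => ?_
  by_cases h0 : cnt (Pc 0 (1 - S)) i j = 0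
  · rw [h0]; simp
  · have hS : S ≤ i + 1 + j := by
      by_contra hlt
      apply h0
      unfold cnt W
      rw [ENNReal.tsum_eq_zero]
      rintro ⟨D, hD1, hD2⟩
      exfalso
      have h1 := Q.S_le hD2
      have h2 : D.F.card ≤ D.pts.card := card_le_card subset_union_left
      rw [hD1, card_range] at h2
      omega
    rw [← ex_smul, ← ex_smul]
    have hc' : (1 : ℝ≥0∞) ≤ (c : ℝ≥0∞) := by exact_mod_cast hc
    calc (c : ℝ≥0∞) ^ (S - 1) * (cnt (Pc 0 (1 - S)) i j * (ex α i * ex β j))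
        = cnt (Pc 0 (1 - S)) i j * ((c : ℝ≥0∞) ^ (S - 1) * (ex α i * ex β j)) := by ring
      _ ≤ cnt (Pc 0 (1 - S)) i j * ((c : ℝ≥0∞) ^ (i + j) * (ex α i * ex β j)) := by
          gcongr
          omega
      _ = _ := by rw [pow_add]; ring

/-- the constant of the linking -/
noncomputable def Kc (δ : ℝ≥0) : ℝ≥0 := 1 + 2 / δ ^ 2

theorem le_Kc {δ : ℝ≥0} (hδ : 0 < δ) {b : ℕ} (hb : 1 ≤ b) {x y : ℝ≥0∞}
    (h : (b : ℝ≥0∞) ^ 2 * ((δ ^ 2 / 2 : ℝ≥0) : ℝ≥0∞) * x ≤ y) : x ≤ (Kc δ : ℝ≥0∞) * y := by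
  have h1 : (((2 / δ ^ 2 : ℝ≥0)) : ℝ≥0∞) * ((δ ^ 2 / 2 : ℝ≥0) : ℝ≥0∞) = 1 := by
    rw [← ENNReal.coe_mul]
    have : (2 / δ ^ 2 : ℝ≥0) * (δ ^ 2 / 2) = 1 := by field_simp
    rw [this, ENNReal.coe_one]
  have hb' : (1 : ℝ≥0∞) ≤ (b : ℝ≥0∞) ^ 2 := one_le_pow₀ (by exact_mod_cast hb)
  calc x = (((2 / δ ^ 2 : ℝ≥0)) : ℝ≥0∞) * (1 * ((δ ^ 2 / 2 : ℝ≥0) : ℝ≥0∞) * x) := by
        rw [one_mul, ← mul_assoc, h1, one_mul]
    _ ≤ (((2 / δ ^ 2 : ℝ≥0)) : ℝ≥0∞) * ((b : ℝ≥0∞) ^ 2 * ((δ ^ 2 / 2 : ℝ≥0) : ℝ≥0∞) * x) := by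
        gcongr
    _ ≤ (((2 / δ ^ 2 : ℝ≥0)) : ℝ≥0∞) * y := by gcongr
    _ ≤ (Kc δ : ℝ≥0∞) * y := by
        gcongr
        unfold Kc
        exact le_add_of_nonneg_left zero_le

theorem one_le_Kc (δ : ℝ≥0) (x : ℝ≥0∞) : x ≤ (Kc δ : ℝ≥0∞) * x := by
  have h : (1 : ℝ≥0∞) ≤ (Kc δ : ℝ≥0∞) := by
    rw [ENNReal.one_le_coe_iff]
    unfold Kc
    exact le_add_of_nonneg_right zero_le
  calc x = 1 * x := (one_mul x).symm
    _ ≤ _ := by gcongr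

theorem UV {δ : ℝ≥0} (hδ : 0 < δ) (h b : ℕ) (α β : ℝ≥0) :
    Us b α β * V h ((b + 1 : ℕ) : ℤ) α β ≤ (Kc δ : ℝ≥0∞) * V h 1 (α + δ) β := by
  unfold Us
  split_ifs with hb
  · subst hb
    rw [one_mul]
    refine le_trans ?_ (one_le_Kc δ _)
    exact V_mono (le_add_of_nonneg_right zero_le) le_rfl
  · have h1 := V_link2 0 h (a := b) (by omega) ((b + 1 : ℕ) : ℤ) α β δ
    rw [zero_add, show (((b + 1 : ℕ) : ℤ) - b) = 1 by push_cast; ring] at h1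
    exact le_Kc hδ (by omega) h1

theorem UR {δ : ℝ≥0} (hδ : 0 < δ) (g b a S : ℕ) (hS : S = b + (a + 1)) (α β : ℝ≥0) :
    Us b α β * R g (S : ℤ) a α β ≤ (Kc δ : ℝ≥0∞) * R g ((a : ℤ) + 1) a (α + δ) β := by
  unfold Us
  split_ifs with hb
  · subst hb
    rw [one_mul, hS]
    refine le_trans ?_ (one_le_Kc δ _)
    rw [show (((0 + (a + 1) : ℕ)) : ℤ) = (a : ℤ) + 1 by push_cast; ring]
    exact R_mono (le_add_of_nonneg_right zero_le) le_rfl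
  · have h1 := R_link2 0 g (a := b) (by omega) (S : ℤ) a α β δ
    rw [zero_add, show ((S : ℤ) - b) = (a : ℤ) + 1 by rw [hS]; push_cast; ring] at h1
    exact le_Kc hδ (by omega) h1

theorem geom2_fin {x : ℝ} (hx0 : 0 ≤ x) (hx : x < 1) :
    ∑' b1 : ℕ, ∑' b2 : ℕ, ENNReal.ofReal (x ^ (b1 + b2)) ≠ ∞ := by
  have h1 : ∀ b1 b2 : ℕ, ENNReal.ofReal (x ^ (b1 + b2)) =
      ENNReal.ofReal (x ^ b1) * ENNReal.ofReal (x ^ b2) := by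
    intro b1 b2
    rw [pow_add, ENNReal.ofReal_mul (by positivity)]
  simp_rw [h1, ENNReal.tsum_mul_left, ENNReal.tsum_mul_right]
  have h2 : ∑' b : ℕ, ENNReal.ofReal (x ^ b) ≠ ∞ := by
    rw [← ENNReal.ofReal_tsum_of_nonneg (fun n => by positivity)
      (summable_geometric_of_lt_one hx0 hx)]
    exact ENNReal.ofReal_ne_top
  exact ENNReal.mul_ne_top h2 h2

/-- summation against the supply -/
theorem sum_supply {L : ℝ≥0} (hL : TreeFin L) {α β δ c : ℝ≥0} (hα : 0 < α) (hβ : 0 < β)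
    (hδ : 0 < δ) (hc : 1 < c) (h : c * α + δ + c * β + δ + δ < L) (X : ℕ → ℕ → ℝ≥0∞) (M : ℝ≥0∞)
    (hM : M ≠ ∞) (hX : ∀ b1 b2 : ℕ,
      Us b1 (c * α + δ) (c * β) * Us b2 (c * α + δ) (c * β) * X b1 b2 ≤ M) :
    ∑' b1 : ℕ, ∑' b2 : ℕ, V 0 (1 - ((b1 + b2 + 2 : ℕ) : ℤ)) α β * X b1 b2 ≠ ∞ := by
  have hc0 : (0 : ℝ) < c := by
    have : (0 : ℝ≥0) < c := lt_trans zero_lt_one hc
    exact_mod_cast this
  have hc1 : (1 : ℝ) < c := by exact_mod_cast hc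
  set E : ℝ := (1 + c) / 2 with hE
  have hE1 : 1 < E := by rw [hE]; linarith
  have hE2 : E < c := by rw [hE]; linarith
  have hE0 : 0 < E := by linarith
  obtain ⟨C, hC⟩ := star hL (mul_pos (lt_trans zero_lt_one hc) hα)
    (mul_pos (lt_trans zero_lt_one hc) hβ) hδ h hE1
  have hcne : (c : ℝ≥0∞) ≠ 0 := by
    rw [ENNReal.coe_ne_zero]
    exact (lt_trans zero_lt_one hc).ne'
  have key : ∀ b1 b2 : ℕ, V 0 (1 - ((b1 + b2 + 2 : ℕ) : ℤ)) α β * X b1 b2 ≤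
      ENNReal.ofReal ((E / c) ^ (b1 + b2)) * (C * M) := by
    intro b1 b2
    have h1 := slack (b1 + b2 + 2) hc.le α β
    have h2 : (c : ℝ≥0∞) ^ (b1 + b2) * V 0 (1 - ((b1 + b2 + 2 : ℕ) : ℤ)) α β ≤
        V 0 (1 - ((b1 + b2 + 2 : ℕ) : ℤ)) (c * α) (c * β) := by
      refine le_trans ?_ h1
      gcongr
      · exact_mod_cast hc.le
      · omega
    have h3 := h2.trans (hC b1 b2)
    have h4 : (c : ℝ≥0∞) ^ (b1 + b2) * (V 0 (1 - ((b1 + b2 + 2 : ℕ) : ℤ)) α β * X b1 b2) ≤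
        ENNReal.ofReal (E ^ (b1 + b2)) * (C * M) := by
      calc (c : ℝ≥0∞) ^ (b1 + b2) * (V 0 (1 - ((b1 + b2 + 2 : ℕ) : ℤ)) α β * X b1 b2)
          = ((c : ℝ≥0∞) ^ (b1 + b2) * V 0 (1 - ((b1 + b2 + 2 : ℕ) : ℤ)) α β) * X b1 b2 := by ring
        _ ≤ ((C : ℝ≥0∞) * ENNReal.ofReal (E ^ (b1 + b2)) *
              (Us b1 (c * α + δ) (c * β) * Us b2 (c * α + δ) (c * β))) * X b1 b2 := by gcongr
        _ = ENNReal.ofReal (E ^ (b1 + b2)) * (C *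
              (Us b1 (c * α + δ) (c * β) * Us b2 (c * α + δ) (c * β) * X b1 b2)) := by ring
        _ ≤ _ := by gcongr; exact hX b1 b2
    have h5 : ENNReal.ofReal ((E / c) ^ (b1 + b2)) * (c : ℝ≥0∞) ^ (b1 + b2) =
        ENNReal.ofReal (E ^ (b1 + b2)) := by
      have : (c : ℝ≥0∞) ^ (b1 + b2) = ENNReal.ofReal ((c : ℝ) ^ (b1 + b2)) := by
        rw [ENNReal.ofReal_pow hc0.le]
        simp
      rw [this, ← ENNReal.ofReal_mul (by positivity), div_pow, div_mul_cancel₀]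
      positivity
    have h6 : (c : ℝ≥0∞) ^ (b1 + b2) * (V 0 (1 - ((b1 + b2 + 2 : ℕ) : ℤ)) α β * X b1 b2) ≤
        (c : ℝ≥0∞) ^ (b1 + b2) * (ENNReal.ofReal ((E / c) ^ (b1 + b2)) * (C * M)) := by
      refine h4.trans (le_of_eq ?_)
      rw [← h5]; ring
    exact (ENNReal.mul_le_mul_iff_right (pow_ne_zero _ hcne)
      (ENNReal.pow_ne_top ENNReal.coe_ne_top)).1 h6
  have h7 : ∑' b1 : ℕ, ∑' b2 : ℕ, V 0 (1 - ((b1 + b2 + 2 : ℕ) : ℤ)) α β * X b1 b2 ≤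
      ∑' b1 : ℕ, ∑' b2 : ℕ, ENNReal.ofReal ((E / c) ^ (b1 + b2)) * (C * M) :=
    ENNReal.tsum_le_tsum fun b1 => ENNReal.tsum_le_tsum fun b2 => key b1 b2
  refine ne_top_of_le_ne_top ?_ h7
  simp_rw [ENNReal.tsum_mul_right]
  exact ENNReal.mul_ne_top (geom2_fin (by positivity) (by rw [div_lt_one hc0]; exact hE2))
    (ENNReal.mul_ne_top ENNReal.coe_ne_top hM)

theorem room_c {L α β : ℝ≥0} (hα : 0 < α) (h : α + β < L) :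
    ∃ c δ : ℝ≥0, 1 < c ∧ 0 < δ ∧ c * α + δ + δ + δ + δ + c * β < L := by
  obtain ⟨τ, hτ, hlt⟩ := exists_room h
  have hs : 0 < α + β := by positivity
  refine ⟨1 + (τ / 5) / (α + β), τ / 5, ?_, by positivity, ?_⟩
  · exact lt_add_of_pos_right _ (by positivity)
  · refine lt_of_le_of_lt (le_of_eq ?_) hlt
    have h1 : (1 + (τ / 5) / (α + β)) * α + τ / 5 + τ / 5 + τ / 5 + τ / 5 +
        (1 + (τ / 5) / (α + β)) * β = (α + β) + (τ / 5) / (α + β) * (α + β) +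
        (τ / 5 + τ / 5 + τ / 5 + τ / 5) := by ring
    rw [h1, div_mul_cancel₀ _ hs.ne']
    rw [← NNReal.coe_inj]
    push_cast
    ring

/-- genus drop at the marked floor -/
theorem NB_fin {L : ℝ≥0} (hL : TreeFin L) {g : ℕ}
    (hg : ∀ α β : ℝ≥0, α + β < L → V g 1 α β ≠ ∞) {α β : ℝ≥0} (hα : 0 < α) (hβ : 0 < β)
    (h : α + β < L) :
    ∑' b1 : ℕ, ∑' b2 : ℕ, V 0 (1 - ((b1 + b2 + 2 : ℕ) : ℤ)) α β *
      R (g + 1) ((b1 + b2 + 2 : ℕ) : ℤ) (b2 + 1) α β ≠ ∞ := by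
  obtain ⟨c, δ, hc, hδ, hlt⟩ := room_c hα h
  have hc1 : (1 : ℝ≥0) ≤ c := hc.le
  set α1 := c * α + δ with hα1
  set β1 := c * β with hβ1
  have hM : V g 1 (α1 + δ + δ + δ) β1 ≠ ∞ := hg _ _ hlt
  have hαα : α ≤ α1 := by
    rw [hα1]
    refine le_trans ?_ (le_add_of_nonneg_right zero_le)
    exact le_mul_of_one_le_left zero_le hc1
  have hββ : β ≤ β1 := le_mul_of_one_le_left zero_le hc1
  apply sum_supply hL hα hβ hδ hc (by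
    refine lt_of_le_of_lt ?_ hlt
    rw [hα1]
    have : c * α + δ + c * β + δ + δ = c * α + δ + δ + δ + c * β := by ring
    rw [this]
    gcongr
    exact le_add_of_nonneg_right zero_le) _ ((Kc δ : ℝ≥0∞) * ((δ⁻¹ : ℝ≥0) : ℝ≥0∞) *
      ((Kc δ : ℝ≥0∞) * V g 1 (α1 + δ + δ + δ) β1))
    (ENNReal.mul_ne_top (ENNReal.mul_ne_top ENNReal.coe_ne_top ENNReal.coe_ne_top)
      (ENNReal.mul_ne_top ENNReal.coe_ne_top hM))
  intro b1 b2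
  have h1 := UR hδ (g + 1) b1 (b2 + 1) (b1 + b2 + 2) (by omega) α1 β1
  have h2 := R_split g (b2 + 1) (α1 + δ) β1 δ
  have h3 := UV hδ g b2 (α1 + δ + δ) β1
  have h2' : R (g + 1) (((b2 + 1 : ℕ) : ℤ) + 1) (b2 + 1) (α1 + δ) β1 ≤
      ((δ⁻¹ : ℝ≥0) : ℝ≥0∞) * V g ((b2 + 1 : ℕ) : ℤ) (α1 + δ + δ) β1 := by
    have hd : ((δ⁻¹ : ℝ≥0) : ℝ≥0∞) * (δ : ℝ≥0∞) = 1 := by
      rw [← ENNReal.coe_mul, inv_mul_cancel₀ hδ.ne', ENNReal.coe_one]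
    calc R (g + 1) (((b2 + 1 : ℕ) : ℤ) + 1) (b2 + 1) (α1 + δ) β1
        = ((δ⁻¹ : ℝ≥0) : ℝ≥0∞) *
          (R (g + 1) (((b2 + 1 : ℕ) : ℤ) + 1) (b2 + 1) (α1 + δ) β1 * (δ : ℝ≥0∞)) := by
          rw [mul_comm (R _ _ _ _ _) _, ← mul_assoc, hd, one_mul]
      _ ≤ _ := by gcongr
  have hU : Us b2 α1 β1 ≤ Us b2 (α1 + δ + δ) β1 :=
    Us_mono ((le_add_of_nonneg_right zero_le).trans (le_add_of_nonneg_right zero_le))
  calc Us b1 α1 β1 * Us b2 α1 β1 * R (g + 1) ((b1 + b2 + 2 : ℕ) : ℤ) (b2 + 1) α β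
      ≤ Us b1 α1 β1 * Us b2 α1 β1 * R (g + 1) ((b1 + b2 + 2 : ℕ) : ℤ) (b2 + 1) α1 β1 := by
        gcongr
        exact R_mono hαα hββ
    _ = Us b2 α1 β1 * (Us b1 α1 β1 * R (g + 1) ((b1 + b2 + 2 : ℕ) : ℤ) (b2 + 1) α1 β1) := by ring
    _ ≤ Us b2 α1 β1 * ((Kc δ : ℝ≥0∞) *
          R (g + 1) (((b2 + 1 : ℕ) : ℤ) + 1) (b2 + 1) (α1 + δ) β1) := by gcongr
    _ ≤ Us b2 (α1 + δ + δ) β1 * ((Kc δ : ℝ≥0∞) * (((δ⁻¹ : ℝ≥0) : ℝ≥0∞) *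
          V g ((b2 + 1 : ℕ) : ℤ) (α1 + δ + δ) β1)) := by gcongr
    _ = (Kc δ : ℝ≥0∞) * ((δ⁻¹ : ℝ≥0) : ℝ≥0∞) * (Us b2 (α1 + δ + δ) β1 *
          V g ((b2 + 1 : ℕ) : ℤ) (α1 + δ + δ) β1) := by ring
    _ ≤ _ := by gcongr

/-- two parts at the marked floor -/
theorem B_fin {L : ℝ≥0} (hL : TreeFin L) {g1 g2 : ℕ}
    (hg1 : ∀ α β : ℝ≥0, α + β < L → V g1 1 α β ≠ ∞)
    (hg2 : ∀ α β : ℝ≥0, α + β < L → V g2 1 α β ≠ ∞) {α β : ℝ≥0} (hα : 0 < α) (hβ : 0 < β)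
    (h : α + β < L) :
    ∑' b1 : ℕ, ∑' b2 : ℕ, V 0 (1 - ((b1 + b2 + 2 : ℕ) : ℤ)) α β *
      (V g1 ((b1 + 1 : ℕ) : ℤ) α β * V g2 ((b2 + 1 : ℕ) : ℤ) α β) ≠ ∞ := by
  obtain ⟨c, δ, hc, hδ, hlt⟩ := room_c hα h
  have hc1 : (1 : ℝ≥0) ≤ c := hc.le
  set α1 := c * α + δ with hα1
  set β1 := c * β with hβ1
  have hlt' : α1 + δ + β1 < L := by
    refine lt_of_le_of_lt ?_ hlt
    gcongr
    exact (le_add_of_nonneg_right zero_le).trans (le_add_of_nonneg_right zero_le)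
  have hM1 : V g1 1 (α1 + δ) β1 ≠ ∞ := hg1 _ _ hlt'
  have hM2 : V g2 1 (α1 + δ) β1 ≠ ∞ := hg2 _ _ hlt'
  have hαα : α ≤ α1 := by
    rw [hα1]
    refine le_trans ?_ (le_add_of_nonneg_right zero_le)
    exact le_mul_of_one_le_left zero_le hc1
  have hββ : β ≤ β1 := le_mul_of_one_le_left zero_le hc1
  apply sum_supply hL hα hβ hδ hc (by
    refine lt_of_le_of_lt ?_ hlt
    rw [hα1]
    have : c * α + δ + c * β + δ + δ = c * α + δ + δ + δ + c * β := by ring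
    rw [this]
    gcongr
    exact le_add_of_nonneg_right zero_le) _ (((Kc δ : ℝ≥0∞) * V g1 1 (α1 + δ) β1) *
      ((Kc δ : ℝ≥0∞) * V g2 1 (α1 + δ) β1))
    (ENNReal.mul_ne_top (ENNReal.mul_ne_top ENNReal.coe_ne_top hM1)
      (ENNReal.mul_ne_top ENNReal.coe_ne_top hM2))
  intro b1 b2
  have h1 := UV hδ g1 b1 α1 β1
  have h2 := UV hδ g2 b2 α1 β1
  calc Us b1 α1 β1 * Us b2 α1 β1 * (V g1 ((b1 + 1 : ℕ) : ℤ) α β * V g2 ((b2 + 1 : ℕ) : ℤ) α β)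
      ≤ Us b1 α1 β1 * Us b2 α1 β1 *
          (V g1 ((b1 + 1 : ℕ) : ℤ) α1 β1 * V g2 ((b2 + 1 : ℕ) : ℤ) α1 β1) := by
        gcongr
        · exact V_mono hαα hββ
        · exact V_mono hαα hββ
    _ = (Us b1 α1 β1 * V g1 ((b1 + 1 : ℕ) : ℤ) α1 β1) *
          (Us b2 α1 β1 * V g2 ((b2 + 1 : ℕ) : ℤ) α1 β1) := by ring
    _ ≤ _ := by gcongr

end Pool.Agent.FloorDiag
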