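import Pool.Agent.Lib.MP_6aab98_ag.Link

/-! # MP_6aab98_ag: linking of the classes, splitting of the marked floor -/

namespace Pool.Agent.FloorDiag

open Finset
open scoped ENNReal NNReal Nat

theorem Q.fconn {g : ℕ} {p : ℤ} {o : Option Elev} {D : Dgm} {v : ℕ} (h : Q g p o D v) :
    D.Valid ∧ v ∈ D.F ∧ D.Conn := ⟨h.valid, h.mem, h.conn.conn⟩

theorem Rc.q {g : ℕ} {p : ℤ} {a : ℕ} {D : Dgm} {v : ℕ} (h : Rc g p a D v) :
    D.Valid ∧ v ∈ D.F := by
  obtain ⟨e0, _, _, _, h⟩ := h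
  exact ⟨h.valid, h.mem⟩

/-- gluing, the root is the end of the new elevator -/
theorem Q.glue2 {g1 g2 a c r1 r2 : ℕ} {q : ℤ} {o : Option Elev} {D1 D2 : Dgm}
    (hok : Dgm.GlueOk a c r1 r2 D1 D2) (h1 : Q g1 (1 - a) none D1 r1) (h2 : Q g2 q o D2 r2)
    (ho : ∀ e0, o = some e0 → e0 ∈ D2.E) :
    Q (g1 + g2) (q - a) o (Dgm.glue a c r1 r2 D1 D2) r2 := by
  refine ⟨hok.valid, ?_, hok.connEx (Dgm.connEx_none.1 h1.conn) h2.conn ho, ?_, ?_, ?_⟩
  · exact mem_union_right _ h2.mem
  · rw [hok.div2 h2.mem, h2.divv, if_pos rfl]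
  · intro f hf hne
    rcases mem_union.1 hf with hf | hf
    · rw [hok.div1 hf]
      by_cases hr : f = r1
      · subst hr
        rw [h1.divv, if_pos rfl]; ring
      · rw [h1.div f hf hr, if_neg hr, add_zero]
    · rw [hok.div2 hf, h2.div f hf hne, if_neg hne, sub_zero]
  · rw [hok.cardF, hok.cardE]
    have e1 := h1.cnt
    have e2 := h2.cnt
    push_cast
    linarith

/-- gluing, the root is the start of the new elevator -/
theorem Q.glue1 {g1 g2 a c r1 r2 : ℕ} {p : ℤ} {D1 D2 : Dgm}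
    (hok : Dgm.GlueOk a c r1 r2 D1 D2) (h1 : Q g1 p none D1 r1) (h2 : Q g2 (1 + a) none D2 r2) :
    Q (g1 + g2) (p + a) none (Dgm.glue a c r1 r2 D1 D2) r1 := by
  refine ⟨hok.valid, ?_, hok.connEx (Dgm.connEx_none.1 h1.conn) h2.conn (by simp), ?_, ?_, ?_⟩
  · exact mem_union_left _ h1.mem
  · rw [hok.div1 h1.mem, h1.divv, if_pos rfl]
  · intro f hf hne
    rcases mem_union.1 hf with hf | hf
    · rw [hok.div1 hf, h1.div f hf hne, if_neg hne, add_zero]
    · rw [hok.div2 hf]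
      by_cases hr : f = r2
      · subst hr
        rw [h2.divv, if_pos rfl]; ring
      · rw [h2.div f hf hr, if_neg hr, sub_zero]
  · rw [hok.cardF, hok.cardE]
    have e1 := h1.cnt
    have e2 := h2.cnt
    push_cast
    linarith

/-- generating function of the class of genus `g` and root divergence `p` -/
noncomputable def V (g : ℕ) (p : ℤ) (α β : ℝ≥0) : ℝ≥0∞ := gf (cnt (Pc g p)) α β

/-- generating function of the class with redundant incidence -/
noncomputable def R (g : ℕ) (p : ℤ) (a : ℕ) (α β : ℝ≥0) : ℝ≥0∞ := gf (cnt (Rc g p a)) α β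

theorem V_link2 (g1 g2 : ℕ) {a : ℕ} (ha : 1 ≤ a) (q : ℤ) (α β τ : ℝ≥0) :
    (a : ℝ≥0∞) ^ 2 * (τ ^ 2 / 2 : ℝ≥0) * (V g1 (1 - a) α β * V g2 q α β) ≤
      V (g1 + g2) (q - a) (α + τ) β :=
  link2 (inv_Pc _ _) (inv_Pc _ _) (fun _ _ h => Q.fconn h) (fun _ _ h => ⟨h.valid, h.mem⟩) ha
    (fun _ _ _ _ _ hok h1 h2 => Q.glue2 hok h1 h2 (by simp)) α β τ

theorem V_link1 (g1 g2 : ℕ) {a : ℕ} (ha : 1 ≤ a) (p : ℤ) (α β τ : ℝ≥0) :
    (a : ℝ≥0∞) ^ 2 * (τ ^ 2 / 2 : ℝ≥0) * (V g1 p α β * V g2 (1 + a) α β) ≤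
      V (g1 + g2) (p + a) α (β + τ) :=
  link1 (inv_Pc _ _) (inv_Pc _ _) (fun _ _ h => Q.fconn h) (fun _ _ h => ⟨h.valid, h.mem⟩) ha
    (fun _ _ _ _ _ hok h1 h2 => Q.glue1 hok h1 h2) α β τ

theorem R_link2 (g1 g2 : ℕ) {a : ℕ} (ha : 1 ≤ a) (q : ℤ) (b : ℕ) (α β τ : ℝ≥0) :
    (a : ℝ≥0∞) ^ 2 * (τ ^ 2 / 2 : ℝ≥0) * (V g1 (1 - a) α β * R g2 q b α β) ≤
      R (g1 + g2) (q - a) b (α + τ) β :=
  link2 (inv_Pc _ _) (inv_Rc _ _ _) (fun _ _ h => Q.fconn h) (fun _ _ h => Rc.q h) ha
    (fun c r1 r2 D1 D2 hok h1 h2 => by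
      obtain ⟨e0, he0, hs, hw, hq⟩ := h2
      refine ⟨e0, ?_, hs, hw, Q.glue2 hok h1 hq (fun e h => by cases h; exact he0)⟩
      simp [Dgm.glue, he0]) α β τ

namespace Dgm

/-- move the start of the elevator `e` to a new floor `u` -/
def reroot (D : Dgm) (e : Elev) (u : ℕ) : Dgm :=
  ⟨insert u D.F, insert ⟨e.pt, u, e.tgt, e.wt⟩ (D.E.erase e)⟩

variable {D : Dgm} {e : Elev} {u : ℕ}

theorem mem_reroot_E {x : Elev} : x ∈ (D.reroot e u).E ↔
    x = ⟨e.pt, u, e.tgt, e.wt⟩ ∨ (x ≠ e ∧ x ∈ D.E) := by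
  simp [reroot]

theorem reroot_notMem (hv : D.Valid) (hu : u ∉ D.pts) :
    (⟨e.pt, u, e.tgt, e.wt⟩ : Elev) ∉ D.E.erase e := by
  intro h
  exact hu (mem_pts_of_F (hv.src_mem _ (mem_of_mem_erase h)))

theorem reroot_pts (he : e ∈ D.E) : (D.reroot e u).pts = insert u D.pts := by
  ext x
  simp only [mem_pts, mem_reroot_E, mem_insert]
  constructor
  · rintro (h | ⟨y, (rfl | ⟨h1, h2⟩), rfl⟩)
    · rcases mem_insert.1 h with h | h
      · exact Or.inl h
      · exact Or.inr (Or.inl h)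
    · exact Or.inr (Or.inr ⟨e, he, rfl⟩)
    · exact Or.inr (Or.inr ⟨y, h2, rfl⟩)
  · rintro (rfl | h | ⟨y, hy, rfl⟩)
    · exact Or.inl (mem_insert_self _ _)
    · exact Or.inl (mem_insert_of_mem h)
    · by_cases hye : y = e
      · subst hye
        exact Or.inr ⟨_, Or.inl rfl, rfl⟩
      · exact Or.inr ⟨y, Or.inr ⟨hye, hy⟩, rfl⟩

theorem reroot_valid (hv : D.Valid) (he : e ∈ D.E) (hu : u ∉ D.pts) (hlt : u < e.pt) :
    (D.reroot e u).Valid := by
  have hmF : ∀ x, x ∈ D.F → x ∈ (D.reroot e u).F := fun x hx => mem_insert_of_mem hx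
  refine ⟨?_, ?_, ?_, ?_, ?_, ?_, ?_, ?_⟩
  · intro x hx y hy hxy
    rcases mem_reroot_E.1 hx with rfl | ⟨h1, h2⟩ <;> rcases mem_reroot_E.1 hy with rfl | ⟨h3, h4⟩
    · rfl
    · exact absurd (hv.inj e he y h4 hxy).symm h3
    · exact absurd (hv.inj x h2 e he hxy) h1
    · exact hv.inj x h2 y h4 hxy
  · intro x hx hF
    have hxD : x.pt ∈ D.pts ∧ ∃ y ∈ D.E, y.pt = x.pt := by
      rcases mem_reroot_E.1 hx with rfl | ⟨h1, h2⟩
      · exact ⟨mem_pts_of_E (e := e) he, e, he, rfl⟩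
      · exact ⟨mem_pts_of_E h2, x, h2, rfl⟩
    rcases mem_insert.1 hF with h | h
    · exact hu (h ▸ hxD.1)
    · obtain ⟨y, hy, hyx⟩ := hxD.2
      exact hv.disj y hy (hyx ▸ h)
  · intro x hx
    rcases mem_reroot_E.1 hx with rfl | ⟨h1, h2⟩
    · exact mem_insert_self _ _
    · exact hmF _ (hv.src_mem x h2)
  · intro x hx
    rcases mem_reroot_E.1 hx with rfl | ⟨h1, h2⟩
    · exact hlt
    · exact hv.src_lt x h2
  · intro x hx q hq
    rcases mem_reroot_E.1 hx with rfl | ⟨h1, h2⟩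
    · exact hmF _ (hv.tgt_mem e he q hq)
    · exact hmF _ (hv.tgt_mem x h2 q hq)
  · intro x hx q hq
    rcases mem_reroot_E.1 hx with rfl | ⟨h1, h2⟩
    · exact hv.tgt_lt e he q hq
    · exact hv.tgt_lt x h2 q hq
  · intro x hx
    rcases mem_reroot_E.1 hx with rfl | ⟨h1, h2⟩
    · exact hv.wt_pos e he
    · exact hv.wt_pos x h2
  · intro x hx hq
    rcases mem_reroot_E.1 hx with rfl | ⟨h1, h2⟩
    · exact hv.wt_end e he hq
    · exact hv.wt_end x h2 hq

theorem reroot_mult (hv : D.Valid) (he : e ∈ D.E) (hu : u ∉ D.pts) :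
    (D.reroot e u).mult = D.mult := by
  unfold mult
  simp only [reroot]
  rw [prod_insert (reroot_notMem hv hu)]
  exact mul_prod_erase D.E (fun e => e.wt ^ 2) he

theorem reroot_cardF (hu : u ∉ D.pts) : (D.reroot e u).F.card = D.F.card + 1 := by
  simp only [reroot]
  rw [card_insert_of_notMem (fun h => hu (mem_pts_of_F h))]

theorem reroot_cardE (hv : D.Valid) (he : e ∈ D.E) (hu : u ∉ D.pts) :
    (D.reroot e u).E.card = D.E.card := by
  simp only [reroot]
  rw [card_insert_of_notMem (reroot_notMem hv hu), card_erase_of_mem he]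
  have := card_pos.2 ⟨e, he⟩
  omega

theorem reroot_div (hv : D.Valid) (he : e ∈ D.E) (hu : u ∉ D.pts) (f : ℕ) :
    (D.reroot e u).div f = D.div f + (if u = f then (e.wt : ℤ) else 0) -
      (if e.src = f then (e.wt : ℤ) else 0) := by
  rw [div_eq_sum, div_eq_sum]
  simp only [reroot]
  rw [sum_insert (reroot_notMem hv hu), ← add_sum_erase D.E (fun e => e.dv f) he]
  simp only [Elev.dv]
  ring

theorem reroot_conn (he : e ∈ D.E) (hc : D.ConnEx (some e)) : (D.reroot e u).Conn := by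
  intro X hX hx
  have he' : (⟨e.pt, u, e.tgt, e.wt⟩ : Elev) ∈ (D.reroot e u).E := mem_reroot_E.2 (Or.inl rfl)
  have hcl : D.ClosedEx (some e) X := by
    intro x hx
    by_cases hxe : x = e
    · subst hxe
      exact ⟨fun h => absurd rfl h, fun q hq => (hX _ he').2 q hq⟩
    · have := hX x (mem_reroot_E.2 (Or.inr ⟨hxe, hx⟩))
      exact ⟨fun _ => this.1, this.2⟩
  have hue : e.pt ∈ X ↔ u ∈ X := (hX _ he').1
  have hex : ∃ x ∈ D.pts, x ∈ X := by
    obtain ⟨x, hx1, hx2⟩ := hx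
    rw [reroot_pts he] at hx1
    rcases mem_insert.1 hx1 with rfl | hx1
    · exact ⟨e.pt, mem_pts_of_E he, hue.2 hx2⟩
    · exact ⟨x, hx1, hx2⟩
  have hall := hc X hcl hex
  intro y hy
  rw [reroot_pts he] at hy
  rcases mem_insert.1 hy with rfl | hy
  · exact hue.1 (hall _ (mem_pts_of_E he))
  · exact hall y hy

end Dgm

/-- leave a gap after `i` -/
def gapUp (i k : ℕ) : ℕ := if k ≤ i then k else k + 1

/-- close the gap -/
def gapDown (i k : ℕ) : ℕ := if k ≤ i then k else k - 1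

theorem gapUp_strictMono (i : ℕ) : StrictMono (gapUp i) := by
  intro x y h
  unfold gapUp
  split_ifs <;> omega

theorem gapDown_gapUp (i k : ℕ) : gapDown i (gapUp i k) = k := by
  unfold gapDown gapUp
  split_ifs <;> omega

theorem gapUp_ne (i k : ℕ) : gapUp i k ≠ i + 1 := by
  unfold gapUp
  split_ifs <;> omega

theorem split_cnt (g : ℕ) {a : ℕ} (i j : ℕ) :
    cnt (Rc (g + 1) (a + 1) a) i j ≤ cnt (Pc g a) (i + 1) j := by
  classical
  have hψ := gapUp_strictMono i
  have hψi := hψ.injective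
  choose e0 he0 using fun D : {D : Dgm // D.pts = range (i + 1 + j) ∧ Rc (g + 1) (a + 1) a D i} =>
    D.2.2
  have hfacts : ∀ D : {D : Dgm // D.pts = range (i + 1 + j) ∧ Rc (g + 1) (a + 1) a D i},
      let D1 := D.1.map (gapUp i)
      let e1 := (e0 D).map (gapUp i)
      e1 ∈ D1.E ∧ e1.src = i ∧ e1.wt = a ∧ Q (g + 1) (a + 1) (some e1) D1 i ∧ i + 1 ∉ D1.pts ∧
        i + 1 < e1.pt := by
    intro D D1 e1
    obtain ⟨h1, h2, h3, h4⟩ := he0 D
    have hi : gapUp i i = i := by simp [gapUp]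
    have hm : e1 ∈ D1.E := Dgm.mem_map_E.2 ⟨_, h1, rfl⟩
    have hs : e1.src = i := by simp only [e1, Elev.map, h2, hi]
    have hQ : Q (g + 1) (a + 1) (some e1) D1 i := by
      have := (Q_map hψ (o := some (e0 D)) (g := g + 1) (p := a + 1) (D := D.1) (v := i)).2 h4
      rwa [hi] at this
    have hnot : i + 1 ∉ D1.pts := by
      rw [Dgm.pts_map]
      intro h
      obtain ⟨y, _, hy⟩ := mem_image.1 h
      exact gapUp_ne i y hy
    refine ⟨hm, hs, ?_, hQ, hnot, ?_⟩
    · simp only [e1, Elev.map, h3]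
    · have h5 := hQ.valid.src_lt e1 hm
      rw [hs] at h5
      have h6 : e1.pt ≠ i + 1 := fun h => hnot (h ▸ Dgm.mem_pts_of_E hm)
      omega
  let f : {D : Dgm // D.pts = range (i + 1 + j) ∧ Rc (g + 1) (a + 1) a D i} →
      {D : Dgm // D.pts = range (i + 1 + 1 + j) ∧ Pc g a D (i + 1)} := fun D =>
    ⟨(D.1.map (gapUp i)).reroot ((e0 D).map (gapUp i)) (i + 1), by
      obtain ⟨hm, hs, hw, hQ, hnot, hlt⟩ := hfacts D
      constructor
      · rw [Dgm.reroot_pts hm, Dgm.pts_map, D.2.1]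
        ext x
        simp only [mem_insert, mem_image, mem_range]
        constructor
        · rintro (h | ⟨y, hy, rfl⟩)
          · omega
          · unfold gapUp
            split_ifs <;> omega
        · intro h
          rcases lt_trichotomy x (i + 1) with h1 | h1 | h1
          · exact Or.inr ⟨x, by omega, by simp [gapUp]; omega⟩
          · exact Or.inl h1
          · refine Or.inr ⟨x - 1, by omega, ?_⟩
            unfold gapUp
            split_ifs <;> omega
      · refine ⟨Dgm.reroot_valid hQ.valid hm hnot hlt, ?_,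
          Dgm.connEx_none.2 (Dgm.reroot_conn hm hQ.conn), ?_, ?_, ?_⟩
        · exact mem_insert_self _ _
        · rw [Dgm.reroot_div hQ.valid hm hnot, if_pos rfl, hs, if_neg (by omega), hw,
            Dgm.div_eq_sum, hQ.valid.sum_dv_zero (fun h => hnot (Dgm.mem_pts_of_F h))]
          ring
        · intro x hx hne
          rw [Dgm.reroot_div hQ.valid hm hnot, if_neg (fun h => hne h.symm), hs, hw]
          rcases mem_insert.1 hx with h | h
          · exact absurd h hne
          · by_cases hxi : i = x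
            · subst hxi
              rw [if_pos rfl, hQ.divv]
              ring
            · rw [if_neg hxi, hQ.div x h (fun hh => hxi hh.symm)]
              ring
        · rw [Dgm.reroot_cardF hnot, Dgm.reroot_cardE hQ.valid hm hnot]
          have := hQ.cnt
          push_cast at this ⊢
          linarith⟩
  have hinv : ∀ D, (f D).1.map (gapDown i) = D.1 := by
    intro D
    obtain ⟨hm, hs, hw, hQ, hnot, hlt⟩ := hfacts D
    have hv := (he0 D).2.2.2.valid
    have hF : ((f D).1.map (gapDown i)).F = D.1.F := by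
      ext x
      simp only [f, Dgm.mem_map_F, Dgm.reroot, mem_insert]
      constructor
      · rintro ⟨y, (rfl | hy), rfl⟩
        · have : gapDown i (i + 1) = i := by simp [gapDown]
          rw [this]
          exact (he0 D).2.2.2.mem
        · obtain ⟨z, hz, rfl⟩ := hy
          rw [gapDown_gapUp]
          exact hz
      · intro hx
        exact ⟨gapUp i x, Or.inr ⟨x, hx, rfl⟩, gapDown_gapUp i x⟩
    have hcomp : ∀ e : Elev, (e.map (gapUp i)).map (gapDown i) = e := by
      intro e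
      cases e with
      | mk pt src tgt wt =>
        simp only [Elev.map, gapDown_gapUp, Option.map_map, Elev.mk.injEq, true_and, and_true]
        cases tgt with
        | none => rfl
        | some q => simp [gapDown_gapUp]
    have hE : ((f D).1.map (gapDown i)).E = D.1.E := by
      ext x
      simp only [f, Dgm.mem_map_E, Dgm.mem_reroot_E]
      have he1 : (⟨((e0 D).map (gapUp i)).pt, i + 1, ((e0 D).map (gapUp i)).tgt,
          ((e0 D).map (gapUp i)).wt⟩ : Elev).map (gapDown i) = e0 D := by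
        have h1 := hcomp (e0 D)
        have h2 := (he0 D).2.1
        have h3 : gapDown i (i + 1) = (e0 D).src := by
          rw [h2]; simp [gapDown]
        cases hh : e0 D with
        | mk pt src tgt wt =>
          rw [hh] at h1 h3
          simp only [Elev.map, Elev.mk.injEq] at h1 ⊢
          exact ⟨h1.1, h3, h1.2.2⟩
      constructor
      · rintro ⟨y, (rfl | ⟨h1, h2⟩), rfl⟩
        · rw [he1]
          exact (he0 D).1
        · obtain ⟨z, hz, rfl⟩ := h2
          rw [hcomp]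
          exact hz
      · intro hx
        by_cases hxe : x = e0 D
        · exact ⟨_, Or.inl rfl, by rw [he1, hxe]⟩
        · refine ⟨x.map (gapUp i), Or.inr ⟨fun h => hxe (Elev.map_inj hψi h), ?_⟩, hcomp x⟩
          exact ⟨x, hx, rfl⟩
    have : ∀ A B : Dgm, A.F = B.F → A.E = B.E → A = B := by
      intro A B h1 h2
      cases A; cases B
      simp_all
    exact this _ _ hF hE
  have hf : Function.Injective f := by
    intro D D' hh
    apply Subtype.ext
    rw [← hinv D, ← hinv D', hh]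
  calc cnt (Rc (g + 1) (a + 1) a) i j
      = ∑' D : {D : Dgm // D.pts = range (i + 1 + j) ∧ Rc (g + 1) (a + 1) a D i},
          ((f D).1.mult : ℝ≥0∞) := by
        unfold cnt W
        apply tsum_congr
        intro D
        obtain ⟨hm, hs, hw, hQ, hnot, hlt⟩ := hfacts D
        simp only [f]
        rw [Dgm.reroot_mult hQ.valid hm hnot, Dgm.mult_map hψi]
    _ ≤ ∑' D : {D : Dgm // D.pts = range (i + 1 + 1 + j) ∧ Pc g a D (i + 1)},
          (D.1.mult : ℝ≥0∞) :=
        ENNReal.tsum_comp_le_tsum_of_injective hf (fun D => (D.1.mult : ℝ≥0∞))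

theorem R_split (g a : ℕ) (α β τ : ℝ≥0) :
    R (g + 1) (a + 1) a α β * τ ≤ V g a (α + τ) β :=
  gf_shift1 (fun i j => split_cnt g i j) α β τ

end Pool.Agent.FloorDiag
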