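import Pool.Agent.Lib.MP_6aab98_ag.Cert
import Pool.Agent.Lib.MP_6aab98_ag.Fekete

/-! # MP_6aab98_ag: the generating functions of trees -/

namespace Pool.Agent.FloorDiag

open Finset
open scoped ENNReal NNReal Nat

theorem V_mono {g : ℕ} {p : ℤ} {α β α' β' : ℝ≥0} (h : α ≤ α') (h' : β ≤ β') :
    V g p α β ≤ V g p α' β' := gf_mono h h'

theorem R_mono {g : ℕ} {p : ℤ} {a : ℕ} {α β α' β' : ℝ≥0} (h : α ≤ α') (h' : β ≤ β') :
    R g p a α β ≤ R g p a α' β' := gf_mono h h'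

theorem le_gf (a : ℕ → ℕ → ℝ≥0∞) (α β : ℝ≥0) (i j : ℕ) :
    a i j * (ex α i * ex β j) ≤ gf a α β := by
  unfold gf
  calc a i j * (ex α i * ex β j) ≤ ∑' j, a i j * (ex α i * ex β j) :=
        ENNReal.le_tsum (f := fun j => a i j * (ex α i * ex β j)) j
    _ ≤ _ := ENNReal.le_tsum (f := fun i => ∑' j, a i j * (ex α i * ex β j)) i

/-- the one point diagram -/
theorem one_le_V00 (α β : ℝ≥0) : 1 ≤ V 0 0 α β := by
  have hD : Pc 0 0 ⟨{0}, ∅⟩ 0 := by
    refine ⟨⟨by simp, by simp, by simp, by simp, by simp, by simp, by simp, by simp⟩, by simp,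
      ?_, by simp [Dgm.div], by simp, by simp⟩
    rw [Dgm.connEx_none]
    intro X _ hx y hy
    simp only [Dgm.pts, image_empty, union_empty, mem_singleton] at hx hy
    obtain ⟨x, rfl, hx⟩ := hx
    rw [hy]; exact hx
  have h1 : (1 : ℝ≥0∞) ≤ cnt (Pc 0 0) 0 0 := by
    unfold cnt W
    have := ENNReal.le_tsum (f := fun D : {D : Dgm // D.pts = range (0 + 1 + 0) ∧ Pc 0 0 D 0} =>
      (D.1.mult : ℝ≥0∞)) ⟨⟨{0}, ∅⟩, by simp [Dgm.pts], hD⟩
    refine le_trans ?_ this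
    simp [Dgm.mult]
  calc (1 : ℝ≥0∞) = 1 * (1 * 1) := by ring
    _ ≤ cnt (Pc 0 0) 0 0 * (ex α 0 * ex β 0) := by
        rw [ex_zero, ex_zero]
        gcongr
    _ ≤ _ := le_gf _ _ _ _ _

/-- the star with two ends -/
theorem V02_pos (α : ℝ≥0) {β : ℝ≥0} (hβ : 0 < β) : V 0 2 α β ≠ 0 := by
  set D0 : Dgm := ⟨{0}, {⟨1, 0, none, 1⟩, ⟨2, 0, none, 1⟩}⟩ with hD0
  have hD : Pc 0 2 D0 0 := by
    have hE : ∀ e ∈ D0.E, e = ⟨1, 0, none, 1⟩ ∨ e = ⟨2, 0, none, 1⟩ := by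
      intro e he
      simpa [hD0] using he
    refine ⟨⟨?_, ?_, ?_, ?_, ?_, ?_, ?_, ?_⟩, by simp [hD0], ?_, by decide, by simp [hD0],
      by decide⟩
    · intro e he e' he' hh
      rcases hE e he with rfl | rfl <;> rcases hE e' he' with rfl | rfl <;> simp_all
    · intro e he
      rcases hE e he with rfl | rfl <;> simp [hD0]
    · intro e he
      rcases hE e he with rfl | rfl <;> simp [hD0]
    · intro e he
      rcases hE e he with rfl | rfl <;> simp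
    · intro e he q hq
      rcases hE e he with rfl | rfl <;> simp at hq
    · intro e he q hq
      rcases hE e he with rfl | rfl <;> simp at hq
    · intro e he
      rcases hE e he with rfl | rfl <;> simp
    · intro e he _
      rcases hE e he with rfl | rfl <;> rfl
    · rw [Dgm.connEx_none]
      intro X hX hx y hy
      have h1 : 1 ∈ X ↔ 0 ∈ X := (hX ⟨1, 0, none, 1⟩ (by simp [hD0])).1
      have h2 : 2 ∈ X ↔ 0 ∈ X := (hX ⟨2, 0, none, 1⟩ (by simp [hD0])).1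
      have hp : ∀ z ∈ D0.pts, z = 0 ∨ z = 1 ∨ z = 2 := by
        intro z hz
        have : z = 1 ∨ z = 0 ∨ z = 2 := by simpa [hD0, Dgm.pts] using hz
        tauto
      have h0 : 0 ∈ X := by
        obtain ⟨x, hx1, hx2⟩ := hx
        rcases hp x hx1 with rfl | rfl | rfl
        · exact hx2
        · exact h1.1 hx2
        · exact h2.1 hx2
      rcases hp y hy with rfl | rfl | rfl
      · exact h0
      · exact h1.2 h0
      · exact h2.2 h0
  have h1 : (1 : ℝ≥0∞) ≤ cnt (Pc 0 2) 0 2 := by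
    unfold cnt W
    have := ENNReal.le_tsum (f := fun D : {D : Dgm // D.pts = range (0 + 1 + 2) ∧ Pc 0 2 D 0} =>
      (D.1.mult : ℝ≥0∞)) ⟨D0, by decide, hD⟩
    refine le_trans ?_ this
    simp [Dgm.mult, hD0]
  have h2 := le_gf (cnt (Pc 0 2)) α β 0 2
  have h3 : 0 < ex β 2 := by
    unfold ex
    rw [ENNReal.coe_pos]
    positivity
  have h4 : 0 < cnt (Pc 0 2) 0 2 * (ex α 0 * ex β 2) := by
    rw [ex_zero, one_mul]
    exact ENNReal.mul_pos (by
      intro h; rw [h] at h1; exact absurd h1 (by simp)) h3.ne'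
  exact (h4.trans_le h2).ne'

theorem V_up_pos (α : ℝ≥0) : ∀ (k : ℕ) {β : ℝ≥0}, 0 < β → V 0 (1 + (k + 1 : ℕ)) α β ≠ 0 := by
  intro k
  induction k with
  | zero =>
    intro β hβ
    exact V02_pos α hβ
  | succ k ih =>
    intro β hβ
    have hβ2 : 0 < β / 2 := by positivity
    have h1 := V_link1 0 0 (a := 1) le_rfl (1 + (k + 1 : ℕ)) α (β / 2) (β / 2)
    rw [add_halves] at h1
    have h2 := ih hβ2
    have h3 := V02_pos α hβ2
    have h4 : ((1 : ℤ) + (k + 1 : ℕ)) + (1 : ℕ) = 1 + (k + 1 + 1 : ℕ) := by push_cast; ring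
    rw [h4] at h1
    intro h0
    have h5 : V (0 + 0) (1 + (k + 1 + 1 : ℕ)) α β = 0 := h0
    rw [h5] at h1
    have h6 := le_antisymm h1 zero_le
    have h7 : ((1 : ℕ) : ℝ≥0∞) ^ 2 * (((β / 2) ^ 2 / 2 : ℝ≥0) : ℝ≥0∞) ≠ 0 := by
      simp only [Nat.cast_one, one_pow, one_mul, ne_eq, ENNReal.coe_eq_zero]
      positivity
    have h8 : V 0 (1 + (1 : ℕ)) α (β / 2) ≠ 0 := h3
    exact mul_ne_zero h7 (mul_ne_zero h2 h8) h6

theorem V_down_pos : ∀ (k : ℕ) {α : ℝ≥0} (β : ℝ≥0), 0 < α → V 0 (1 - (k + 1 : ℕ)) α β ≠ 0 := by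
  intro k
  induction k with
  | zero =>
    intro α β _
    have h1 := one_le_V00 α β
    have h2 : (1 : ℤ) - ((0 : ℕ) + 1 : ℕ) = 0 := by norm_num
    rw [h2]
    intro h
    rw [h] at h1
    exact absurd h1 (by simp)
  | succ k ih =>
    intro α β hα
    have hα2 : 0 < α / 2 := by positivity
    have h1 := V_link2 0 0 (a := 1) le_rfl (1 - (k + 1 : ℕ)) (α / 2) β (α / 2)
    rw [add_halves] at h1
    have h2 := ih β hα2
    have h3 : V 0 (1 - (1 : ℕ)) (α / 2) β ≠ 0 := by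
      have h4 := one_le_V00 (α / 2) β
      have h5 : (1 : ℤ) - ((1 : ℕ) : ℤ) = 0 := by norm_num
      rw [h5]
      intro h
      rw [h] at h4
      exact absurd h4 (by simp)
    have h4 : ((1 : ℤ) - (k + 1 : ℕ)) - (1 : ℕ) = 1 - (k + 1 + 1 : ℕ) := by push_cast; ring
    rw [h4] at h1
    intro h0
    have h5 : V (0 + 0) (1 - (k + 1 + 1 : ℕ)) α β = 0 := h0
    rw [h5] at h1
    have h6 := le_antisymm h1 zero_le
    have h7 : ((1 : ℕ) : ℝ≥0∞) ^ 2 * (((α / 2) ^ 2 / 2 : ℝ≥0) : ℝ≥0∞) ≠ 0 := by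
      simp only [Nat.cast_one, one_pow, one_mul, ne_eq, ENNReal.coe_eq_zero]
      positivity
    exact mul_ne_zero h7 (mul_ne_zero h3 h2) h6

/-- the standing hypothesis: marked trees have a finite generating function below `L` -/
def TreeFin (L : ℝ≥0) : Prop := ∀ α β : ℝ≥0, α + β < L → V 0 1 α β ≠ ∞

theorem V_prod_le {α β τ : ℝ≥0} (k : ℕ) (hk : 1 ≤ k) :
    (k : ℝ≥0∞) ^ 2 * (τ ^ 2 / 2 : ℝ≥0) * (V 0 (1 - k) α β * V 0 (1 + k) α β) ≤
      V 0 1 α (β + τ) := by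
  have h := V_link1 0 0 hk (1 - k) α β τ
  have h2 : (1 : ℤ) - k + k = 1 := by ring
  rw [h2] at h
  exact h

theorem exists_room {L x : ℝ≥0} (h : x < L) : ∃ τ : ℝ≥0, 0 < τ ∧ x + τ < L := by
  obtain ⟨y, h1, h2⟩ := exists_between h
  refine ⟨y - x, tsub_pos_of_lt h1, ?_⟩
  rw [add_tsub_cancel_of_le h1.le]
  exact h2

theorem V_down_fin {L : ℝ≥0} (hL : TreeFin L) {α β : ℝ≥0} (hβ : 0 < β) (h : α + β < L) (k : ℕ)
    (hk : 1 ≤ k) : V 0 (1 - k) α β ≠ ∞ := by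
  obtain ⟨τ, hτ, hlt⟩ := exists_room h
  have h1 := V_prod_le (α := α) (β := β) (τ := τ) k hk
  have h2 := hL α (β + τ) (by rw [← add_assoc]; exact hlt)
  obtain ⟨m, rfl⟩ : ∃ m, k = m + 1 := ⟨k - 1, by omega⟩
  have h3 := V_up_pos α m hβ
  intro h0
  rw [h0, ENNReal.top_mul h3] at h1
  have h4 : (((m + 1 : ℕ) : ℝ≥0∞) ^ 2 * ((τ ^ 2 / 2 : ℝ≥0) : ℝ≥0∞)) ≠ 0 := by
    apply mul_ne_zero
    · exact pow_ne_zero _ (by exact_mod_cast Nat.succ_ne_zero m)
    · rw [ne_eq, ENNReal.coe_eq_zero]; positivity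
  rw [ENNReal.mul_top h4] at h1
  exact h2 (top_le_iff.1 h1)

theorem V_up_fin {L : ℝ≥0} (hL : TreeFin L) {α β : ℝ≥0} (hα : 0 < α) (h : α + β < L) (k : ℕ)
    (hk : 1 ≤ k) : V 0 (1 + k) α β ≠ ∞ := by
  obtain ⟨τ, hτ, hlt⟩ := exists_room h
  have h1 := V_prod_le (α := α) (β := β) (τ := τ) k hk
  have h2 := hL α (β + τ) (by rw [← add_assoc]; exact hlt)
  obtain ⟨m, rfl⟩ : ∃ m, k = m + 1 := ⟨k - 1, by omega⟩
  have h3 := V_down_pos m β hα
  intro h0
  rw [h0, ENNReal.mul_top h3] at h1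
  have h4 : (((m + 1 : ℕ) : ℝ≥0∞) ^ 2 * ((τ ^ 2 / 2 : ℝ≥0) : ℝ≥0∞)) ≠ 0 := by
    apply mul_ne_zero
    · exact pow_ne_zero _ (by exact_mod_cast Nat.succ_ne_zero m)
    · rw [ne_eq, ENNReal.coe_eq_zero]; positivity
  rw [ENNReal.mul_top h4] at h1
  exact h2 (top_le_iff.1 h1)

/-- real form of the superadditivity downwards -/
theorem fek_down {L : ℝ≥0} (hL : TreeFin L) {α β δ : ℝ≥0} (hβ : 0 < β) (hδ : 0 < δ)
    (h : α + δ + β < L) :
    Fek (fun k t => (V 0 (1 - k) (α + t.toNNReal) β).toReal) δ := by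
  have hlt : ∀ t : ℝ, t ≤ δ → α + t.toNNReal + β < L := by
    intro t ht
    refine lt_of_le_of_lt ?_ h
    gcongr
    exact Real.toNNReal_le_iff_le_coe.2 ht
  refine ⟨hδ, fun k t _ _ _ => ENNReal.toReal_nonneg, ?_, ?_⟩
  · intro k t t' hk _ htt' ht'
    apply ENNReal.toReal_mono (V_down_fin hL hβ (hlt t' ht') k hk)
    apply V_mono _ le_rfl
    gcongr
  · intro a b t s ha hb ht hs hts
    have h1 := V_link2 0 0 ha (1 - b) (α + t.toNNReal) β s.toNNReal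
    have h2 : (1 : ℤ) - b - a = 1 - ((a + b : ℕ) : ℤ) := by push_cast; ring
    rw [h2] at h1
    have h3 : α + t.toNNReal + s.toNNReal = α + (t + s).toNNReal := by
      rw [Real.toNNReal_add ht hs, add_assoc]
    rw [h3] at h1
    have hfin : V (0 + 0) (1 - ((a + b : ℕ) : ℤ)) (α + (t + s).toNNReal) β ≠ ∞ :=
      V_down_fin hL hβ (hlt _ hts) (a + b) (by omega)
    have h4 := ENNReal.toReal_mono hfin h1
    refine le_trans ?_ h4
    rw [ENNReal.toReal_mul, ENNReal.toReal_mul, ENNReal.toReal_mul, ENNReal.toReal_pow,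
      ENNReal.toReal_natCast, ENNReal.coe_toReal]
    have h5 : ((s.toNNReal ^ 2 / 2 : ℝ≥0) : ℝ) = s ^ 2 / 2 := by
      push_cast [Real.coe_toNNReal s hs]
      rfl
    rw [h5]
    have h6 : (1 : ℝ) ≤ (a : ℝ) ^ 2 := one_le_pow₀ (by exact_mod_cast ha)
    have h7 : 0 ≤ s ^ 2 / 2 * ((V 0 (1 - a) (α + t.toNNReal) β).toReal *
        (V 0 (1 - b) (α + t.toNNReal) β).toReal) := by positivity
    calc _ = 1 * (s ^ 2 / 2 * ((V 0 (1 - a) (α + t.toNNReal) β).toReal *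
        (V 0 (1 - b) (α + t.toNNReal) β).toReal)) := by ring
      _ ≤ (a : ℝ) ^ 2 * (s ^ 2 / 2 * ((V 0 (1 - a) (α + t.toNNReal) β).toReal *
        (V 0 (1 - b) (α + t.toNNReal) β).toReal)) := mul_le_mul_of_nonneg_right h6 h7
      _ = _ := by ring

/-- real form of the superadditivity upwards -/
theorem fek_up {L : ℝ≥0} (hL : TreeFin L) {α β δ : ℝ≥0} (hα : 0 < α) (hδ : 0 < δ)
    (h : α + (β + δ) < L) :
    Fek (fun k t => (V 0 (1 + k) α (β + t.toNNReal)).toReal) δ := by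
  have hlt : ∀ t : ℝ, t ≤ δ → α + (β + t.toNNReal) < L := by
    intro t ht
    refine lt_of_le_of_lt ?_ h
    gcongr
    exact Real.toNNReal_le_iff_le_coe.2 ht
  refine ⟨hδ, fun k t _ _ _ => ENNReal.toReal_nonneg, ?_, ?_⟩
  · intro k t t' hk _ htt' ht'
    apply ENNReal.toReal_mono (V_up_fin hL hα (hlt t' ht') k hk)
    apply V_mono le_rfl
    gcongr
  · intro a b t s ha hb ht hs hts
    have h1 := V_link1 0 0 hb (1 + a) α (β + t.toNNReal) s.toNNReal
    have h2 : (1 : ℤ) + a + b = 1 + ((a + b : ℕ) : ℤ) := by push_cast; ring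
    rw [h2] at h1
    have h3 : β + t.toNNReal + s.toNNReal = β + (t + s).toNNReal := by
      rw [Real.toNNReal_add ht hs, add_assoc]
    rw [h3] at h1
    have hfin : V (0 + 0) (1 + ((a + b : ℕ) : ℤ)) α (β + (t + s).toNNReal) ≠ ∞ :=
      V_up_fin hL hα (hlt _ hts) (a + b) (by omega)
    have h4 := ENNReal.toReal_mono hfin h1
    refine le_trans ?_ h4
    rw [ENNReal.toReal_mul, ENNReal.toReal_mul, ENNReal.toReal_mul, ENNReal.toReal_pow,
      ENNReal.toReal_natCast, ENNReal.coe_toReal]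
    have h5 : ((s.toNNReal ^ 2 / 2 : ℝ≥0) : ℝ) = s ^ 2 / 2 := by
      push_cast [Real.coe_toNNReal s hs]
      rfl
    rw [h5]
    have h6 : (1 : ℝ) ≤ (b : ℝ) ^ 2 := one_le_pow₀ (by exact_mod_cast hb)
    have h7 : 0 ≤ s ^ 2 / 2 * ((V 0 (1 + a) α (β + t.toNNReal)).toReal *
        (V 0 (1 + b) α (β + t.toNNReal)).toReal) := by positivity
    calc _ = 1 * (s ^ 2 / 2 * ((V 0 (1 + a) α (β + t.toNNReal)).toReal *
        (V 0 (1 + b) α (β + t.toNNReal)).toReal)) := by ring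
      _ ≤ (b : ℝ) ^ 2 * (s ^ 2 / 2 * ((V 0 (1 + a) α (β + t.toNNReal)).toReal *
        (V 0 (1 + b) α (β + t.toNNReal)).toReal)) := mul_le_mul_of_nonneg_right h6 h7
      _ = _ := by ring

/-- exponential lower bound -/
theorem Fek.low {f : ℕ → ℝ → ℝ} {δ : ℝ} (hf : Fek f δ) (h1 : 0 < f 1 0) :
    ∃ κ : ℝ, 0 < κ ∧ ∀ k, 1 ≤ k → κ ^ k ≤ f k δ := by
  have hδ := hf.pos
  set K : ℝ := 512 / δ ^ 2 with hK
  have hKpos : 0 < K := by positivity
  set y : ℝ := f 1 0 / K with hy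
  have hypos : 0 < y := div_pos h1 hKpos
  refine ⟨min K 1 * y, mul_pos (lt_min hKpos one_pos) hypos, ?_⟩
  intro k hk
  have h2 := hf.chain (m := 1) le_rfl k hk
  rw [← hK, ← hy, mul_one] at h2
  have hkR : (1 : ℝ) ≤ k := by exact_mod_cast hk
  have h3 : δ * (1 - 1 / k) ≤ δ := by
    have : 0 ≤ 1 / (k : ℝ) := by positivity
    calc δ * (1 - 1 / k) ≤ δ * 1 := mul_le_mul_of_nonneg_left (by linarith) hδ.le
      _ = δ := mul_one _
  have h4 : 0 ≤ δ * (1 - 1 / k) := by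
    have : 1 / (k : ℝ) ≤ 1 := by rw [div_le_one (by linarith)]; exact hkR
    exact mul_nonneg hδ.le (by linarith)
  refine le_trans ?_ (h2.trans (hf.mono k _ _ hk h4 h3 le_rfl))
  rw [mul_pow]
  have h5 : (min K 1) ^ k ≤ K * (k : ℝ) ^ 2 := by
    have h6 : (min K 1) ^ k ≤ min K 1 := by
      calc (min K 1) ^ k ≤ (min K 1) ^ 1 :=
            pow_le_pow_of_le_one (lt_min hKpos one_pos).le (min_le_right _ _) hk
        _ = min K 1 := pow_one _
    calc (min K 1) ^ k ≤ min K 1 := h6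
      _ ≤ K := min_le_left _ _
      _ = K * 1 := (mul_one K).symm
      _ ≤ K * (k : ℝ) ^ 2 := mul_le_mul_of_nonneg_left (one_le_pow₀ hkR) hKpos.le
  exact mul_le_mul_of_nonneg_right h5 (by positivity)

/-- the closing function -/
noncomputable def Us (k : ℕ) (α β : ℝ≥0) : ℝ≥0∞ := if k = 0 then 1 else V 0 (1 - k) α β

theorem Us_mono {k : ℕ} {α β α' : ℝ≥0} (h : α ≤ α') : Us k α β ≤ Us k α' β := by
  unfold Us
  split_ifs
  · exact le_rfl
  · exact V_mono h le_rfl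

/-- splitting of the supply without exponential loss -/
theorem star {L : ℝ≥0} (hL : TreeFin L) {α β δ : ℝ≥0} (hα : 0 < α) (hβ : 0 < β) (hδ : 0 < δ)
    (h : α + δ + β + δ + δ < L) {E : ℝ} (hE : 1 < E) :
    ∃ C : ℝ≥0, ∀ a b : ℕ, V 0 (1 - ((a + b + 2 : ℕ) : ℤ)) α β ≤
      (C : ℝ≥0∞) * ENNReal.ofReal (E ^ (a + b)) * (Us a (α + δ) β * Us b (α + δ) β) := by
  have hsum1 : α + δ + β < L :=
    lt_of_le_of_lt ((le_add_of_nonneg_right zero_le).trans (le_add_of_nonneg_right zero_le)) h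
  have hab : α + β < L := lt_of_le_of_lt (by gcongr; exact le_add_of_nonneg_right zero_le) hsum1
  have hfek := fek_down hL hβ hδ hsum1
  -- lower bound at `t = 0`
  have hhalf : α / 2 + α / 2 + β < L := by rw [add_halves]; exact hab
  have hα2 : 0 < α / 2 := by positivity
  have hfek' := fek_down hL hβ hα2 hhalf
  obtain ⟨κ, hκ, hκb⟩ := hfek'.low (by
    have h1 := V_down_pos 0 β (show 0 < α / 2 + (0 : ℝ).toNNReal by simpa using hα2)
    have h2 : V 0 (1 - (0 + 1 : ℕ)) (α / 2 + (0 : ℝ).toNNReal) β ≠ ∞ :=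
      V_down_fin hL hβ (by
        rw [Real.toNNReal_zero, add_zero]
        refine lt_of_le_of_lt ?_ hab
        gcongr
        exact half_le_self zero_le) _ (by omega)
    exact ENNReal.toReal_pos h1 h2)
  -- upper bound at `t = 0`
  have hup' : α + (β + δ) < L := by
    refine lt_of_le_of_lt ?_ hsum1
    exact le_of_eq (by ring)
  have hfekup := fek_up hL hα hδ hup'
  obtain ⟨κ', hκ', hκb'⟩ := hfekup.low (by
    have h1 := V_up_pos α 0 (show 0 < β + (0 : ℝ).toNNReal by simpa using hβ)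
    have h2 : V 0 (1 + (0 + 1 : ℕ)) α (β + (0 : ℝ).toNNReal) ≠ ∞ :=
      V_up_fin hL hα (by
        rw [Real.toNNReal_zero, add_zero]
        exact hab) _ (by omega)
    exact ENNReal.toReal_pos h1 h2)
  have hT : V 0 1 α (β + δ + δ) ≠ ∞ := hL _ _ (by
    refine lt_of_le_of_lt ?_ h
    calc α + (β + δ + δ) = α + 0 + β + δ + δ := by ring
      _ ≤ α + δ + β + δ + δ := by gcongr)
  set C0 : ℝ := 2 / (δ : ℝ) ^ 2 * (V 0 1 α (β + δ + δ)).toReal with hC0
  have hδR : (0 : ℝ) < δ := hδ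
  have hC00 : 0 ≤ C0 := by positivity
  have hup : ∀ k : ℕ, 1 ≤ k → (V 0 (1 - k) (α + (0 : ℝ).toNNReal) β).toReal ≤
      ((max C0 1) / κ') ^ k := by
    intro k hk
    rw [Real.toNNReal_zero, add_zero]
    have h1 := V_prod_le (α := α) (β := β + δ) (τ := δ) k hk
    have h2 := ENNReal.toReal_mono hT h1
    rw [ENNReal.toReal_mul, ENNReal.toReal_mul, ENNReal.toReal_mul, ENNReal.toReal_pow,
      ENNReal.toReal_natCast, ENNReal.coe_toReal] at h2
    have h3 : ((δ ^ 2 / 2 : ℝ≥0) : ℝ) = (δ : ℝ) ^ 2 / 2 := rfl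
    rw [h3] at h2
    have h4 := hκb' k hk
    rw [Real.toNNReal_coe] at h4
    have h5 : (V 0 (1 - k) α β).toReal ≤ (V 0 (1 - k) α (β + δ)).toReal := by
      apply ENNReal.toReal_mono
      · exact V_down_fin hL (by positivity) hup' k hk
      · exact V_mono le_rfl (le_add_of_nonneg_right zero_le)
    have hkR : (1 : ℝ) ≤ (k : ℝ) ^ 2 := one_le_pow₀ (by exact_mod_cast hk)
    have h6 : (V 0 (1 - k) α β).toReal * κ' ^ k ≤ C0 := by
      have hx : 0 ≤ (V 0 (1 - k) α (β + δ)).toReal := ENNReal.toReal_nonneg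
      have hy : 0 ≤ (V 0 (1 + k) α (β + δ)).toReal := ENNReal.toReal_nonneg
      have e1 : (V 0 (1 - k) α β).toReal * κ' ^ k ≤
          (V 0 (1 - k) α (β + δ)).toReal * (V 0 (1 + k) α (β + δ)).toReal :=
        mul_le_mul h5 h4 (by positivity) hx
      have e2 : (δ : ℝ) ^ 2 / 2 * ((V 0 (1 - k) α (β + δ)).toReal *
          (V 0 (1 + k) α (β + δ)).toReal) ≤ (V 0 1 α (β + δ + δ)).toReal := by
        refine le_trans ?_ h2
        have : 0 ≤ (δ : ℝ) ^ 2 / 2 * ((V 0 (1 - k) α (β + δ)).toReal *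
          (V 0 (1 + k) α (β + δ)).toReal) := by positivity
        nlinarith
      rw [hC0]
      calc (V 0 (1 - k) α β).toReal * κ' ^ k
          ≤ (V 0 (1 - k) α (β + δ)).toReal * (V 0 (1 + k) α (β + δ)).toReal := e1
        _ = 2 / (δ : ℝ) ^ 2 * ((δ : ℝ) ^ 2 / 2 * ((V 0 (1 - k) α (β + δ)).toReal *
          (V 0 (1 + k) α (β + δ)).toReal)) := by field_simp
        _ ≤ _ := mul_le_mul_of_nonneg_left e2 (by positivity)
    rw [div_pow, le_div_iff₀ (by positivity)]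
    calc (V 0 (1 - k) α β).toReal * κ' ^ k ≤ C0 := h6
      _ ≤ max C0 1 := le_max_left _ _
      _ = (max C0 1) ^ 1 := (pow_one _).symm
      _ ≤ (max C0 1) ^ k := pow_le_pow_right₀ (le_max_right _ _) hk
  have hlow : ∀ k : ℕ, 1 ≤ k → κ ^ k ≤ (V 0 (1 - k) (α + (0 : ℝ).toNNReal) β).toReal := by
    intro k hk
    have := hκb k hk
    rw [Real.toNNReal_coe, add_halves] at this
    rw [Real.toNNReal_zero, add_zero]
    exact this
  obtain ⟨C, hC, hCb⟩ := hfek.compare hκ hlow hup hE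
  refine ⟨C.toNNReal, fun a b => ?_⟩
  have h1 := hCb a b
  simp only [Real.toNNReal_zero, add_zero, Real.toNNReal_coe] at h1
  have hfin : V 0 (1 - ((a + b + 2 : ℕ) : ℤ)) α β ≠ ∞ := V_down_fin hL hβ hab _ (by omega)
  have hUs : ∀ k : ℕ, Us k (α + δ) β ≠ ∞ ∧ (Us k (α + δ) β).toReal =
      (if k = 0 then 1 else (V 0 (1 - k) (α + δ) β).toReal) := by
    intro k
    unfold Us
    split_ifs with hk
    · simp
    · exact ⟨V_down_fin hL hβ hsum1 k (by omega), rfl⟩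
  rw [← ENNReal.ofReal_toReal hfin, ← ENNReal.ofReal_toReal (hUs a).1,
    ← ENNReal.ofReal_toReal (hUs b).1, (hUs a).2, (hUs b).2]
  have hx : ∀ k : ℕ, (0 : ℝ) ≤ (if k = 0 then 1 else (V 0 (1 - k) (α + δ) β).toReal) := by
    intro k
    split_ifs
    · exact zero_le_one
    · exact ENNReal.toReal_nonneg
  have hCc : ((C.toNNReal : ℝ≥0) : ℝ≥0∞) = ENNReal.ofReal C := rfl
  rw [hCc, ← ENNReal.ofReal_mul hC.le, ← ENNReal.ofReal_mul (hx a), ← ENNReal.ofReal_mul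
    (by positivity)]
  exact ENNReal.ofReal_le_ofReal h1

end Pool.Agent.FloorDiag
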