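import Pool.Agent.Lib.MP_6aab98_ag.Cert

/-! # MP_6aab98_ag: embedded pointed systems, removal of the unbounded elevators at the root -/

namespace Pool.Agent.FloorDiag

open Finset
open scoped ENNReal NNReal Nat

/-- pointed trees with at most `m` floors -/
def TA (m : ℕ) (p : ℤ) (D : Dgm) (v : ℕ) : Prop := Pc 0 p D v ∧ D.F.card ≤ m

/-- pointed trees with at most `m` floors without unbounded elevators at the root -/
def TB (m : ℕ) (p : ℤ) (D : Dgm) (v : ℕ) : Prop :=
  TA m p D v ∧ ∀ e ∈ D.E, e.src = v → e.tgt ≠ none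

open Classical in
/-- weight of a system embedded in `range n` -/
noncomputable def wtD (n : ℕ) (x : ℝ≥0∞) (C : Dgm → ℕ → Prop) (D : Dgm) (v : ℕ) : ℝ≥0∞ :=
  if D.pts ⊆ range n ∧ C D v then x ^ D.F.card * D.mult else 0

/-- weighted number of the systems embedded in `range n` -/
noncomputable def SS (n : ℕ) (x : ℝ≥0∞) (C : Dgm → ℕ → Prop) (v : ℕ) : ℝ≥0∞ :=
  ∑' D : Dgm, wtD n x C D v

theorem wtD_pos {n : ℕ} {x : ℝ≥0∞} {C : Dgm → ℕ → Prop} {D : Dgm} {v : ℕ} (h : D.pts ⊆ range n)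
    (h' : C D v) : wtD n x C D v = x ^ D.F.card * D.mult := by
  unfold wtD
  rw [if_pos ⟨h, h'⟩]

theorem wtD_ne {n : ℕ} {x : ℝ≥0∞} {C : Dgm → ℕ → Prop} {D : Dgm} {v : ℕ} (h : wtD n x C D v ≠ 0) :
    D.pts ⊆ range n ∧ C D v := by
  unfold wtD at h
  by_contra h'
  exact h (if_neg h')

theorem tsum_le_cover {α β : Type*} (f : α → ℝ≥0∞) (g : β → ℝ≥0∞) (ph : β → α)
    (h : ∀ a, f a ≠ 0 → ∃ b, ph b = a ∧ f a ≤ g b) : ∑' a, f a ≤ ∑' b, g b := by
  classical
  choose i hi1 hi2 using h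
  have h1 : ∑' a, f a = ∑' a : Function.support f, f a := (tsum_subtype_support f).symm
  rw [h1]
  let j : Function.support f → β := fun a => i a.1 a.2
  have hj : Function.Injective j := by
    intro a b hab
    apply Subtype.ext
    rw [← hi1 a.1 a.2, ← hi1 b.1 b.2]
    exact congrArg ph hab
  calc ∑' a : Function.support f, f a ≤ ∑' a : Function.support f, g (j a) :=
        ENNReal.tsum_le_tsum fun a => hi2 a.1 a.2
    _ ≤ ∑' b, g b := ENNReal.tsum_comp_le_tsum_of_injective hj g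

namespace Dgm

variable {D : Dgm}

/-- fewer elevators -/
theorem Valid.sub (hv : D.Valid) {E' : Finset Elev} (h : E' ⊆ D.E) : (⟨D.F, E'⟩ : Dgm).Valid := by
  refine ⟨?_, ?_, ?_, ?_, ?_, ?_, ?_, ?_⟩
  · intro e he e' he' hh
    exact hv.inj e (h he) e' (h he') hh
  · intro e he
    exact hv.disj e (h he)
  · intro e he
    exact hv.src_mem e (h he)
  · intro e he
    exact hv.src_lt e (h he)
  · intro e he
    exact hv.tgt_mem e (h he)
  · intro e he
    exact hv.tgt_lt e (h he)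
  · intro e he
    exact hv.wt_pos e (h he)
  · intro e he
    exact hv.wt_end e (h he)

/-- the unbounded elevators at `v` -/
def endsAt (D : Dgm) (v : ℕ) : Finset Elev := D.E.filter (fun e => e.src = v ∧ e.tgt = none)

/-- the system without the unbounded elevators at `v` -/
def noEnds (D : Dgm) (v : ℕ) : Dgm := ⟨D.F, D.E.filter (fun e => ¬ (e.src = v ∧ e.tgt = none))⟩

/-- the system with new unbounded elevators at `v` -/
def addEnds (D : Dgm) (v : ℕ) (T : Finset ℕ) : Dgm :=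
  ⟨D.F, D.E ∪ T.image (fun c => ⟨c, v, none, 1⟩)⟩

theorem mem_endsAt {v : ℕ} {e : Elev} : e ∈ D.endsAt v ↔ e ∈ D.E ∧ e.src = v ∧ e.tgt = none := by
  simp [endsAt]

theorem mem_noEnds {v : ℕ} {e : Elev} :
    e ∈ (D.noEnds v).E ↔ e ∈ D.E ∧ ¬ (e.src = v ∧ e.tgt = none) := by
  simp [noEnds]

theorem addEnds_noEnds (hv : D.Valid) (v : ℕ) :
    (D.noEnds v).addEnds v ((D.endsAt v).image Elev.pt) = D := by
  have h : ((D.endsAt v).image Elev.pt).image (fun c => (⟨c, v, none, 1⟩ : Elev)) = D.endsAt v := by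
    rw [image_image]
    conv_rhs => rw [← image_id (s := D.endsAt v)]
    apply Finset.image_congr
    intro e he
    obtain ⟨h1, h2, h3⟩ := mem_endsAt.1 he
    have h4 := hv.wt_end e h1 h3
    obtain ⟨a, b, c, d⟩ := e
    simp only at h2 h3 h4
    subst h2 h3 h4
    rfl
  unfold addEnds
  rw [h]
  obtain ⟨F, E⟩ := D
  simp only [noEnds, endsAt]
  congr 1
  rw [union_comm, filter_union_filter_not_eq]

theorem card_endsAt (hv : D.Valid) (v : ℕ) :
    ((D.endsAt v).image Elev.pt).card = (D.endsAt v).card := by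
  apply card_image_of_injOn
  intro e he e' he' hh
  exact hv.inj e (mem_endsAt.1 he).1 e' (mem_endsAt.1 he').1 hh

theorem card_noEnds (v : ℕ) : (D.endsAt v).card + (D.noEnds v).E.card = D.E.card := by
  unfold endsAt noEnds
  exact card_filter_add_card_filter_not _

theorem mult_noEnds (hv : D.Valid) (v : ℕ) : (D.noEnds v).mult = D.mult := by
  unfold mult noEnds
  rw [← prod_filter_mul_prod_filter_not D.E (fun e => e.src = v ∧ e.tgt = none)]
  rw [prod_eq_one (s := D.E.filter (fun e => e.src = v ∧ e.tgt = none)), one_mul]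
  intro e he
  obtain ⟨h1, _, h3⟩ := mem_filter.1 he
  rw [hv.wt_end e h1 h3, one_pow]

theorem div_noEnds (hv : D.Valid) (v f : ℕ) :
    D.div f = (D.noEnds v).div f + (if f = v then ((D.endsAt v).card : ℤ) else 0) := by
  rw [div_eq_sum, div_eq_sum,
    ← sum_filter_add_sum_filter_not D.E (fun e => e.src = v ∧ e.tgt = none), add_comm]
  congr 1
  have h1 : ∀ e ∈ D.E.filter (fun e => e.src = v ∧ e.tgt = none), e.dv f =
      if f = v then 1 else 0 := by
    intro e he
    obtain ⟨h1, h2, h3⟩ := mem_filter.1 he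
    unfold Elev.dv
    rw [h2, h3, hv.wt_end e h1 h3]
    by_cases hf : f = v
    · rw [if_pos hf.symm, if_pos hf]; simp
    · rw [if_neg (fun h => hf h.symm), if_neg hf]; simp
  rw [sum_congr rfl h1]
  by_cases hf : f = v
  · simp only [hf, if_true, sum_const, nsmul_eq_mul, mul_one]
    rfl
  · simp only [hf, if_false, sum_const_zero]

theorem conn_noEnds (hv : D.Valid) (hc : D.Conn) {v : ℕ} (hF : v ∈ D.F) : (D.noEnds v).Conn := by
  intro X hX hx y hy
  have hE : ∀ e ∈ D.E, (e.src = v ∧ e.tgt = none) ∨ e ∈ (D.noEnds v).E := by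
    intro e he
    by_cases h : e.src = v ∧ e.tgt = none
    · exact Or.inl h
    · exact Or.inr (mem_noEnds.2 ⟨he, h⟩)
  have hpt : ∀ e ∈ (D.noEnds v).E, e.pt ∉ (D.endsAt v).image Elev.pt := by
    intro e he h
    obtain ⟨e', he', hh⟩ := mem_image.1 h
    have := hv.inj e' (mem_endsAt.1 he').1 e (mem_noEnds.1 he).1 hh
    subst this
    exact (mem_noEnds.1 he).2 (mem_endsAt.1 he').2
  have hfl : ∀ f ∈ D.F, f ∉ (D.endsAt v).image Elev.pt := by
    intro f hf h
    obtain ⟨e', he', hh⟩ := mem_image.1 h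
    exact hv.disj e' (mem_endsAt.1 he').1 (hh ▸ hf)
  set T := (D.endsAt v).image Elev.pt with hT
  have hmem : ∀ z, z ∉ T → (z ∈ {z | (z ∈ T ∧ v ∈ X) ∨ (z ∉ T ∧ z ∈ X)} ↔ z ∈ X) := by
    intro z hz
    simp only [Set.mem_ofPred_eq]
    tauto
  have hcl : D.Closed {z | (z ∈ T ∧ v ∈ X) ∨ (z ∉ T ∧ z ∈ X)} := by
    intro e he
    rcases hE e he with h | h
    · have hp : e.pt ∈ T := mem_image_of_mem _ (mem_endsAt.2 ⟨he, h⟩)
      refine ⟨?_, fun q hq => ?_⟩
      · rw [h.1, hmem v (hfl v hF)]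
        simp only [Set.mem_ofPred_eq]
        tauto
      · rw [h.2] at hq
        cases hq
    · refine ⟨?_, fun q hq => ?_⟩
      · rw [hmem _ (hpt e h), hmem _ (hfl _ (hv.src_mem e he))]
        exact (hX e h).1
      · rw [hmem _ (hpt e h), hmem _ (hfl _ (hv.tgt_mem e he q hq))]
        exact (hX e h).2 q hq
  have hsub : ∀ z ∈ (D.noEnds v).pts, z ∈ D.pts ∧ z ∉ T := by
    intro z hz
    rcases mem_pts.1 hz with h | ⟨e, he, rfl⟩
    · exact ⟨mem_pts_of_F h, hfl z h⟩
    · exact ⟨mem_pts_of_E (mem_noEnds.1 he).1, hpt e he⟩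
  obtain ⟨x, hx1, hx2⟩ := hx
  have h1 := hc _ hcl ⟨x, (hsub x hx1).1, (hmem x (hsub x hx1).2).2 hx2⟩ y (hsub y hy).1
  exact (hmem y (hsub y hy).2).1 h1

end Dgm

theorem TA.noEnds {m : ℕ} {p : ℤ} {D : Dgm} {v : ℕ} (h : TA m p D v) :
    TB m (p - (D.endsAt v).card) (D.noEnds v) v := by
  obtain ⟨hQ, hm⟩ := h
  have hv := hQ.valid
  have hc : D.Conn := Dgm.connEx_none.1 hQ.conn
  refine ⟨⟨⟨hv.sub (filter_subset _ _), hQ.mem, Dgm.connEx_none.2 (Dgm.conn_noEnds hv hc hQ.mem),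
    ?_, ?_, ?_⟩, hm⟩, ?_⟩
  · have h1 := Dgm.div_noEnds hv v v
    rw [if_pos rfl, hQ.divv] at h1
    omega
  · intro f hf hne
    have h1 := Dgm.div_noEnds hv v f
    rw [if_neg hne, hQ.div f hf hne] at h1
    omega
  · have h1 := Dgm.card_noEnds (D := D) v
    have h2 := hQ.cnt
    have h3 : (D.noEnds v).F = D.F := rfl
    rw [h3]
    omega
  · intro e he hs ht
    exact (Dgm.mem_noEnds.1 he).2 ⟨hs, ht⟩

/-- removal of the unbounded elevators at the root -/
theorem step1 (n : ℕ) (x : ℝ≥0∞) (m : ℕ) (p : ℤ) (v : ℕ) :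
    SS n x (TA m p) v ≤ ∑ k ∈ range (n + 1), (n.choose k : ℝ≥0∞) * SS n x (TB m (p - k)) v := by
  classical
  have h1 : SS n x (TA m p) v ≤ ∑' b : Finset ℕ × Dgm,
      (if b.1 ⊆ range n then wtD n x (TB m (p - b.1.card)) b.2 v else 0) := by
    refine tsum_le_cover (fun D => wtD n x (TA m p) D v) _ (fun b => b.2.addEnds v b.1) ?_
    intro D hD
    obtain ⟨hp, hT⟩ := wtD_ne hD
    have hv := hT.1.valid
    refine ⟨((D.endsAt v).image Elev.pt, D.noEnds v), Dgm.addEnds_noEnds hv v, ?_⟩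
    have h2 : (D.endsAt v).image Elev.pt ⊆ range n := by
      intro y hy
      obtain ⟨e, he, rfl⟩ := mem_image.1 hy
      exact hp (Dgm.mem_pts_of_E (Dgm.mem_endsAt.1 he).1)
    have h3 : (D.noEnds v).pts ⊆ range n := by
      intro y hy
      apply hp
      rcases Dgm.mem_pts.1 hy with h | ⟨e, he, rfl⟩
      · exact Dgm.mem_pts_of_F h
      · exact Dgm.mem_pts_of_E (Dgm.mem_noEnds.1 he).1
    simp only
    rw [if_pos h2, Dgm.card_endsAt hv, wtD_pos hp hT, wtD_pos h3 hT.noEnds, Dgm.mult_noEnds hv]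
    exact le_rfl
  refine h1.trans (le_of_eq ?_)
  rw [ENNReal.tsum_prod (f := fun T D' => (if T ⊆ range n then
    wtD n x (TB m (p - T.card)) D' v else 0))]
  rw [tsum_eq_sum (s := (range n).powerset)]
  · have h4 := Finset.sum_powerset_apply_card (fun k => SS n x (TB m (p - k)) v) (x := range n)
    rw [card_range] at h4
    simp only [nsmul_eq_mul] at h4
    rw [← h4]
    apply sum_congr rfl
    intro T hT
    have hT' := mem_powerset.1 hT
    simp only [hT', if_true]
    rfl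
  · intro T hT
    have hT' : ¬ T ⊆ range n := fun h => hT (mem_powerset.2 h)
    simp only [hT', if_false, tsum_zero]

end Pool.Agent.FloorDiag
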