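import Pool.Agent.Lib.MP_6aab98_ag.Up1

/-! # MP_6aab98_ag: cutting a tree at an elevator -/

namespace Pool.Agent.FloorDiag

open Finset
open scoped ENNReal NNReal Nat

namespace Dgm

variable {D : Dgm}

theorem inc_erase (hv : D.Valid) {e0 : Elev} (he0 : e0 ∈ D.E) {t : ℕ} (ht : e0.tgt = some t) :
    D.inc (D.pts.erase e0.pt) + 2 ≤ D.inc D.pts := by
  have h1 : D.inS (D.pts.erase e0.pt) ⊂ D.inS D.pts := by
    rw [Finset.ssubset_iff_of_subset (inS_mono (erase_subset _ _))]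
    refine ⟨e0, mem_inS.2 ⟨he0, mem_pts_of_E he0, hv.src_pts he0⟩, ?_⟩
    rw [mem_inS]
    rintro ⟨_, h, _⟩
    exact (mem_erase.1 h).1 rfl
  have h2 : D.inT (D.pts.erase e0.pt) ⊂ D.inT D.pts := by
    rw [Finset.ssubset_iff_of_subset (inT_mono (erase_subset _ _))]
    refine ⟨e0, mem_inT.2 ⟨he0, mem_pts_of_E he0, t, hv.tgt_pts he0 ht, ht⟩, ?_⟩
    rw [mem_inT]
    rintro ⟨_, h, _⟩
    exact (mem_erase.1 h).1 rfl
  have h3 := card_lt_card h1
  have h4 := card_lt_card h2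
  unfold inc
  omega

theorem cut_set (hv : D.Valid) (hc : D.Conn) {e0 : Elev} (he0 : e0 ∈ D.E) {t : ℕ}
    (ht : e0.tgt = some t) (htree : D.inc D.pts < D.pts.card) :
    ∃ Z : Set ℕ, D.ClosedIn none (D.pts.erase e0.pt) Z ∧ e0.src ∈ Z ∧ t ∉ Z := by
  have hsY : e0.src ∈ D.pts.erase e0.pt := mem_erase.2 ⟨(hv.pt_ne_src he0).symm, hv.src_pts he0⟩
  have hncon : ¬ D.ConnIn none (D.pts.erase e0.pt) := by
    intro hcon
    have h1 := card_pos.2 ⟨_, hsY⟩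
    have h2 := growth hcon ((D.pts.erase e0.pt).card - 1) {e0.src} (singleton_subset_iff.2 hsY)
      (singleton_nonempty _) (by rw [card_singleton]; omega)
    have h3 := inc_erase hv he0 ht
    have h4 := card_erase_of_mem (mem_pts_of_E he0)
    rw [inc_singleton hv] at h2
    omega
  unfold ConnIn at hncon
  push Not at hncon
  obtain ⟨Z, hZ, ⟨x, hxY, hxZ⟩, y, hyY, hyZ⟩ := hncon
  have hne : ¬ (e0.src ∈ Z ↔ t ∈ Z) := by
    intro hiff
    have hmem : ∀ z, z ≠ e0.pt →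
        (z ∈ {z | (z = e0.pt ∧ e0.src ∈ Z) ∨ (z ≠ e0.pt ∧ z ∈ Z)} ↔ z ∈ Z) := by
      intro z hz
      simp only [Set.mem_ofPred_eq]
      tauto
    have hcl : D.Closed {z | (z = e0.pt ∧ e0.src ∈ Z) ∨ (z ≠ e0.pt ∧ z ∈ Z)} := by
      intro e he
      have hs : e.src ≠ e0.pt := fun h => hv.pt_notF he0 (hv.src_mem e he) h.symm
      have hq : ∀ q, e.tgt = some q → q ≠ e0.pt :=
        fun q hq h => hv.pt_notF he0 (hv.tgt_mem e he q hq) h.symm
      by_cases hee : e.pt = e0.pt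
      · have := hv.inj e he e0 he0 hee
        subst this
        have h1 : e.pt ∈ {z | (z = e.pt ∧ e.src ∈ Z) ∨ (z ≠ e.pt ∧ z ∈ Z)} ↔ e.src ∈ Z := by
          simp only [Set.mem_ofPred_eq]
          tauto
        refine ⟨?_, fun q hqe => ?_⟩
        · rw [h1, hmem _ hs]
        · have h2 : q ≠ e.pt := hq q hqe
          rw [h1, hmem _ h2]
          rw [hqe] at ht
          cases ht
          exact hiff
      · have hpY : e.pt ∈ D.pts.erase e0.pt := mem_erase.2 ⟨hee, mem_pts_of_E he⟩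
        refine ⟨?_, fun q hqe => ?_⟩
        · rw [hmem _ hee, hmem _ hs]
          exact (hZ e he hpY).1 (by simp) (mem_erase.2 ⟨hs, hv.src_pts he⟩)
        · rw [hmem _ hee, hmem _ (hq q hqe)]
          exact (hZ e he hpY).2 q (mem_erase.2 ⟨hq q hqe, hv.tgt_pts he hqe⟩) hqe
    have h3 := hc _ hcl ⟨x, (mem_erase.1 hxY).2, (hmem x (mem_erase.1 hxY).1).2 hxZ⟩ y
      (mem_erase.1 hyY).2
    exact hyZ ((hmem y (mem_erase.1 hyY).1).1 h3)
  by_cases hs : e0.src ∈ Z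
  · exact ⟨Z, hZ, hs, fun h => hne (iff_of_true hs h)⟩
  · refine ⟨Zᶜ, ?_, hs, ?_⟩
    · intro e he hp
      have := hZ e he hp
      exact ⟨fun ho hs => not_congr (this.1 ho hs), fun q hq hqe => not_congr (this.2 q hq hqe)⟩
    · intro h
      exact hne (iff_of_false hs h)

theorem cut_blk (hv : D.Valid) (hc : D.Conn) {e0 : Elev} (he0 : e0 ∈ D.E) {t : ℕ}
    (ht : e0.tgt = some t) (htree : D.inc D.pts < D.pts.card) :
    ∃ X1 X2 : Finset ℕ, D.Blk X1 e0.src ∧ D.Blk X2 t ∧ Disjoint X1 X2 ∧ e0.pt ∉ X1 ∧ e0.pt ∉ X2 ∧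
      ∀ z ∈ D.pts, z = e0.pt ∨ z ∈ X1 ∨ z ∈ X2 := by
  classical
  obtain ⟨Z, hZ, hsZ, htZ⟩ := cut_set hv hc he0 ht htree
  have hs : ∀ e ∈ D.E, e.src ≠ e0.pt := fun e he h => hv.pt_notF he0 (hv.src_mem e he) h.symm
  have hq : ∀ e ∈ D.E, ∀ q, e.tgt = some q → q ≠ e0.pt :=
    fun e he q hq h => hv.pt_notF he0 (hv.tgt_mem e he q hq) h.symm
  have m1 : ∀ z, z ∈ (D.pts.erase e0.pt).filter (fun z => z ∈ Z) ↔
      z ≠ e0.pt ∧ z ∈ D.pts ∧ z ∈ Z := by
    intro z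
    rw [mem_filter, mem_erase]
    tauto
  have m2 : ∀ z, z ∈ (D.pts.erase e0.pt).filter (fun z => z ∉ Z) ↔
      z ≠ e0.pt ∧ z ∈ D.pts ∧ z ∉ Z := by
    intro z
    rw [mem_filter, mem_erase]
    tauto
  refine ⟨(D.pts.erase e0.pt).filter (fun z => z ∈ Z), (D.pts.erase e0.pt).filter (fun z => z ∉ Z),
    ⟨?_, ?_, ?_, ?_⟩, ⟨?_, ?_, ?_, ?_⟩, ?_, ?_, ?_, ?_⟩
  · intro z hz
    exact ((m1 z).1 hz).2.1
  · exact (m1 _).2 ⟨hs e0 he0, hv.src_pts he0, hsZ⟩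
  · intro e he hp
    obtain ⟨h1, h2, h3⟩ := (m1 _).1 hp
    have hcl := hZ e he (mem_erase.2 ⟨h1, h2⟩)
    refine ⟨(m1 _).2 ⟨hs e he, hv.src_pts he, (hcl.1 (by simp)
      (mem_erase.2 ⟨hs e he, hv.src_pts he⟩)).1 h3⟩, fun q hqe => ?_⟩
    exact (m1 _).2 ⟨hq e he q hqe, hv.tgt_pts he hqe, (hcl.2 q
      (mem_erase.2 ⟨hq e he q hqe, hv.tgt_pts he hqe⟩) hqe).1 h3⟩
  · intro e he hp
    by_cases hee : e.pt = e0.pt
    · have := hv.inj e he e0 he0 hee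
      subst this
      refine ⟨fun _ => rfl, fun q hqe hqX => ?_⟩
      rw [hqe] at ht
      cases ht
      exact absurd ((m1 _).1 hqX).2.2 htZ
    · have hcl := hZ e he (mem_erase.2 ⟨hee, mem_pts_of_E he⟩)
      have hpZ : e.pt ∉ Z := fun h => hp ((m1 _).2 ⟨hee, mem_pts_of_E he, h⟩)
      refine ⟨fun hsX => ?_, fun q hqe hqX => ?_⟩
      · obtain ⟨h1, h2, h3⟩ := (m1 _).1 hsX
        exact absurd ((hcl.1 (by simp) (mem_erase.2 ⟨h1, h2⟩)).2 h3) hpZ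
      · obtain ⟨h1, h2, h3⟩ := (m1 _).1 hqX
        exact absurd ((hcl.2 q (mem_erase.2 ⟨h1, h2⟩) hqe).2 h3) hpZ
  · intro z hz
    exact ((m2 z).1 hz).2.1
  · exact (m2 _).2 ⟨hq e0 he0 t ht, hv.tgt_pts he0 ht, htZ⟩
  · intro e he hp
    obtain ⟨h1, h2, h3⟩ := (m2 _).1 hp
    have hcl := hZ e he (mem_erase.2 ⟨h1, h2⟩)
    refine ⟨(m2 _).2 ⟨hs e he, hv.src_pts he, fun h => h3 ((hcl.1 (by simp)
      (mem_erase.2 ⟨hs e he, hv.src_pts he⟩)).2 h)⟩, fun q hqe => ?_⟩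
    exact (m2 _).2 ⟨hq e he q hqe, hv.tgt_pts he hqe, fun h => h3 ((hcl.2 q
      (mem_erase.2 ⟨hq e he q hqe, hv.tgt_pts he hqe⟩) hqe).2 h)⟩
  · intro e he hp
    by_cases hee : e.pt = e0.pt
    · have := hv.inj e he e0 he0 hee
      subst this
      refine ⟨fun h => absurd hsZ ((m2 _).1 h).2.2, fun q hqe hqX => ?_⟩
      rw [hqe] at ht
      cases ht
      rfl
    · have hcl := hZ e he (mem_erase.2 ⟨hee, mem_pts_of_E he⟩)
      have hpZ : e.pt ∈ Z := by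
        by_contra h
        exact hp ((m2 _).2 ⟨hee, mem_pts_of_E he, h⟩)
      refine ⟨fun hsX => ?_, fun q hqe hqX => ?_⟩
      · obtain ⟨h1, h2, h3⟩ := (m2 _).1 hsX
        exact absurd ((hcl.1 (by simp) (mem_erase.2 ⟨h1, h2⟩)).1 hpZ) h3
      · obtain ⟨h1, h2, h3⟩ := (m2 _).1 hqX
        exact absurd ((hcl.2 q (mem_erase.2 ⟨h1, h2⟩) hqe).1 hpZ) h3
  · rw [Finset.disjoint_left]
    intro z h1 h2
    exact ((m2 z).1 h2).2.2 ((m1 z).1 h1).2.2
  · intro h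
    exact ((m1 _).1 h).1 rfl
  · intro h
    exact ((m2 _).1 h).1 rfl
  · intro z hz
    by_cases hze : z = e0.pt
    · exact Or.inl hze
    · by_cases hzZ : z ∈ Z
      · exact Or.inr (Or.inl ((m1 z).2 ⟨hze, hz, hzZ⟩))
      · exact Or.inr (Or.inr ((m2 z).2 ⟨hze, hz, hzZ⟩))

theorem cut_glue (hv : D.Valid) (hc : D.Conn) {e0 : Elev} (he0 : e0 ∈ D.E) {t : ℕ}
    (ht : e0.tgt = some t) (htree : D.inc D.pts < D.pts.card) :
    ∃ D1 D2 : Dgm, GlueOk e0.wt e0.pt e0.src t D1 D2 ∧ glue e0.wt e0.pt e0.src t D1 D2 = D ∧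
      D1.Conn ∧ D2.Conn := by
  obtain ⟨X1, X2, b1, b2, hd, hp1, hp2, hcov⟩ := cut_blk hv hc he0 ht htree
  have hok : GlueOk e0.wt e0.pt e0.src t (D.restr X1) (D.restr X2) := by
    refine ⟨b1.valid hv, b2.valid hv, ?_, ?_, ?_, ?_, ?_, hv.src_lt e0 he0, hv.tgt_lt e0 he0 t ht,
      hv.wt_pos e0 he0⟩
    · rw [b1.pts, b2.pts]; exact hd
    · exact mem_restr_F.2 ⟨hv.src_mem e0 he0, b1.mem⟩
    · exact mem_restr_F.2 ⟨hv.tgt_mem e0 he0 t ht, b2.mem⟩
    · rw [b1.pts]; exact hp1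
    · rw [b2.pts]; exact hp2
  refine ⟨D.restr X1, D.restr X2, hok, ?_, b1.conn hc, b2.conn hc⟩
  have hF : (D.restr X1).F ∪ (D.restr X2).F = D.F := by
    ext f
    rw [mem_union, mem_restr_F, mem_restr_F]
    constructor
    · rintro (h | h) <;> exact h.1
    · intro hf
      rcases hcov f (mem_pts_of_F hf) with h | h | h
      · exact absurd h.symm (hv.pt_notF he0 hf)
      · exact Or.inl ⟨hf, h⟩
      · exact Or.inr ⟨hf, h⟩
  have he : (⟨e0.pt, e0.src, some t, e0.wt⟩ : Elev) = e0 := by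
    obtain ⟨a, b, c, d⟩ := e0
    simp only at ht
    subst ht
    rfl
  have hE : insert (⟨e0.pt, e0.src, some t, e0.wt⟩ : Elev) ((D.restr X1).E ∪ (D.restr X2).E) =
      D.E := by
    rw [he]
    ext e
    rw [mem_insert, mem_union, mem_restr_E, mem_restr_E]
    constructor
    · rintro (rfl | h | h)
      · exact he0
      · exact h.1
      · exact h.1
    · intro hee
      rcases hcov _ (mem_pts_of_E hee) with h | h | h
      · exact Or.inl (hv.inj e hee e0 he0 h)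
      · exact Or.inr (Or.inl ⟨hee, h⟩)
      · exact Or.inr (Or.inr ⟨hee, h⟩)
  unfold glue
  rw [hF, hE]

/-- the genus is not negative -/
theorem genus_nonneg {E0 : Dgm} (hv : E0.Valid) (hc : E0.Conn) {v : ℕ} {p : ℤ} (hF : v ∈ E0.F)
    (hd : E0.div v = p) (h1 : ∀ f ∈ E0.F, f ≠ v → E0.div f = 1) :
    3 * (E0.F.card : ℤ) + p - 2 ≤ (E0.F.card : ℤ) + E0.E.card := by
  have hvp : v ∈ E0.pts := mem_pts_of_F hF
  have h0 := card_pos.2 ⟨_, hvp⟩
  have h2 := growth (conn_in hv hc) (E0.pts.card - 1) {v} (singleton_subset_iff.2 hvp)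
    (singleton_nonempty _) (by rw [card_singleton]; omega)
  rw [inc_singleton hv] at h2
  have h4 := euler hv hF hd h1
  have h5 := hv.card_pts
  omega

end Dgm

theorem Q.tree {p : ℤ} {D : Dgm} {v : ℕ} (h : Q 0 p none D v) : D.inc D.pts < D.pts.card := by
  have h4 := Dgm.euler h.valid h.mem h.divv h.div
  have h5 := h.valid.card_pts
  have h6 := h.cnt
  omega

/-- cutting at an elevator which starts at the root -/
theorem Q.cut_up {p : ℤ} {D : Dgm} {v : ℕ} (h : Q 0 p none D v) {e0 : Elev} (he0 : e0 ∈ D.E)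
    (hs : e0.src = v) {t : ℕ} (ht : e0.tgt = some t) :
    ∃ D1 D2 : Dgm, Dgm.GlueOk e0.wt e0.pt v t D1 D2 ∧ Dgm.glue e0.wt e0.pt v t D1 D2 = D ∧
      Q 0 (p - e0.wt) none D1 v ∧ Q 0 (1 + e0.wt) none D2 t := by
  obtain ⟨D1, D2, hok, hD, c1, c2⟩ := Dgm.cut_glue h.valid (Dgm.connEx_none.1 h.conn) he0 ht h.tree
  rw [hs] at hok hD
  have d1 : ∀ f ∈ D1.F, D.div f = D1.div f + (if f = v then (e0.wt : ℤ) else 0) := by
    intro f hf
    rw [← hD]
    exact hok.div1 hf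
  have d2 : ∀ f ∈ D2.F, D.div f = D2.div f - (if f = t then (e0.wt : ℤ) else 0) := by
    intro f hf
    rw [← hD]
    exact hok.div2 hf
  have f1 : ∀ f ∈ D1.F, f ∈ D.F := fun f hf => by rw [← hD]; exact mem_union_left _ hf
  have f2 : ∀ f ∈ D2.F, f ∈ D.F := fun f hf => by rw [← hD]; exact mem_union_right _ hf
  have hn2 : ∀ f ∈ D2.F, f ≠ v := by
    rintro f hf rfl
    exact Finset.disjoint_left.1 hok.disjF hok.m1 hf
  have q1 : D1.div v = p - e0.wt := by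
    have := d1 v hok.m1
    rw [if_pos rfl, h.divv] at this
    linarith
  have q1' : ∀ f ∈ D1.F, f ≠ v → D1.div f = 1 := by
    intro f hf hne
    have := d1 f hf
    rw [if_neg hne, h.div f (f1 f hf) hne] at this
    linarith
  have q2 : D2.div t = 1 + e0.wt := by
    have := d2 t hok.m2
    rw [if_pos rfl, h.div t (f2 t hok.m2) (hn2 t hok.m2)] at this
    linarith
  have q2' : ∀ f ∈ D2.F, f ≠ t → D2.div f = 1 := by
    intro f hf hne
    have := d2 f hf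
    rw [if_neg hne, h.div f (f2 f hf) (hn2 f hf)] at this
    linarith
  have g1 := Dgm.genus_nonneg hok.v1 c1 hok.m1 q1 q1'
  have g2 := Dgm.genus_nonneg hok.v2 c2 hok.m2 q2 q2'
  have g3 := h.cnt
  have g4 := hok.cardF
  have g5 := hok.cardE
  rw [hD] at g4 g5
  rw [g4, g5] at g3
  push_cast at g3
  refine ⟨D1, D2, hok, hD, ⟨hok.v1, hok.m1, Dgm.connEx_none.2 c1, q1, q1', ?_⟩,
    ⟨hok.v2, hok.m2, Dgm.connEx_none.2 c2, q2, q2', ?_⟩⟩
  · push_cast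
    linarith
  · push_cast
    linarith

/-- cutting at an elevator which ends at the root -/
theorem Q.cut_down {p : ℤ} {D : Dgm} {v : ℕ} (h : Q 0 p none D v) {e0 : Elev} (he0 : e0 ∈ D.E)
    (ht : e0.tgt = some v) :
    ∃ D1 D2 : Dgm, Dgm.GlueOk e0.wt e0.pt e0.src v D1 D2 ∧
      Dgm.glue e0.wt e0.pt e0.src v D1 D2 = D ∧
      Q 0 (1 - e0.wt) none D1 e0.src ∧ Q 0 (p + e0.wt) none D2 v := by
  obtain ⟨D1, D2, hok, hD, c1, c2⟩ := Dgm.cut_glue h.valid (Dgm.connEx_none.1 h.conn) he0 ht h.tree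
  have d1 : ∀ f ∈ D1.F, D.div f = D1.div f + (if f = e0.src then (e0.wt : ℤ) else 0) := by
    intro f hf
    conv_lhs => rw [← hD]
    exact hok.div1 hf
  have d2 : ∀ f ∈ D2.F, D.div f = D2.div f - (if f = v then (e0.wt : ℤ) else 0) := by
    intro f hf
    conv_lhs => rw [← hD]
    exact hok.div2 hf
  have f1 : ∀ f ∈ D1.F, f ∈ D.F := fun f hf => by rw [← hD]; exact mem_union_left _ hf
  have f2 : ∀ f ∈ D2.F, f ∈ D.F := fun f hf => by rw [← hD]; exact mem_union_right _ hf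
  have hn1 : ∀ f ∈ D1.F, f ≠ v := by
    rintro f hf rfl
    exact Finset.disjoint_left.1 hok.disjF hf hok.m2
  have q1 : D1.div e0.src = 1 - e0.wt := by
    have := d1 e0.src hok.m1
    rw [if_pos rfl, h.div _ (f1 _ hok.m1) (hn1 _ hok.m1)] at this
    linarith
  have q1' : ∀ f ∈ D1.F, f ≠ e0.src → D1.div f = 1 := by
    intro f hf hne
    have := d1 f hf
    rw [if_neg hne, h.div f (f1 f hf) (hn1 f hf)] at this
    linarith
  have q2 : D2.div v = p + e0.wt := by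
    have := d2 v hok.m2
    rw [if_pos rfl, h.divv] at this
    linarith
  have q2' : ∀ f ∈ D2.F, f ≠ v → D2.div f = 1 := by
    intro f hf hne
    have := d2 f hf
    rw [if_neg hne, h.div f (f2 f hf) hne] at this
    linarith
  have g1 := Dgm.genus_nonneg hok.v1 c1 hok.m1 q1 q1'
  have g2 := Dgm.genus_nonneg hok.v2 c2 hok.m2 q2 q2'
  have g3 := h.cnt
  have g4 := hok.cardF
  have g5 := hok.cardE
  rw [hD] at g4 g5
  rw [g4, g5] at g3
  push_cast at g3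
  refine ⟨D1, D2, hok, hD, ⟨hok.v1, hok.m1, Dgm.connEx_none.2 c1, q1, q1', ?_⟩,
    ⟨hok.v2, hok.m2, Dgm.connEx_none.2 c2, q2, q2', ?_⟩⟩
  · push_cast
    linarith
  · push_cast
    linarith

end Pool.Agent.FloorDiag
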