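import Pool.Agent.Lib.MP_6aab98_ag.Up2

/-! # MP_6aab98_ag: the recursion for the embedded trees -/

namespace Pool.Agent.FloorDiag

open Finset
open scoped ENNReal NNReal Nat

/-- the sum over all ways to link two systems -/
theorem cover_sum (n : ℕ) (x : ℝ≥0∞) (v : ℕ) (bet : ℕ → ℕ → Prop) (len : ℕ → ℕ)
    (S : ℕ → Finset ℕ) (hS : ∀ r c, bet c r → c ∈ S r) (hlen : ∀ r, (S r).card ≤ len r)
    (A B : ℕ → Dgm → ℕ → Prop) (f : Dgm → ℝ≥0∞) (ph : ℕ × ℕ × ℕ × Dgm × Dgm → Dgm)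
    (h : ∀ D, f D ≠ 0 → ∃ r k c D1 D2, ph (r, k, c, D1, D2) = D ∧ r < n ∧ bet c r ∧
      D1.pts ⊆ range n ∧ B k D1 v ∧ D2.pts ⊆ range n ∧ A k D2 r ∧
      f D = ((k + 1 : ℕ) : ℝ≥0∞) ^ 2 * (x ^ D1.F.card * D1.mult) * (x ^ D2.F.card * D2.mult)) :
    ∑' D, f D ≤ ∑ r ∈ range n, ∑' k : ℕ,
      (len r : ℝ≥0∞) * ((k + 1 : ℕ) : ℝ≥0∞) ^ 2 * SS n x (B k) v * SS n x (A k) r := by
  classical
  let G : ℕ × ℕ × ℕ × Dgm × Dgm → ℝ≥0∞ := fun b =>
    if b.1 < n ∧ b.2.2.1 ∈ S b.1 then ((b.2.1 + 1 : ℕ) : ℝ≥0∞) ^ 2 *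
      wtD n x (B b.2.1) b.2.2.2.1 v * wtD n x (A b.2.1) b.2.2.2.2 b.1 else 0
  have h1 : ∑' D, f D ≤ ∑' b, G b := by
    refine tsum_le_cover f G ph ?_
    intro D hD
    obtain ⟨r, k, c, D1, D2, e1, hr, hb, hp1, hB, hp2, hA, hf⟩ := h D hD
    refine ⟨_, e1, ?_⟩
    rw [hf]
    simp only [G]
    rw [if_pos ⟨hr, hS r c hb⟩, wtD_pos hp1 hB, wtD_pos hp2 hA]
  refine h1.trans ?_
  have h2 : ∑' b, G b = ∑' r, ∑' k, ∑' c, ∑' D1, ∑' D2, G (r, k, c, D1, D2) := by
    rw [ENNReal.tsum_prod']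
    refine tsum_congr fun r => ?_
    rw [ENNReal.tsum_prod']
    refine tsum_congr fun k => ?_
    rw [ENNReal.tsum_prod']
    refine tsum_congr fun c => ?_
    rw [ENNReal.tsum_prod']
  rw [h2]
  have h3 : ∀ r k c, ∑' D1, ∑' D2, G (r, k, c, D1, D2) =
      if r < n ∧ c ∈ S r then ((k + 1 : ℕ) : ℝ≥0∞) ^ 2 * SS n x (B k) v * SS n x (A k) r else 0 := by
    intro r k c
    by_cases hc : r < n ∧ c ∈ S r
    · simp only [G, hc, and_self, if_true]
      simp_rw [ENNReal.tsum_mul_left, ENNReal.tsum_mul_right, ENNReal.tsum_mul_left]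
      rfl
    · have h4 : ∀ D1 D2, G (r, k, c, D1, D2) = 0 := by
        intro D1 D2
        simp only [G]
        rw [if_neg hc]
      simp only [h4, tsum_zero, if_neg hc]
  simp_rw [h3]
  rw [tsum_eq_sum (s := range n)]
  · apply sum_le_sum
    intro r hr
    have hr' := mem_range.1 hr
    refine ENNReal.tsum_le_tsum fun k => ?_
    rw [tsum_eq_sum (s := S r)]
    · rw [sum_congr rfl (g := fun _ => ((k + 1 : ℕ) : ℝ≥0∞) ^ 2 * SS n x (B k) v * SS n x (A k) r)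
        (fun c hc => if_pos ⟨hr', hc⟩), sum_const, nsmul_eq_mul]
      have h5 : ((S r).card : ℝ≥0∞) ≤ len r := by exact_mod_cast hlen r
      calc ((S r).card : ℝ≥0∞) * (((k + 1 : ℕ) : ℝ≥0∞) ^ 2 * SS n x (B k) v * SS n x (A k) r)
          ≤ len r * (((k + 1 : ℕ) : ℝ≥0∞) ^ 2 * SS n x (B k) v * SS n x (A k) r) := by gcongr
        _ = _ := by ring
    · intro c hc
      rw [if_neg (fun h => hc h.2)]
  · intro r hr
    have hr' : ¬ r < n := fun h => hr (mem_range.2 h)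
    simp only [hr', false_and, if_false, tsum_zero]

theorem glue_left_pts {a c r1 r2 : ℕ} {D1 D2 : Dgm} {n : ℕ}
    (h : (Dgm.glue a c r1 r2 D1 D2).pts ⊆ range n) : D1.pts ⊆ range n ∧ D2.pts ⊆ range n := by
  rw [Dgm.glue_pts] at h
  exact ⟨fun z hz => h (mem_insert_of_mem (mem_union_left _ hz)),
    fun z hz => h (mem_insert_of_mem (mem_union_right _ hz))⟩

theorem glue_cards {a c r1 r2 : ℕ} {D1 D2 : Dgm} {m : ℕ} (h : Dgm.GlueOk a c r1 r2 D1 D2)
    (hm : (Dgm.glue a c r1 r2 D1 D2).F.card ≤ m + 1) : D1.F.card ≤ m ∧ D2.F.card ≤ m := by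
  rw [h.cardF] at hm
  have h1 := card_pos.2 ⟨_, h.m1⟩
  have h2 := card_pos.2 ⟨_, h.m2⟩
  omega

/-- the recursion -/
theorem step2 (n : ℕ) (x : ℝ≥0∞) (m : ℕ) (q : ℤ) (v : ℕ) :
    SS n x (TB (m + 1) q) v ≤ (if q = 0 then x else 0) +
      (∑ r ∈ range n, ∑' k : ℕ, ((r - v : ℕ) : ℝ≥0∞) * ((k + 1 : ℕ) : ℝ≥0∞) ^ 2 *
        SS n x (TB m (q - (k + 1 : ℕ))) v * SS n x (TA m (1 + (k + 1 : ℕ))) r +
      ∑ r ∈ range n, ∑' k : ℕ, ((v - r : ℕ) : ℝ≥0∞) * ((k + 1 : ℕ) : ℝ≥0∞) ^ 2 *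
        SS n x (TB m (q + (k + 1 : ℕ))) v * SS n x (TA m (1 - (k + 1 : ℕ))) r) := by
  classical
  let f0 : Dgm → ℝ≥0∞ := fun D => if D.E = ∅ then wtD n x (TB (m + 1) q) D v else 0
  let f1 : Dgm → ℝ≥0∞ := fun D =>
    if ∃ e0 ∈ D.E, e0.src = v then wtD n x (TB (m + 1) q) D v else 0
  let f2 : Dgm → ℝ≥0∞ := fun D =>
    if ∃ e0 ∈ D.E, e0.tgt = some v then wtD n x (TB (m + 1) q) D v else 0
  have hsum : SS n x (TB (m + 1) q) v ≤ ∑' D, f0 D + (∑' D, f1 D + ∑' D, f2 D) := by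
    rw [← ENNReal.tsum_add, ← ENNReal.tsum_add]
    refine ENNReal.tsum_le_tsum fun D => ?_
    by_cases h0 : wtD n x (TB (m + 1) q) D v = 0
    · rw [h0]; exact zero_le
    obtain ⟨hp, ⟨hQ, hm⟩, hB⟩ := wtD_ne h0
    by_cases c1 : ∃ e0 ∈ D.E, e0.src = v
    · have : f1 D = wtD n x (TB (m + 1) q) D v := if_pos c1
      rw [← this]
      exact le_add_left (le_add_right le_rfl)
    · by_cases c2 : ∃ e0 ∈ D.E, e0.tgt = some v
      · have : f2 D = wtD n x (TB (m + 1) q) D v := if_pos c2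
        rw [← this]
        exact le_add_left (le_add_left le_rfl)
      · have hE : D.E = ∅ := by
          rw [Finset.eq_empty_iff_forall_notMem]
          intro e he
          have hcl : D.Closed {v} := by
            intro e' he'
            have h1 : e'.pt ≠ v := hQ.valid.pt_notF he' hQ.mem
            have h2 : e'.src ≠ v := fun h => c1 ⟨e', he', h⟩
            refine ⟨iff_of_false h1 h2, fun q' hq' => iff_of_false h1 ?_⟩
            rintro rfl
            exact c2 ⟨e', he', hq'⟩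
          have h3 := Dgm.connEx_none.1 hQ.conn _ hcl ⟨v, Dgm.mem_pts_of_F hQ.mem, rfl⟩ e.pt
            (Dgm.mem_pts_of_E he)
          exact hQ.valid.pt_notF he hQ.mem h3
        have : f0 D = wtD n x (TB (m + 1) q) D v := if_pos hE
        rw [← this]
        exact le_add_right le_rfl
  refine hsum.trans (add_le_add ?_ (add_le_add ?_ ?_))
  · have h1 : ∑' D, f0 D ≤ ∑' _ : Unit, (if q = 0 then x else 0) := by
      refine tsum_le_cover f0 _ (fun _ => ⟨{v}, ∅⟩) ?_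
      intro D hD
      refine ⟨(), ?_⟩
      have hE : D.E = ∅ := by
        by_contra h
        exact hD (if_neg h)
      have hf : f0 D = wtD n x (TB (m + 1) q) D v := if_pos hE
      rw [hf] at hD ⊢
      obtain ⟨hp, hT⟩ := wtD_ne hD
      obtain ⟨⟨hQ, hm⟩, hB⟩ := id hT
      have hcl : D.Closed {v} := by
        intro e' he'
        rw [hE] at he'
        exact absurd he' (notMem_empty _)
      have h3 := Dgm.connEx_none.1 hQ.conn _ hcl ⟨v, Dgm.mem_pts_of_F hQ.mem, rfl⟩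
      have hF : D.F = {v} := by
        ext f
        rw [mem_singleton]
        constructor
        · intro hf
          exact h3 f (Dgm.mem_pts_of_F hf)
        · rintro rfl
          exact hQ.mem
      have hq : q = 0 := by
        have := hQ.cnt
        rw [hF, hE] at this
        simp only [card_singleton, card_empty] at this
        push_cast at this
        omega
      constructor
      · obtain ⟨F, E⟩ := D
        simp only at hF hE
        subst hF hE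
        rfl
      · rw [if_pos hq, wtD_pos hp hT, hF]
        unfold Dgm.mult
        rw [hE]
        simp
    refine h1.trans (le_of_eq ?_)
    simp
  · refine cover_sum n x v (fun c r => v < c ∧ c < r) (fun r => r - v) (fun r => Ioo v r)
      (fun r c h => mem_Ioo.2 h) (fun r => by rw [Nat.card_Ioo]; omega)
      (fun k => TA m (1 + (k + 1 : ℕ))) (fun k => TB m (q - (k + 1 : ℕ))) f1
      (fun b => Dgm.glue (b.2.1 + 1) b.2.2.1 v b.1 b.2.2.2.1 b.2.2.2.2) ?_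
    intro D hD
    have hex : ∃ e0 ∈ D.E, e0.src = v := by
      by_contra h
      exact hD (if_neg h)
    have hf : f1 D = wtD n x (TB (m + 1) q) D v := if_pos hex
    rw [hf] at hD ⊢
    obtain ⟨hp, hT⟩ := wtD_ne hD
    obtain ⟨⟨hQ, hm⟩, hB⟩ := id hT
    obtain ⟨e0, he0, hs⟩ := hex
    obtain ⟨t, ht⟩ := Option.ne_none_iff_exists'.1 (hB e0 he0 hs)
    obtain ⟨D1, D2, hok, hg, hQ1, hQ2⟩ := Q.cut_up hQ he0 hs ht
    have hw := hok.pos
    have hw' : e0.wt - 1 + 1 = e0.wt := by omega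
    have hpg := hp
    rw [← hg] at hpg
    obtain ⟨hp1, hp2⟩ := glue_left_pts hpg
    have hmg := hm
    rw [← hg] at hmg
    obtain ⟨hm1, hm2⟩ := glue_cards hok hmg
    refine ⟨t, e0.wt - 1, e0.pt, D1, D2, ?_, ?_, ⟨hok.lt1, hok.lt2⟩, hp1, ?_, hp2, ?_, ?_⟩
    · simp only [hw']
      exact hg
    · exact mem_range.1 (hp2 (Dgm.mem_pts_of_F hok.m2))
    · rw [hw']
      refine ⟨⟨hQ1, hm1⟩, ?_⟩
      intro e he
      refine hB e ?_
      rw [← hg]
      exact mem_insert_of_mem (mem_union_left _ he)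
    · rw [hw']
      exact ⟨hQ2, hm2⟩
    · rw [hw', wtD_pos hp hT]
      have e1 : D.F.card = D1.F.card + D2.F.card := by rw [← hg]; exact hok.cardF
      have e2 : D.mult = e0.wt ^ 2 * (D1.mult * D2.mult) := by
        conv_lhs => rw [← hg]
        exact hok.mult
      rw [e1, e2, pow_add]
      push_cast
      ring
  · refine cover_sum n x v (fun c r => r < c ∧ c < v) (fun r => v - r) (fun r => Ioo r v)
      (fun r c h => mem_Ioo.2 h) (fun r => by rw [Nat.card_Ioo]; omega)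
      (fun k => TA m (1 - (k + 1 : ℕ))) (fun k => TB m (q + (k + 1 : ℕ))) f2
      (fun b => Dgm.glue (b.2.1 + 1) b.2.2.1 b.1 v b.2.2.2.2 b.2.2.2.1) ?_
    intro D hD
    have hex : ∃ e0 ∈ D.E, e0.tgt = some v := by
      by_contra h
      exact hD (if_neg h)
    have hf : f2 D = wtD n x (TB (m + 1) q) D v := if_pos hex
    rw [hf] at hD ⊢
    obtain ⟨hp, hT⟩ := wtD_ne hD
    obtain ⟨⟨hQ, hm⟩, hB⟩ := id hT
    obtain ⟨e0, he0, ht⟩ := hex
    obtain ⟨D1, D2, hok, hg, hQ1, hQ2⟩ := Q.cut_down hQ he0 ht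
    have hw := hok.pos
    have hw' : e0.wt - 1 + 1 = e0.wt := by omega
    have hpg := hp
    rw [← hg] at hpg
    obtain ⟨hp1, hp2⟩ := glue_left_pts hpg
    have hmg := hm
    rw [← hg] at hmg
    obtain ⟨hm1, hm2⟩ := glue_cards hok hmg
    refine ⟨e0.src, e0.wt - 1, e0.pt, D2, D1, ?_, ?_, ⟨hok.lt1, hok.lt2⟩, hp2, ?_, hp1, ?_, ?_⟩
    · simp only [hw']
      exact hg
    · exact mem_range.1 (hp1 (Dgm.mem_pts_of_F hok.m1))
    · rw [hw']
      refine ⟨⟨hQ2, hm2⟩, ?_⟩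
      intro e he
      refine hB e ?_
      rw [← hg]
      exact mem_insert_of_mem (mem_union_right _ he)
    · rw [hw']
      exact ⟨hQ1, hm1⟩
    · rw [hw', wtD_pos hp hT]
      have e1 : D.F.card = D1.F.card + D2.F.card := by rw [← hg]; exact hok.cardF
      have e2 : D.mult = e0.wt ^ 2 * (D1.mult * D2.mult) := by
        conv_lhs => rw [← hg]
        exact hok.mult
      rw [e1, e2, pow_add]
      push_cast
      ring

end Pool.Agent.FloorDiag
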