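import Pool.Agent.Lib.MP_6aab98_ag.Up3

/-! # MP_6aab98_ag: weighted norms of the embedded trees -/

namespace Pool.Agent.FloorDiag

open Finset
open scoped ENNReal NNReal Nat

/-- the constant of the unbounded elevators -/
noncomputable def Ec : ℝ := Real.exp (2 * Real.exp 1)

theorem one_le_Ec : 1 ≤ Ec := Real.one_le_exp (by positivity)

/-- the position weight -/
noncomputable def zr (n v : ℕ) : ℝ := Real.exp ((v : ℝ) / n) / n

/-- powers of the position weight -/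
noncomputable def Zw (n v : ℕ) (p : ℤ) : ℝ≥0∞ := ENNReal.ofReal (zr n v ^ p)

theorem zr_pos {n : ℕ} (hn : 1 ≤ n) (v : ℕ) : 0 < zr n v := by
  unfold zr
  have : (0 : ℝ) < n := by exact_mod_cast hn
  positivity

theorem Zw_add {n : ℕ} (hn : 1 ≤ n) (v : ℕ) (p q : ℤ) : Zw n v (p + q) = Zw n v p * Zw n v q := by
  have h := zr_pos hn v
  unfold Zw
  rw [zpow_add₀ h.ne', ENNReal.ofReal_mul (by positivity)]

theorem Zw_zero (n v : ℕ) : Zw n v 0 = 1 := by
  unfold Zw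
  simp

theorem Zw_cancel {n : ℕ} (hn : 1 ≤ n) (v : ℕ) (p : ℤ) : Zw n v p * Zw n v (-p) = 1 := by
  rw [← Zw_add hn, add_neg_cancel, Zw_zero]

/-- weighted supremum -/
noncomputable def bB (n : ℕ) (x : ℝ≥0∞) (m : ℕ) (q : ℤ) : ℝ≥0∞ :=
  ⨆ v ∈ range n, SS n x (TB m q) v * Zw n v q

/-- weighted supremum -/
noncomputable def bA (n : ℕ) (x : ℝ≥0∞) (m : ℕ) (q : ℤ) : ℝ≥0∞ :=
  ⨆ v ∈ range n, SS n x (TA m q) v * Zw n v q

theorem le_bB {n : ℕ} {x : ℝ≥0∞} {m : ℕ} {q : ℤ} {v : ℕ} (hv : v < n) :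
    SS n x (TB m q) v * Zw n v q ≤ bB n x m q :=
  le_iSup₂ (f := fun v (_ : v ∈ range n) => SS n x (TB m q) v * Zw n v q) v (mem_range.2 hv)

theorem le_bA {n : ℕ} {x : ℝ≥0∞} {m : ℕ} {q : ℤ} {v : ℕ} (hv : v < n) :
    SS n x (TA m q) v * Zw n v q ≤ bA n x m q :=
  le_iSup₂ (f := fun v (_ : v ∈ range n) => SS n x (TA m q) v * Zw n v q) v (mem_range.2 hv)

theorem SA_le {n : ℕ} {x : ℝ≥0∞} {m : ℕ} {q : ℤ} {v : ℕ} (hn : 1 ≤ n) (hv : v < n) :
    SS n x (TA m q) v ≤ bA n x m q * Zw n v (-q) := by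
  calc SS n x (TA m q) v = SS n x (TA m q) v * (Zw n v q * Zw n v (-q)) := by
        rw [Zw_cancel hn, mul_one]
    _ = (SS n x (TA m q) v * Zw n v q) * Zw n v (-q) := by ring
    _ ≤ _ := by gcongr; exact le_bA hv

theorem choose_Zw {n : ℕ} (hn : 1 ≤ n) {v : ℕ} (hv : v < n) (k : ℕ) :
    (n.choose k : ℝ≥0∞) * Zw n v k ≤ ENNReal.ofReal Ec * 2⁻¹ ^ k := by
  have hnR : (0 : ℝ) < n := by exact_mod_cast hn
  have h1 : (n.choose k : ℝ) ≤ (n : ℝ) ^ k / k ! := Nat.choose_le_pow_div k n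
  have h2 : zr n v ^ (k : ℤ) ≤ (Real.exp 1 / n) ^ k := by
    rw [zpow_natCast]
    have : zr n v ≤ Real.exp 1 / n := by
      unfold zr
      gcongr
      rw [div_le_one hnR]
      exact_mod_cast hv.le
    exact pow_le_pow_left₀ (zr_pos hn v).le this k
  have h3 : (2 * Real.exp 1) ^ k / k ! ≤ Ec :=
    Real.pow_div_factorial_le_exp (2 * Real.exp 1) (by positivity) k
  have h4 : (n.choose k : ℝ) * zr n v ^ (k : ℤ) ≤ Ec * (1 / 2) ^ k := by
    have h0 := zr_pos hn v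
    calc (n.choose k : ℝ) * zr n v ^ (k : ℤ) ≤ ((n : ℝ) ^ k / k !) * (Real.exp 1 / n) ^ k := by
          gcongr
      _ = ((2 * Real.exp 1) ^ k / k !) * (1 / 2) ^ k := by
          rw [div_pow, div_pow, mul_pow, one_pow]
          field_simp
      _ ≤ Ec * (1 / 2) ^ k := by gcongr
  have e1 : (n.choose k : ℝ≥0∞) = ENNReal.ofReal (n.choose k : ℝ) := by
    rw [ENNReal.ofReal_natCast]
  have e2 : (2⁻¹ : ℝ≥0∞) = ENNReal.ofReal (1 / 2) := by
    rw [one_div, ENNReal.ofReal_inv_of_pos (by norm_num)]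
    norm_num
  unfold Zw
  rw [e1, e2, ← ENNReal.ofReal_mul (by positivity), ← ENNReal.ofReal_pow (by norm_num),
    ← ENNReal.ofReal_mul (by linarith [one_le_Ec])]
  exact ENNReal.ofReal_le_ofReal h4

theorem bA_le {n : ℕ} (hn : 1 ≤ n) (x : ℝ≥0∞) (m : ℕ) (p : ℤ) :
    bA n x m p ≤ ENNReal.ofReal Ec * ∑' k : ℕ, 2⁻¹ ^ k * bB n x m (p - k) := by
  refine iSup₂_le fun v hv => ?_
  have hv' := mem_range.1 hv
  calc SS n x (TA m p) v * Zw n v p
      ≤ (∑ k ∈ range (n + 1), (n.choose k : ℝ≥0∞) * SS n x (TB m (p - k)) v) * Zw n v p := by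
        gcongr
        exact step1 n x m p v
    _ = ∑ k ∈ range (n + 1), ((n.choose k : ℝ≥0∞) * Zw n v k) *
          (SS n x (TB m (p - k)) v * Zw n v (p - k)) := by
        rw [sum_mul]
        apply sum_congr rfl
        intro k _
        have : Zw n v p = Zw n v k * Zw n v (p - k) := by
          rw [← Zw_add hn]; congr 1; ring
        rw [this]
        ring
    _ ≤ ∑ k ∈ range (n + 1), (ENNReal.ofReal Ec * 2⁻¹ ^ k) * bB n x m (p - k) := by
        apply sum_le_sum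
        intro k _
        exact mul_le_mul' (choose_Zw hn hv' k) (le_bB hv')
    _ ≤ ∑' k : ℕ, (ENNReal.ofReal Ec * 2⁻¹ ^ k) * bB n x m (p - k) :=
        ENNReal.sum_le_tsum _
    _ = _ := by
        rw [← ENNReal.tsum_mul_left]
        refine tsum_congr fun k => ?_
        ring

theorem tsum_shift (f : ℤ → ℝ≥0∞) (c : ℤ) : ∑' p, f (p - c) = ∑' p, f p :=
  (Equiv.subRight c).tsum_eq f

theorem tsum_shift' (f : ℤ → ℝ≥0∞) (c : ℤ) : ∑' p, f (p + c) = ∑' p, f p :=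
  (Equiv.addRight c).tsum_eq f

theorem sum_half : ∑' k : ℕ, (2⁻¹ : ℝ≥0∞) ^ k = 2 := by
  rw [ENNReal.tsum_geometric, ENNReal.one_sub_inv_two, inv_inv]

theorem sum_bA_le {n : ℕ} (hn : 1 ≤ n) (x : ℝ≥0∞) (m : ℕ) :
    ∑' p, bA n x m p ≤ 2 * ENNReal.ofReal Ec * ∑' q, bB n x m q := by
  calc ∑' p, bA n x m p
      ≤ ∑' p, ENNReal.ofReal Ec * ∑' k : ℕ, 2⁻¹ ^ k * bB n x m (p - k) :=
        ENNReal.tsum_le_tsum fun p => bA_le hn x m p
    _ = ENNReal.ofReal Ec * ∑' k : ℕ, 2⁻¹ ^ k * ∑' q, bB n x m q := by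
        rw [ENNReal.tsum_mul_left, ENNReal.tsum_comm]
        congr 1
        refine tsum_congr fun k => ?_
        rw [ENNReal.tsum_mul_left, tsum_shift]
    _ = _ := by
        rw [ENNReal.tsum_mul_right, sum_half]
        ring

/-! ### the kernel -/

theorem geo_le {s : ℝ} (hs : 0 < s) (N : ℕ) :
    ∑ j ∈ range N, (j : ℝ) * Real.exp (-s) ^ j ≤ 1 / s ^ 2 := by
  have hy0 : 0 < Real.exp (-s) := Real.exp_pos _
  have hy1 : Real.exp (-s) < 1 := by
    rw [← Real.exp_zero]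
    exact Real.exp_lt_exp.2 (by linarith)
  have hn : ‖Real.exp (-s)‖ < 1 := by rw [Real.norm_of_nonneg hy0.le]; exact hy1
  have h1 := sum_le_hasSum (range N) (fun j _ => by positivity)
    (hasSum_coe_mul_geometric_of_norm_lt_one hn)
  refine h1.trans ?_
  have h2 : s / 2 ≤ Real.sinh (s / 2) := Real.self_le_sinh_iff.2 (by linarith)
  rw [Real.sinh_eq] at h2
  set w := Real.exp (-(s / 2)) with hw
  have hw0 : 0 < w := Real.exp_pos _
  have e1 : Real.exp (s / 2) * w = 1 := by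
    rw [hw, ← Real.exp_add, add_neg_cancel, Real.exp_zero]
  have e2 : Real.exp (-s) = w ^ 2 := by
    rw [hw, ← Real.exp_nat_mul]
    congr 1
    push_cast
    ring
  have h3 : s * w ≤ 1 - w ^ 2 := by nlinarith
  rw [e2] at hy1 ⊢
  rw [div_le_div_iff₀ (by nlinarith) (by positivity)]
  have h4 : 0 ≤ s * w := by positivity
  nlinarith

theorem sum_up (g : ℕ → ℝ) (h0 : g 0 = 0) {n v : ℕ} (hv : v < n) :
    ∑ r ∈ range n, g (r - v) = ∑ j ∈ range (n - v), g j := by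
  obtain ⟨w, rfl⟩ := Nat.exists_eq_add_of_lt hv
  have e1 : v + w + 1 = v + (w + 1) := by ring
  rw [e1, sum_range_add]
  have h1 : ∑ r ∈ range v, g (r - v) = 0 := by
    apply sum_eq_zero
    intro r hr
    have := mem_range.1 hr
    rw [show r - v = 0 by omega, h0]
  rw [h1, zero_add, show v + (w + 1) - v = w + 1 by omega]
  apply sum_congr rfl
  intro j _
  rw [show v + j - v = j by omega]

theorem sum_down (g : ℕ → ℝ) (h0 : g 0 = 0) {n v : ℕ} (hv : v < n) :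
    ∑ r ∈ range n, g (v - r) = ∑ j ∈ range (v + 1), g j := by
  obtain ⟨w, rfl⟩ := Nat.exists_eq_add_of_lt hv
  have e1 : v + w + 1 = v + (w + 1) := by ring
  rw [e1, sum_range_add]
  have h1 : ∑ j ∈ range (w + 1), g (v - (v + j)) = 0 := by
    apply sum_eq_zero
    intro r _
    rw [show v - (v + r) = 0 by omega, h0]
  rw [h1, add_zero, sum_range_succ', h0, add_zero, ← sum_range_reflect]
  apply sum_congr rfl
  intro j hj
  have := mem_range.1 hj
  congr 1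
  omega

theorem kern_aux {n : ℕ} (hn : 1 ≤ n) (k : ℕ) (N : ℕ) :
    ∑ j ∈ range N, ((j : ℝ) * ((k + 1 : ℕ) : ℝ) ^ 2 * (n * Real.exp (-(((k + 1 : ℕ) : ℝ) / n)) ^ j)) ≤
      (n : ℝ) ^ 3 := by
  have hnR : (0 : ℝ) < n := by exact_mod_cast hn
  have hk : (0 : ℝ) < ((k + 1 : ℕ) : ℝ) := by positivity
  have h1 := geo_le (s := ((k + 1 : ℕ) : ℝ) / n) (by positivity) N
  calc ∑ j ∈ range N, ((j : ℝ) * ((k + 1 : ℕ) : ℝ) ^ 2 *
        (n * Real.exp (-(((k + 1 : ℕ) : ℝ) / n)) ^ j))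
      = (((k + 1 : ℕ) : ℝ) ^ 2 * n) * ∑ j ∈ range N, (j : ℝ) *
        Real.exp (-(((k + 1 : ℕ) : ℝ) / n)) ^ j := by
        rw [mul_sum]
        apply sum_congr rfl
        intro j _
        ring
    _ ≤ (((k + 1 : ℕ) : ℝ) ^ 2 * n) * (1 / (((k + 1 : ℕ) : ℝ) / n) ^ 2) := by
        gcongr
    _ = (n : ℝ) ^ 3 := by
        field_simp

theorem zr_quot {n : ℕ} (hn : 1 ≤ n) (k : ℕ) {u r : ℕ} (hur : u ≤ r) :
    zr n u ^ (k + 1) * (zr n r ^ (k + 2))⁻¹ ≤
      n * Real.exp (-(((k + 1 : ℕ) : ℝ) / n)) ^ (r - u) := by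
  have hnR : (0 : ℝ) < n := by exact_mod_cast hn
  unfold zr
  rw [div_pow, div_pow, ← Real.exp_nat_mul, ← Real.exp_nat_mul, ← Real.exp_nat_mul, inv_div,
    div_mul_div_comm]
  have hle : Real.exp (((k + 1 : ℕ) : ℝ) * (u / n)) / Real.exp (((k + 2 : ℕ) : ℝ) * (r / n)) ≤
      Real.exp (((r - u : ℕ) : ℝ) * (-(((k + 1 : ℕ) : ℝ) / n))) := by
    rw [← Real.exp_sub]
    apply Real.exp_le_exp.2
    rw [Nat.cast_sub hur]
    have : (0 : ℝ) ≤ r / n := by positivity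
    push_cast
    have e1 : ((k : ℝ) + 1) * (u / n) - (k + 2) * (r / n) =
        ((r : ℝ) - u) * (-((k + 1) / n)) - r / n := by
      field_simp
      ring
    rw [e1]
    linarith
  calc Real.exp (((k + 1 : ℕ) : ℝ) * (u / n)) * (n : ℝ) ^ (k + 2) /
        ((n : ℝ) ^ (k + 1) * Real.exp (((k + 2 : ℕ) : ℝ) * (r / n)))
      = n * (Real.exp (((k + 1 : ℕ) : ℝ) * (u / n)) / Real.exp (((k + 2 : ℕ) : ℝ) * (r / n))) := by
        rw [pow_succ (n : ℝ) (k + 1)]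
        have := Real.exp_pos (((k + 2 : ℕ) : ℝ) * (r / n))
        field_simp
    _ ≤ _ := by gcongr

theorem kern_up {n : ℕ} (hn : 1 ≤ n) (k : ℕ) {v : ℕ} (hv : v < n) :
    ∑ r ∈ range n, ((r - v : ℕ) : ℝ≥0∞) * ((k + 1 : ℕ) : ℝ≥0∞) ^ 2 * Zw n v (k + 1 : ℕ) *
      Zw n r (-(1 + (k + 1 : ℕ))) ≤ (n : ℝ≥0∞) ^ 3 := by
  have hnR : (0 : ℝ) < n := by exact_mod_cast hn
  set y : ℝ := Real.exp (-(((k + 1 : ℕ) : ℝ) / n)) with hy
  have hterm : ∀ r ∈ range n, ((r - v : ℕ) : ℝ≥0∞) * ((k + 1 : ℕ) : ℝ≥0∞) ^ 2 *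
      Zw n v (k + 1 : ℕ) * Zw n r (-(1 + (k + 1 : ℕ))) ≤
      ENNReal.ofReal (((r - v : ℕ) : ℝ) * ((k + 1 : ℕ) : ℝ) ^ 2 * (n * y ^ (r - v))) := by
    intro r _
    rcases Nat.lt_or_ge v r with h | h
    · have h1 := zr_quot hn k h.le
      have h2 := zr_pos hn v
      have h3 := zr_pos hn r
      unfold Zw
      have e1 : zr n v ^ ((k + 1 : ℕ) : ℤ) = zr n v ^ (k + 1) := zpow_natCast _ _
      have e2 : zr n r ^ (-(1 + ((k + 1 : ℕ) : ℤ))) = (zr n r ^ (k + 2))⁻¹ := by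
        rw [zpow_neg, ← zpow_natCast]
        congr 2
        push_cast
        ring
      rw [e1, e2, ← ENNReal.ofReal_natCast, ← ENNReal.ofReal_natCast, ← ENNReal.ofReal_pow (by positivity),
        ← ENNReal.ofReal_mul (by positivity), ← ENNReal.ofReal_mul (by positivity),
        ← ENNReal.ofReal_mul (by positivity)]
      apply ENNReal.ofReal_le_ofReal
      rw [mul_assoc]
      gcongr
    · rw [show r - v = 0 by omega]
      simp
  calc _ ≤ ∑ r ∈ range n, ENNReal.ofReal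
        (((r - v : ℕ) : ℝ) * ((k + 1 : ℕ) : ℝ) ^ 2 * (n * y ^ (r - v))) := sum_le_sum hterm
    _ = ENNReal.ofReal (∑ r ∈ range n,
        (((r - v : ℕ) : ℝ) * ((k + 1 : ℕ) : ℝ) ^ 2 * (n * y ^ (r - v)))) := by
        rw [ENNReal.ofReal_sum_of_nonneg]
        intro r _
        positivity
    _ ≤ ENNReal.ofReal ((n : ℝ) ^ 3) := by
        apply ENNReal.ofReal_le_ofReal
        rw [sum_up (fun j => (j : ℝ) * ((k + 1 : ℕ) : ℝ) ^ 2 * (n * y ^ j)) (by simp) hv]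
        exact kern_aux hn k _
    _ = (n : ℝ≥0∞) ^ 3 := by
        rw [ENNReal.ofReal_pow hnR.le, ENNReal.ofReal_natCast]

theorem kern_down {n : ℕ} (hn : 1 ≤ n) (k : ℕ) {v : ℕ} (hv : v < n) :
    ∑ r ∈ range n, ((v - r : ℕ) : ℝ≥0∞) * ((k + 1 : ℕ) : ℝ≥0∞) ^ 2 * Zw n v (-(k + 1 : ℕ)) *
      Zw n r (-(1 - (k + 1 : ℕ))) ≤ (n : ℝ≥0∞) ^ 3 := by
  have hnR : (0 : ℝ) < n := by exact_mod_cast hn
  set y : ℝ := Real.exp (-(((k + 1 : ℕ) : ℝ) / n)) with hy
  have hterm : ∀ r ∈ range n, ((v - r : ℕ) : ℝ≥0∞) * ((k + 1 : ℕ) : ℝ≥0∞) ^ 2 *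
      Zw n v (-(k + 1 : ℕ)) * Zw n r (-(1 - (k + 1 : ℕ))) ≤
      ENNReal.ofReal (((v - r : ℕ) : ℝ) * ((k + 1 : ℕ) : ℝ) ^ 2 * (n * y ^ (v - r))) := by
    intro r _
    rcases Nat.lt_or_ge r v with h | h
    · have h2 := zr_pos hn v
      have h3 := zr_pos hn r
      have hz : (zr n v ^ (k + 1))⁻¹ * zr n r ^ k ≤ n * y ^ (v - r) := by
        have e0 : (zr n v ^ (k + 1))⁻¹ * zr n r ^ k =
            (zr n r / zr n v) ^ (k + 1) * (zr n r)⁻¹ := by
          rw [div_pow, pow_succ (zr n r) k]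
          field_simp
        have e1 : (zr n r)⁻¹ ≤ n := by
          unfold zr
          rw [inv_div, div_le_iff₀ (Real.exp_pos _)]
          have : (1 : ℝ) ≤ Real.exp ((r : ℝ) / n) := Real.one_le_exp (by positivity)
          nlinarith
        have e2 : (zr n r / zr n v) ^ (k + 1) = y ^ (v - r) := by
          unfold zr
          rw [div_div_div_cancel_right₀ hnR.ne', ← Real.exp_sub, ← Real.exp_nat_mul, hy,
            ← Real.exp_nat_mul]
          congr 1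
          rw [Nat.cast_sub h.le]
          field_simp
          ring
        rw [e0, e2, mul_comm]
        have : 0 ≤ y ^ (v - r) := by positivity
        exact mul_le_mul_of_nonneg_right e1 this
      unfold Zw
      have e1 : zr n v ^ (-((k + 1 : ℕ) : ℤ)) = (zr n v ^ (k + 1))⁻¹ := by
        rw [zpow_neg, zpow_natCast]
      have e2 : zr n r ^ (-(1 - ((k + 1 : ℕ) : ℤ))) = zr n r ^ k := by
        rw [← zpow_natCast]
        congr 1
        push_cast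
        ring
      rw [e1, e2, ← ENNReal.ofReal_natCast, ← ENNReal.ofReal_natCast, ← ENNReal.ofReal_pow (by positivity),
        ← ENNReal.ofReal_mul (by positivity), ← ENNReal.ofReal_mul (by positivity),
        ← ENNReal.ofReal_mul (by positivity)]
      apply ENNReal.ofReal_le_ofReal
      rw [mul_assoc]
      gcongr
    · rw [show v - r = 0 by omega]
      simp
  calc _ ≤ ∑ r ∈ range n, ENNReal.ofReal
        (((v - r : ℕ) : ℝ) * ((k + 1 : ℕ) : ℝ) ^ 2 * (n * y ^ (v - r))) := sum_le_sum hterm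
    _ = ENNReal.ofReal (∑ r ∈ range n,
        (((v - r : ℕ) : ℝ) * ((k + 1 : ℕ) : ℝ) ^ 2 * (n * y ^ (v - r)))) := by
        rw [ENNReal.ofReal_sum_of_nonneg]
        intro r _
        positivity
    _ ≤ ENNReal.ofReal ((n : ℝ) ^ 3) := by
        apply ENNReal.ofReal_le_ofReal
        rw [sum_down (fun j => (j : ℝ) * ((k + 1 : ℕ) : ℝ) ^ 2 * (n * y ^ j)) (by simp) hv]
        exact kern_aux hn k _
    _ = (n : ℝ≥0∞) ^ 3 := by
        rw [ENNReal.ofReal_pow hnR.le, ENNReal.ofReal_natCast]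

end Pool.Agent.FloorDiag
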