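import Pool.Agent.Lib.MP_6aab98_ag.Up4
import Pool.Agent.Lib.MP_6aab98_ag.Exist

/-! # MP_6aab98_ag: the exponential rate is finite -/

namespace Pool.Agent.FloorDiag

open Finset Filter Topology
open scoped ENNReal NNReal Nat

theorem bB_succ {n : ℕ} (hn : 1 ≤ n) (x : ℝ≥0∞) (m : ℕ) (q : ℤ) :
    bB n x (m + 1) q ≤ (if q = 0 then x else 0) + (n : ℝ≥0∞) ^ 3 *
      (∑' k : ℕ, bB n x m (q - (k + 1 : ℕ)) * bA n x m (1 + (k + 1 : ℕ)) +
        ∑' k : ℕ, bB n x m (q + (k + 1 : ℕ)) * bA n x m (1 - (k + 1 : ℕ))) := by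
  refine iSup₂_le fun v hv => ?_
  have hv' := mem_range.1 hv
  have h0 : (SS n x (TB (m + 1) q) v) * Zw n v q ≤ _ := mul_le_mul_left (step2 n x m q v) (Zw n v q)
  refine h0.trans ?_
  rw [add_mul, add_mul, mul_add]
  refine add_le_add ?_ (add_le_add ?_ ?_)
  · by_cases hq : q = 0
    · rw [if_pos hq, hq, Zw_zero, mul_one]
    · rw [if_neg hq, zero_mul]
  · rw [sum_mul, ← ENNReal.tsum_mul_left]
    calc ∑ r ∈ range n, (∑' k : ℕ, ((r - v : ℕ) : ℝ≥0∞) * ((k + 1 : ℕ) : ℝ≥0∞) ^ 2 *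
          SS n x (TB m (q - (k + 1 : ℕ))) v * SS n x (TA m (1 + (k + 1 : ℕ))) r) * Zw n v q
        = ∑' k : ℕ, ∑ r ∈ range n, ((r - v : ℕ) : ℝ≥0∞) * ((k + 1 : ℕ) : ℝ≥0∞) ^ 2 *
          SS n x (TB m (q - (k + 1 : ℕ))) v * SS n x (TA m (1 + (k + 1 : ℕ))) r * Zw n v q := by
          rw [Summable.tsum_finsetSum (fun _ _ => ENNReal.summable)]
          apply sum_congr rfl
          intro r _
          rw [ENNReal.tsum_mul_right]
      _ ≤ ∑' k : ℕ, (n : ℝ≥0∞) ^ 3 *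
          (bB n x m (q - (k + 1 : ℕ)) * bA n x m (1 + (k + 1 : ℕ))) := by
          refine ENNReal.tsum_le_tsum fun k => ?_
          have hZ : Zw n v q = Zw n v (k + 1 : ℕ) * Zw n v (q - (k + 1 : ℕ)) := by
            rw [← Zw_add hn]; congr 1; ring
          calc ∑ r ∈ range n, ((r - v : ℕ) : ℝ≥0∞) * ((k + 1 : ℕ) : ℝ≥0∞) ^ 2 *
                SS n x (TB m (q - (k + 1 : ℕ))) v * SS n x (TA m (1 + (k + 1 : ℕ))) r * Zw n v q
              ≤ ∑ r ∈ range n, (((r - v : ℕ) : ℝ≥0∞) * ((k + 1 : ℕ) : ℝ≥0∞) ^ 2 *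
                Zw n v (k + 1 : ℕ) * Zw n r (-(1 + (k + 1 : ℕ)))) *
                (bB n x m (q - (k + 1 : ℕ)) * bA n x m (1 + (k + 1 : ℕ))) := by
                apply sum_le_sum
                intro r hr
                have h1 := le_bB (x := x) (m := m) (q := q - (k + 1 : ℕ)) hv'
                have h2 := SA_le (x := x) (m := m) (q := 1 + (k + 1 : ℕ)) hn (mem_range.1 hr)
                calc ((r - v : ℕ) : ℝ≥0∞) * ((k + 1 : ℕ) : ℝ≥0∞) ^ 2 *
                      SS n x (TB m (q - (k + 1 : ℕ))) v * SS n x (TA m (1 + (k + 1 : ℕ))) r *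
                        Zw n v q
                    = (((r - v : ℕ) : ℝ≥0∞) * ((k + 1 : ℕ) : ℝ≥0∞) ^ 2 * Zw n v (k + 1 : ℕ)) *
                      (SS n x (TB m (q - (k + 1 : ℕ))) v * Zw n v (q - (k + 1 : ℕ))) *
                        SS n x (TA m (1 + (k + 1 : ℕ))) r := by
                      rw [hZ]; ring
                  _ ≤ (((r - v : ℕ) : ℝ≥0∞) * ((k + 1 : ℕ) : ℝ≥0∞) ^ 2 * Zw n v (k + 1 : ℕ)) *
                      bB n x m (q - (k + 1 : ℕ)) *
                        (bA n x m (1 + (k + 1 : ℕ)) * Zw n r (-(1 + (k + 1 : ℕ)))) := by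
                      gcongr
                  _ = _ := by ring
            _ = (∑ r ∈ range n, ((r - v : ℕ) : ℝ≥0∞) * ((k + 1 : ℕ) : ℝ≥0∞) ^ 2 *
                Zw n v (k + 1 : ℕ) * Zw n r (-(1 + (k + 1 : ℕ)))) *
                (bB n x m (q - (k + 1 : ℕ)) * bA n x m (1 + (k + 1 : ℕ))) := by
                rw [sum_mul]
            _ ≤ _ := by
                gcongr
                exact kern_up hn k hv'
  · rw [sum_mul, ← ENNReal.tsum_mul_left]
    calc ∑ r ∈ range n, (∑' k : ℕ, ((v - r : ℕ) : ℝ≥0∞) * ((k + 1 : ℕ) : ℝ≥0∞) ^ 2 *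
          SS n x (TB m (q + (k + 1 : ℕ))) v * SS n x (TA m (1 - (k + 1 : ℕ))) r) * Zw n v q
        = ∑' k : ℕ, ∑ r ∈ range n, ((v - r : ℕ) : ℝ≥0∞) * ((k + 1 : ℕ) : ℝ≥0∞) ^ 2 *
          SS n x (TB m (q + (k + 1 : ℕ))) v * SS n x (TA m (1 - (k + 1 : ℕ))) r * Zw n v q := by
          rw [Summable.tsum_finsetSum (fun _ _ => ENNReal.summable)]
          apply sum_congr rfl
          intro r _
          rw [ENNReal.tsum_mul_right]
      _ ≤ ∑' k : ℕ, (n : ℝ≥0∞) ^ 3 *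
          (bB n x m (q + (k + 1 : ℕ)) * bA n x m (1 - (k + 1 : ℕ))) := by
          refine ENNReal.tsum_le_tsum fun k => ?_
          have hZ : Zw n v q = Zw n v (-(k + 1 : ℕ)) * Zw n v (q + (k + 1 : ℕ)) := by
            rw [← Zw_add hn]; congr 1; ring
          calc ∑ r ∈ range n, ((v - r : ℕ) : ℝ≥0∞) * ((k + 1 : ℕ) : ℝ≥0∞) ^ 2 *
                SS n x (TB m (q + (k + 1 : ℕ))) v * SS n x (TA m (1 - (k + 1 : ℕ))) r * Zw n v q
              ≤ ∑ r ∈ range n, (((v - r : ℕ) : ℝ≥0∞) * ((k + 1 : ℕ) : ℝ≥0∞) ^ 2 *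
                Zw n v (-(k + 1 : ℕ)) * Zw n r (-(1 - (k + 1 : ℕ)))) *
                (bB n x m (q + (k + 1 : ℕ)) * bA n x m (1 - (k + 1 : ℕ))) := by
                apply sum_le_sum
                intro r hr
                have h1 := le_bB (x := x) (m := m) (q := q + (k + 1 : ℕ)) hv'
                have h2 := SA_le (x := x) (m := m) (q := 1 - (k + 1 : ℕ)) hn (mem_range.1 hr)
                calc ((v - r : ℕ) : ℝ≥0∞) * ((k + 1 : ℕ) : ℝ≥0∞) ^ 2 *
                      SS n x (TB m (q + (k + 1 : ℕ))) v * SS n x (TA m (1 - (k + 1 : ℕ))) r *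
                        Zw n v q
                    = (((v - r : ℕ) : ℝ≥0∞) * ((k + 1 : ℕ) : ℝ≥0∞) ^ 2 * Zw n v (-(k + 1 : ℕ))) *
                      (SS n x (TB m (q + (k + 1 : ℕ))) v * Zw n v (q + (k + 1 : ℕ))) *
                        SS n x (TA m (1 - (k + 1 : ℕ))) r := by
                      rw [hZ]; ring
                  _ ≤ (((v - r : ℕ) : ℝ≥0∞) * ((k + 1 : ℕ) : ℝ≥0∞) ^ 2 * Zw n v (-(k + 1 : ℕ))) *
                      bB n x m (q + (k + 1 : ℕ)) *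
                        (bA n x m (1 - (k + 1 : ℕ)) * Zw n r (-(1 - (k + 1 : ℕ)))) := by
                      gcongr
                  _ = _ := by ring
            _ = (∑ r ∈ range n, ((v - r : ℕ) : ℝ≥0∞) * ((k + 1 : ℕ) : ℝ≥0∞) ^ 2 *
                Zw n v (-(k + 1 : ℕ)) * Zw n r (-(1 - (k + 1 : ℕ)))) *
                (bB n x m (q + (k + 1 : ℕ)) * bA n x m (1 - (k + 1 : ℕ))) := by
                rw [sum_mul]
            _ ≤ _ := by
                gcongr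
                exact kern_down hn k hv'

theorem sub_up_le (f : ℤ → ℝ≥0∞) : ∑' k : ℕ, f (1 + (k + 1 : ℕ)) ≤ ∑' p, f p := by
  refine ENNReal.tsum_comp_le_tsum_of_injective (f := fun k : ℕ => (1 + ((k + 1 : ℕ) : ℤ))) ?_ f
  intro a b hab
  simp only at hab
  omega

theorem sub_down_le (f : ℤ → ℝ≥0∞) : ∑' k : ℕ, f (1 - (k + 1 : ℕ)) ≤ ∑' p, f p := by
  refine ENNReal.tsum_comp_le_tsum_of_injective (f := fun k : ℕ => (1 - ((k + 1 : ℕ) : ℤ))) ?_ f
  intro a b hab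
  simp only at hab
  omega

theorem norm_succ {n : ℕ} (hn : 1 ≤ n) (x : ℝ≥0∞) (m : ℕ) :
    ∑' q, bB n x (m + 1) q ≤ x + 4 * ENNReal.ofReal Ec * (n : ℝ≥0∞) ^ 3 *
      (∑' q, bB n x m q) ^ 2 := by
  have hA := sum_bA_le hn x m
  calc ∑' q, bB n x (m + 1) q
      ≤ ∑' q : ℤ, ((if q = 0 then x else 0) + (n : ℝ≥0∞) ^ 3 *
        (∑' k : ℕ, bB n x m (q - (k + 1 : ℕ)) * bA n x m (1 + (k + 1 : ℕ)) +
        ∑' k : ℕ, bB n x m (q + (k + 1 : ℕ)) * bA n x m (1 - (k + 1 : ℕ)))) :=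
        ENNReal.tsum_le_tsum fun q => bB_succ hn x m q
    _ = x + (n : ℝ≥0∞) ^ 3 * (∑' k : ℕ, (∑' q, bB n x m q) * bA n x m (1 + (k + 1 : ℕ)) +
        ∑' k : ℕ, (∑' q, bB n x m q) * bA n x m (1 - (k + 1 : ℕ))) := by
        rw [ENNReal.tsum_add, ENNReal.tsum_mul_left, ENNReal.tsum_add]
        congr 1
        · rw [tsum_ite_eq]
        · congr 1
          congr 1
          · rw [ENNReal.tsum_comm]
            refine tsum_congr fun k => ?_
            rw [ENNReal.tsum_mul_right, tsum_shift]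
          · rw [ENNReal.tsum_comm]
            refine tsum_congr fun k => ?_
            rw [ENNReal.tsum_mul_right, tsum_shift']
    _ ≤ x + (n : ℝ≥0∞) ^ 3 * ((∑' q, bB n x m q) * (2 * ENNReal.ofReal Ec * ∑' q, bB n x m q) +
        (∑' q, bB n x m q) * (2 * ENNReal.ofReal Ec * ∑' q, bB n x m q)) := by
        rw [ENNReal.tsum_mul_left, ENNReal.tsum_mul_left]
        gcongr
        · exact (sub_up_le _).trans hA
        · exact (sub_down_le _).trans hA
    _ = _ := by ring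

theorem norm_le {n : ℕ} (hn : 1 ≤ n) {x : ℝ≥0∞}
    (hx : 16 * ENNReal.ofReal Ec * (n : ℝ≥0∞) ^ 3 * x ≤ 1) (m : ℕ) :
    ∑' q, bB n x m q ≤ 2 * x := by
  induction m with
  | zero =>
    have : ∀ q, bB n x 0 q = 0 := by
      intro q
      unfold bB
      rw [ENNReal.iSup_eq_zero]
      intro v
      rw [ENNReal.iSup_eq_zero]
      intro _
      have h : SS n x (TB 0 q) v = 0 := by
        unfold SS
        rw [ENNReal.tsum_eq_zero]
        intro D
        by_contra h0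
        obtain ⟨_, ⟨hQ, hm⟩, _⟩ := wtD_ne h0
        have := card_pos.2 ⟨_, hQ.mem⟩
        omega
      rw [h, zero_mul]
    simp only [this, tsum_zero]
    exact zero_le
  | succ m ih =>
    calc ∑' q, bB n x (m + 1) q ≤ x + 4 * ENNReal.ofReal Ec * (n : ℝ≥0∞) ^ 3 *
          (∑' q, bB n x m q) ^ 2 := norm_succ hn x m
      _ ≤ x + 4 * ENNReal.ofReal Ec * (n : ℝ≥0∞) ^ 3 * (2 * x) ^ 2 := by gcongr
      _ = x + (16 * ENNReal.ofReal Ec * (n : ℝ≥0∞) ^ 3 * x) * x := by ring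
      _ ≤ x + 1 * x := by gcongr
      _ = 2 * x := by ring

theorem Zw_neg_one_le {n : ℕ} (hn : 1 ≤ n) (v : ℕ) : Zw n v (-1) ≤ n := by
  have hnR : (0 : ℝ) < n := by exact_mod_cast hn
  unfold Zw
  rw [← ENNReal.ofReal_natCast]
  apply ENNReal.ofReal_le_ofReal
  rw [zpow_neg_one]
  unfold zr
  rw [inv_div, div_le_iff₀ (Real.exp_pos _)]
  have : (1 : ℝ) ≤ Real.exp ((v : ℝ) / n) := Real.one_le_exp (by positivity)
  nlinarith

theorem Nn_le_SS {n d : ℕ} (hd : 1 ≤ d) (hnd : n = 3 * d - 1) (x : ℝ≥0∞) :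
    x ^ d * Nn 0 n ≤ ∑ v ∈ range n, SS n x (TA d 1) v := by
  classical
  have e1 : ∑ v ∈ range n, SS n x (TA d 1) v = ∑' D, ∑ v ∈ range n, wtD n x (TA d 1) D v := by
    unfold SS
    rw [Summable.tsum_finsetSum (fun _ _ => ENNReal.summable)]
  rw [e1, Nn_eq_ite, ← ENNReal.tsum_mul_left]
  refine ENNReal.tsum_le_tsum fun D => ?_
  split_ifs with h
  · obtain ⟨hp, hf⟩ := h
    obtain ⟨v, hv⟩ := hf.ne
    have hvr : v ∈ range n := hp ▸ Dgm.mem_pts_of_F hv
    have hcard : D.F.card = d := by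
      have h1 := hf.valid.card_pts
      have h2 := hf.cnt
      rw [hp, card_range] at h1
      omega
    have hT : TA d 1 D v := by
      refine ⟨⟨hf.valid, hv, Dgm.connEx_none.2 hf.conn, hf.div v hv, fun f hf' _ => hf.div f hf', ?_⟩,
        hcard.le⟩
      have := hf.cnt
      push_cast at this ⊢
      linarith
    refine le_trans (le_of_eq ?_) (single_le_sum (f := fun v => wtD n x (TA d 1) D v)
      (fun _ _ => zero_le) hvr)
    rw [wtD_pos hp.le hT, hcard]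
  · simp

theorem Nn0_le {n d : ℕ} (hd : 1 ≤ d) (hnd : n = 3 * d - 1) :
    Nn 0 n ≤ (16 * ENNReal.ofReal Ec * (n : ℝ≥0∞) ^ 3) ^ d := by
  have hn : 1 ≤ n := by omega
  have hE : ENNReal.ofReal Ec ≠ 0 := by
    have := one_le_Ec
    rw [Ne, ENNReal.ofReal_eq_zero]
    linarith
  have hn0 : (n : ℝ≥0∞) ≠ 0 := by
    have : n ≠ 0 := by omega
    exact_mod_cast this
  set K : ℝ≥0∞ := 16 * ENNReal.ofReal Ec * (n : ℝ≥0∞) ^ 3 with hK
  have hK0 : K ≠ 0 := by
    rw [hK]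
    exact mul_ne_zero (mul_ne_zero (by norm_num) hE) (pow_ne_zero _ hn0)
  have hKt : K ≠ ∞ := by
    rw [hK]
    exact ENNReal.mul_ne_top (ENNReal.mul_ne_top (by norm_num) ENNReal.ofReal_ne_top)
      (ENNReal.pow_ne_top (ENNReal.natCast_ne_top n))
  have hx : K * K⁻¹ = 1 := ENNReal.mul_inv_cancel hK0 hKt
  have h1 : K⁻¹ ^ d * Nn 0 n ≤ 1 := by
    have hb : ∑' q, bB n K⁻¹ d q ≤ 2 * K⁻¹ := norm_le hn hx.le d
    have ha : ∑' q, bA n K⁻¹ d q ≤ 4 * ENNReal.ofReal Ec * K⁻¹ := by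
      refine (sum_bA_le hn _ d).trans ?_
      calc 2 * ENNReal.ofReal Ec * ∑' q, bB n K⁻¹ d q ≤ 2 * ENNReal.ofReal Ec * (2 * K⁻¹) := by
            gcongr
        _ = _ := by ring
    calc K⁻¹ ^ d * Nn 0 n ≤ ∑ v ∈ range n, SS n K⁻¹ (TA d 1) v := Nn_le_SS hd hnd _
      _ ≤ ∑ v ∈ range n, (4 * ENNReal.ofReal Ec * K⁻¹) * n := by
          apply sum_le_sum
          intro v hv
          refine (SA_le hn (mem_range.1 hv)).trans ?_
          gcongr
          · exact (ENNReal.le_tsum (f := fun q => bA n K⁻¹ d q) 1).trans ha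
          · exact Zw_neg_one_le hn v
      _ = (4 * ENNReal.ofReal Ec * (n : ℝ≥0∞) ^ 2 * 1) * K⁻¹ := by
          rw [sum_const, card_range, nsmul_eq_mul]
          ring
      _ ≤ (16 * ENNReal.ofReal Ec * (n : ℝ≥0∞) ^ 2 * n) * K⁻¹ := by
          gcongr
          · norm_num
          · exact_mod_cast hn
      _ = K * K⁻¹ := by
          rw [hK]; ring
      _ = 1 := hx
  calc Nn 0 n = (K * K⁻¹) ^ d * Nn 0 n := by rw [hx, one_pow, one_mul]
    _ = K ^ d * (K⁻¹ ^ d * Nn 0 n) := by rw [mul_pow, mul_assoc]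
    _ ≤ K ^ d * 1 := by gcongr
    _ = K ^ d := mul_one _

/-- the exponential bound -/
theorem cN0_le {d : ℕ} (hd : 1 ≤ d) : cN 0 d ≤ (16 * Ec * Real.exp 6) ^ d := by
  set n := 3 * d - 1 with hnd
  have hn : 1 ≤ n := by omega
  have hnR : (0 : ℝ) < n := by exact_mod_cast hn
  have hEc := one_le_Ec
  have h1 : (N 0 d : ℝ≥0∞) ≤ (16 * ENNReal.ofReal Ec * (n : ℝ≥0∞) ^ 3) ^ d := by
    rw [N_eq 0 hd, show 3 * d - 1 + 0 = n by omega]
    exact Nn0_le hd hnd
  have h2 : (N 0 d : ℝ) ≤ (16 * Ec * (n : ℝ) ^ 3) ^ d := by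
    have e1 : (N 0 d : ℝ≥0∞) = ENNReal.ofReal (N 0 d : ℝ) := (ENNReal.ofReal_natCast _).symm
    have e2 : (16 * ENNReal.ofReal Ec * (n : ℝ≥0∞) ^ 3) ^ d =
        ENNReal.ofReal ((16 * Ec * (n : ℝ) ^ 3) ^ d) := by
      rw [ENNReal.ofReal_pow (by positivity), ENNReal.ofReal_mul (by positivity),
        ENNReal.ofReal_mul (by norm_num), ENNReal.ofReal_pow (by positivity),
        ENNReal.ofReal_natCast]
      norm_num
    rw [e1, e2] at h1
    exact (ENNReal.ofReal_le_ofReal_iff (by positivity)).1 h1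
  have h3 : (n : ℝ) ^ n / (n ! : ℝ) ≤ Real.exp n := Real.pow_div_factorial_le_exp n hnR.le n
  have h4 : (n : ℝ) ≤ Real.exp n := by
    have := Real.add_one_le_exp (n : ℝ)
    linarith
  have h5 : Real.exp n * Real.exp n ≤ Real.exp 6 ^ d := by
    rw [← Real.exp_add, ← Real.exp_nat_mul]
    apply Real.exp_le_exp.2
    have : (n : ℝ) ≤ 3 * d := by exact_mod_cast (show n ≤ 3 * d by omega)
    linarith
  unfold cN
  rw [show 3 * d - 1 + 0 = n by omega]
  have hfac : (0 : ℝ) < (n ! : ℝ) := by exact_mod_cast Nat.factorial_pos n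
  calc (N 0 d : ℝ) / (n ! : ℝ) ≤ (16 * Ec * (n : ℝ) ^ 3) ^ d / (n ! : ℝ) := by gcongr
    _ = (16 * Ec) ^ d * ((n : ℝ) * ((n : ℝ) ^ n / (n ! : ℝ))) := by
        have : ((n : ℝ) ^ 3) ^ d = n * (n : ℝ) ^ n := by
          rw [← pow_mul, ← pow_succ']
          congr 1
          omega
        rw [mul_pow, this]
        ring
    _ ≤ (16 * Ec) ^ d * (Real.exp n * Real.exp n) := by
        gcongr
    _ ≤ (16 * Ec) ^ d * Real.exp 6 ^ d := by gcongr
    _ = _ := by rw [mul_pow (16 * Ec)]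

theorem rN0_le {d : ℕ} (hd : 1 ≤ d) : rN 0 d ≤ 16 * Ec * Real.exp 6 := by
  by_contra h
  push Not at h
  have hEc := one_le_Ec
  have h1 : 0 < Real.exp 6 := Real.exp_pos _
  have h2 : (16 * Ec * Real.exp 6) ^ d < rN 0 d ^ d :=
    pow_lt_pow_left₀ h (by positivity) (by omega)
  rw [rN_pow 0 hd] at h2
  exact absurd (cN0_le hd) (not_le.2 h2)

theorem lN_ne_top : lN 0 ≠ ∞ := by
  have h : lN 0 ≤ ENNReal.ofReal (16 * Ec * Real.exp 6) := by
    unfold lN
    refine limsup_le_of_le (by isBoundedDefault) ?_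
    filter_upwards [eventually_ge_atTop 1] with d hd
    exact ENNReal.ofReal_le_ofReal (rN0_le hd)
  exact (h.trans_lt ENNReal.ofReal_lt_top).ne

/-- the exponential rate exists, is positive and finite and does not depend on the genus -/
theorem main : ∃ b : ℝ, 0 < b ∧ ∀ g, Tendsto (rN g) atTop (𝓝 b) := by
  refine ⟨(lN 0).toReal, ENNReal.toReal_pos lN_pos.ne' lN_ne_top, fun g => ?_⟩
  have h := (ENNReal.tendsto_toReal lN_ne_top).comp (tendsto_all g)
  refine h.congr fun d => ?_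
  simp only [Function.comp]
  exact ENNReal.toReal_ofReal (rN_nonneg g d)

end Pool.Agent.FloorDiag
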